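import Pool.Agent.Fug.Labels

set_option autoImplicit false

open MeasureTheory Filter Topology Finset

namespace Pool.Agent.Fug

lemma antiA_aux_fd {a : ℝ} {Q : Set ℝ} (h : FD a Q) :
    IsAddFundamentalDomain (AddSubgroup.zmultiples a) Q (volume : Measure ℝ) := by
  refine IsAddFundamentalDomain.mk' h.hQ.nullMeasurableSet (fun x => ?_)
  obtain ⟨k, hk, huniq⟩ := h.hFD x
  refine ⟨⟨(k : ℤ) • a, AddSubgroup.zsmul_mem_zmultiples a k⟩, ?_, ?_⟩
  · simp only [AddSubgroup.vadd_def, vadd_eq_add, zsmul_eq_mul]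
    rw [add_comm]
    exact hk
  · rintro ⟨y, hy⟩ hyQ
    obtain ⟨l, rfl⟩ := AddSubgroup.mem_zmultiples_iff.1 hy
    simp only [AddSubgroup.vadd_def, vadd_eq_add, zsmul_eq_mul] at hyQ
    rw [add_comm] at hyQ
    have := huniq l hyQ
    subst this
    rfl

lemma antiA_aux_volQ {a : ℝ} {Q : Set ℝ} (h : FD a Q) : volume Q < ⊤ := by
  have h1 := (antiA_aux_fd h).measure_eq (isAddFundamentalDomain_Ioc h.ha 0 (volume : Measure ℝ))
  rw [h1, Real.volume_Ioc]
  exact ENNReal.ofReal_lt_top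

/-- module ANTI0: `E` has finite measure -/
theorem tile_finite {a : ℝ} {Q E₀ : Set ℝ} {g : ℕ} {E : Set ℝ} (h : Tile a Q E₀ g E) :
    volume E < ⊤ := by
  refine lt_of_le_of_lt ?_ (antiA_aux_volQ h.hFD)
  refine measure_mono_ae ?_
  filter_upwards [label_mem h] with y hy
  intro hyE
  refine hy (false, (false, false)) ?_
  have h1 : bI g (false, (false, false)) = 0 := by simp [bI, D]
  rw [h1, sub_zero]
  exact hyE

lemma antiA_aux_norm_e (x : ℝ) : ‖e x‖ = 1 := by
  unfold e
  rw [show 2 * (Real.pi : ℂ) * Complex.I * (x : ℂ) = ((2 * Real.pi * x : ℝ) : ℂ) * Complex.I by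
    push_cast; ring]
  exact Complex.norm_exp_ofReal_mul_I _

lemma antiA_aux_e_add (x y : ℝ) : e (x + y) = e x * e y := by
  unfold e
  rw [← Complex.exp_add]
  congr 1
  push_cast
  ring

lemma antiA_aux_meas (ξ : ℝ) : Measurable (fun y : ℝ => e (-(ξ * y))) := by
  have : Continuous (fun y : ℝ => e (-(ξ * y))) := by
    unfold e
    fun_prop
  exact this.measurable

lemma antiA_aux_int {E : Set ℝ} (hE : MeasurableSet E) (hfin : volume E < ⊤) (ξ : ℝ) :
    Integrable (fun y : ℝ => ((ind E y : ℝ) : ℂ) * e (-(ξ * y))) := by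
  have h1 : (fun y : ℝ => ((ind E y : ℝ) : ℂ) * e (-(ξ * y)))
      = E.indicator (fun y : ℝ => e (-(ξ * y))) := by
    funext y
    unfold ind
    by_cases hy : y ∈ E
    · simp [hy]
    · simp [hy]
  rw [h1, integrable_indicator_iff hE]
  have : IsFiniteMeasure (volume.restrict E) := ⟨by rwa [Measure.restrict_apply_univ]⟩
  exact Integrable.of_bound (antiA_aux_meas ξ).aestronglyMeasurable 1
    (ae_of_all _ (fun y => (antiA_aux_norm_e _).le))

lemma antiA_aux_shift {E : Set ℝ} (hE : MeasurableSet E) (ξ b : ℝ) :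
    ∫ y : ℝ, ((ind E (y - b) : ℝ) : ℂ) * e (-(ξ * y))
      = e (-(ξ * b)) * ∫ y in E, e (-(ξ * y)) := by
  have h1 : ∀ y : ℝ, ((ind E (y - b) : ℝ) : ℂ) * e (-(ξ * y))
      = (fun z : ℝ => e (-(ξ * b)) * (E.indicator (fun y : ℝ => e (-(ξ * y))) z)) (y - b) := by
    intro y
    have h2 : e (-(ξ * y)) = e (-(ξ * b)) * e (-(ξ * (y - b))) := by
      rw [← antiA_aux_e_add]
      congr 1
      ring
    unfold ind
    by_cases hy : y - b ∈ E
    · simp only [hy, Set.indicator_of_mem]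
      rw [h2]
      push_cast
      ring
    · simp [hy]
  simp only [h1]
  rw [integral_sub_right_eq_self (fun z : ℝ => e (-(ξ * b)) * (E.indicator (fun y : ℝ => e (-(ξ * y))) z)) b]
  rw [integral_const_mul, integral_indicator hE]

/-- module ANTI1: Fourier coefficient of a weighted label function over `Q` -/
theorem fourier_label {a : ℝ} {Q E₀ : Set ℝ} {g : ℕ} {E : Set ℝ} (h : Tile a Q E₀ g E)
    (hfin : volume E < ⊤) (w : Bool × (Bool × Bool) → ℝ) (ξ : ℝ) :
    ∫ y in Q, ((∑ i : Bool × (Bool × Bool), w i * ind E (y - bI g i) : ℝ) : ℂ) * e (-(ξ * y))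
      = (∑ i : Bool × (Bool × Bool), (w i : ℂ) * e (-(ξ * bI g i))) * ∫ y in E, e (-(ξ * y)) := by
  have hint : ∀ i : Bool × (Bool × Bool),
      Integrable (fun y : ℝ => (w i : ℂ) * (((ind E (y - bI g i) : ℝ) : ℂ) * e (-(ξ * y)))) := by
    intro i
    refine Integrable.const_mul ?_ _
    have h1 := (antiA_aux_int h.hE hfin ξ).comp_sub_right (bI g i)
    have h2 : (fun y : ℝ => ((ind E (y - bI g i) : ℝ) : ℂ) * e (-(ξ * y)))
        = fun y : ℝ => e (-(ξ * bI g i)) *
          (((ind E (y - bI g i) : ℝ) : ℂ) * e (-(ξ * (y - bI g i)))) := by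
      funext y
      have h3 : e (-(ξ * y)) = e (-(ξ * bI g i)) * e (-(ξ * (y - bI g i))) := by
        rw [← antiA_aux_e_add]
        congr 1
        ring
      rw [h3]
      ring
    rw [h2]
    exact h1.const_mul _
  have h1 : ∀ y : ℝ,
      ((∑ i : Bool × (Bool × Bool), w i * ind E (y - bI g i) : ℝ) : ℂ) * e (-(ξ * y))
        = ∑ i : Bool × (Bool × Bool),
          (w i : ℂ) * (((ind E (y - bI g i) : ℝ) : ℂ) * e (-(ξ * y))) := by
    intro y
    push_cast
    rw [Finset.sum_mul]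
    refine Finset.sum_congr rfl (fun i _ => ?_)
    ring
  simp only [h1]
  rw [integral_finsetSum _ (fun i _ => (hint i).integrableOn), Finset.sum_mul]
  refine Finset.sum_congr rfl (fun i _ => ?_)
  rw [integral_const_mul, mul_assoc]
  congr 1
  rw [← antiA_aux_shift h.hE]
  refine setIntegral_eq_integral_of_ae_compl_eq_zero ?_
  filter_upwards [label_mem h] with y hy hyQ
  have h2 : y - bI g i ∉ E := fun hh => hyQ (hy i hh)
  unfold ind
  simp [h2]

end Pool.Agent.Fug
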