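import Pool.Agent.Fug.Basic

set_option autoImplicit false

open MeasureTheory Filter Topology Finset

namespace Pool.Agent.Fug

lemma gamma_aux_key (x y z : ℝ) :
    (1 : ℂ) + Complex.exp (2 * ((x : ℂ) + z) * Complex.I) + Complex.exp (2 * ((y : ℂ) + z) * Complex.I)
      + Complex.exp (2 * ((x : ℂ) + y) * Complex.I) =
    4 * Complex.exp (((x + y + z : ℝ) : ℂ) * Complex.I) *
      (((Real.cos x * Real.cos y * Real.cos z : ℝ) : ℂ) +
        ((Real.sin x * Real.sin y * Real.sin z : ℝ) : ℂ) * Complex.I) := by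
  push_cast
  rw [Complex.cos, Complex.cos, Complex.cos, Complex.sin, Complex.sin, Complex.sin]
  have e1 : Complex.exp (2 * ((x : ℂ) + z) * Complex.I) =
      Complex.exp (x * Complex.I) ^ 2 * Complex.exp (z * Complex.I) ^ 2 := by
    rw [← Complex.exp_nat_mul, ← Complex.exp_nat_mul, ← Complex.exp_add]
    congr 1
    push_cast
    ring
  have e2 : Complex.exp (2 * ((y : ℂ) + z) * Complex.I) =
      Complex.exp (y * Complex.I) ^ 2 * Complex.exp (z * Complex.I) ^ 2 := by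
    rw [← Complex.exp_nat_mul, ← Complex.exp_nat_mul, ← Complex.exp_add]
    congr 1
    push_cast
    ring
  have e3 : Complex.exp (2 * ((x : ℂ) + y) * Complex.I) =
      Complex.exp (x * Complex.I) ^ 2 * Complex.exp (y * Complex.I) ^ 2 := by
    rw [← Complex.exp_nat_mul, ← Complex.exp_nat_mul, ← Complex.exp_add]
    congr 1
    push_cast
    ring
  have e4 : Complex.exp (((x : ℂ) + y + z) * Complex.I) =
      Complex.exp (x * Complex.I) * Complex.exp (y * Complex.I) * Complex.exp (z * Complex.I) := by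
    rw [← Complex.exp_add, ← Complex.exp_add]
    congr 1
    ring
  have n : ∀ t : ℂ, Complex.exp (-t * Complex.I) = (Complex.exp (t * Complex.I))⁻¹ := by
    intro t
    rw [neg_mul, Complex.exp_neg]
  rw [e1, e2, e3, e4, n, n, n]
  have hx := Complex.exp_ne_zero ((x : ℂ) * Complex.I)
  have hy := Complex.exp_ne_zero ((y : ℂ) * Complex.I)
  have hz := Complex.exp_ne_zero ((z : ℂ) * Complex.I)
  generalize Complex.exp ((x : ℂ) * Complex.I) = P at *
  generalize Complex.exp ((y : ℂ) * Complex.I) = Q at *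
  generalize Complex.exp ((z : ℂ) * Complex.I) = R at *
  have hI : Complex.I ^ 4 = 1 := Complex.I_pow_four
  field_simp
  ring_nf
  rw [hI]
  ring

/-- module GAM1 -/
theorem norm_A_sq (g : ℕ) (ξ : ℝ) : ‖A (D g) ξ‖ ^ 2 = Gam g ξ := by
  set x := Real.pi * (ξ * be (2 * g + 1)) with hx
  set y := Real.pi * (ξ * be (2 * g + 2)) with hy
  set z := Real.pi * (ξ * tt (g / m)) with hz
  have h1 : A (D g) ξ = (1 / 4) * (1 + Complex.exp (2 * ((x : ℂ) + z) * Complex.I)
      + Complex.exp (2 * ((y : ℂ) + z) * Complex.I) + Complex.exp (2 * ((x : ℂ) + y) * Complex.I)) := by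
    unfold A
    congr 1
    rw [Fintype.sum_prod_type, Fintype.sum_bool, Fintype.sum_bool, Fintype.sum_bool]
    unfold e D
    simp only [if_true, if_false, Bool.xor_true, Bool.xor_false, Bool.not_true, Bool.not_false,
      Bool.false_eq_true, add_zero, zero_add, mul_zero, Complex.ofReal_zero, Complex.exp_zero]
    have a1 : Complex.exp (2 * (Real.pi : ℂ) * Complex.I * ((ξ * (be (2 * g + 1) + be (2 * g + 2)) : ℝ) : ℂ)) =
        Complex.exp (2 * ((x : ℂ) + y) * Complex.I) := by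
      congr 1; rw [hx, hy]; push_cast; ring
    have a2 : Complex.exp (2 * (Real.pi : ℂ) * Complex.I * ((ξ * (be (2 * g + 1) + tt (g / m)) : ℝ) : ℂ)) =
        Complex.exp (2 * ((x : ℂ) + z) * Complex.I) := by
      congr 1; rw [hx, hz]; push_cast; ring
    have a3 : Complex.exp (2 * (Real.pi : ℂ) * Complex.I * ((ξ * (be (2 * g + 2) + tt (g / m)) : ℝ) : ℂ)) =
        Complex.exp (2 * ((y : ℂ) + z) * Complex.I) := by
      congr 1; rw [hy, hz]; push_cast; ring
    rw [a1, a2, a3]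
    ring
  rw [h1, gamma_aux_key]
  have h2 : (1 / 4 : ℂ) * (4 * Complex.exp (((x + y + z : ℝ) : ℂ) * Complex.I) *
      (((Real.cos x * Real.cos y * Real.cos z : ℝ) : ℂ) +
        ((Real.sin x * Real.sin y * Real.sin z : ℝ) : ℂ) * Complex.I)) =
      Complex.exp (((x + y + z : ℝ) : ℂ) * Complex.I) *
      (((Real.cos x * Real.cos y * Real.cos z : ℝ) : ℂ) +
        ((Real.sin x * Real.sin y * Real.sin z : ℝ) : ℂ) * Complex.I) := by ring
  rw [h2, norm_mul, Complex.norm_exp_ofReal_mul_I, one_mul, Complex.sq_norm, Complex.normSq_add_mul_I]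
  unfold Gam
  rw [← hx, ← hy, ← hz]
  ring

lemma gamma_aux_cos_be {j : ℕ} {ξ : ℝ} (h : Real.cos (Real.pi * (ξ * be j)) = 0) :
    ∃ k : ℤ, ξ = (2 * (k : ℝ) + 1) * 2 ^ v j := by
  rw [Real.cos_eq_zero_iff] at h
  obtain ⟨k, hk⟩ := h
  refine ⟨k, ?_⟩
  have hpi := Real.pi_ne_zero
  have h1 : ξ * be j = (2 * (k : ℝ) + 1) / 2 := by
    apply mul_left_cancel₀ hpi
    rw [hk]; ring
  unfold be at h1
  rw [mul_one_div, div_eq_iff (by positivity), pow_succ] at h1
  rw [h1]; ring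

lemma gamma_aux_sin_be {j : ℕ} {ξ : ℝ} (h : Real.sin (Real.pi * (ξ * be j)) = 0) :
    ∃ n : ℤ, ξ = (n : ℝ) * 2 ^ (v j + 1) := by
  rw [Real.sin_eq_zero_iff] at h
  obtain ⟨n, hn⟩ := h
  refine ⟨n, ?_⟩
  have h1 : ξ * be j = n := by
    apply mul_left_cancel₀ Real.pi_ne_zero
    rw [← hn]; ring
  unfold be at h1
  rw [mul_one_div, div_eq_iff (by positivity)] at h1
  exact h1

lemma gamma_aux_parity {k n : ℤ} {a b : ℕ} (hab : a < b)
    (h : (2 * (k : ℝ) + 1) * 2 ^ a = (n : ℝ) * 2 ^ b) : False := by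
  obtain ⟨c, rfl⟩ := Nat.exists_eq_add_of_lt hab
  have h1 : (2 * (k : ℝ) + 1) = (n : ℝ) * 2 ^ (c + 1) := by
    have h2 : (2 : ℝ) ^ (a + c + 1) = 2 ^ (c + 1) * 2 ^ a := by rw [← pow_add]; congr 1; ring
    rw [h2, ← mul_assoc] at h
    exact mul_right_cancel₀ (by positivity) h
  have h2 : (2 * k + 1 : ℤ) = n * 2 ^ (c + 1) := by exact_mod_cast h1
  rw [pow_succ, ← mul_assoc] at h2
  omega

/-- module GAM2 -/
theorem Gam_eq_zero {g : ℕ} {ξ : ℝ} (h : Gam g ξ = 0) :
    (∃ k : ℤ, ξ = (2 * (k : ℝ) + 1) * 2 ^ v (2 * g + 1)) ∨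
    (∃ k : ℤ, ξ = (2 * (k : ℝ) + 1) * 2 ^ v (2 * g + 2)) := by
  unfold Gam at h
  have h1 := (add_eq_zero_iff_of_nonneg (by positivity) (by positivity)).1 h
  obtain ⟨hc, hs⟩ := h1
  simp only [mul_eq_zero, pow_eq_zero_iff, ne_eq, OfNat.ofNat_ne_zero, not_false_eq_true] at hc hs
  rcases hc with (hc | hc) | hc
  · exfalso
    rw [Real.cos_eq_zero_iff] at hc
    obtain ⟨k, hk⟩ := hc
    have h1 : ξ * tt (g / m) = (2 * (k : ℝ) + 1) / 2 := by
      apply mul_left_cancel₀ Real.pi_ne_zero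
      rw [hk]; ring
    unfold tt at h1
    rw [mul_one_div, div_eq_iff (by positivity), pow_succ] at h1
    have h2 : ξ = (2 * (k : ℝ) + 1) * 2 ^ (v (g / m) + 23) := by rw [h1]; ring
    have hp := v_parent g
    have hsb := v_sib g
    rcases hs with (hs | hs) | hs
    · rw [Real.sin_eq_zero_iff] at hs
      obtain ⟨n, hn⟩ := hs
      have h3 : ξ * tt (g / m) = n := by
        apply mul_left_cancel₀ Real.pi_ne_zero
        rw [← hn]; ring
      unfold tt at h3
      rw [mul_one_div, div_eq_iff (by positivity)] at h3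
      rw [h2] at h3
      exact gamma_aux_parity (by omega) h3
    · obtain ⟨n, hn⟩ := gamma_aux_sin_be hs
      rw [h2] at hn
      exact gamma_aux_parity (by omega) hn
    · obtain ⟨n, hn⟩ := gamma_aux_sin_be hs
      rw [h2] at hn
      exact gamma_aux_parity (by omega) hn
  · exact Or.inl (gamma_aux_cos_be hc)
  · exact Or.inr (gamma_aux_cos_be hc)

lemma gamma_aux_cos_zero (j : ℕ) (k : ℤ) :
    Real.cos (Real.pi * ((2 * (k : ℝ) + 1) * 2 ^ v j * be j)) = 0 := by
  rw [mul_assoc, pow_mul_be_self, Real.cos_eq_zero_iff]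
  exact ⟨k, by ring⟩

lemma gamma_aux_sin_zero {p j : ℕ} (h : p < j) (k : ℤ) :
    Real.sin (Real.pi * ((2 * (k : ℝ) + 1) * 2 ^ v j * tt p)) = 0 := by
  rw [mul_assoc, pow_mul_tt h, Real.sin_eq_zero_iff]
  refine ⟨(2 * k + 1) * 2 ^ (v j - v p - 24), ?_⟩
  push_cast
  ring

/-- module GAM3 -/
theorem Gam_zero_left (g : ℕ) (k : ℤ) : Gam g ((2 * (k : ℝ) + 1) * 2 ^ v (2 * g + 1)) = 0 := by
  unfold Gam
  rw [gamma_aux_cos_zero, gamma_aux_sin_zero (parent_lt g)]
  ring

/-- module GAM4 -/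
theorem Gam_zero_right (g : ℕ) (k : ℤ) : Gam g ((2 * (k : ℝ) + 1) * 2 ^ v (2 * g + 2)) = 0 := by
  unfold Gam
  rw [gamma_aux_cos_zero, gamma_aux_sin_zero (by have := parent_lt g; omega)]
  ring

end Pool.Agent.Fug
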