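import Pool.Agent.Fug.Rep

set_option autoImplicit false

open MeasureTheory Filter Topology Finset

namespace Pool.Agent.Fug

lemma repInt_aux_e_add_int (x : ℝ) (k : ℤ) : e (x + (k : ℝ)) = e x := by
  unfold e
  rw [show 2 * (Real.pi : ℂ) * Complex.I * ((x + (k : ℝ) : ℝ) : ℂ)
    = 2 * (Real.pi : ℂ) * Complex.I * (x : ℂ) + (k : ℂ) * (2 * (Real.pi : ℂ) * Complex.I) by
      push_cast; ring]
  exact Complex.exp_periodic.int_mul k _

lemma repInt_aux_fd {a : ℝ} {Q : Set ℝ} (h : FD a Q) :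
    IsAddFundamentalDomain (AddSubgroup.zmultiples a) Q (volume : Measure ℝ) := by
  refine IsAddFundamentalDomain.mk' h.hQ.nullMeasurableSet (fun x => ?_)
  obtain ⟨k, hk, huniq⟩ := h.hFD x
  refine ⟨⟨(k : ℤ) • a, AddSubgroup.zsmul_mem_zmultiples a k⟩, ?_, ?_⟩
  · simp only [AddSubgroup.vadd_def, vadd_eq_add, zsmul_eq_mul]
    rw [add_comm]
    exact hk
  · rintro ⟨y, hy⟩ hyQ
    obtain ⟨l, rfl⟩ := AddSubgroup.mem_zmultiples_iff.1 hy
    simp only [AddSubgroup.vadd_def, vadd_eq_add, zsmul_eq_mul] at hyQ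
    rw [add_comm] at hyQ
    have := huniq l hyQ
    subst this
    rfl

/-- module REP6: integrating a function of the representative over a period is integrating over `Q`. -/
theorem integral_rep {a : ℝ} {Q : Set ℝ} (h : FD a Q) (φ : ℝ → ℂ) (hφ : Measurable φ)
    (n : ℤ) :
    ∫ x in (0 : ℝ)..a, φ (rep a Q x) * e (-((n : ℝ) / a * x))
      = ∫ x in Q, φ x * e (-((n : ℝ) / a * x)) := by
  have ha := h.ha
  have hper : ∀ (g : AddSubgroup.zmultiples a) (x : ℝ),
      (fun x => φ (rep a Q x) * e (-((n : ℝ) / a * x))) (g +ᵥ x)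
        = (fun x => φ (rep a Q x) * e (-((n : ℝ) / a * x))) x := by
    rintro ⟨y, hy⟩ x
    obtain ⟨l, rfl⟩ := AddSubgroup.mem_zmultiples_iff.1 hy
    simp only [AddSubgroup.vadd_def, vadd_eq_add, zsmul_eq_mul]
    obtain ⟨hr, k, hk⟩ := rep_spec h x
    have h1 : rep a Q ((l : ℝ) * a + x) = rep a Q x := by
      apply rep_unique h _ _ hr
      refine ⟨k - l, ?_⟩
      rw [hk]
      push_cast
      ring
    rw [h1]
    congr 1
    have h2 : -((n : ℝ) / a * ((l : ℝ) * a + x)) = -((n : ℝ) / a * x) + ((-(n * l) : ℤ) : ℝ) := by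
      push_cast
      field_simp
      ring
    rw [h2, repInt_aux_e_add_int]
  have h1 := IsAddFundamentalDomain.setIntegral_eq
    (f := fun x => φ (rep a Q x) * e (-((n : ℝ) / a * x)))
    (isAddFundamentalDomain_Ioc ha 0 (volume : Measure ℝ)) (repInt_aux_fd h) hper
  rw [intervalIntegral.integral_of_le ha.le]
  rw [zero_add] at h1
  rw [h1]
  refine setIntegral_congr_fun h.hQ (fun x hx => ?_)
  have h3 : rep a Q x = x := rep_unique h x x hx ⟨0, by simp⟩
  simp only [h3]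

/-- module REP7: the exponentials with nonzero frequency in `(1/a)ℤ` integrate to `0` over `Q`. -/
theorem integral_FD_exp {a : ℝ} {Q : Set ℝ} (h : FD a Q) (n : ℤ) (hn : n ≠ 0) :
    ∫ x in Q, e (-((n : ℝ) / a * x)) = 0 := by
  have ha := h.ha
  have h1 := integral_rep h (fun _ => (1 : ℂ)) measurable_const n
  simp only [one_mul] at h1
  rw [← h1]
  have hc : (2 * (Real.pi : ℂ) * Complex.I * (-((n : ℂ) / (a : ℂ)))) ≠ 0 := by
    have hn' : (n : ℂ) ≠ 0 := by exact_mod_cast hn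
    have ha' : (a : ℂ) ≠ 0 := by exact_mod_cast ha.ne'
    have hpi : (Real.pi : ℂ) ≠ 0 := by exact_mod_cast Real.pi_ne_zero
    have hI := Complex.I_ne_zero
    simp only [ne_eq, mul_eq_zero, neg_eq_zero, div_eq_zero_iff, not_or]
    exact ⟨⟨⟨by norm_num, hpi⟩, hI⟩, hn', ha'⟩
  have h2 : ∀ x : ℝ, e (-((n : ℝ) / a * x))
      = Complex.exp ((2 * (Real.pi : ℂ) * Complex.I * (-((n : ℂ) / (a : ℂ)))) * (x : ℂ)) := by
    intro x
    unfold e
    congr 1
    push_cast
    ring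
  simp only [h2]
  rw [integral_exp_mul_complex hc]
  have h3 : Complex.exp ((2 * (Real.pi : ℂ) * Complex.I * (-((n : ℂ) / (a : ℂ)))) * (a : ℂ))
      = 1 := by
    have ha' : (a : ℂ) ≠ 0 := by exact_mod_cast ha.ne'
    rw [show (2 * (Real.pi : ℂ) * Complex.I * (-((n : ℂ) / (a : ℂ)))) * (a : ℂ)
      = ((-n : ℤ) : ℂ) * (2 * (Real.pi : ℂ) * Complex.I) by push_cast; field_simp]
    exact Complex.exp_int_mul_two_pi_mul_I (-n)
  rw [h3]
  simp

end Pool.Agent.Fug
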