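import Pool.Agent.Fug.Basic

set_option autoImplicit false

open MeasureTheory Filter Topology Finset

namespace Pool.Agent.Fug

lemma uniq_aux_e_add (x y : ℝ) : e (x + y) = e x * e y := by
  unfold e
  rw [← Complex.exp_add]
  congr 1
  push_cast
  ring

lemma uniq_aux_e_int (k : ℤ) : e (k : ℝ) = 1 := by
  unfold e
  rw [show 2 * (Real.pi : ℂ) * Complex.I * (((k : ℤ) : ℝ) : ℂ)
    = (k : ℂ) * (2 * (Real.pi : ℂ) * Complex.I) by push_cast; ring]
  exact Complex.exp_int_mul_two_pi_mul_I k

lemma uniq_aux_norm_e (x : ℝ) : ‖e x‖ = 1 := by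
  unfold e
  rw [show 2 * (Real.pi : ℂ) * Complex.I * (x : ℂ) = ((2 * Real.pi * x : ℝ) : ℂ) * Complex.I by
    push_cast; ring]
  exact Complex.norm_exp_ofReal_mul_I _

lemma uniq_aux_cont_e : Continuous e := by
  unfold e
  fun_prop

lemma uniq_aux_integrable (f : ℝ → ℂ) (hm : Measurable f) (B : ℝ) (hb : ∀ x, ‖f x‖ ≤ B)
    (s t : ℝ) : IntervalIntegrable f volume s t := by
  have h : ∀ s t : ℝ, IntegrableOn f (Set.Ioc s t) volume := by
    intro s t
    exact Integrable.of_bound hm.aestronglyMeasurable B (ae_of_all _ hb)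
  exact ⟨h s t, h t s⟩

/-- a bounded measurable periodic function with vanishing Fourier coefficients vanishes a.e. -/
lemma uniq_aux_zero (a : ℝ) (ha : 0 < a) (ψ : ℝ → ℂ) (hm : Measurable ψ) (B : ℝ)
    (hb : ∀ x, ‖ψ x‖ ≤ B) (hper : ∀ x, ψ (x + a) = ψ x)
    (h : ∀ n : ℤ, ∫ x in (0 : ℝ)..a, ψ x * e (-((n : ℝ) / a * x)) = 0) :
    ∀ᵐ x, ψ x = 0 := by
  have hL2 : MemLp ψ 2 (volume.restrict (Set.Ioc 0 a)) :=
    MemLp.of_bound hm.aestronglyMeasurable B (ae_of_all _ hb)
  have h1 := hasSum_sq_fourierCoeffOn ha hL2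
  have h2 : ∀ n : ℤ, fourierCoeffOn ha ψ n = 0 := by
    intro n
    rw [fourierCoeffOn_eq_integral]
    have h3 : ∫ x in (0 : ℝ)..a, (fourier (-n) (x : AddCircle (a - 0)) : ℂ) • ψ x
        = ∫ x in (0 : ℝ)..a, ψ x * e (-((n : ℝ) / a * x)) := by
      refine intervalIntegral.integral_congr (fun x _ => ?_)
      simp only [fourier_coe_apply, smul_eq_mul]
      rw [mul_comm]
      congr 1
      unfold e
      congr 1
      push_cast
      rw [sub_zero]
      ring
    rw [h3, h n, smul_zero]
  have h4 : (a - 0)⁻¹ • ∫ x in (0 : ℝ)..a, ‖ψ x‖ ^ 2 = 0 := by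
    refine h1.unique ?_
    simp only [h2]
    simpa using hasSum_zero (α := ℝ) (β := ℤ)
  have h5 : ∫ x in (0 : ℝ)..a, ‖ψ x‖ ^ 2 = 0 := by
    rw [sub_zero, smul_eq_mul, mul_eq_zero] at h4
    rcases h4 with h4 | h4
    · exact absurd h4 (inv_ne_zero ha.ne')
    · exact h4
  rw [intervalIntegral.integral_of_le ha.le] at h5
  have hint : Integrable (fun x => ‖ψ x‖ ^ 2) (volume.restrict (Set.Ioc 0 a)) := by
    refine Integrable.of_bound (hm.norm.pow_const 2).aestronglyMeasurable (B ^ 2)
      (ae_of_all _ (fun x => ?_))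
    rw [Real.norm_of_nonneg (by positivity)]
    exact pow_le_pow_left₀ (norm_nonneg _) (hb x) 2
  have h6 := (integral_eq_zero_iff_of_nonneg (fun x => by positivity) hint).1 h5
  have h7 : ∀ᵐ x : ℝ, x ∈ Set.Ioc 0 a → ψ x = 0 := by
    rw [Filter.EventuallyEq, ae_restrict_iff' measurableSet_Ioc] at h6
    filter_upwards [h6] with x hx hxI
    have := hx hxI
    simpa using this
  have h8 : ∀ k : ℤ, ∀ᵐ x : ℝ, (x + (k : ℝ) * a) ∈ Set.Ioc 0 a → ψ (x + (k : ℝ) * a) = 0 := by
    intro k
    exact (measurePreserving_add_right volume ((k : ℝ) * a)).quasiMeasurePreserving.ae h7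
  have h9 : ∀ (k : ℤ) (x : ℝ), ψ (x + (k : ℝ) * a) = ψ x := by
    intro k x
    have hp : Function.Periodic ψ a := hper
    simpa using hp.int_mul k x
  filter_upwards [ae_all_iff.2 h8] with x hx
  obtain ⟨k, hk, _⟩ := existsUnique_add_zsmul_mem_Ioc ha x 0
  rw [zero_add, zsmul_eq_mul] at hk
  rw [← h9 k x]
  exact hx k hk

/-- module UNIQ: antiperiodicity from Fourier coefficients. -/
theorem uniq (a : ℝ) (ha : 0 < a) (φ : ℝ → ℂ) (hm : Measurable φ) (B : ℝ) (hb : ∀ x, ‖φ x‖ ≤ B)
    (hper : ∀ x, φ (x + a) = φ x) (T : ℝ)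
    (h : ∀ n : ℤ, (e ((n : ℝ) / a * T) + 1) *
      ∫ x in (0 : ℝ)..a, φ x * e (-((n : ℝ) / a * x)) = 0) :
    ∀ᵐ x, φ (x + T) = -φ x := by
  have hB : 0 ≤ B := le_trans (norm_nonneg _) (hb 0)
  have key : ∀ᵐ x : ℝ, φ (x + T) + φ x = 0 := by
    refine uniq_aux_zero a ha (fun x => φ (x + T) + φ x)
      ((hm.comp (measurable_id.add_const T)).add hm) (B + B) (fun x => ?_) (fun x => ?_)
      (fun n => ?_)
    · exact (norm_add_le _ _).trans (add_le_add (hb _) (hb _))
    · show φ (x + a + T) + φ (x + a) = φ (x + T) + φ x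
      rw [show x + a + T = (x + T) + a by ring, hper, hper]
    · set G : ℝ → ℂ := fun y => φ y * e (-((n : ℝ) / a * y)) with hG
      have hGm : Measurable G := hm.mul (uniq_aux_cont_e.measurable.comp (by fun_prop))
      have hGb : ∀ y, ‖G y‖ ≤ B := by
        intro y
        rw [hG]
        simp only [norm_mul, uniq_aux_norm_e, mul_one]
        exact hb y
      have hGper : Function.Periodic G a := by
        intro y
        simp only [hG]
        rw [hper]
        congr 1
        rw [show -((n : ℝ) / a * (y + a)) = -((n : ℝ) / a * y) + ((-n : ℤ) : ℝ) by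
          push_cast; field_simp; ring]
        rw [uniq_aux_e_add, uniq_aux_e_int, mul_one]
      have h1 : ∀ x : ℝ, (φ (x + T) + φ x) * e (-((n : ℝ) / a * x))
          = e ((n : ℝ) / a * T) * G (x + T) + G x := by
        intro x
        simp only [hG]
        have h2 : e (-((n : ℝ) / a * x)) = e ((n : ℝ) / a * T) * e (-((n : ℝ) / a * (x + T))) := by
          rw [← uniq_aux_e_add]
          congr 1
          ring
        rw [add_mul]
        nth_rewrite 1 [h2]
        ring
      simp only [h1]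
      rw [intervalIntegral.integral_add, intervalIntegral.integral_const_mul]
      · have h3 : ∫ x in (0 : ℝ)..a, G (x + T) = ∫ x in (0 : ℝ)..a, G x := by
          rw [intervalIntegral.integral_comp_add_right]
          have h4 := hGper.intervalIntegral_add_eq T 0
          rw [zero_add] at h4
          rw [zero_add, add_comm a T]
          exact h4
        rw [h3]
        have h5 := h n
        rw [add_mul, one_mul] at h5
        exact h5
      · refine (uniq_aux_integrable _ (hGm.comp (measurable_id.add_const T)) B ?_ _ _).const_mul _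
        intro x
        exact hGb _
      · exact uniq_aux_integrable _ hGm B hGb _ _
  filter_upwards [key] with x hx
  exact eq_neg_of_add_eq_zero_left hx

end Pool.Agent.Fug
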