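import Pool.Agent.Fug.AntiA
import Pool.Agent.Fug.RepInt
import Pool.Agent.Fug.Uniq
import Pool.Agent.Fug.Gamma

set_option autoImplicit false

open MeasureTheory Filter Topology Finset

namespace Pool.Agent.Fug

lemma antiB_aux_e_zero : e 0 = 1 := by
  unfold e; simp

lemma antiB_aux_e_int {x : ℝ} (k : ℤ) (h : x = (k : ℝ)) : e x = 1 := by
  rw [h]
  exact uniq_aux_e_int k

lemma antiB_aux_e_half {x : ℝ} (k : ℤ) (h : x = (k : ℝ) + 1 / 2) : e x = -1 := by
  rw [h, uniq_aux_e_add, uniq_aux_e_int, one_mul]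
  unfold e
  rw [show 2 * (Real.pi : ℂ) * Complex.I * ((1 / 2 : ℝ) : ℂ) = (Real.pi : ℂ) * Complex.I by
    push_cast; ring]
  exact Complex.exp_pi_mul_I

lemma antiB_aux_eD (g : ℕ) (ξ : ℝ) (i j : Bool) :
    e (-(ξ * D g (i, j))) = (if i then e (-(ξ * be (2 * g + 1))) else 1) *
      (if j then e (-(ξ * be (2 * g + 2))) else 1) *
      (if xor i j then e (-(ξ * tt (g / m))) else 1) := by
  unfold D
  rw [show -(ξ * ((if (i, j).1 then be (2 * g + 1) else 0) + (if (i, j).2 then be (2 * g + 2) else 0) +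
    (if xor (i, j).1 (i, j).2 then tt (g / m) else 0))) = -(ξ * (if i then be (2 * g + 1) else 0)) +
    -(ξ * (if j then be (2 * g + 2) else 0)) + -(ξ * (if xor i j then tt (g / m) else 0)) by ring]
  rw [uniq_aux_e_add, uniq_aux_e_add]
  cases i <;> cases j <;> simp [antiB_aux_e_zero]

lemma antiB_aux_ebI (g : ℕ) (ξ : ℝ) (b : Bool) (j : Bool × Bool) :
    e (-(ξ * bI g (b, j))) = (if b then e (-(ξ * (1 / 2))) else 1) * e (-(ξ * D g j)) := by
  unfold bI
  rw [show -(ξ * ((if (b, j).1 then 1 / 2 else 0) + D g (b, j).2))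
    = -(ξ * (if b then 1 / 2 else 0)) + -(ξ * D g j) by ring]
  rw [uniq_aux_e_add]
  cases b <;> simp [antiB_aux_e_zero]

lemma antiB_aux_sumC (c : Bool × (Bool × Bool) → ℂ) :
    ∑ i : Bool × (Bool × Bool), c i =
      ∑ j : Bool × Bool, c (false, j) + ∑ j : Bool × Bool, c (true, j) := by
  rw [Fintype.sum_prod_type, Fintype.sum_bool]
  ring

/-- sum with product weights -/
lemma antiB_aux_sum (g : ℕ) (ξ : ℝ) (u : Bool → ℝ) (w : Bool × Bool → ℝ) :
    (∑ i : Bool × (Bool × Bool), ((u i.1 * w i.2 : ℝ) : ℂ) * e (-(ξ * bI g i)))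
      = ((u false : ℂ) + (u true : ℂ) * e (-(ξ * (1 / 2)))) *
        ∑ j : Bool × Bool, (w j : ℂ) * e (-(ξ * D g j)) := by
  rw [antiB_aux_sumC, add_mul, Finset.mul_sum, Finset.mul_sum]
  congr 1
  · refine Finset.sum_congr rfl (fun j _ => ?_)
    rw [antiB_aux_ebI]
    push_cast
    simp
    ring
  · refine Finset.sum_congr rfl (fun j _ => ?_)
    rw [antiB_aux_ebI]
    push_cast
    simp
    ring

lemma antiB_aux_sum4 (g : ℕ) (ξ : ℝ) (w : Bool × Bool → ℝ) :
    (∑ j : Bool × Bool, (w j : ℂ) * e (-(ξ * D g j)))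
      = (w (true, true) : ℂ) * (e (-(ξ * be (2 * g + 1))) * e (-(ξ * be (2 * g + 2))))
        + (w (true, false) : ℂ) * (e (-(ξ * be (2 * g + 1))) * e (-(ξ * tt (g / m))))
        + (w (false, true) : ℂ) * (e (-(ξ * be (2 * g + 2))) * e (-(ξ * tt (g / m))))
        + (w (false, false) : ℂ) := by
  rw [Fintype.sum_prod_type, Fintype.sum_bool, Fintype.sum_bool, Fintype.sum_bool]
  rw [antiB_aux_eD, antiB_aux_eD, antiB_aux_eD, antiB_aux_eD]
  simp
  ring

/-- total mass of the labels: the basic vanishing -/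
lemma antiB_aux_vanish {a : ℝ} {Q E₀ : Set ℝ} {g : ℕ} {E : Set ℝ} (h : Tile a Q E₀ g E)
    (n : ℤ) (hn : n ≠ 0) :
    (1 + e (-((n : ℝ) / a * (1 / 2)))) * (4 * A (D g) (-((n : ℝ) / a))) *
      ∫ y in E, e (-((n : ℝ) / a * y)) = 0 := by
  have h1 := fourier_label h (tile_finite h) (fun i => 1 * 1) ((n : ℝ) / a)
  have h2 := antiB_aux_sum g ((n : ℝ) / a) (fun _ => 1) (fun _ => 1)
  rw [h2] at h1
  have h3 : ∫ y in Q, ((∑ i : Bool × (Bool × Bool), (1 * 1 : ℝ) * ind E (y - bI g i) : ℝ) : ℂ)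
      * e (-((n : ℝ) / a * y)) = 0 := by
    rw [← integral_FD_exp h.hFD n hn]
    refine setIntegral_congr_ae h.hFD.hQ ?_
    filter_upwards [label_unique h] with y hy hyQ
    obtain ⟨i₀, hi₀, _⟩ := hy hyQ
    simp only [hi₀]
    simp
  rw [h3] at h1
  have h4 : (4 * A (D g) (-((n : ℝ) / a)))
      = ∑ j : Bool × Bool, ((1 : ℝ) : ℂ) * e (-((n : ℝ) / a * D g j)) := by
    unfold A
    rw [← mul_assoc]
    norm_num
  rw [h4]
  rw [h1]
  norm_num

lemma antiB_aux_cases {a : ℝ} {Q E₀ : Set ℝ} {g : ℕ} {E : Set ℝ} (h : Tile a Q E₀ g E)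
    (n : ℤ) (hn : n ≠ 0) :
    (1 + e (-((n : ℝ) / a * (1 / 2)))) = 0 ∨ (∫ y in E, e (-((n : ℝ) / a * y))) = 0 ∨
    (∃ k : ℤ, -((n : ℝ) / a) = (2 * (k : ℝ) + 1) * 2 ^ v (2 * g + 1)) ∨
    (∃ k : ℤ, -((n : ℝ) / a) = (2 * (k : ℝ) + 1) * 2 ^ v (2 * g + 2)) := by
  have h1 := antiB_aux_vanish h n hn
  rcases mul_eq_zero.1 h1 with h2 | h2
  · rcases mul_eq_zero.1 h2 with h3 | h3
    · exact Or.inl h3
    · right; right
      have h4 : A (D g) (-((n : ℝ) / a)) = 0 := by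
        rcases mul_eq_zero.1 h3 with h5 | h5
        · norm_num at h5
        · exact h5
      apply Gam_eq_zero
      rw [← norm_A_sq, h4]
      simp
  · exact Or.inr (Or.inl h2)

lemma antiB_aux_ind_le (E : Set ℝ) (x : ℝ) : |ind E x| ≤ 1 := by
  rcases labels_aux_ind_cases E x with h | h <;> rw [h] <;> simp

lemma antiB_aux_bound (g : ℕ) (E : Set ℝ) (w : Bool × (Bool × Bool) → ℝ) (hw : ∀ i, |w i| ≤ 1)
    (y : ℝ) : ‖((∑ i : Bool × (Bool × Bool), w i * ind E (y - bI g i) : ℝ) : ℂ)‖ ≤ 8 := by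
  rw [Complex.norm_real, Real.norm_eq_abs]
  refine (Finset.abs_sum_le_sum_abs _ _).trans ?_
  have h1 : ∀ i ∈ (Finset.univ : Finset (Bool × (Bool × Bool))),
      |w i * ind E (y - bI g i)| ≤ 1 := by
    intro i _
    rw [abs_mul]
    exact mul_le_one₀ (hw i) (abs_nonneg _) (antiB_aux_ind_le _ _)
  refine (Finset.sum_le_sum h1).trans ?_
  simp

lemma antiB_aux_meas (g : ℕ) {E : Set ℝ} (hE : MeasurableSet E) (w : Bool × (Bool × Bool) → ℝ) :
    Measurable (fun y : ℝ => ((∑ i : Bool × (Bool × Bool), w i * ind E (y - bI g i) : ℝ) : ℂ)) := by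
  refine Complex.measurable_ofReal.comp ?_
  exact Finset.measurable_sum _ (fun i _ =>
      ((labels_aux_measurable_ind hE).comp (measurable_id.sub_const _)).const_mul _)

/-- the general antiperiodicity statement for weighted label functions -/
lemma antiB_aux_main {a : ℝ} {Q E₀ : Set ℝ} {g : ℕ} {E : Set ℝ} (h : Tile a Q E₀ g E)
    (w : Bool × (Bool × Bool) → ℝ) (hw : ∀ i, |w i| ≤ 1) (T : ℝ)
    (hT : ∀ n : ℤ, (e ((n : ℝ) / a * T) + 1) *
      ((∑ i : Bool × (Bool × Bool), (w i : ℂ) * e (-((n : ℝ) / a * bI g i))) *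
        ∫ y in E, e (-((n : ℝ) / a * y))) = 0) :
    ∀ᵐ x, ∑ i : Bool × (Bool × Bool), w i * ind E (rep a Q (x + T) - bI g i)
      = -∑ i : Bool × (Bool × Bool), w i * ind E (rep a Q x - bI g i) := by
  have key := uniq a h.hFD.ha
    (fun x => ((∑ i : Bool × (Bool × Bool), w i * ind E (rep a Q x - bI g i) : ℝ) : ℂ))
    ((antiB_aux_meas g h.hE w).comp (measurable_rep h.hFD)) 8
    (fun x => antiB_aux_bound g E w hw _)
    (fun x => by simp only [rep_add_period h.hFD]) T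
    (fun n => by
      rw [integral_rep h.hFD
        (fun y => ((∑ i : Bool × (Bool × Bool), w i * ind E (y - bI g i) : ℝ) : ℂ))
        (antiB_aux_meas g h.hE w) n]
      rw [fourier_label h (tile_finite h) w ((n : ℝ) / a)]
      exact hT n)
  filter_upwards [key] with x hx
  exact_mod_cast hx

lemma antiB_aux_sgn (b : Bool) : |sgn b| ≤ 1 := by
  cases b <;> simp [sgn]

/-- module ANTI2 -/
theorem anti_f0 {a : ℝ} {Q E₀ : Set ℝ} {g : ℕ} {E : Set ℝ} (h : Tile a Q E₀ g E) :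
    ∀ᵐ x, f0 a Q E₀ (x + be 0) = -f0 a Q E₀ x := by
  have h1 : ∀ᵐ y, ind E₀ y - ind E₀ (y - 1 / 2)
      = ∑ i : Bool × (Bool × Bool), (sgn i.1 * 1) * ind E (y - bI g i) := by
    filter_upwards [labels_aux_all h] with y hy
    rw [labels_aux_sum, hy.1, hy.2.1]
    simp [sgn]
    ring
  have h2 := ae_rep h.hFD h1
  have h3 : ∀ᵐ x : ℝ, f0 a Q E₀ (x + be 0) = ∑ i : Bool × (Bool × Bool),
      (sgn i.1 * 1) * ind E (rep a Q (x + be 0) - bI g i) := by
    exact (measurePreserving_add_right volume (be 0)).quasiMeasurePreserving.ae h2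
  have h4 := antiB_aux_main h (fun i => sgn i.1 * 1)
    (fun i => by rw [mul_one]; exact antiB_aux_sgn _) (be 0) (fun n => ?_)
  · filter_upwards [h2, h3, h4] with x hx2 hx3 hx4
    rw [hx3, hx4]
    congr 1
    exact hx2.symm
  · have h5 := antiB_aux_sum g ((n : ℝ) / a) sgn (fun _ => 1)
    rw [h5]
    have h6 : e ((n : ℝ) / a * be 0) = e ((n : ℝ) / a * (1 / 2)) := by rw [be_zero]
    have h7 : e ((n : ℝ) / a * (1 / 2)) * e (-((n : ℝ) / a * (1 / 2))) = 1 := by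
      rw [← uniq_aux_e_add, add_neg_cancel, antiB_aux_e_zero]
    by_cases hn : n = 0
    · subst hn
      simp [sgn, antiB_aux_e_zero]
    · have h8 := antiB_aux_vanish h n hn
      have h9 : (4 * A (D g) (-((n : ℝ) / a)))
          = ∑ j : Bool × Bool, ((1 : ℝ) : ℂ) * e (-((n : ℝ) / a * D g j)) := by
        unfold A
        rw [← mul_assoc]
        norm_num
      rw [← h9, h6]
      have h10 : ((sgn false : ℝ) : ℂ) + ((sgn true : ℝ) : ℂ) * e (-((n : ℝ) / a * (1 / 2)))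
          = 1 - e (-((n : ℝ) / a * (1 / 2))) := by
        simp [sgn]
        ring
      rw [h10]
      have h11 : e ((n : ℝ) / a * (1 / 2)) + 1
          = e ((n : ℝ) / a * (1 / 2)) * (1 + e (-((n : ℝ) / a * (1 / 2)))) := by
        rw [mul_add, mul_one, h7]
      rw [h11]
      calc e ((n : ℝ) / a * (1 / 2)) * (1 + e (-((n : ℝ) / a * (1 / 2)))) *
            ((1 - e (-((n : ℝ) / a * (1 / 2)))) * (4 * A (D g) (-((n : ℝ) / a))) *
              ∫ y in E, e (-((n : ℝ) / a * y)))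
          = e ((n : ℝ) / a * (1 / 2)) * (1 - e (-((n : ℝ) / a * (1 / 2)))) *
            ((1 + e (-((n : ℝ) / a * (1 / 2)))) * (4 * A (D g) (-((n : ℝ) / a))) *
              ∫ y in E, e (-((n : ℝ) / a * y))) := by ring
        _ = 0 := by rw [h8, mul_zero]

/-- module ANTI3 -/
theorem anti_sg1 {a : ℝ} {Q E₀ : Set ℝ} {g : ℕ} {E : Set ℝ} (h : Tile a Q E₀ g E) :
    ∀ᵐ x, sg1 a Q g E (x + be (2 * g + 1)) = -sg1 a Q g E x := by
  refine antiB_aux_main h (fun i => sgn i.2.1) (fun i => antiB_aux_sgn _) _ (fun n => ?_)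
  have h5 := antiB_aux_sum g ((n : ℝ) / a) (fun _ => 1) (fun j => sgn j.1)
  simp only [one_mul] at h5 ⊢
  rw [h5, antiB_aux_sum4]
  by_cases hn : n = 0
  · subst hn
    simp [sgn, antiB_aux_e_zero]
  rcases antiB_aux_cases h n hn with h1 | h1 | ⟨k, hk⟩ | ⟨k, hk⟩
  · have h2 : ((1 : ℝ) : ℂ) + ((1 : ℝ) : ℂ) * e (-((n : ℝ) / a * (1 / 2))) = 0 := by
      rw [← h1]; norm_num
    rw [h2]
    ring
  · rw [h1]
    ring
  · have h2 : e ((n : ℝ) / a * be (2 * g + 1)) = -1 := by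
      refine antiB_aux_e_half (-k - 1) ?_
      have h3 : (n : ℝ) / a = -((2 * (k : ℝ) + 1) * 2 ^ v (2 * g + 1)) := by linarith
      rw [h3, neg_mul, mul_assoc, pow_mul_be_self]
      push_cast
      ring
    rw [h2]
    ring
  · have h2 : e (-((n : ℝ) / a * be (2 * g + 1))) = 1 := by
      refine antiB_aux_e_int ((2 * k + 1) * 2 ^ (v (2 * g + 2) - v (2 * g + 1) - 1)) ?_
      rw [← neg_mul, hk, mul_assoc, pow_mul_be (by omega)]
      push_cast
      ring
    have h3 : e (-((n : ℝ) / a * tt (g / m))) = 1 := by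
      refine antiB_aux_e_int ((2 * k + 1) * 2 ^ (v (2 * g + 2) - v (g / m) - 24)) ?_
      rw [← neg_mul, hk, mul_assoc, pow_mul_tt (lt_trans (parent_lt g) (by omega))]
      push_cast
      ring
    rw [h2, h3]
    simp [sgn]

/-- module ANTI4 -/
theorem anti_sg2 {a : ℝ} {Q E₀ : Set ℝ} {g : ℕ} {E : Set ℝ} (h : Tile a Q E₀ g E) :
    ∀ᵐ x, sg2 a Q g E (x + be (2 * g + 2)) = -sg2 a Q g E x := by
  refine antiB_aux_main h (fun i => sgn i.2.2) (fun i => antiB_aux_sgn _) _ (fun n => ?_)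
  have h5 := antiB_aux_sum g ((n : ℝ) / a) (fun _ => 1) (fun j => sgn j.2)
  simp only [one_mul] at h5 ⊢
  rw [h5, antiB_aux_sum4]
  by_cases hn : n = 0
  · subst hn
    simp [sgn, antiB_aux_e_zero]
  rcases antiB_aux_cases h n hn with h1 | h1 | ⟨k, hk⟩ | ⟨k, hk⟩
  · have h2 : ((1 : ℝ) : ℂ) + ((1 : ℝ) : ℂ) * e (-((n : ℝ) / a * (1 / 2))) = 0 := by
      rw [← h1]; norm_num
    rw [h2]
    ring
  · rw [h1]
    ring
  · have h2 : e (-((n : ℝ) / a * be (2 * g + 1))) = -1 := by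
      refine antiB_aux_e_half k ?_
      rw [← neg_mul, hk, mul_assoc, pow_mul_be_self]
      ring
    have h3 : e (-((n : ℝ) / a * tt (g / m))) = 1 := by
      refine antiB_aux_e_int ((2 * k + 1) * 2 ^ (v (2 * g + 1) - v (g / m) - 24)) ?_
      rw [← neg_mul, hk, mul_assoc, pow_mul_tt (parent_lt g)]
      push_cast
      ring
    rw [h2, h3]
    simp [sgn]
  · have h2 : e ((n : ℝ) / a * be (2 * g + 2)) = -1 := by
      refine antiB_aux_e_half (-k - 1) ?_
      have h3 : (n : ℝ) / a = -((2 * (k : ℝ) + 1) * 2 ^ v (2 * g + 2)) := by linarith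
      rw [h3, neg_mul, mul_assoc, pow_mul_be_self]
      push_cast
      ring
    rw [h2]
    ring

end Pool.Agent.Fug
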