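import Pool.Agent.Fug.Defs

set_option autoImplicit false

open MeasureTheory Filter Topology Finset

namespace Pool.Agent.Fug

lemma v_zero : v 0 = 0 := by simp [v]

lemma v_succ (j : ℕ) : v (j + 1) = v j + (50 * j + 25) := by
  unfold v; ring

lemma v_add_le {i j : ℕ} (h : i < j) : v i + 25 ≤ v j := by
  obtain ⟨k, rfl⟩ := Nat.exists_eq_add_of_lt h
  unfold v
  nlinarith [Nat.zero_le i, Nat.zero_le k]

lemma v_strictMono : StrictMono v := by
  intro i j h
  have := v_add_le h
  omega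

lemma le_v (j : ℕ) : j ≤ v j := by
  unfold v
  nlinarith [Nat.zero_le j, sq_nonneg (j : ℤ), Nat.le_self_pow (n := 2) (by norm_num) j]

lemma be_pos (j : ℕ) : 0 < be j := by unfold be; positivity

lemma tt_pos (j : ℕ) : 0 < tt j := by unfold tt; positivity

lemma be_zero : be 0 = 1 / 2 := by simp [be, v_zero]

lemma m_pos : 0 < m := by norm_num [m]

lemma parent_le (g : ℕ) : g / m ≤ g := Nat.div_le_self g m

lemma parent_lt (g : ℕ) : g / m < 2 * g + 1 := by
  have := parent_le g
  omega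

lemma v_parent (g : ℕ) : v (g / m) + 25 ≤ v (2 * g + 1) := v_add_le (parent_lt g)

lemma v_sib (g : ℕ) : v (2 * g + 1) + 25 ≤ v (2 * g + 2) := v_add_le (by omega)

/-- `2^(v j) * tt p` is an integer for `p < j`. -/
lemma pow_mul_tt {p j : ℕ} (h : p < j) : (2 : ℝ) ^ v j * tt p = (2 : ℝ) ^ (v j - v p - 24) := by
  have h1 := v_add_le h
  unfold tt
  rw [mul_one_div, div_eq_iff (by positivity), ← pow_add]
  congr 1
  omega

/-- `2^(v i) * be j` is an integer for `j < i`. -/
lemma pow_mul_be {i j : ℕ} (h : j < i) : (2 : ℝ) ^ v i * be j = (2 : ℝ) ^ (v i - v j - 1) := by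
  have h1 := v_add_le h
  unfold be
  rw [mul_one_div, div_eq_iff (by positivity), ← pow_add]
  congr 1
  omega

lemma pow_mul_be_self (j : ℕ) : (2 : ℝ) ^ v j * be j = 1 / 2 := by
  unfold be
  rw [pow_succ]
  field_simp

lemma lam_nonneg (S : Finset ℕ) : 0 ≤ lam S := by
  unfold lam; positivity

lemma lam_mono {S T : Finset ℕ} (h : S ⊆ T) : lam S ≤ lam T := by
  unfold lam
  exact Finset.sum_le_sum_of_subset_of_nonneg h (fun _ _ _ => by positivity)

lemma lam_range_le (j : ℕ) : lam (range j) ≤ (2 : ℝ) ^ v j / 2 ^ j := by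
  induction j with
  | zero => simp [lam]
  | succ j ih =>
    have h1 : lam (range (j + 1)) = lam (range j) + (2 : ℝ) ^ v j := by
      unfold lam; rw [Finset.sum_range_succ]
    rw [h1]
    have h2 : (2 : ℝ) ^ v j / 2 ^ j ≤ (2 : ℝ) ^ v j := by
      apply div_le_self (by positivity)
      exact one_le_pow₀ (by norm_num)
    have h3 : (2 : ℝ) ^ v (j + 1) / 2 ^ (j + 1) = (2 : ℝ) ^ v j * 2 ^ (49 * j + 24) := by
      rw [div_eq_iff (by positivity), v_succ, mul_assoc, ← pow_add, ← pow_add]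
      congr 1
      ring
    have h4 : (2 : ℝ) ≤ 2 ^ (49 * j + 24) := by
      calc (2 : ℝ) = 2 ^ 1 := by norm_num
        _ ≤ 2 ^ (49 * j + 24) := pow_le_pow_right₀ (by norm_num) (by omega)
    rw [h3]
    have h5 : (0 : ℝ) < 2 ^ v j := by positivity
    nlinarith

end Pool.Agent.Fug
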