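import Pool.Agent.Fug.Group

set_option autoImplicit false

open MeasureTheory Filter Topology Finset

namespace Pool.Agent.Fug

/-- circle version of a function on the line -/
noncomputable def circ (φ : ℝ → ℝ) (z : UnitAddCircle) : ℝ :=
  if φ (AddCircle.equivIco 1 0 z : ℝ) = 1 then 1 else -1

/-- module CIRC1 -/
theorem measurable_circ (φ : ℝ → ℝ) (hφ : Measurable φ) : Measurable (circ φ) := by
  have h1 : Measurable (fun z : UnitAddCircle => ((AddCircle.equivIco 1 0 z : ℝ))) :=
    measurable_subtype_coe.comp (AddCircle.measurableEquivIco 1 0).measurable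
  have h2 : Measurable (fun z : UnitAddCircle => φ (AddCircle.equivIco 1 0 z : ℝ)) := hφ.comp h1
  have h3 : MeasurableSet {z : UnitAddCircle | φ (AddCircle.equivIco 1 0 z : ℝ) = 1} :=
    h2 (measurableSet_singleton (1 : ℝ))
  exact Measurable.ite h3 measurable_const measurable_const

/-- module CIRC2: transfer of a.e. statements from the line to the circle -/
theorem ae_circle_of_ae_line (P : UnitAddCircle → Prop)
    (hP : ∀ᵐ x : ℝ, P (x : UnitAddCircle)) : ∀ᵐ z ∂hT, P z := by
  have h1 : ∀ᵐ x : ℝ ∂(volume.restrict (Set.Ioc (0 : ℝ) (0 + 1))), P (x : UnitAddCircle) :=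
    ae_restrict_of_ae hP
  have h2 : ∀ᵐ y : (Set.Ioc (0 : ℝ) (0 + 1)) ∂(Measure.comap Subtype.val volume),
      P ((y : ℝ) : UnitAddCircle) :=
    (measurePreserving_subtype_coe (μa := (volume : Measure ℝ))
      (measurableSet_Ioc (a := (0 : ℝ)) (b := 0 + 1))).quasiMeasurePreserving.ae h1
  have h3 := (AddCircle.measurePreserving_equivIoc (T := 1) (a := 0)).quasiMeasurePreserving.ae h2
  have h4 : ∀ᵐ z : UnitAddCircle ∂volume, P z := by
    filter_upwards [h3] with z hz
    rwa [AddCircle.coe_equivIoc] at hz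
  have h5 : (volume : Measure UnitAddCircle) = hT := by
    have := AddCircle.volume_eq_smul_haarAddCircle (T := 1)
    rw [ENNReal.ofReal_one, one_smul] at this
    exact this
  rwa [h5] at h4

theorem Circ1_aux_shift (Q : ℝ → Prop) (h : ∀ᵐ x, Q x) (c : ℝ) : ∀ᵐ x, Q (x + c) :=
  (measurePreserving_add_right (volume : Measure ℝ) c).quasiMeasurePreserving.ae h

theorem Circ1_aux_mul (φ : ℝ → ℝ) (b : ℝ) (h : ∀ᵐ x, φ (x + b) = φ x) (k : ℕ) :
    ∀ᵐ x, φ (x + k * b) = φ x := by
  induction k with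
  | zero => exact Eventually.of_forall (fun x => by simp)
  | succ k ih =>
    filter_upwards [ih, Circ1_aux_shift _ h (k * b)] with x h1 h2
    rw [← h1, ← h2]
    congr 1
    push_cast
    ring

theorem Circ1_aux_int (φ : ℝ → ℝ) (h : ∀ᵐ x, φ (x + 1) = φ x) :
    ∀ᵐ x, ∀ n : ℤ, φ (x + n) = φ x := by
  rw [ae_all_iff]
  intro n
  obtain ⟨k, hk | hk⟩ := n.eq_nat_or_neg
  · have := Circ1_aux_mul φ 1 h k
    filter_upwards [this] with x hx
    rw [hk]
    simpa using hx
  · have := Circ1_aux_mul φ 1 h k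
    filter_upwards [Circ1_aux_shift _ this (-(k : ℝ))] with x hx
    rw [hk]
    push_cast
    have h1 : x + -(k : ℝ) + (k : ℝ) * 1 = x := by ring
    rw [h1] at hx
    exact hx.symm

/-- module CIRC3: for a `±1`-valued function that is a.e. antiperiodic for some `be j`, `circ` represents it -/
theorem circ_coe (φ : ℝ → ℝ) (hφ : Measurable φ) (hv : ∀ᵐ x, φ x = 1 ∨ φ x = -1) (j : ℕ)
    (ha : ∀ᵐ x, φ (x + be j) = -φ x) : ∀ᵐ x : ℝ, circ φ (x : UnitAddCircle) = φ x := by
  have h2 : ∀ᵐ x, φ (x + 2 * be j) = φ x := by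
    filter_upwards [ha, Circ1_aux_shift _ ha (be j)] with x h1 h2
    have h3 : x + be j + be j = x + 2 * be j := by ring
    rw [h3] at h2
    rw [h2, h1, neg_neg]
  have h3 : ∀ᵐ x, φ (x + 1) = φ x := by
    have h4 := Circ1_aux_mul φ (2 * be j) h2 (2 ^ v j)
    have h5 : ((2 ^ v j : ℕ) : ℝ) * (2 * be j) = 1 := by
      have := pow_mul_be_self j
      push_cast
      linarith
    rw [h5] at h4
    exact h4
  filter_upwards [hv, Circ1_aux_int φ h3] with x h4 h5
  have h6 : ((AddCircle.equivIco 1 0 (x : UnitAddCircle) : ℝ)) = x + ((-⌊x⌋ : ℤ) : ℝ) := by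
    have := AddCircle.coe_equivIco_mk_apply (1 : ℝ) x
    rw [this]
    simp only [div_one, mul_one]
    push_cast
    rw [← Int.self_sub_floor]
    ring
  unfold circ
  rw [h6, h5]
  rcases h4 with h | h
  · rw [if_pos h, h]
  · rw [if_neg (by rw [h]; norm_num), h]

end Pool.Agent.Fug
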