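import Pool.Agent.Fug.Circ1

set_option autoImplicit false

open MeasureTheory Filter Topology Finset

namespace Pool.Agent.Fug

theorem Circ2_aux_vals (φ : ℝ → ℝ) (z : UnitAddCircle) : circ φ z = 1 ∨ circ φ z = -1 := by
  unfold circ
  split_ifs
  · exact Or.inl rfl
  · exact Or.inr rfl

theorem Circ2_aux_anti (φ : ℝ → ℝ) (hφ : Measurable φ) (hv : ∀ᵐ x, φ x = 1 ∨ φ x = -1) (j : ℕ)
    (ha : ∀ᵐ x, φ (x + be j) = -φ x) :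
    ∀ᵐ z ∂hT, circ φ (z + ((be j : ℝ) : UnitAddCircle)) = -circ φ z := by
  refine ae_circle_of_ae_line _ ?_
  have hc := circ_coe φ hφ hv j ha
  filter_upwards [hc, Circ1_aux_shift _ hc (be j), ha] with x h1 h2 h3
  rw [← AddCircle.coe_add, h1, h2, h3]

theorem Circ2_aux_rel (f σ τ : ℝ → ℝ) (c s : ℝ)
    (cf : ∀ᵐ x : ℝ, circ f (x : UnitAddCircle) = f x)
    (cs : ∀ᵐ x : ℝ, circ σ (x : UnitAddCircle) = σ x)
    (ct : ∀ᵐ x : ℝ, circ τ (x : UnitAddCircle) = τ x)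
    (h : ∀ᵐ x, σ x = 1 → τ x = s → f (x + c) = f x) :
    ∀ᵐ z ∂hT, circ σ z = 1 → circ τ z = s →
      circ f (z + ((c : ℝ) : UnitAddCircle)) = circ f z := by
  refine ae_circle_of_ae_line _ ?_
  filter_upwards [cf, Circ1_aux_shift _ cf c, cs, ct, h] with x h1 h2 h3 h4 h5
  intro e1 e2
  rw [h3] at e1
  rw [h4] at e2
  rw [← AddCircle.coe_add, h1, h2]
  exact h5 e1 e2

/-- module CIRC: relations on the line give relations on the circle -/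
theorem to_circle (g : ℕ) (f σ₁ σ₂ : ℝ → ℝ) (mf : Measurable f) (m1 : Measurable σ₁)
    (m2 : Measurable σ₂) (vf : ∀ᵐ x, f x = 1 ∨ f x = -1) (v1 : ∀ᵐ x, σ₁ x = 1 ∨ σ₁ x = -1)
    (v2 : ∀ᵐ x, σ₂ x = 1 ∨ σ₂ x = -1) (a0 : ∀ᵐ x, f (x + be 0) = -f x)
    (a1 : ∀ᵐ x, σ₁ (x + be (2 * g + 1)) = -σ₁ x) (a2 : ∀ᵐ x, σ₂ (x + be (2 * g + 2)) = -σ₂ x)
    (r1 : ∀ s : ℝ, (s = 1 ∨ s = -1) → ∀ᵐ x, σ₁ x = 1 → σ₂ x = s →
      f (x + (be (2 * g + 1) + s * tt (g / m))) = f x)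
    (r2 : ∀ s : ℝ, (s = 1 ∨ s = -1) → ∀ᵐ x, σ₂ x = 1 → σ₁ x = s →
      f (x + (be (2 * g + 2) + s * tt (g / m))) = f x) :
    GroupRel g (circ f) (circ σ₁) (circ σ₂) ∧
      ∀ᵐ z ∂hT, circ f (z + ((be 0 : ℝ) : UnitAddCircle)) = -circ f z := by
  have cf := circ_coe f mf vf 0 a0
  have c1 := circ_coe σ₁ m1 v1 (2 * g + 1) a1
  have c2 := circ_coe σ₂ m2 v2 (2 * g + 2) a2
  refine ⟨⟨measurable_circ f mf, measurable_circ σ₁ m1, measurable_circ σ₂ m2,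
    Circ2_aux_vals f, Circ2_aux_vals σ₁, Circ2_aux_vals σ₂,
    Circ2_aux_anti σ₁ m1 v1 _ a1, Circ2_aux_anti σ₂ m2 v2 _ a2, ?_, ?_⟩,
    Circ2_aux_anti f mf vf 0 a0⟩
  · intro s hs
    exact Circ2_aux_rel f σ₁ σ₂ _ s cf c1 c2 (r1 s hs)
  · intro s hs
    exact Circ2_aux_rel f σ₂ σ₁ _ s cf c2 c1 (r2 s hs)

end Pool.Agent.Fug
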