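import Pool.Agent.Fug.PhiDef

set_option autoImplicit false

open MeasureTheory Filter Topology Finset

namespace Pool.Agent.Fug

lemma sup2_aux_sin_sq (x : ℝ) (n : ℤ) :
    Real.sin (Real.pi * (x + n)) ^ 2 = Real.sin (Real.pi * x) ^ 2 := by
  have h : Real.pi * (x + n) = Real.pi * x + n * Real.pi := by ring
  rw [h, Real.sin_add_int_mul_pi, mul_pow]
  have h2 : ((-1 : ℝ) ^ n) ^ 2 = 1 := by
    rcases Int.even_or_odd n with hn | hn
    · rw [hn.neg_one_zpow]; norm_num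
    · rw [hn.neg_one_zpow]; norm_num
  rw [h2, one_mul]

lemma sup2_aux_tau_nonneg (j : ℕ) (k : ℤ) : 0 ≤ tau j k := by
  unfold tau
  positivity

lemma sup2_aux_tau_le_one (j : ℕ) (k : ℤ) : tau j k ≤ 1 := by
  unfold tau
  have hL : (0 : ℝ) < (L : ℝ) := by norm_num [L]
  have h : ∑ l ∈ Finset.Icc 1 L, Real.sin (Real.pi * ((k : ℝ) * (l : ℝ) * tt j)) ^ 2 ≤ (L : ℝ) := by
    calc ∑ l ∈ Finset.Icc 1 L, Real.sin (Real.pi * ((k : ℝ) * (l : ℝ) * tt j)) ^ 2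
        ≤ ∑ l ∈ Finset.Icc 1 L, (1 : ℝ) := Finset.sum_le_sum fun l _ => Real.sin_sq_le_one _
      _ = (L : ℝ) := by simp
  calc 1 / (L : ℝ) * ∑ l ∈ Finset.Icc 1 L, Real.sin (Real.pi * ((k : ℝ) * (l : ℝ) * tt j)) ^ 2
      ≤ 1 / (L : ℝ) * (L : ℝ) := by gcongr
    _ = 1 := by field_simp

lemma sup2_aux_tau_add {p j : ℕ} (h : p < j) (k : ℤ) :
    tau p (k + 2 ^ v j) = tau p k := by
  unfold tau
  congr 1
  refine Finset.sum_congr rfl fun l _ => ?_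
  have h1 : ((k + 2 ^ v j : ℤ) : ℝ) * (l : ℝ) * tt p =
      (k : ℝ) * (l : ℝ) * tt p + ((l * 2 ^ (v j - v p - 24) : ℤ) : ℝ) := by
    have h2 := pow_mul_tt h
    push_cast
    rw [← h2]
    ring
  rw [h1, sup2_aux_sin_sq]

lemma sup2_aux_one_sub_pow {x M : ℝ} {n : ℕ} (hM : M = n) (hn : 1 ≤ n) (h0 : 0 ≤ x) (h1 : x ≤ 1) :
    (1 - x / M) ^ n ≤ 1 - x / 2 := by
  subst hM
  have hn1 : (1 : ℝ) ≤ (n : ℝ) := by exact_mod_cast hn
  have h2 : (1 - x / n) ^ n ≤ Real.exp (-x) := Real.one_sub_div_pow_le_exp_neg (h1.trans hn1)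
  refine h2.trans ?_
  have h3 : 1 + x ≤ Real.exp x := by
    have := Real.add_one_le_exp x
    linarith
  have h4 : Real.exp (-x) * Real.exp x = 1 := by
    rw [← Real.exp_add, neg_add_cancel, Real.exp_zero]
  have h5 : 0 < Real.exp (-x) := Real.exp_pos _
  have h6 : Real.exp (-x) * (1 + x) ≤ 1 := by
    calc Real.exp (-x) * (1 + x) ≤ Real.exp (-x) * Real.exp x :=
          mul_le_mul_of_nonneg_left h3 h5.le
      _ = 1 := h4
  have h7 : 1 ≤ (1 - x / 2) * (1 + x) := by nlinarith [mul_nonneg h0 (sub_nonneg.2 h1)]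
  have h8 : Real.exp (-x) * (1 + x) ≤ (1 - x / 2) * (1 + x) := h6.trans h7
  exact le_of_mul_le_mul_right h8 (by linarith)

/-- the common part of `Phi g` and `Phi (g+1)` -/
noncomputable def sup2_aux_Psi (g : ℕ) (k : ℤ) : ℝ :=
  ∏ g' ∈ Finset.Ico (g + 1) (m * (2 * g + 1)), (1 - tau (g' / m) k / m)

lemma sup2_aux_factor (j : ℕ) (k : ℤ) : 0 ≤ 1 - tau j k / m ∧ 1 - tau j k / m ≤ 1 := by
  have h1 := sup2_aux_tau_nonneg j k
  have h2 := sup2_aux_tau_le_one j k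
  have hm : (1 : ℝ) ≤ (m : ℝ) := by norm_num [m]
  have h3 : 0 ≤ tau j k / m := div_nonneg h1 (by linarith)
  have h4 : tau j k / m ≤ 1 := div_le_one_of_le₀ (h2.trans hm) (by linarith)
  constructor <;> linarith

lemma sup2_aux_Psi_nonneg (g : ℕ) (k : ℤ) : 0 ≤ sup2_aux_Psi g k :=
  Finset.prod_nonneg fun _ _ => (sup2_aux_factor _ k).1

lemma sup2_aux_Psi_le_one (g : ℕ) (k : ℤ) : sup2_aux_Psi g k ≤ 1 :=
  Finset.prod_le_one (fun _ _ => (sup2_aux_factor _ k).1) fun _ _ => (sup2_aux_factor _ k).2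

lemma sup2_aux_Phi_nonneg (g : ℕ) (k : ℤ) : 0 ≤ Phi g k :=
  Finset.prod_nonneg fun _ _ => (sup2_aux_factor _ k).1

lemma sup2_aux_Phi_le_one (g : ℕ) (k : ℤ) : Phi g k ≤ 1 :=
  Finset.prod_le_one (fun _ _ => (sup2_aux_factor _ k).1) fun _ _ => (sup2_aux_factor _ k).2

lemma sup2_aux_Psi_per (g : ℕ) (k : ℤ) :
    sup2_aux_Psi g (k + 2 ^ v (2 * g + 1)) = sup2_aux_Psi g k := by
  unfold sup2_aux_Psi
  refine Finset.prod_congr rfl fun g' hg' => ?_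
  have h : g' / m < 2 * g + 1 := by
    rw [Nat.div_lt_iff_lt_mul m_pos, mul_comm]
    exact (Finset.mem_Ico.1 hg').2
  rw [sup2_aux_tau_add h]

lemma sup2_aux_Phi_eq (g : ℕ) (k : ℤ) :
    Phi g k = (1 - tau (g / m) k / m) * sup2_aux_Psi g k := by
  unfold Phi sup2_aux_Psi
  have hlt : g < m * (2 * g + 1) := by
    have := m_pos
    nlinarith
  rw [Finset.prod_eq_prod_Ico_succ_bot hlt]

lemma sup2_aux_block (j : ℕ) (k : ℤ) :
    ∏ g' ∈ Finset.Ico (m * j) (m * (j + 1)), (1 - tau (g' / m) k / (m : ℝ)) =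
      (1 - tau j k / (m : ℝ)) ^ m := by
  have h : ∀ g' ∈ Finset.Ico (m * j) (m * (j + 1)),
      (1 - tau (g' / m) k / (m : ℝ)) = (1 - tau j k / (m : ℝ)) := by
    intro g' hg'
    rw [Finset.mem_Ico] at hg'
    have h1 : g' / m = j := by
      rw [Nat.div_eq_iff m_pos]
      obtain ⟨h2, h3⟩ := hg'
      have := m_pos
      rw [mul_comm j m]
      constructor
      · exact h2
      · rw [mul_add, mul_one] at h3
        omega
    rw [h1]
  rw [Finset.prod_congr rfl h, Finset.prod_const, Nat.card_Ico]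
  congr 1
  rw [mul_add, mul_one]
  omega

lemma sup2_aux_Phi_succ (g : ℕ) (k : ℤ) :
    Phi (g + 1) k = sup2_aux_Psi g k * ((1 - tau (2 * g + 1) k / (m : ℝ)) ^ m *
      (1 - tau (2 * g + 2) k / (m : ℝ)) ^ m) := by
  unfold Phi sup2_aux_Psi
  have h0 := m_pos
  have h1 : g + 1 ≤ m * (2 * g + 1) := by nlinarith
  have h2 : m * (2 * g + 1) ≤ m * (2 * g + 1 + 1) := Nat.mul_le_mul_left _ (by omega)
  have h3 : m * (2 * g + 1 + 1) ≤ m * (2 * g + 2 + 1) := Nat.mul_le_mul_left _ (by omega)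
  have h4 : 2 * (g + 1) + 1 = 2 * g + 2 + 1 := by ring
  rw [h4, ← sup2_aux_block (2 * g + 1) k, ← sup2_aux_block (2 * g + 2) k,
    ← Finset.prod_Ico_consecutive _ h1 (h2.trans h3), ← Finset.prod_Ico_consecutive _ h2 h3]

lemma sup2_aux_diff (g : ℕ) (k : ℤ) :
    (1 / 2) * (sup2_aux_Psi g k * (tau (2 * g + 1) k - (2 / (m : ℝ)) * tau (g / m) k)) ≤
      Phi g k - Phi (g + 1) k := by
  rw [sup2_aux_Phi_eq, sup2_aux_Phi_succ]
  have hm1 : 1 ≤ m := m_pos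
  have h1 := sup2_aux_one_sub_pow (x := tau (2 * g + 1) k) (M := (m : ℝ)) (n := m) rfl hm1
    (sup2_aux_tau_nonneg _ _) (sup2_aux_tau_le_one _ _)
  have h2 : (1 - tau (2 * g + 2) k / (m : ℝ)) ^ m ≤ 1 :=
    pow_le_one₀ (sup2_aux_factor _ k).1 (sup2_aux_factor _ k).2
  have h2' : 0 ≤ (1 - tau (2 * g + 2) k / (m : ℝ)) ^ m := pow_nonneg (sup2_aux_factor _ k).1 _
  have h3 : 0 ≤ 1 - tau (2 * g + 1) k / 2 := by
    have := sup2_aux_tau_le_one (2 * g + 1) k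
    linarith
  have h4 : (1 - tau (2 * g + 1) k / (m : ℝ)) ^ m * (1 - tau (2 * g + 2) k / (m : ℝ)) ^ m ≤
      1 - tau (2 * g + 1) k / 2 := by
    calc _ ≤ (1 - tau (2 * g + 1) k / 2) * 1 := mul_le_mul h1 h2 h2' h3
      _ = _ := mul_one _
  have h5 := mul_le_mul_of_nonneg_left h4 (sup2_aux_Psi_nonneg g k)
  have h6 : (1 - tau (g / m) k / (m : ℝ)) * sup2_aux_Psi g k -
      sup2_aux_Psi g k * (1 - tau (2 * g + 1) k / 2) =
      (1 / 2) * (sup2_aux_Psi g k * (tau (2 * g + 1) k - (2 / (m : ℝ)) * tau (g / m) k)) := by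
    ring
  linarith

/-- module SUP2: monotonicity -/
theorem super_step (g : ℕ) (F : ℤ → ℝ) (hF : ∀ k, 0 ≤ F k) (hs : Summable F)
    (hw : ∀ Ψ : ℤ → ℝ, (∀ k, 0 ≤ Ψ k) → (∀ k, Ψ k ≤ 1) →
      (∀ k, Ψ (k + 2 ^ v (2 * g + 1)) = Ψ k) →
      0 ≤ ∑' k : ℤ, Ψ k * (tau (2 * g + 1) k - (2 / (m : ℝ)) * tau (g / m) k) * F k) :
    ∑' k : ℤ, Phi (g + 1) k * F k ≤ ∑' k : ℤ, Phi g k * F k := by
  have hS : ∀ (c : ℤ → ℝ) (B : ℝ), (∀ k, |c k| ≤ B) → Summable fun k => c k * F k := by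
    intro c B hc
    refine Summable.of_norm_bounded (hs.mul_left B) fun k => ?_
    rw [norm_mul, Real.norm_eq_abs, Real.norm_eq_abs, abs_of_nonneg (hF k)]
    exact mul_le_mul_of_nonneg_right (hc k) (hF k)
  have hP : ∀ g', Summable fun k => Phi g' k * F k := by
    intro g'
    refine hS _ 1 fun k => ?_
    rw [abs_of_nonneg (sup2_aux_Phi_nonneg g' k)]
    exact sup2_aux_Phi_le_one g' k
  have hm2 : (0 : ℝ) ≤ 2 / (m : ℝ) ∧ 2 / (m : ℝ) ≤ 1 := by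
    have h : (2 : ℝ) ≤ (m : ℝ) := by norm_num [m]
    have h0 : (0 : ℝ) ≤ (m : ℝ) := by linarith
    exact ⟨div_nonneg (by norm_num) h0, div_le_one_of_le₀ h h0⟩
  have hW : Summable fun k => sup2_aux_Psi g k *
      (tau (2 * g + 1) k - (2 / (m : ℝ)) * tau (g / m) k) * F k := by
    refine hS _ 1 fun k => ?_
    have h1 := sup2_aux_tau_nonneg (2 * g + 1) k
    have h2 := sup2_aux_tau_le_one (2 * g + 1) k
    have h3 := sup2_aux_tau_nonneg (g / m) k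
    have h4 := sup2_aux_tau_le_one (g / m) k
    have h5 : 0 ≤ (2 / (m : ℝ)) * tau (g / m) k := mul_nonneg hm2.1 h3
    have h6 : (2 / (m : ℝ)) * tau (g / m) k ≤ 1 := by
      calc (2 / (m : ℝ)) * tau (g / m) k ≤ 1 * 1 := mul_le_mul hm2.2 h4 h3 zero_le_one
        _ = 1 := one_mul 1
    have h7 : |tau (2 * g + 1) k - (2 / (m : ℝ)) * tau (g / m) k| ≤ 1 := by
      rw [abs_le]
      constructor <;> linarith
    rw [abs_mul, abs_of_nonneg (sup2_aux_Psi_nonneg g k)]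
    calc _ ≤ 1 * 1 := mul_le_mul (sup2_aux_Psi_le_one g k) h7 (abs_nonneg _) zero_le_one
      _ = 1 := one_mul 1
  have h0 := hw (sup2_aux_Psi g) (sup2_aux_Psi_nonneg g) (sup2_aux_Psi_le_one g)
    (sup2_aux_Psi_per g)
  have h1 : ∑' k : ℤ, (1 / 2) * (sup2_aux_Psi g k *
      (tau (2 * g + 1) k - (2 / (m : ℝ)) * tau (g / m) k) * F k) ≤
      ∑' k : ℤ, (Phi g k * F k - Phi (g + 1) k * F k) := by
    refine Summable.tsum_le_tsum (fun k => ?_) (hW.mul_left _) ((hP g).sub (hP (g + 1)))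
    have h2 := mul_le_mul_of_nonneg_right (sup2_aux_diff g k) (hF k)
    calc _ = (1 / 2) * (sup2_aux_Psi g k *
        (tau (2 * g + 1) k - (2 / (m : ℝ)) * tau (g / m) k)) * F k := by ring
      _ ≤ (Phi g k - Phi (g + 1) k) * F k := h2
      _ = _ := by ring
  rw [tsum_mul_left, (hP g).tsum_sub (hP (g + 1))] at h1
  linarith

end Pool.Agent.Fug
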