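import Pool.Agent.Fug.PhiDef

set_option autoImplicit false

open MeasureTheory Filter Topology Finset

namespace Pool.Agent.Fug

lemma sup3_aux_L_pos : (0 : ℝ) < (L : ℝ) := by norm_num [L]

lemma sup3_aux_m_pos : (0 : ℝ) < (m : ℝ) := by exact_mod_cast m_pos

lemma sup3_aux_one_le_m : (1 : ℝ) ≤ (m : ℝ) := by exact_mod_cast m_pos

lemma sup3_aux_tau_nonneg (j : ℕ) (k : ℤ) : 0 ≤ tau j k := by
  unfold tau
  have := sup3_aux_L_pos
  positivity

lemma sup3_aux_tau_le_of {j : ℕ} {k : ℤ} {B : ℝ}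
    (h : ∀ l ∈ Finset.Icc 1 L, Real.sin (Real.pi * ((k : ℝ) * (l : ℝ) * tt j)) ^ 2 ≤ B) :
    tau j k ≤ B := by
  unfold tau
  have hL := sup3_aux_L_pos
  have h1 := Finset.sum_le_card_nsmul (Finset.Icc 1 L) _ B h
  rw [Nat.card_Icc, Nat.add_sub_cancel, nsmul_eq_mul] at h1
  calc (1 / (L : ℝ)) * ∑ l ∈ Finset.Icc 1 L, Real.sin (Real.pi * ((k : ℝ) * (l : ℝ) * tt j)) ^ 2
      ≤ (1 / (L : ℝ)) * ((L : ℝ) * B) := mul_le_mul_of_nonneg_left h1 (by positivity)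
    _ = B := by field_simp

lemma sup3_aux_tau_le_one (j : ℕ) (k : ℤ) : tau j k ≤ 1 :=
  sup3_aux_tau_le_of (fun _ _ => Real.sin_sq_le_one _)

lemma sup3_aux_factor_nonneg (p : ℕ) (k : ℤ) : 0 ≤ 1 - tau p k / (m : ℝ) := by
  have h1 := sup3_aux_tau_le_one p k
  have h2 := sup3_aux_one_le_m
  have h3 : tau p k / (m : ℝ) ≤ 1 := by
    rw [div_le_one sup3_aux_m_pos]; linarith
  linarith

lemma sup3_aux_factor_le_one (p : ℕ) (k : ℤ) : 1 - tau p k / (m : ℝ) ≤ 1 := by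
  have h1 := sup3_aux_tau_nonneg p k
  have h2 := sup3_aux_m_pos
  have : 0 ≤ tau p k / (m : ℝ) := by positivity
  linarith

lemma sup3_aux_Phi_nonneg (g : ℕ) (k : ℤ) : 0 ≤ Phi g k :=
  Finset.prod_nonneg (fun _ _ => sup3_aux_factor_nonneg _ _)

lemma sup3_aux_Phi_le_one (g : ℕ) (k : ℤ) : Phi g k ≤ 1 :=
  Finset.prod_le_one (fun _ _ => sup3_aux_factor_nonneg _ _) (fun _ _ => sup3_aux_factor_le_one _ _)

lemma sup3_aux_one_sub_sum {ι : Type*} (s : Finset ι) (x : ι → ℝ) (h0 : ∀ i, 0 ≤ x i)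
    (h1 : ∀ i, x i ≤ 1) : 1 - ∑ i ∈ s, x i ≤ ∏ i ∈ s, (1 - x i) := by
  classical
  induction s using Finset.induction_on with
  | empty => simp
  | insert a s ha ih =>
    rw [Finset.sum_insert ha, Finset.prod_insert ha]
    have h2 : ∏ i ∈ s, (1 - x i) ≤ 1 :=
      Finset.prod_le_one (fun i _ => by linarith [h1 i]) (fun i _ => by linarith [h0 i])
    nlinarith [h0 a, h1 a]

lemma sup3_aux_tt_le (p : ℕ) : tt p ≤ 1 / 2 ^ p := by
  unfold tt
  apply one_div_le_one_div_of_le (by positivity)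
  exact pow_le_pow_right₀ (by norm_num) (by have := le_v p; omega)

/-- quadratic bound for `τ` -/
lemma sup3_aux_tau_sq (p : ℕ) (k : ℤ) :
    tau p k ≤ (Real.pi * (|(k : ℝ)| * L)) ^ 2 * (1 / 2 ^ p) ^ 2 := by
  apply sup3_aux_tau_le_of
  intro l hl
  rw [Finset.mem_Icc] at hl
  have h1 : |Real.sin (Real.pi * ((k : ℝ) * (l : ℝ) * tt p))|
      ≤ |Real.pi * ((k : ℝ) * (l : ℝ) * tt p)| := Real.abs_sin_le_abs
  have h2 : |Real.pi * ((k : ℝ) * (l : ℝ) * tt p)| ≤ Real.pi * (|(k : ℝ)| * L) * (1 / 2 ^ p) := by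
    rw [abs_mul, abs_mul, abs_mul, abs_of_pos Real.pi_pos, abs_of_pos (tt_pos p),
      abs_of_nonneg (Nat.cast_nonneg l : (0 : ℝ) ≤ (l : ℝ))]
    have h3 : (l : ℝ) ≤ (L : ℝ) := by exact_mod_cast hl.2
    have h4 := sup3_aux_tt_le p
    have h5 := (tt_pos p).le
    have h6 := Real.pi_pos.le
    have h7 := abs_nonneg (k : ℝ)
    calc Real.pi * (|(k : ℝ)| * (l : ℝ) * tt p)
        ≤ Real.pi * (|(k : ℝ)| * (L : ℝ) * (1 / 2 ^ p)) := by gcongr
      _ = Real.pi * (|(k : ℝ)| * L) * (1 / 2 ^ p) := by ring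
  rw [← mul_pow, ← sq_abs]
  exact pow_le_pow_left₀ (abs_nonneg _) (h1.trans h2) 2

lemma sup3_aux_summable (k : ℤ) : Summable (fun g : ℕ => tau (g / m) k / (m : ℝ)) := by
  have hm := sup3_aux_m_pos
  set C : ℝ := (Real.pi * (|(k : ℝ)| * L)) ^ 2 with hC
  have hC0 : 0 ≤ C := by positivity
  have hS : Summable (fun g : ℕ => C * ((m : ℝ) ^ 2 * (1 / ((g + 1 : ℕ) : ℝ) ^ 2)) / (m : ℝ)) := by
    apply Summable.div_const
    apply Summable.mul_left
    apply Summable.mul_left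
    exact (summable_nat_add_iff 1).mpr (Real.summable_one_div_nat_pow.mpr (by norm_num))
  refine Summable.of_nonneg_of_le (fun g => ?_) (fun g => ?_) hS
  · have := sup3_aux_tau_nonneg (g / m) k
    positivity
  · apply div_le_div_of_nonneg_right _ hm.le
    refine (sup3_aux_tau_sq (g / m) k).trans ?_
    apply mul_le_mul_of_nonneg_left _ hC0
    -- (1/2^p)^2 ≤ m² / (g+1)²
    set p := g / m with hp
    have h1 : p + 1 ≤ 2 ^ p := Nat.lt_two_pow_self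
    have h2 : g + 1 ≤ m * (p + 1) := by
      have := Nat.lt_mul_div_succ g m_pos
      rw [hp]; exact this
    have h3 : ((g + 1 : ℕ) : ℝ) ≤ (m : ℝ) * 2 ^ p := by
      have : g + 1 ≤ m * 2 ^ p := h2.trans (Nat.mul_le_mul_left m h1)
      exact_mod_cast this
    have h4 : (1 : ℝ) / 2 ^ p ≤ (m : ℝ) * (1 / ((g + 1 : ℕ) : ℝ)) := by
      rw [mul_one_div, div_le_div_iff₀ (by positivity) (by positivity)]
      linarith
    calc (1 / 2 ^ p : ℝ) ^ 2 ≤ ((m : ℝ) * (1 / ((g + 1 : ℕ) : ℝ))) ^ 2 :=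
          pow_le_pow_left₀ (by positivity) h4 2
      _ = (m : ℝ) ^ 2 * (1 / ((g + 1 : ℕ) : ℝ) ^ 2) := by ring

lemma sup3_aux_Phi_lower (g : ℕ) (k : ℤ) :
    1 - ∑' i : ℕ, tau ((i + g) / m) k / (m : ℝ) ≤ Phi g k := by
  have h1 := sup3_aux_one_sub_sum (Finset.Ico g (m * (2 * g + 1)))
    (fun g' => tau (g' / m) k / (m : ℝ))
    (fun g' => div_nonneg (sup3_aux_tau_nonneg _ _) sup3_aux_m_pos.le)
    (fun g' => by linarith [sup3_aux_factor_nonneg (g' / m) k])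
  refine le_trans ?_ h1
  have h2 : ∑ g' ∈ Finset.Ico g (m * (2 * g + 1)), tau (g' / m) k / (m : ℝ)
      ≤ ∑' i : ℕ, tau ((i + g) / m) k / (m : ℝ) := by
    rw [Finset.sum_Ico_eq_sum_range]
    have h3 : ∀ i, tau ((g + i) / m) k / (m : ℝ) = tau ((i + g) / m) k / (m : ℝ) := by
      intro i; rw [Nat.add_comm]
    rw [Finset.sum_congr rfl (fun i _ => h3 i)]
    apply Summable.sum_le_tsum
    · intro i _
      exact div_nonneg (sup3_aux_tau_nonneg _ _) sup3_aux_m_pos.le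
    · exact (summable_nat_add_iff (f := fun i : ℕ => tau (i / m) k / (m : ℝ)) g).mpr
        (sup3_aux_summable k)
  linarith

lemma sup3_aux_Phi_tendsto (k : ℤ) : Tendsto (fun g => Phi g k) atTop (𝓝 1) := by
  have h1 : Tendsto (fun g : ℕ => 1 - ∑' i : ℕ, tau ((i + g) / m) k / (m : ℝ)) atTop (𝓝 (1 - 0)) :=
    (tendsto_sum_nat_add (fun i : ℕ => tau (i / m) k / (m : ℝ))).const_sub 1
  rw [sub_zero] at h1
  exact tendsto_of_tendsto_of_tendsto_of_le_of_le h1 tendsto_const_nhds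
    (fun g => sup3_aux_Phi_lower g k) (fun g => sup3_aux_Phi_le_one g k)

/-- module SUP3: limit -/
theorem Phi_tendsto (F : ℤ → ℝ) (hF : ∀ k, 0 ≤ F k) (hs : HasSum F 1) :
    Tendsto (fun g => ∑' k : ℤ, Phi g k * F k) atTop (𝓝 1) := by
  have h1 : (1 : ℝ) = ∑' k : ℤ, (1 : ℝ) * F k := by
    simp only [one_mul]; exact hs.tsum_eq.symm
  rw [h1]
  refine tendsto_tsum_of_dominated_convergence (bound := F) hs.summable ?_ ?_
  · intro k
    exact (sup3_aux_Phi_tendsto k).mul_const _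
  · refine Eventually.of_forall (fun g k => ?_)
    rw [Real.norm_eq_abs, abs_of_nonneg (mul_nonneg (sup3_aux_Phi_nonneg g k) (hF k))]
    exact mul_le_of_le_one_left (hF k) (sup3_aux_Phi_le_one g k)

lemma sup3_aux_tau_zero_pos (k : ℤ) (hk : ¬ Even k) : 0 < tau 0 k := by
  have hL := sup3_aux_L_pos
  unfold tau
  apply mul_pos (by positivity)
  apply Finset.sum_pos' (fun l _ => by positivity)
  refine ⟨1, by simp [L], ?_⟩
  rw [sq_pos_iff]
  intro h0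
  rw [Real.sin_eq_zero_iff] at h0
  obtain ⟨n, hn⟩ := h0
  have h1 : (n : ℝ) = (k : ℝ) * 1 * tt 0 := by
    have hpi := Real.pi_ne_zero
    have : (n : ℝ) * Real.pi = ((k : ℝ) * 1 * tt 0) * Real.pi := by
      rw [hn]; push_cast; ring
    exact mul_right_cancel₀ hpi this
  unfold tt at h1
  rw [v_zero] at h1
  have h2 : (k : ℝ) = (n : ℝ) * 2 ^ (0 + 24) := by
    rw [h1]; field_simp
  have h3 : k = n * 2 ^ (0 + 24) := by exact_mod_cast h2
  apply hk
  rw [h3]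
  exact ⟨n * 2 ^ 23, by ring⟩

/-- module SUP4: initial value -/
theorem Phi_zero_lt (F : ℤ → ℝ) (hF : ∀ k, 0 ≤ F k) (hs : HasSum F 1)
    (h0 : ∀ k, Even k → F k = 0) : ∑' k : ℤ, Phi 0 k * F k < 1 := by
  have hsum : Summable (fun k : ℤ => Phi 0 k * F k) := by
    refine Summable.of_nonneg_of_le (fun k => mul_nonneg (sup3_aux_Phi_nonneg 0 k) (hF k))
      (fun k => mul_le_of_le_one_left (hF k) (sup3_aux_Phi_le_one 0 k)) hs.summable
  have hex : ∃ k, F k ≠ 0 := by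
    by_contra hcon
    push Not at hcon
    have : F = fun _ => 0 := funext hcon
    rw [this] at hs
    exact zero_ne_one (hasSum_zero.unique hs)
  obtain ⟨k₀, hk₀⟩ := hex
  have hpos : 0 < F k₀ := lt_of_le_of_ne (hF k₀) (Ne.symm hk₀)
  have hodd : ¬ Even k₀ := fun h => hk₀ (h0 k₀ h)
  have hPhi : Phi 0 k₀ < 1 := by
    have h1 := sup3_aux_tau_zero_pos k₀ hodd
    have hmem : 0 ∈ Finset.Ico 0 (m * (2 * 0 + 1)) := by
      rw [Finset.mem_Ico]
      exact ⟨le_refl _, by have := m_pos; omega⟩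
    unfold Phi
    rw [← Finset.mul_prod_erase _ _ hmem, Nat.zero_div]
    have h2 : ∏ x ∈ (Finset.Ico 0 (m * (2 * 0 + 1))).erase 0, (1 - tau (x / m) k₀ / (m : ℝ)) ≤ 1 :=
      Finset.prod_le_one (fun _ _ => sup3_aux_factor_nonneg _ _)
        (fun _ _ => sup3_aux_factor_le_one _ _)
    have h3 : 1 - tau 0 k₀ / (m : ℝ) < 1 := by
      have : 0 < tau 0 k₀ / (m : ℝ) := div_pos h1 sup3_aux_m_pos
      linarith
    calc (1 - tau 0 k₀ / (m : ℝ)) * _ ≤ (1 - tau 0 k₀ / (m : ℝ)) * 1 :=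
          mul_le_mul_of_nonneg_left h2 (sup3_aux_factor_nonneg 0 k₀)
      _ < 1 := by linarith
  calc ∑' k : ℤ, Phi 0 k * F k < ∑' k : ℤ, F k := by
        refine Summable.tsum_lt_tsum (i := k₀) (fun k => ?_) ?_ hsum hs.summable
        · exact mul_le_of_le_one_left (hF k) (sup3_aux_Phi_le_one 0 k)
        · exact mul_lt_of_lt_one_left hpos hPhi
    _ = 1 := hs.tsum_eq

end Pool.Agent.Fug
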