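import Pool.Agent.Fug.Sup1
import Pool.Agent.Fug.Sup2
import Pool.Agent.Fug.Sup3

set_option autoImplicit false

open MeasureTheory Filter Topology Finset

namespace Pool.Agent.Fug

/-- module SUP: contradiction -/
theorem super (F : ℤ → ℝ) (hF : ∀ k, 0 ≤ F k) (hs : HasSum F 1) (h0 : ∀ k, Even k → F k = 0)
    (hPC : ∀ (g : ℕ) (κ : ℤ), 0 ≤ ∑' k : ℤ, if ((2 : ℤ) ^ v (2 * g + 1) ∣ k - κ) then
      (tau (2 * g + 1) k - (2 / (m : ℝ)) * tau (g / m) κ) * F k else 0) : False := by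
  have hmono : Antitone (fun g : ℕ => ∑' k : ℤ, Phi g k * F k) := by
    apply antitone_nat_of_succ_le
    intro g
    exact super_step g F hF hs.summable (fun Ψ h1 h2 h3 =>
      pc_weighted g F hF hs.summable (hPC g) Ψ h1 h2 h3)
  have h1 := hmono.le_of_tendsto (Phi_tendsto F hF hs) 0
  have h2 := Phi_zero_lt F hF hs h0
  exact absurd h1 (not_le.mpr h2)

end Pool.Agent.Fug
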