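import Pool.Agent.Fug.PC3
import Pool.Agent.Fug.Super

set_option autoImplicit false

open MeasureTheory Finset

namespace Pool.Agent.Fug

lemma core_aux_e_int (n : ℤ) : e (n : ℝ) = 1 := by
  unfold e
  rw [Complex.exp_eq_one_iff]
  exact ⟨n, by push_cast; ring⟩

lemma core_aux_even (f : UnitAddCircle → ℝ)
    (h1 : ∀ᵐ z ∂hT, f (z + ((be 0 : ℝ) : UnitAddCircle)) = -f z) (k : ℤ) (hk : Even k) :
    fourierCoeff (fun z => (f z : ℂ)) k = 0 := by
  obtain ⟨n, hn⟩ := hk
  have h2 := fourierCoeff_translate (fun z => (f z : ℂ)) (be 0) k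
  have h3 : fourierCoeff (fun z : UnitAddCircle => (f (z + ((be 0 : ℝ) : UnitAddCircle)) : ℂ)) k
      = - fourierCoeff (fun z => (f z : ℂ)) k := by
    unfold fourierCoeff
    rw [← integral_neg]
    apply integral_congr_ae
    filter_upwards [h1] with z hz
    simp only [hz, Complex.ofReal_neg, smul_neg]
  have h4 : e ((k : ℝ) * be 0) = 1 := by
    have : (k : ℝ) * be 0 = ((n : ℤ) : ℝ) := by
      rw [be_zero, hn]; push_cast; ring
    rw [this, core_aux_e_int]
  rw [h4, one_mul] at h2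
  have h5 : fourierCoeff (fun z => (f z : ℂ)) k = - fourierCoeff (fun z => (f z : ℂ)) k := by
    rw [← h3]; exact h2.symm
  have h6 : (2 : ℂ) * fourierCoeff (fun z => (f z : ℂ)) k = 0 := by
    linear_combination h5
  simpa using h6

/-- module CORE: no family of functions on the circle satisfies all relations -/
theorem core (f : UnitAddCircle → ℝ) (h1 : ∀ᵐ z ∂hT, f (z + ((be 0 : ℝ) : UnitAddCircle)) = -f z)
    (hg : ∀ g : ℕ, ∃ σ₁ σ₂ : UnitAddCircle → ℝ, GroupRel g f σ₁ σ₂) : False := by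
  obtain ⟨τ₁, τ₂, h0⟩ := hg 0
  have hm := pc3_aux_meas h0
  have hb := pc3_aux_bound h0
  have hnorm : ∀ z, ‖(f z : ℂ)‖ = 1 := by
    intro z
    rw [Complex.norm_real, Real.norm_eq_abs]
    rcases h0.vf z with h | h <;> rw [h] <;> norm_num
  have hP := pars (fun z => (f z : ℂ)) hm hb
  have hint : ∫ z, ‖(f z : ℂ)‖ ^ 2 ∂hT = 1 := by
    simp only [hnorm]
    simp
  rw [hint] at hP
  refine super (fun k => ‖fourierCoeff (fun z => (f z : ℂ)) k‖ ^ 2) (fun k => by positivity) hP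
    (fun k hk => ?_) (fun g κ => ?_)
  · rw [core_aux_even f h1 k hk]; simp
  · obtain ⟨σ₁, σ₂, h⟩ := hg g
    exact h.pc κ

end Pool.Agent.Fug
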