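import Pool.Agent.Fug.Basic

set_option autoImplicit false

open MeasureTheory Filter Topology Finset

namespace Pool.Agent.Fug

lemma dsum_aux_be_le (j : ℕ) : be j ≤ (1 / 2 : ℝ) ^ j := by
  unfold be
  rw [one_div_pow]
  apply one_div_le_one_div_of_le (by positivity)
  apply pow_le_pow_right₀ (by norm_num)
  have := le_v j
  omega

lemma dsum_aux_tt_le (j : ℕ) : tt j ≤ (1 / 2 : ℝ) ^ j := by
  unfold tt
  rw [one_div_pow]
  apply one_div_le_one_div_of_le (by positivity)
  apply pow_le_pow_right₀ (by norm_num)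
  have := le_v j
  omega

lemma dsum_aux_div : Summable (fun g : ℕ => (1 / 2 : ℝ) ^ (g / m)) := by
  have hm : (0 : ℝ) < (m : ℝ) := by exact_mod_cast m_pos
  set r : ℝ := (1 / 2 : ℝ) ^ ((1 : ℝ) / m) with hr
  have hr0 : 0 < r := Real.rpow_pos_of_pos (by norm_num) _
  have hr1 : r < 1 := Real.rpow_lt_one (by norm_num) (by norm_num) (by positivity)
  refine Summable.of_nonneg_of_le (fun g => by positivity) (fun g => ?_)
    ((summable_geometric_of_lt_one hr0.le hr1).mul_left 2)
  have h1 : r ^ g = (1 / 2 : ℝ) ^ ((g : ℝ) / m) := by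
    rw [hr, ← Real.rpow_natCast, ← Real.rpow_mul (by norm_num)]
    congr 1
    ring
  rw [h1]
  have h2 : ((g : ℝ) / m) ≤ ((g / m : ℕ) : ℝ) + 1 := by
    rw [div_le_iff₀ hm]
    have h3 := Nat.lt_mul_div_succ g m_pos
    have h4 : (g : ℝ) < (m : ℝ) * ((g / m : ℕ) + 1 : ℕ) := by exact_mod_cast h3
    push_cast at h4
    nlinarith
  have h3 : (1 / 2 : ℝ) ^ (((g / m : ℕ) : ℝ) + 1) ≤ (1 / 2 : ℝ) ^ ((g : ℝ) / m) :=
    Real.rpow_le_rpow_of_exponent_ge (by norm_num) (by norm_num) h2
  rw [Real.rpow_add (by norm_num), Real.rpow_one, Real.rpow_natCast] at h3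
  linarith

/-- module DSUM: the displacements are summable -/
theorem D_bound : ∃ c : ℕ → ℝ, Summable c ∧ ∀ g i, |D g i| ≤ c g := by
  refine ⟨fun g => be (2 * g + 1) + be (2 * g + 2) + tt (g / m), ?_, ?_⟩
  · have h0 : Summable (fun g : ℕ => (1 / 2 : ℝ) ^ g) :=
      summable_geometric_of_lt_one (by norm_num) (by norm_num)
    apply Summable.add
    · apply Summable.add
      · refine Summable.of_nonneg_of_le (fun g => (be_pos _).le) (fun g => ?_) h0
        refine (dsum_aux_be_le _).trans ?_
        exact pow_le_pow_of_le_one (by norm_num) (by norm_num) (by omega)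
      · refine Summable.of_nonneg_of_le (fun g => (be_pos _).le) (fun g => ?_) h0
        refine (dsum_aux_be_le _).trans ?_
        exact pow_le_pow_of_le_one (by norm_num) (by norm_num) (by omega)
    · exact Summable.of_nonneg_of_le (fun g => (tt_pos _).le) (fun g => dsum_aux_tt_le _) dsum_aux_div
  · intro g i
    have h1 := be_pos (2 * g + 1)
    have h2 := be_pos (2 * g + 2)
    have h3 := tt_pos (g / m)
    unfold D
    rw [abs_of_nonneg]
    · split_ifs <;> linarith
    · split_ifs <;> linarith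

end Pool.Agent.Fug
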