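import Mathlib

set_option autoImplicit false

open MeasureTheory Filter Topology Finset

namespace Pool.Agent.Fug

/-! # Definitions for the disproof of the generalized Fuglede conjecture (MP_005a77_an, S03660) -/

/-- `e x = exp (2 π i x)`, written exactly as in the frozen statement. -/
noncomputable def e (x : ℝ) : ℂ := Complex.exp (2 * (Real.pi : ℂ) * Complex.I * (x : ℂ))

/-- exponents `v_j`: `v 0 = 0`, `v (j+1) = v j + 50 j + 25`. -/
def v (j : ℕ) : ℕ := 25 * j ^ 2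

/-- number of groups below a node -/
def m : ℕ := 2 ^ 42

/-- the label scale -/
def N : ℕ := 2 ^ 24

/-- window length in the energy argument -/
def L : ℕ := 2 ^ 13

/-- `β_j = 2^{-v_j-1}` -/
noncomputable def be (j : ℕ) : ℝ := 1 / 2 ^ (v j + 1)

/-- `t_j = 2^{-v_j-24}` -/
noncomputable def tt (j : ℕ) : ℝ := 1 / 2 ^ (v j + 24)

/-- displacement of group `g` (labels `2g+1`, `2g+2`; parent node `g / m`). -/
noncomputable def D (g : ℕ) (i : Bool × Bool) : ℝ :=
  (if i.1 then be (2 * g + 1) else 0) + (if i.2 then be (2 * g + 2) else 0) +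
    (if xor i.1 i.2 then tt (g / m) else 0)

/-- uniform probability measure on `Bool × Bool` -/
noncomputable def unifBB : Measure (Bool × Bool) :=
  (4 : ENNReal)⁻¹ • (Measure.dirac (false, false) + Measure.dirac (false, true)
    + Measure.dirac (true, false) + Measure.dirac (true, true))

instance : IsProbabilityMeasure unifBB := by
  constructor
  have h : (4 : ENNReal)⁻¹ * (1 + 1 + 1 + 1) = 1 := by
    rw [show (1 + 1 + 1 + 1 : ENNReal) = 4 by norm_num]
    exact ENNReal.inv_mul_cancel (by norm_num) (by norm_num)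
  simpa [unifBB, mul_add] using h

/-- law of `∑ₙ d n (ω n)` with `ω n` i.i.d. uniform on `Bool × Bool`. -/
noncomputable def lawOf (d : ℕ → Bool × Bool → ℝ) : Measure ℝ :=
  (Measure.infinitePi (fun _ : ℕ => unifBB)).map (fun ω : ℕ → Bool × Bool => ∑' n, d n (ω n))

/-- average of `e (ξ d(i))` over `i`. -/
noncomputable def A (d : Bool × Bool → ℝ) (ξ : ℝ) : ℂ := (1 / 4) * ∑ i : Bool × Bool, e (ξ * d i)

/-- uniform measure on `{0, 1/2}` -/
noncomputable def root : Measure ℝ :=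
  (2 : ENNReal)⁻¹ • (Measure.dirac (0 : ℝ) + Measure.dirac (1 / 2 : ℝ))

instance : IsProbabilityMeasure root := by
  constructor
  have h : (2 : ENNReal)⁻¹ * (1 + 1) = 1 := by
    rw [show (1 + 1 : ENNReal) = 2 by norm_num]
    exact ENNReal.inv_mul_cancel (by norm_num) (by norm_num)
  simpa [root, mul_add] using h

/-- THE measure. -/
noncomputable def muF : Measure ℝ := (root.prod (lawOf D)).map (fun p : ℝ × ℝ => p.1 + p.2)

/-- `Γ_g(ξ) = |A (D g) ξ|²`. -/
noncomputable def Gam (g : ℕ) (ξ : ℝ) : ℝ :=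
  Real.cos (Real.pi * (ξ * tt (g / m))) ^ 2 * Real.cos (Real.pi * (ξ * be (2 * g + 1))) ^ 2
      * Real.cos (Real.pi * (ξ * be (2 * g + 2))) ^ 2
    + Real.sin (Real.pi * (ξ * tt (g / m))) ^ 2 * Real.sin (Real.pi * (ξ * be (2 * g + 1))) ^ 2
      * Real.sin (Real.pi * (ξ * be (2 * g + 2))) ^ 2

/-- the frequency attached to a finite set of nodes. -/
noncomputable def lam (S : Finset ℕ) : ℝ := ∑ j ∈ S, (2 : ℝ) ^ v j

/-- `|μ̂_G(ξ + λ_S)|²` -/
noncomputable def Pr (ξ : ℝ) (G : ℕ) (S : Finset ℕ) : ℝ :=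
  Real.cos (Real.pi * ((ξ + lam S) / 2)) ^ 2 * ∏ g ∈ range G, Gam g (ξ + lam S)

/-- real-valued indicator -/
noncomputable def ind (E : Set ℝ) (x : ℝ) : ℝ := E.indicator (fun _ => (1 : ℝ)) x

/-- multiplier `τ_j(k) = (1/L) ∑_{l=1}^L sin²(π k l t_j)` -/
noncomputable def tau (j : ℕ) (k : ℤ) : ℝ :=
  (1 / (L : ℝ)) * ∑ l ∈ Finset.Icc 1 L, Real.sin (Real.pi * ((k : ℝ) * (l : ℝ) * tt j)) ^ 2

/-- Haar probability measure on the circle `ℝ/ℤ` -/
noncomputable abbrev hT : Measure UnitAddCircle := AddCircle.haarAddCircle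

/-- class projection: `C(z) = 2^{-a} ∑_{u<2^a} f(z+u/2^a) e(-κ u/2^a)`; its Fourier coefficients are those of
`f` at the `k ≡ κ mod 2^a`, and `0` elsewhere. -/
noncomputable def proj (a : ℕ) (κ : ℤ) (f : UnitAddCircle → ℂ) (z : UnitAddCircle) : ℂ :=
  (1 / (2 : ℂ) ^ a) * ∑ u ∈ range (2 ^ a),
    f (z + (((u : ℝ) / 2 ^ a : ℝ) : UnitAddCircle)) * e (-((κ : ℝ) * ((u : ℝ) / 2 ^ a)))

end Pool.Agent.Fug
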