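import Pool.Agent.Fug.Labels

set_option autoImplicit false

open MeasureTheory Filter Topology Finset

namespace Pool.Agent.Fug

lemma shift_aux {a : ℝ} {Q E₀ : Set ℝ} {g : ℕ} {E : Set ℝ} (h : Tile a Q E₀ g E) (c : ℝ)
    (i i' : Bool × (Bool × Bool)) (hc : bI g i' = bI g i + c) :
    ∀ᵐ x, ind E (rep a Q x - bI g i) = 1 → f0 a Q E₀ (x + c) = sgn i'.1 := by
  have h1 : ∀ᵐ y : ℝ, ∀ i : Bool × (Bool × Bool), (y + c) - bI g i ∈ E → (y + c) ∈ Q :=
    (measurePreserving_add_right volume c).quasiMeasurePreserving.ae (label_mem h)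
  have h2 : ∀ᵐ y : ℝ, (y + c) ∈ Q → ∃ i₀ : Bool × (Bool × Bool),
      (∀ i, ind E ((y + c) - bI g i) = if i = i₀ then 1 else 0) ∧
      ind E₀ (y + c) - ind E₀ ((y + c) - 1 / 2) = sgn i₀.1 :=
    (measurePreserving_add_right volume c).quasiMeasurePreserving.ae (label_unique h)
  filter_upwards [ae_rep h.hFD h1, ae_rep h.hFD h2] with x hx1 hx2 hx
  have h3 : rep a Q x + c - bI g i' = rep a Q x - bI g i := by rw [hc]; ring
  have h4 : rep a Q x + c - bI g i' ∈ E := by
    rw [h3]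
    exact labels_aux_ind_eq_one hx
  have h5 := hx1 i' h4
  obtain ⟨i₀, h6, h7⟩ := hx2 h5
  have h8 : rep a Q (x + c) = rep a Q x + c := by
    apply rep_unique h.hFD _ _ h5
    obtain ⟨_, k, hk⟩ := rep_spec h.hFD x
    refine ⟨k, ?_⟩
    rw [hk]
    ring
  have h9 : i' = i₀ := by
    by_contra hne
    have := h6 i'
    rw [if_neg hne, labels_aux_ind_mem h4] at this
    norm_num at this
  unfold f0
  rw [h8, h7, h9]

lemma shift_aux_sgn_one {b : Bool} (h : sgn b = 1) : b = false := by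
  cases b
  · rfl
  · unfold sgn at h
    norm_num at h

lemma shift_aux_sgn_neg {b : Bool} (h : sgn b = -1) : b = true := by
  cases b
  · unfold sgn at h
    norm_num at h
  · rfl

/-- module SHIFT1 -/
theorem shift1 {a : ℝ} {Q E₀ : Set ℝ} {g : ℕ} {E : Set ℝ} (h : Tile a Q E₀ g E) (s : ℝ)
    (hs : s = 1 ∨ s = -1) :
    ∀ᵐ x, sg1 a Q g E x = 1 → sg2 a Q g E x = s →
      f0 a Q E₀ (x + (be (2 * g + 1) + s * tt (g / m))) = f0 a Q E₀ x := by
  have hall : ∀ r b : Bool, ∀ᵐ x, ind E (rep a Q x - bI g (r, (false, b))) = 1 →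
      f0 a Q E₀ (x + (be (2 * g + 1) + sgn b * tt (g / m))) = sgn r := by
    intro r b
    refine shift_aux h _ (r, (false, b)) (r, (true, b)) ?_
    unfold bI D
    cases b <;> simp [sgn] <;> ring
  filter_upwards [label_rep h, hall true true, hall true false, hall false true,
    hall false false] with x hx h1 h2 h3 h4 hs1 hs2
  obtain ⟨⟨r, ⟨b1, b2⟩⟩, h5, h6, h7, h8⟩ := hx
  simp only at h6 h7 h8
  have hb1 : b1 = false := shift_aux_sgn_one (h7.symm.trans hs1)
  subst hb1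
  have hs3 : s = sgn b2 := hs2.symm.trans h8
  have h9 := h5 (r, (false, b2))
  rw [if_pos rfl] at h9
  rw [h6, hs3]
  cases r <;> cases b2
  · exact h4 h9
  · exact h3 h9
  · exact h2 h9
  · exact h1 h9

/-- module SHIFT2 -/
theorem shift2 {a : ℝ} {Q E₀ : Set ℝ} {g : ℕ} {E : Set ℝ} (h : Tile a Q E₀ g E) (s : ℝ)
    (hs : s = 1 ∨ s = -1) :
    ∀ᵐ x, sg2 a Q g E x = 1 → sg1 a Q g E x = s →
      f0 a Q E₀ (x + (be (2 * g + 2) + s * tt (g / m))) = f0 a Q E₀ x := by
  have hall : ∀ r b : Bool, ∀ᵐ x, ind E (rep a Q x - bI g (r, (b, false))) = 1 →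
      f0 a Q E₀ (x + (be (2 * g + 2) + sgn b * tt (g / m))) = sgn r := by
    intro r b
    refine shift_aux h _ (r, (b, false)) (r, (b, true)) ?_
    unfold bI D
    cases b <;> simp [sgn] <;> ring
  filter_upwards [label_rep h, hall true true, hall true false, hall false true,
    hall false false] with x hx h1 h2 h3 h4 hs1 hs2
  obtain ⟨⟨r, ⟨b1, b2⟩⟩, h5, h6, h7, h8⟩ := hx
  simp only at h6 h7 h8
  have hb2 : b2 = false := shift_aux_sgn_one (h8.symm.trans hs1)
  subst hb2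
  have hs3 : s = sgn b1 := hs2.symm.trans h7
  have h9 := h5 (r, (b1, false))
  rw [if_pos rfl] at h9
  rw [h6, hs3]
  cases r <;> cases b1
  · exact h4 h9
  · exact h3 h9
  · exact h2 h9
  · exact h1 h9

end Pool.Agent.Fug
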