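import Pool.Agent.Fug.Tiles
import Pool.Agent.Fug.AntiB
import Pool.Agent.Fug.Shift
import Pool.Agent.Fug.Circ2
import Pool.Agent.Fug.Core

set_option autoImplicit false

open MeasureTheory Finset

namespace Pool.Agent.Fug

lemma nottile_aux_sgn (b : Bool) : sgn b = 1 ∨ sgn b = -1 := by
  cases b
  · left; simp [sgn]
  · right; simp [sgn]

lemma nottile_aux_circle {a : ℝ} {Q E₀ : Set ℝ} {g : ℕ} {E : Set ℝ} (h : Tile a Q E₀ g E) :
    GroupRel g (circ (f0 a Q E₀)) (circ (sg1 a Q g E)) (circ (sg2 a Q g E)) ∧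
      ∀ᵐ z ∂hT, circ (f0 a Q E₀) (z + ((be 0 : ℝ) : UnitAddCircle)) = -circ (f0 a Q E₀) z := by
  obtain ⟨mf, m1, m2⟩ := measurable_f0 h
  refine to_circle g (f0 a Q E₀) (sg1 a Q g E) (sg2 a Q g E) mf m1 m2 ?_ ?_ ?_ (anti_f0 h)
    (anti_sg1 h) (anti_sg2 h) (fun s hs => shift1 h s hs) (fun s hs => shift2 h s hs)
  · filter_upwards [label_rep h] with x hx
    obtain ⟨i₀, -, h1, -, -⟩ := hx
    rw [h1]; exact nottile_aux_sgn _
  · filter_upwards [label_rep h] with x hx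
    obtain ⟨i₀, -, -, h1, -⟩ := hx
    rw [h1]; exact nottile_aux_sgn _
  · filter_upwards [label_rep h] with x hx
    obtain ⟨i₀, -, -, -, h1⟩ := hx
    rw [h1]; exact nottile_aux_sgn _

/-- module NOTTILE: `muF` is not a factor of Lebesgue measure on a fundamental domain -/
theorem not_tile : ¬ ∃ ν : Measure ℝ, IsProbabilityMeasure ν ∧
    ∃ a : ℝ, 0 < a ∧ ∃ Q : Set ℝ, MeasurableSet Q ∧
      (∀ x : ℝ, ∃! k : ℤ, x + (k : ℝ) * a ∈ Q) ∧
      (muF.prod ν).map (fun p : ℝ × ℝ => p.1 + p.2)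
        = (ENNReal.ofReal a)⁻¹ • volume.restrict Q := by
  rintro ⟨ν, hν, a, ha, Q, hQ, hFD, hmap⟩
  obtain ⟨E₀, hE₀, h0, hg⟩ := tiles ν a ha Q hQ hmap
  have hFD' : FD a Q := ⟨ha, hQ, hFD⟩
  have htile : ∀ g : ℕ, ∃ E : Set ℝ, Tile a Q E₀ g E := by
    intro g
    obtain ⟨E, hE, hEg⟩ := hg g
    exact ⟨E, hFD', hE₀, hE, h0, hEg⟩
  obtain ⟨E', hE'⟩ := htile 0
  refine core (circ (f0 a Q E₀)) (nottile_aux_circle hE').2 (fun g => ?_)
  obtain ⟨E, hE⟩ := htile g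
  exact ⟨_, _, (nottile_aux_circle hE).1⟩

end Pool.Agent.Fug
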