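import Pool.Agent.Fug.Proj

set_option autoImplicit false

open MeasureTheory Filter Topology Finset

namespace Pool.Agent.Fug

/-- the relations on the circle for one group `g` -/
structure GroupRel (g : ℕ) (f σ₁ σ₂ : UnitAddCircle → ℝ) : Prop where
  mf : Measurable f
  m1 : Measurable σ₁
  m2 : Measurable σ₂
  vf : ∀ z, f z = 1 ∨ f z = -1
  v1 : ∀ z, σ₁ z = 1 ∨ σ₁ z = -1
  v2 : ∀ z, σ₂ z = 1 ∨ σ₂ z = -1
  a1 : ∀ᵐ z ∂hT, σ₁ (z + ((be (2 * g + 1) : ℝ) : UnitAddCircle)) = -σ₁ z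
  a2 : ∀ᵐ z ∂hT, σ₂ (z + ((be (2 * g + 2) : ℝ) : UnitAddCircle)) = -σ₂ z
  r1 : ∀ s : ℝ, (s = 1 ∨ s = -1) → ∀ᵐ z ∂hT, σ₁ z = 1 → σ₂ z = s →
    f (z + ((be (2 * g + 1) + s * tt (g / m) : ℝ) : UnitAddCircle)) = f z
  r2 : ∀ s : ℝ, (s = 1 ∨ s = -1) → ∀ᵐ z ∂hT, σ₂ z = 1 → σ₁ z = s →
    f (z + ((be (2 * g + 2) + s * tt (g / m) : ℝ) : UnitAddCircle)) = f z

/-- the projection used for group `g` and class `κ` -/
noncomputable def CC (g : ℕ) (κ : ℤ) (f : UnitAddCircle → ℝ) : UnitAddCircle → ℂ :=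
  proj (v (2 * g + 1)) κ (fun z => (f z : ℂ))

/-- translates of a null set are null -/
theorem group_ae_shift {p : UnitAddCircle → Prop} (h : ∀ᵐ z ∂hT, p z) (T : UnitAddCircle) :
    ∀ᵐ z ∂hT, p (z + T) :=
  (measurePreserving_add_right (hT : Measure UnitAddCircle) T).quasiMeasurePreserving.ae h

/-- a periodic function is invariant under multiples of the period -/
theorem group_ae_zsmul {σ : UnitAddCircle → ℝ} {T : UnitAddCircle}
    (h : ∀ᵐ z ∂hT, σ (z + T) = σ z) (n : ℤ) : ∀ᵐ z ∂hT, σ (z + n • T) = σ z := by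
  have hnat : ∀ n : ℕ, ∀ᵐ z ∂hT, σ (z + n • T) = σ z := by
    intro n
    induction n with
    | zero => simp
    | succ n ih =>
      filter_upwards [ih, group_ae_shift h (n • T)] with z h1 h2
      rw [succ_nsmul, ← add_assoc, h2, h1]
  obtain ⟨k, hk | hk⟩ := n.eq_nat_or_neg
  · subst hk
    simpa using hnat k
  · subst hk
    filter_upwards [group_ae_shift (hnat k) (-(k • T))] with z h1
    rw [neg_add_cancel_right] at h1
    rw [neg_smul, natCast_zsmul, ← h1]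

/-- an antiperiodic function is periodic with the double period -/
theorem group_ae_anti {σ : UnitAddCircle → ℝ} {T : UnitAddCircle}
    (h : ∀ᵐ z ∂hT, σ (z + T) = -σ z) : ∀ᵐ z ∂hT, σ (z + (T + T)) = σ z := by
  filter_upwards [h, group_ae_shift h T] with z h1 h2
  rw [← add_assoc, h2, h1, neg_neg]

/-- the period `2 be j = 2^{-v j}` and its multiples -/
theorem group_ae_be {σ : UnitAddCircle → ℝ} {j : ℕ}
    (h : ∀ᵐ z ∂hT, σ (z + ((be j : ℝ) : UnitAddCircle)) = -σ z) (n : ℤ) :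
    ∀ᵐ z ∂hT, σ (z + (((n : ℝ) / 2 ^ v j : ℝ) : UnitAddCircle)) = σ z := by
  have h1 := group_ae_zsmul (group_ae_anti h) n
  have h2 : (((n : ℝ) / 2 ^ v j : ℝ) : UnitAddCircle)
      = n • (((be j : ℝ) : UnitAddCircle) + ((be j : ℝ) : UnitAddCircle)) := by
    rw [← AddCircle.coe_add, ← AddCircle.coe_zsmul]
    congr 1
    rw [zsmul_eq_mul]
    unfold be
    rw [pow_succ]
    field_simp
    ring
  rw [h2]
  exact h1

/-- module GRP1: `σ₁` is invariant under multiples of `2^{-v(2g+1)}`, `σ₂` under multiples of `2^{-v(2g+2)}`,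
in particular under multiples of `tt (2g+1)` and of `be (2g+1)`. -/
theorem GroupRel.inv {g : ℕ} {f σ₁ σ₂ : UnitAddCircle → ℝ} (h : GroupRel g f σ₁ σ₂) (n : ℤ) :
    (∀ᵐ z ∂hT, σ₁ (z + (((n : ℝ) / 2 ^ v (2 * g + 1) : ℝ) : UnitAddCircle)) = σ₁ z) ∧
    (∀ᵐ z ∂hT, σ₂ (z + (((n : ℝ) / 2 ^ v (2 * g + 1) : ℝ) : UnitAddCircle)) = σ₂ z) ∧
    (∀ᵐ z ∂hT, σ₂ (z + (((n : ℝ) * tt (2 * g + 1) : ℝ) : UnitAddCircle)) = σ₂ z) := by
  refine ⟨group_ae_be h.a1 n, ?_, ?_⟩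
  · have h1 := group_ae_be h.a2 (n * 2 ^ (v (2 * g + 2) - v (2 * g + 1)))
    have hv := v_sib g
    have h2 : (((n * 2 ^ (v (2 * g + 2) - v (2 * g + 1)) : ℤ) : ℝ) / 2 ^ v (2 * g + 2) : ℝ)
        = (n : ℝ) / 2 ^ v (2 * g + 1) := by
      rw [div_eq_div_iff (by positivity) (by positivity)]
      push_cast
      rw [mul_assoc, ← pow_add]
      congr 2
      omega
    rw [h2] at h1
    exact h1
  · have h1 := group_ae_be h.a2 (n * 2 ^ (v (2 * g + 2) - v (2 * g + 1) - 24))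
    have hv := v_sib g
    have h2 : (((n * 2 ^ (v (2 * g + 2) - v (2 * g + 1) - 24) : ℤ) : ℝ) / 2 ^ v (2 * g + 2) : ℝ)
        = (n : ℝ) * tt (2 * g + 1) := by
      unfold tt
      rw [mul_one_div, div_eq_div_iff (by positivity) (by positivity)]
      push_cast
      rw [mul_assoc, ← pow_add]
      congr 2
      omega
    rw [h2] at h1
    exact h1

end Pool.Agent.Fug
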