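import Pool.Agent.Fug.Group

set_option autoImplicit false

open MeasureTheory Filter Topology Finset

namespace Pool.Agent.Fug

theorem grp2_e_add (x y : ℝ) : e (x + y) = e x * e y := by
  unfold e
  rw [← Complex.exp_add]
  congr 1
  push_cast
  ring

theorem grp2_e_neg_mul (x : ℝ) : e (-x) * e x = 1 := by
  rw [← grp2_e_add, neg_add_cancel]
  simp [e]

/-- the shift `s * tt (g/m)` as a multiple of `2^{-v(2g+1)}` -/
theorem grp2_tt (g : ℕ) (s : ℝ) (hs : s = 1 ∨ s = -1) :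
    ∃ n : ℤ, s * tt (g / m) = (n : ℝ) / 2 ^ v (2 * g + 1) := by
  have h := pow_mul_tt (parent_lt g)
  have hp : (0 : ℝ) < 2 ^ v (2 * g + 1) := by positivity
  rcases hs with rfl | rfl
  · refine ⟨2 ^ (v (2 * g + 1) - v (g / m) - 24), ?_⟩
    rw [eq_div_iff hp.ne']
    push_cast
    rw [← h]
    ring
  · refine ⟨-2 ^ (v (2 * g + 1) - v (g / m) - 24), ?_⟩
    rw [eq_div_iff hp.ne']
    push_cast
    rw [← h]
    ring

/-- a shift relation valid for all `z + u/2^a` passes to the projection -/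
theorem grp2_proj_eq (a : ℕ) (κ : ℤ) (f : UnitAddCircle → ℂ) (z T : UnitAddCircle)
    (h : ∀ u ∈ range (2 ^ a), f (z + (((u : ℝ) / 2 ^ a : ℝ) : UnitAddCircle) + T)
      = f (z + (((u : ℝ) / 2 ^ a : ℝ) : UnitAddCircle))) :
    proj a κ f (z + T) = proj a κ f z := by
  unfold proj
  congr 1
  refine Finset.sum_congr rfl fun u hu => ?_
  rw [add_right_comm, h u hu]

/-- module GRP2: relations of `C` under the shift by `be (2g+1)`, `σ₁ = 1` -/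
theorem GroupRel.C_plus {g : ℕ} {f σ₁ σ₂ : UnitAddCircle → ℝ} (h : GroupRel g f σ₁ σ₂) (κ : ℤ)
    (s : ℝ) (hs : s = 1 ∨ s = -1) :
    ∀ᵐ z ∂hT, σ₁ z = 1 → σ₂ z = s →
      CC g κ f (z + ((be (2 * g + 1) : ℝ) : UnitAddCircle))
        = e (-(s * ((κ : ℝ) * tt (g / m)))) * CC g κ f z := by
  have h1 : ∀ᵐ z ∂hT, ∀ u : ℕ,
      σ₁ (z + (((u : ℝ) / 2 ^ v (2 * g + 1) : ℝ) : UnitAddCircle)) = σ₁ z ∧
      σ₂ (z + (((u : ℝ) / 2 ^ v (2 * g + 1) : ℝ) : UnitAddCircle)) = σ₂ z ∧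
      (σ₁ (z + (((u : ℝ) / 2 ^ v (2 * g + 1) : ℝ) : UnitAddCircle)) = 1 →
        σ₂ (z + (((u : ℝ) / 2 ^ v (2 * g + 1) : ℝ) : UnitAddCircle)) = s →
        f (z + (((u : ℝ) / 2 ^ v (2 * g + 1) : ℝ) : UnitAddCircle) +
          ((be (2 * g + 1) + s * tt (g / m) : ℝ) : UnitAddCircle))
        = f (z + (((u : ℝ) / 2 ^ v (2 * g + 1) : ℝ) : UnitAddCircle))) := by
    rw [ae_all_iff]
    intro u
    have hi := h.inv (u : ℤ)
    have hr := group_ae_shift (h.r1 s hs) (((u : ℝ) / 2 ^ v (2 * g + 1) : ℝ) : UnitAddCircle)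
    filter_upwards [hi.1, hi.2.1, hr] with z a1 a2 a3
    rw [Int.cast_natCast] at a1 a2
    exact ⟨a1, a2, a3⟩
  filter_upwards [h1] with z hz hz1 hz2
  obtain ⟨n, hn⟩ := grp2_tt g s hs
  have h2 : CC g κ f (z + ((be (2 * g + 1) + s * tt (g / m) : ℝ) : UnitAddCircle))
      = CC g κ f z := by
    refine grp2_proj_eq _ _ _ _ _ fun u _ => ?_
    obtain ⟨b1, b2, b3⟩ := hz u
    rw [b3 (by rw [b1, hz1]) (by rw [b2, hz2])]
  have h3 : CC g κ f (z + ((be (2 * g + 1) + s * tt (g / m) : ℝ) : UnitAddCircle))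
      = e (s * ((κ : ℝ) * tt (g / m)))
        * CC g κ f (z + ((be (2 * g + 1) : ℝ) : UnitAddCircle)) := by
    rw [AddCircle.coe_add, ← add_assoc, hn]
    have h4 := proj_shift (v (2 * g + 1)) κ (fun z => (f z : ℂ)) n
      (z + ((be (2 * g + 1) : ℝ) : UnitAddCircle))
    have h5 : s * ((κ : ℝ) * tt (g / m)) = (κ : ℝ) * ((n : ℝ) / 2 ^ v (2 * g + 1)) := by
      rw [← hn]; ring
    rw [h5]
    exact h4
  rw [← h2, h3, ← mul_assoc, grp2_e_neg_mul, one_mul]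

/-- module GRP3: relations of `C` under the shift by `be (2g+1)`, `σ₁ = -1` -/
theorem GroupRel.C_minus {g : ℕ} {f σ₁ σ₂ : UnitAddCircle → ℝ} (h : GroupRel g f σ₁ σ₂) (κ : ℤ)
    (s : ℝ) (hs : s = 1 ∨ s = -1) :
    ∀ᵐ z ∂hT, σ₁ z = -1 → σ₂ z = s →
      CC g κ f (z + ((be (2 * g + 1) : ℝ) : UnitAddCircle))
        = e ((κ : ℝ) / 2 ^ v (2 * g + 1) + s * ((κ : ℝ) * tt (g / m))) * CC g κ f z := by
  have h1 := group_ae_shift (h.C_plus κ s hs) (-((be (2 * g + 1) : ℝ) : UnitAddCircle))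
  have h2 := group_ae_shift h.a1 (-((be (2 * g + 1) : ℝ) : UnitAddCircle))
  have h3 := (h.inv (-2 ^ 23)).2.2
  have hbe : ((((-2 ^ 23 : ℤ) : ℝ) * tt (2 * g + 1) : ℝ) : UnitAddCircle)
      = -((be (2 * g + 1) : ℝ) : UnitAddCircle) := by
    rw [← AddCircle.coe_neg]
    congr 1
    unfold tt be
    have h4 : (2 : ℝ) ^ (v (2 * g + 1) + 24) = 2 ^ (v (2 * g + 1) + 1) * 2 ^ 23 := by
      rw [← pow_add]
    rw [h4]
    push_cast
    field_simp
    norm_num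
  rw [hbe] at h3
  filter_upwards [h1, h2, h3] with z a1 a2 a3 hz1 hz2
  rw [neg_add_cancel_right] at a1 a2
  have b1 : σ₁ (z + -((be (2 * g + 1) : ℝ) : UnitAddCircle)) = 1 := by
    rw [hz1] at a2
    linarith
  have b2 := a1 b1 (by rw [a3, hz2])
  have b3 := proj_shift (v (2 * g + 1)) κ (fun z => (f z : ℂ)) 1
      (z + -((be (2 * g + 1) : ℝ) : UnitAddCircle))
  have b4 : z + -((be (2 * g + 1) : ℝ) : UnitAddCircle)
      + ((((1 : ℤ) : ℝ) / 2 ^ v (2 * g + 1) : ℝ) : UnitAddCircle)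
      = z + ((be (2 * g + 1) : ℝ) : UnitAddCircle) := by
    have h5 : (((1 : ℤ) : ℝ) / 2 ^ v (2 * g + 1) : ℝ) = be (2 * g + 1) + be (2 * g + 1) := by
      unfold be
      rw [pow_succ]
      push_cast
      field_simp
      norm_num
    rw [h5, AddCircle.coe_add]
    abel
  rw [b4] at b3
  have b5 : CC g κ f (z + ((be (2 * g + 1) : ℝ) : UnitAddCircle))
      = e ((κ : ℝ) * (((1 : ℤ) : ℝ) / 2 ^ v (2 * g + 1))) *
        CC g κ f (z + -((be (2 * g + 1) : ℝ) : UnitAddCircle)) := b3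
  rw [b5, b2, grp2_e_add]
  have b6 : (κ : ℝ) * (((1 : ℤ) : ℝ) / 2 ^ v (2 * g + 1)) = (κ : ℝ) / 2 ^ v (2 * g + 1) := by
    push_cast; ring
  rw [b6]
  have b7 := grp2_e_neg_mul (s * ((κ : ℝ) * tt (g / m)))
  linear_combination (-(e ((κ : ℝ) / 2 ^ v (2 * g + 1)) *
    CC g κ f (z + -((be (2 * g + 1) : ℝ) : UnitAddCircle)))) * b7

end Pool.Agent.Fug
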