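import Pool.Agent.Fug.Group

set_option autoImplicit false

open MeasureTheory Filter Topology Finset

namespace Pool.Agent.Fug

theorem grp4_norm_e (x : ℝ) : ‖e x‖ = 1 := by
  have h : (2 * (Real.pi : ℂ) * Complex.I * (x : ℂ)) = ((2 * Real.pi * x : ℝ) : ℂ) * Complex.I := by
    push_cast; ring
  unfold e
  rw [h, Complex.norm_exp_ofReal_mul_I]

/-- the shift `s * tt (g/m)` as a multiple of `2^{-v(2g+1)}` -/
theorem grp4_tt (g : ℕ) (s : ℝ) (hs : s = 1 ∨ s = -1) :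
    ∃ n : ℤ, s * tt (g / m) = (n : ℝ) / 2 ^ v (2 * g + 1) := by
  have h := pow_mul_tt (parent_lt g)
  have hp : (0 : ℝ) < 2 ^ v (2 * g + 1) := by positivity
  rcases hs with rfl | rfl
  · refine ⟨2 ^ (v (2 * g + 1) - v (g / m) - 24), ?_⟩
    rw [eq_div_iff hp.ne']
    push_cast
    rw [← h]
    ring
  · refine ⟨-2 ^ (v (2 * g + 1) - v (g / m) - 24), ?_⟩
    rw [eq_div_iff hp.ne']
    push_cast
    rw [← h]
    ring

/-- a shift relation valid for all `z + u/2^a` passes to the projection -/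
theorem grp4_proj_eq (a : ℕ) (κ : ℤ) (f : UnitAddCircle → ℂ) (z T : UnitAddCircle)
    (h : ∀ u ∈ range (2 ^ a), f (z + (((u : ℝ) / 2 ^ a : ℝ) : UnitAddCircle) + T)
      = f (z + (((u : ℝ) / 2 ^ a : ℝ) : UnitAddCircle))) :
    proj a κ f (z + T) = proj a κ f z := by
  unfold proj
  congr 1
  refine Finset.sum_congr rfl fun u hu => ?_
  rw [add_right_comm, h u hu]

/-- module GRP4: norm relation under the shift by `be (2g+2)` -/
theorem GroupRel.C_norm {g : ℕ} {f σ₁ σ₂ : UnitAddCircle → ℝ} (h : GroupRel g f σ₁ σ₂) (κ : ℤ) :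
    ∀ᵐ z ∂hT, σ₂ z = 1 →
      ‖CC g κ f (z + ((be (2 * g + 2) : ℝ) : UnitAddCircle))‖ = ‖CC g κ f z‖ := by
  have key : ∀ s : ℝ, (s = 1 ∨ s = -1) → ∀ᵐ z ∂hT, σ₂ z = 1 → σ₁ z = s →
      ‖CC g κ f (z + ((be (2 * g + 2) : ℝ) : UnitAddCircle))‖ = ‖CC g κ f z‖ := by
    intro s hs
    have h1 : ∀ᵐ z ∂hT, ∀ u : ℕ,
        σ₁ (z + (((u : ℝ) / 2 ^ v (2 * g + 1) : ℝ) : UnitAddCircle)) = σ₁ z ∧
        σ₂ (z + (((u : ℝ) / 2 ^ v (2 * g + 1) : ℝ) : UnitAddCircle)) = σ₂ z ∧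
        (σ₂ (z + (((u : ℝ) / 2 ^ v (2 * g + 1) : ℝ) : UnitAddCircle)) = 1 →
          σ₁ (z + (((u : ℝ) / 2 ^ v (2 * g + 1) : ℝ) : UnitAddCircle)) = s →
          f (z + (((u : ℝ) / 2 ^ v (2 * g + 1) : ℝ) : UnitAddCircle) +
            ((be (2 * g + 2) + s * tt (g / m) : ℝ) : UnitAddCircle))
          = f (z + (((u : ℝ) / 2 ^ v (2 * g + 1) : ℝ) : UnitAddCircle))) := by
      rw [ae_all_iff]
      intro u
      have hi := h.inv (u : ℤ)
      have hr := group_ae_shift (h.r2 s hs) (((u : ℝ) / 2 ^ v (2 * g + 1) : ℝ) : UnitAddCircle)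
      filter_upwards [hi.1, hi.2.1, hr] with z a1 a2 a3
      rw [Int.cast_natCast] at a1 a2
      exact ⟨a1, a2, a3⟩
    filter_upwards [h1] with z hz hz1 hz2
    obtain ⟨n, hn⟩ := grp4_tt g s hs
    have h2 : CC g κ f (z + ((be (2 * g + 2) + s * tt (g / m) : ℝ) : UnitAddCircle))
        = CC g κ f z := by
      refine grp4_proj_eq _ _ _ _ _ fun u _ => ?_
      obtain ⟨b1, b2, b3⟩ := hz u
      rw [b3 (by rw [b2, hz1]) (by rw [b1, hz2])]
    have h3 : CC g κ f (z + ((be (2 * g + 2) + s * tt (g / m) : ℝ) : UnitAddCircle))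
        = e ((κ : ℝ) * ((n : ℝ) / 2 ^ v (2 * g + 1)))
          * CC g κ f (z + ((be (2 * g + 2) : ℝ) : UnitAddCircle)) := by
      rw [AddCircle.coe_add, ← add_assoc, hn]
      exact proj_shift (v (2 * g + 1)) κ (fun z => (f z : ℂ)) n
        (z + ((be (2 * g + 2) : ℝ) : UnitAddCircle))
    rw [← h2, h3, norm_mul, grp4_norm_e, one_mul]
  filter_upwards [key 1 (Or.inl rfl), key (-1) (Or.inr rfl)] with z h1 h2 hz
  rcases h.v1 z with hs | hs
  · exact h1 hz hs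
  · exact h2 hz hs

theorem grp4_measurable_CC {g : ℕ} {f : UnitAddCircle → ℝ} (hf : Measurable f) (κ : ℤ) :
    Measurable (CC g κ f) :=
  measurable_proj _ _ _ (Complex.measurable_ofReal.comp hf)

theorem grp4_CC_le {g : ℕ} {f : UnitAddCircle → ℝ} (hf : ∀ z, f z = 1 ∨ f z = -1) (κ : ℤ)
    (z : UnitAddCircle) : ‖CC g κ f z‖ ≤ 1 := by
  refine norm_proj_le _ _ _ (fun z => ?_) z
  rcases hf z with h | h <;> simp [h]

theorem grp4_integrable {g : ℕ} {f : UnitAddCircle → ℝ} (hm : Measurable f)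
    (hf : ∀ z, f z = 1 ∨ f z = -1) (κ : ℤ) :
    Integrable (fun z => ‖CC g κ f z‖ ^ 2) hT := by
  refine Integrable.of_bound (C := 1)
    (((grp4_measurable_CC hm κ).norm.pow_const 2).aestronglyMeasurable) (ae_of_all _ fun z => ?_)
  have h1 := grp4_CC_le (g := g) hf κ z
  have h2 := norm_nonneg (CC g κ f z)
  rw [Real.norm_eq_abs, abs_of_nonneg (by positivity)]
  nlinarith

/-- module GRP5: balance -/
theorem GroupRel.balance {g : ℕ} {f σ₁ σ₂ : UnitAddCircle → ℝ} (h : GroupRel g f σ₁ σ₂) (κ : ℤ)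
    (s : ℝ) (hs : s = 1 ∨ s = -1) :
    ∫ z in {z | σ₂ z = s}, ‖CC g κ f z‖ ^ 2 ∂hT = (1 / 2) * ∫ z, ‖CC g κ f z‖ ^ 2 ∂hT := by
  have hms : ∀ s : ℝ, MeasurableSet {z | σ₂ z = s} := fun s =>
    measurableSet_eq_fun h.m2 measurable_const
  have hint := grp4_integrable (g := g) h.mf h.vf κ
  have heq : ∫ z in {z | σ₂ z = -1}, ‖CC g κ f z‖ ^ 2 ∂hT
      = ∫ z in {z | σ₂ z = 1}, ‖CC g κ f z‖ ^ 2 ∂hT := by
    rw [← integral_indicator (hms _), ← integral_indicator (hms _)]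
    rw [← integral_add_right_eq_self (μ := hT)
      ({z | σ₂ z = -1}.indicator fun z => ‖CC g κ f z‖ ^ 2)
      ((be (2 * g + 2) : ℝ) : UnitAddCircle)]
    refine integral_congr_ae ?_
    filter_upwards [h.a2, h.C_norm κ] with z h1 h2
    by_cases hz : σ₂ z = 1
    · have h3 : z + ((be (2 * g + 2) : ℝ) : UnitAddCircle) ∈ {z | σ₂ z = -1} := by
        change σ₂ _ = -1
        rw [h1, hz]
      have h4 : z ∈ {z | σ₂ z = 1} := hz
      rw [Set.indicator_of_mem h3, Set.indicator_of_mem h4, h2 hz]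
    · have h3 : z + ((be (2 * g + 2) : ℝ) : UnitAddCircle) ∉ {z | σ₂ z = -1} := by
        change ¬ (σ₂ _ = -1)
        rw [h1]
        intro h5
        exact hz (by linarith)
      have h4 : z ∉ {z | σ₂ z = 1} := hz
      rw [Set.indicator_of_notMem h3, Set.indicator_of_notMem h4]
  have hcompl : {z | σ₂ z = 1}ᶜ = {z | σ₂ z = -1} := by
    ext z
    simp only [Set.mem_compl_iff]
    change ¬ (σ₂ z = 1) ↔ σ₂ z = -1
    rcases h.v2 z with h1 | h1
    · rw [h1]; norm_num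
    · rw [h1]; norm_num
  have hsum := integral_add_compl (hms 1) hint
  rw [hcompl, heq] at hsum
  rcases hs with rfl | rfl
  · linarith
  · rw [heq]; linarith

end Pool.Agent.Fug
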