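import Pool.Agent.Fug.Basic

set_option autoImplicit false

open MeasureTheory Filter Topology Finset

namespace Pool.Agent.Fug

lemma hil_aux_cont : Continuous e := by
  unfold e
  fun_prop

lemma hil_aux_norm (t : ℝ) : ‖e t‖ = 1 := by
  unfold e
  have h : 2 * (Real.pi : ℂ) * Complex.I * (t : ℂ) = ((2 * Real.pi * t : ℝ) : ℂ) * Complex.I := by
    push_cast; ring
  rw [h, Complex.norm_exp_ofReal_mul_I]

lemma hil_aux_conj (t : ℝ) : (starRingEnd ℂ) (e t) = e (-t) := by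
  unfold e
  rw [← Complex.exp_conj]
  congr 1
  simp only [map_mul, Complex.conj_ofReal, Complex.conj_I, Complex.ofReal_neg]
  have h2 : (starRingEnd ℂ) 2 = 2 := map_ofNat _ 2
  rw [h2]
  ring

lemma hil_aux_add (x y : ℝ) : e (x + y) = e x * e y := by
  unfold e
  rw [← Complex.exp_add]
  congr 1
  push_cast
  ring

lemma hil_aux_mem (μ : Measure ℝ) [IsProbabilityMeasure μ] (a : ℝ) :
    MemLp (fun x : ℝ => e (a * x)) 2 μ := by
  refine MemLp.of_bound ?_ 1 (Eventually.of_forall fun x => (hil_aux_norm _).le)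
  exact (hil_aux_cont.comp (by fun_prop)).aestronglyMeasurable

/-- module HIL: approximate Parseval for every frequency implies that `f` is orthogonal to every exponential. -/
theorem hil (μ : Measure ℝ) [IsProbabilityMeasure μ] (Λ : Set ℝ)
    (horth : ∀ a ∈ Λ, ∀ b ∈ Λ, ∫ x, e ((a - b) * x) ∂μ = if a = b then (1 : ℂ) else 0)
    (hap : ∀ ξ : ℝ, ∀ ε : ℝ, 0 < ε → ∃ T : Finset ℝ, (∀ a ∈ T, a ∈ Λ) ∧
      1 - ε ≤ ∑ a ∈ T, ‖∫ x, e ((ξ + a) * x) ∂μ‖ ^ 2)
    (f : ℝ → ℂ) (hf : MemLp f 2 μ)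
    (h0 : ∀ a ∈ Λ, ∫ x, f x * e (-(a * x)) ∂μ = 0) (ξ : ℝ) :
    ∫ x, f x * e (ξ * x) ∂μ = 0 := by
  classical
  set E : ℝ → Lp ℂ 2 μ := fun a => (hil_aux_mem μ a).toLp with hE
  set F : Lp ℂ 2 μ := hf.toLp with hF
  have hinner : ∀ a b, inner ℂ (E a) (E b) = ∫ x, e ((b - a) * x) ∂μ := by
    intro a b
    rw [L2.inner_def]
    apply integral_congr_ae
    filter_upwards [(hil_aux_mem μ a).coeFn_toLp, (hil_aux_mem μ b).coeFn_toLp] with x hx hy
    rw [hx, hy, RCLike.inner_apply, hil_aux_conj, ← hil_aux_add]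
    congr 1
    ring
  have hinnerF : ∀ a, inner ℂ (E a) F = ∫ x, f x * e (-(a * x)) ∂μ := by
    intro a
    rw [L2.inner_def]
    apply integral_congr_ae
    filter_upwards [(hil_aux_mem μ a).coeFn_toLp, hf.coeFn_toLp] with x hx hy
    rw [hx, hy, RCLike.inner_apply, hil_aux_conj]
  have hnorm : ∀ a, ‖E a‖ ^ 2 = 1 := by
    intro a
    have h1 := hinner a a
    have h2 : ∫ x, e ((a - a) * x) ∂μ = 1 := by
      have h3 : ∀ x : ℝ, e ((a - a) * x) = 1 := by intro x; simp [e]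
      simp_rw [h3]
      simp
    rw [h2] at h1
    rw [← inner_self_eq_norm_sq (𝕜 := ℂ), h1]
    simp
  have hgoal : ∫ x, f x * e (ξ * x) ∂μ = inner ℂ (E (-ξ)) F := by
    rw [hinnerF]
    congr 1
    funext x
    congr 2
    ring
  rw [hgoal]
  by_cases hF0 : F = 0
  · rw [hF0, inner_zero_right]
  have hFn : 0 < ‖F‖ := norm_pos_iff.2 hF0
  -- the key estimate
  have key : ∀ ε : ℝ, 0 < ε → ‖inner ℂ (E (-ξ)) F‖ ^ 2 ≤ ε * ‖F‖ ^ 2 := by
    intro ε hε
    obtain ⟨T, hT, hsum⟩ := hap ξ ε hε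
    set w : Option T → Lp ℂ 2 μ := fun o => match o with
      | none => ((‖F‖⁻¹ : ℝ) : ℂ) • F
      | some a => E a with hw
    have hon : Orthonormal ℂ w := by
      constructor
      · intro o
        cases o with
        | none =>
          show ‖((‖F‖⁻¹ : ℝ) : ℂ) • F‖ = 1
          rw [norm_smul, Complex.norm_real, Real.norm_eq_abs, abs_of_pos (inv_pos.2 hFn),
            inv_mul_cancel₀ hFn.ne']
        | some a =>
          show ‖E a‖ = 1
          have h1 := hnorm a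
          exact (pow_eq_one_iff_of_nonneg (norm_nonneg _) two_ne_zero).1 h1
      · intro o o' hoo
        cases o with
        | none =>
          cases o' with
          | none => exact absurd rfl hoo
          | some a =>
            show inner ℂ (((‖F‖⁻¹ : ℝ) : ℂ) • F) (E a) = 0
            rw [inner_smul_left, ← inner_conj_symm, hinnerF, h0 a (hT a a.2)]
            simp
        | some a =>
          cases o' with
          | none =>
            show inner ℂ (E a) (((‖F‖⁻¹ : ℝ) : ℂ) • F) = 0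
            rw [inner_smul_right, hinnerF, h0 a (hT a a.2)]
            simp
          | some b =>
            show inner ℂ (E a) (E b) = 0
            rw [hinner, horth b (hT b b.2) a (hT a a.2), if_neg]
            intro hab
            exact hoo (congrArg some (Subtype.ext hab.symm))
    have hb := hon.sum_inner_products_le (E (-ξ)) (s := univ)
    rw [Fintype.sum_option, hnorm] at hb
    have h1 : ‖inner ℂ (w none) (E (-ξ))‖ ^ 2 = (‖F‖⁻¹) ^ 2 * ‖inner ℂ (E (-ξ)) F‖ ^ 2 := by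
      show ‖inner ℂ (((‖F‖⁻¹ : ℝ) : ℂ) • F) (E (-ξ))‖ ^ 2 = _
      rw [inner_smul_left, norm_mul, norm_inner_symm, mul_pow]
      congr 1
      simp
    have h2 : ∑ a : T, ‖inner ℂ (w (some a)) (E (-ξ))‖ ^ 2 = ∑ a ∈ T, ‖∫ x, e ((ξ + a) * x) ∂μ‖ ^ 2 := by
      rw [← Finset.sum_coe_sort T]
      apply Finset.sum_congr rfl
      intro a _
      show ‖inner ℂ (E a) (E (-ξ))‖ ^ 2 = _
      rw [norm_inner_symm, hinner]
      congr 3
      funext x
      congr 1
      ring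
    rw [h1, h2] at hb
    have h3 : (‖F‖⁻¹) ^ 2 * ‖inner ℂ (E (-ξ)) F‖ ^ 2 ≤ ε := by linarith
    rw [inv_pow, inv_mul_le_iff₀ (by positivity)] at h3
    linarith
  have h3 : ‖inner ℂ (E (-ξ)) F‖ ^ 2 ≤ 0 := by
    by_contra hcon
    push Not at hcon
    have h4 := key (‖inner ℂ (E (-ξ)) F‖ ^ 2 / (2 * ‖F‖ ^ 2)) (by positivity)
    have h5 : ‖inner ℂ (E (-ξ)) F‖ ^ 2 / (2 * ‖F‖ ^ 2) * ‖F‖ ^ 2 = ‖inner ℂ (E (-ξ)) F‖ ^ 2 / 2 := by
      field_simp
    rw [h5] at h4
    linarith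
  have h4 : ‖inner ℂ (E (-ξ)) F‖ ^ 2 = 0 := le_antisymm h3 (sq_nonneg _)
  exact norm_eq_zero.1 ((pow_eq_zero_iff two_ne_zero).1 h4)

end Pool.Agent.Fug
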