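import Pool.Agent.Fug.Basic

set_option autoImplicit false

open MeasureTheory Filter Topology Finset

namespace Pool.Agent.Fug

lemma inj_aux_cont : Continuous e := by
  unfold e
  fun_prop

lemma inj_aux_norm (t : ℝ) : ‖e t‖ = 1 := by
  unfold e
  have h : 2 * (Real.pi : ℂ) * Complex.I * (t : ℂ) = ((2 * Real.pi * t : ℝ) : ℂ) * Complex.I := by
    push_cast; ring
  rw [h, Complex.norm_exp_ofReal_mul_I]

lemma inj_aux_conj (t : ℝ) : (starRingEnd ℂ) (e t) = e (-t) := by
  unfold e
  rw [← Complex.exp_conj]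
  congr 1
  simp only [map_mul, Complex.conj_ofReal, Complex.conj_I, Complex.ofReal_neg]
  have h2 : (starRingEnd ℂ) 2 = 2 := map_ofNat _ 2
  rw [h2]
  ring

lemma inj_aux_real (μ : Measure ℝ) [IsFiniteMeasure μ] (g : ℝ → ℝ) (hg : Integrable g μ)
    (h : ∀ ξ : ℝ, ∫ x, (g x : ℂ) * e (ξ * x) ∂μ = 0) : g =ᵐ[μ] 0 := by
  have i1 : IsFiniteMeasure (μ.withDensity fun x => ENNReal.ofReal (g x)) :=
    isFiniteMeasure_withDensity_ofReal hg.hasFiniteIntegral
  have i2 : IsFiniteMeasure (μ.withDensity fun x => ENNReal.ofReal (-(g x))) :=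
    isFiniteMeasure_withDensity_ofReal hg.neg.hasFiniteIntegral
  have hm1 : AEMeasurable (fun x => ENNReal.ofReal (g x)) μ := hg.1.aemeasurable.ennreal_ofReal
  have hm2 : AEMeasurable (fun x => ENNReal.ofReal (-(g x))) μ := hg.1.aemeasurable.neg.ennreal_ofReal
  have hexp : ∀ t : ℝ, AEStronglyMeasurable (fun x : ℝ => Complex.exp (t * x * Complex.I)) μ := by
    intro t
    apply Continuous.aestronglyMeasurable
    fun_prop
  have hexpn : ∀ t : ℝ, ∀ᵐ x : ℝ ∂μ, ‖Complex.exp (t * x * Complex.I)‖ ≤ 1 := by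
    intro t
    refine Eventually.of_forall fun x => ?_
    have h1 : (t : ℂ) * (x : ℂ) = ((t * x : ℝ) : ℂ) := by push_cast; ring
    rw [h1, Complex.norm_exp_ofReal_mul_I]
  have heq : (μ.withDensity fun x => ENNReal.ofReal (g x)) =
      (μ.withDensity fun x => ENNReal.ofReal (-(g x))) := by
    apply Measure.ext_of_charFun
    funext t
    rw [charFun_apply_real, charFun_apply_real,
      integral_withDensity_eq_integral_toReal_smul₀ hm1 (by simp),
      integral_withDensity_eq_integral_toReal_smul₀ hm2 (by simp), ← sub_eq_zero,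
      ← integral_sub]
    · have h1 := h (t / (2 * Real.pi))
      rw [← h1]
      apply integral_congr_ae
      refine Eventually.of_forall fun x => ?_
      show (ENNReal.ofReal (g x)).toReal • Complex.exp (t * x * Complex.I) -
        (ENNReal.ofReal (-(g x))).toReal • Complex.exp (t * x * Complex.I) = (g x : ℂ) * e (t / (2 * Real.pi) * x)
      have h2 : e (t / (2 * Real.pi) * x) = Complex.exp (t * x * Complex.I) := by
        unfold e
        congr 1
        have hpi : (Real.pi : ℂ) ≠ 0 := by exact_mod_cast Real.pi_ne_zero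
        push_cast
        field_simp
      rw [h2, ← sub_smul, ENNReal.toReal_ofReal', ENNReal.toReal_ofReal']
      have h3 : max (g x) 0 - max (-(g x)) 0 = g x := by
        rcases le_total 0 (g x) with h4 | h4
        · rw [max_eq_left h4, max_eq_right (by linarith)]; ring
        · rw [max_eq_right h4, max_eq_left (by linarith)]; ring
      rw [h3]
      simp
    · refine (hg.pos_part.smul_bdd (f := fun x : ℝ => Complex.exp (t * x * Complex.I)) 1 (hexp t) (hexpn t)).congr ?_
      refine Eventually.of_forall fun x => ?_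
      simp [ENNReal.toReal_ofReal']
    · refine (hg.neg.pos_part.smul_bdd (f := fun x : ℝ => Complex.exp (t * x * Complex.I)) 1 (hexp t) (hexpn t)).congr ?_
      refine Eventually.of_forall fun x => ?_
      simp [ENNReal.toReal_ofReal']
  have h3 := (withDensity_eq_iff hm1 hm2 hg.lintegral_lt_top.ne).1 heq
  filter_upwards [h3] with x hx
  have h4 := congrArg ENNReal.toReal hx
  rw [ENNReal.toReal_ofReal', ENNReal.toReal_ofReal'] at h4
  show g x = 0
  rcases le_total 0 (g x) with h5 | h5
  · rw [max_eq_left h5, max_eq_right (by linarith)] at h4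
    exact h4
  · rw [max_eq_right h5, max_eq_left (by linarith)] at h4
    linarith

/-- module INJ: an integrable density with vanishing Fourier transform is zero. -/
theorem inj (μ : Measure ℝ) [IsFiniteMeasure μ] (f : ℝ → ℂ) (hf : Integrable f μ)
    (h : ∀ ξ : ℝ, ∫ x, f x * e (ξ * x) ∂μ = 0) : f =ᵐ[μ] 0 := by
  have hcont : ∀ ξ : ℝ, Continuous (fun x : ℝ => e (ξ * x)) := fun ξ =>
    inj_aux_cont.comp (by fun_prop)
  have hint : ∀ (g : ℝ → ℂ), Integrable g μ → ∀ ξ : ℝ, Integrable (fun x => g x * e (ξ * x)) μ := by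
    intro g hg ξ
    exact hg.mul_bdd (c := 1) (hcont ξ).aestronglyMeasurable (Eventually.of_forall fun x => (inj_aux_norm _).le)
  have hconj : ∀ ξ : ℝ, ∫ x, (starRingEnd ℂ) (f x) * e (ξ * x) ∂μ = 0 := by
    intro ξ
    have h1 := congrArg (starRingEnd ℂ) (h (-ξ))
    rw [← integral_conj, map_zero] at h1
    rw [← h1]
    congr 1
    funext x
    rw [map_mul, inj_aux_conj]
    congr 2
    ring
  have hfc : Integrable (fun x => (starRingEnd ℂ) (f x)) μ := by
    exact (LinearIsometryEquiv.integrable_comp_iff (Complex.conjLIE)).2 hf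
  have hre : (fun x => (f x).re) =ᵐ[μ] 0 := by
    apply inj_aux_real μ (fun x => (f x).re) hf.re
    intro ξ
    have h1 : ∀ x, (((f x).re : ℝ) : ℂ) * e (ξ * x) =
        (1 / 2) * (f x * e (ξ * x) + (starRingEnd ℂ) (f x) * e (ξ * x)) := by
      intro x
      rw [Complex.re_eq_add_conj]
      ring
    simp_rw [h1]
    rw [integral_const_mul, integral_add (hint f hf ξ) (hint _ hfc ξ), h, hconj]
    simp
  have him : (fun x => (f x).im) =ᵐ[μ] 0 := by
    apply inj_aux_real μ (fun x => (f x).im) hf.im
    intro ξ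
    have h1 : ∀ x, (((f x).im : ℝ) : ℂ) * e (ξ * x) =
        (1 / (2 * Complex.I)) * (f x * e (ξ * x) - (starRingEnd ℂ) (f x) * e (ξ * x)) := by
      intro x
      rw [Complex.im_eq_sub_conj]
      ring
    simp_rw [h1]
    rw [integral_const_mul, integral_sub (hint f hf ξ) (hint _ hfc ξ), h, hconj]
    simp
  filter_upwards [hre, him] with x h1 h2
  exact Complex.ext h1 h2

end Pool.Agent.Fug
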