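import Pool.Agent.Fug.Basic

set_option autoImplicit false

open MeasureTheory Filter Topology Finset

namespace Pool.Agent.Fug

lemma int1_aux_map (f : ℝ → ENNReal) (hf : Measurable f) (b : ℝ) :
    (volume.withDensity f).map (fun x => x + b) = volume.withDensity (fun x => f (x - b)) := by
  ext A hA
  have hmeas : Measurable (fun x : ℝ => x + b) := measurable_id.add_const b
  rw [Measure.map_apply hmeas hA, withDensity_apply _ (hmeas hA), withDensity_apply _ hA]
  rw [← lintegral_indicator (hmeas hA), ← lintegral_indicator hA]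
  rw [← lintegral_add_right_eq_self (μ := volume) (fun x => A.indicator (fun x => f (x - b)) x) b]
  congr 1
  ext x
  by_cases hx : x + b ∈ A
  · rw [Set.indicator_of_mem (by exact hx), Set.indicator_of_mem (by exact hx)]
    simp
  · rw [Set.indicator_of_notMem (by exact hx), Set.indicator_of_notMem (by exact hx)]

/-- module INT1: if a finite uniform convolution is absolutely continuous with density `c⁻¹ 1_E`, then so is `ρ`,
with a density `R · (card I)/c`, `0 ≤ R ≤ 1_E`, `∑ᵢ R(x - bᵢ) = 1_E(x)` a.e. -/
theorem integ_density {I : Type} [Fintype I] [DecidableEq I] (b : I → ℝ) (i₀ : I) (hb0 : b i₀ = 0)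
    (ρ : Measure ℝ) [IsProbabilityMeasure ρ] (c : ℝ) (hc : 0 < c) (E : Set ℝ)
    (hE : MeasurableSet E)
    (h : ∑ i : I, ((Fintype.card I : ENNReal)⁻¹) • ρ.map (fun x => x + b i)
      = (ENNReal.ofReal c)⁻¹ • volume.restrict E) :
    ∃ R : ℝ → ℝ, Measurable R ∧ (∀ x, 0 ≤ R x) ∧ (∀ x, R x ≤ 1) ∧ (∀ x, x ∉ E → R x = 0) ∧
      (∀ᵐ x, ∑ i : I, R (x - b i) = ind E x) ∧
      ρ = ((Fintype.card I : ENNReal) * (ENNReal.ofReal c)⁻¹) •
        volume.withDensity (fun x => ENNReal.ofReal (R x)) := by
  classical
  set K : ENNReal := (Fintype.card I : ENNReal) with hK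
  set C : ENNReal := (ENNReal.ofReal c)⁻¹ with hC
  have hK0 : K ≠ 0 := by
    rw [hK]
    have : 0 < Fintype.card I := Fintype.card_pos_iff.mpr ⟨i₀⟩
    exact_mod_cast this.ne'
  have hKt : K ≠ ⊤ := ENNReal.natCast_ne_top _
  have hC0 : C ≠ 0 := by
    rw [hC]
    exact ENNReal.inv_ne_zero.mpr ENNReal.ofReal_ne_top
  have hCt : C ≠ ⊤ := by
    rw [hC]
    exact ENNReal.inv_ne_top.mpr (by positivity)
  have hKC0 : K * C ≠ 0 := mul_ne_zero hK0 hC0
  have hKCt : K * C ≠ ⊤ := ENNReal.mul_ne_top hKt hCt
  -- domination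
  have hmap0 : ρ.map (fun x => x + b i₀) = ρ := by
    rw [hb0]
    simp
  have hle1 : K⁻¹ • ρ ≤ C • volume.restrict E := by
    rw [← h]
    have h1 : K⁻¹ • ρ.map (fun x => x + b i₀) ≤ ∑ i : I, K⁻¹ • ρ.map (fun x => x + b i) := by
      apply Measure.le_iff.mpr
      intro s hs
      rw [Measure.finsetSum_apply]
      exact Finset.single_le_sum (f := fun i => (K⁻¹ • ρ.map (fun x => x + b i)) s)
        (fun _ _ => zero_le) (Finset.mem_univ i₀)
    rwa [hmap0] at h1
  have hle : ∀ s, MeasurableSet s → ρ s ≤ (K * C) * volume (s ∩ E) := by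
    intro s hs
    have h2 := hle1 s
    rw [Measure.smul_apply, Measure.smul_apply, smul_eq_mul, smul_eq_mul,
      Measure.restrict_apply hs] at h2
    calc ρ s = K * (K⁻¹ * ρ s) := by
          rw [← mul_assoc, ENNReal.mul_inv_cancel hK0 hKt, one_mul]
      _ ≤ K * (C * volume (s ∩ E)) := by gcongr
      _ = _ := by rw [mul_assoc]
  have hac : ρ ≪ volume := by
    refine Measure.AbsolutelyContinuous.mk fun s hs hs0 => ?_
    have h3 := hle s hs
    have h4 : volume (s ∩ E) = 0 := measure_mono_null Set.inter_subset_left hs0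
    rw [h4, mul_zero] at h3
    exact le_antisymm h3 zero_le
  -- density
  set r : ℝ → ENNReal := ρ.rnDeriv volume with hr
  have hrm : Measurable r := Measure.measurable_rnDeriv _ _
  have hρr : volume.withDensity r = ρ := Measure.withDensity_rnDeriv_eq _ _ hac
  have hgm : Measurable (E.indicator (fun _ : ℝ => K * C)) := measurable_const.indicator hE
  have hrle : r ≤ᵐ[volume] E.indicator (fun _ : ℝ => K * C) := by
    refine ae_le_of_forall_setLIntegral_le_of_sigmaFinite hrm ?_
    intro s hs _
    rw [← withDensity_apply _ hs, hρr]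
    refine (hle s hs).trans ?_
    rw [lintegral_indicator hE, setLIntegral_const, Measure.restrict_apply hE, Set.inter_comm]
  -- definition of R
  let R : ℝ → ℝ := fun x => if r x ≤ E.indicator (fun _ : ℝ => K * C) x then (r x / (K * C)).toReal else 0
  have hRm : Measurable R := by
    refine Measurable.ite (measurableSet_le hrm hgm) ?_ measurable_const
    exact (hrm.div_const _).ennreal_toReal
  have hle1' : ∀ x, r x ≤ E.indicator (fun _ : ℝ => K * C) x → r x ≤ K * C := by
    intro x hx
    refine hx.trans ?_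
    by_cases hxE : x ∈ E
    · rw [Set.indicator_of_mem hxE]
    · rw [Set.indicator_of_notMem hxE]; exact zero_le
  have hR0 : ∀ x, 0 ≤ R x := by
    intro x
    simp only [R]
    split_ifs
    · exact ENNReal.toReal_nonneg
    · exact le_rfl
  have hdiv : ∀ x, r x ≤ K * C → r x / (K * C) ≤ 1 := by
    intro x hx
    exact ENNReal.div_le_of_le_mul (by rwa [one_mul])
  have hR1 : ∀ x, R x ≤ 1 := by
    intro x
    simp only [R]
    split_ifs with hx
    · have := ENNReal.toReal_mono ENNReal.one_ne_top (hdiv x (hle1' x hx))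
      simpa using this
    · norm_num
  have hRE : ∀ x, x ∉ E → R x = 0 := by
    intro x hx
    simp only [R]
    split_ifs with hxx
    · rw [Set.indicator_of_notMem hx] at hxx
      have : r x = 0 := le_antisymm hxx zero_le
      rw [this]
      simp
    · rfl
  have hRr : ∀ᵐ x, r x = (K * C) * ENNReal.ofReal (R x) := by
    filter_upwards [hrle] with x hx
    have hx' : r x ≤ E.indicator (fun _ : ℝ => K * C) x := hx
    simp only [R]
    rw [if_pos hx', ENNReal.ofReal_toReal]
    · rw [ENNReal.mul_div_cancel hKC0 hKCt]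
    · exact ne_top_of_le_ne_top ENNReal.one_ne_top (hdiv x (hle1' x hx'))
  have hRofm : Measurable (fun x => ENNReal.ofReal (R x)) := hRm.ennreal_ofReal
  have hρ : ρ = (K * C) • volume.withDensity (fun x => ENNReal.ofReal (R x)) := by
    rw [← withDensity_smul _ hRofm]
    conv_lhs => rw [← hρr]
    refine withDensity_congr_ae ?_
    filter_upwards [hRr] with x hx
    rw [hx]
    simp [smul_eq_mul]
  refine ⟨R, hRm, hR0, hR1, hRE, ?_, hρ⟩
  -- the sum
  have hmapi : ∀ i, ρ.map (fun x => x + b i)
      = (K * C) • volume.withDensity (fun x => ENNReal.ofReal (R (x - b i))) := by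
    intro i
    conv_lhs => rw [hρ]
    rw [Measure.map_smul, int1_aux_map _ hRofm]
  have hsum : C • volume.withDensity (fun x => ∑ i : I, ENNReal.ofReal (R (x - b i)))
      = C • volume.withDensity (E.indicator (fun _ : ℝ => (1 : ENNReal))) := by
    have h5 : volume.withDensity (E.indicator (fun _ : ℝ => (1 : ENNReal))) = volume.restrict E := by
      rw [withDensity_indicator hE]
      simp
    rw [h5, ← h]
    have h6 : (fun x => ∑ i : I, ENNReal.ofReal (R (x - b i)))
        = ∑ i : I, (fun x => ENNReal.ofReal (R (x - b i))) := by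
      ext x; simp
    rw [h6]
    have h7 : ∀ s : Finset I, volume.withDensity (∑ i ∈ s, (fun x => ENNReal.ofReal (R (x - b i))))
        = ∑ i ∈ s, volume.withDensity (fun x => ENNReal.ofReal (R (x - b i))) := by
      intro s
      induction s using Finset.induction_on with
      | empty => simp
      | insert j s hj ih =>
        rw [Finset.sum_insert hj, Finset.sum_insert hj, ← ih, withDensity_add_left]
        exact (hRm.comp (measurable_id.sub_const _)).ennreal_ofReal
    rw [h7, Finset.smul_sum]
    refine Finset.sum_congr rfl fun i _ => ?_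
    rw [hmapi i, smul_smul, ← mul_assoc, ENNReal.inv_mul_cancel hK0 hKt, one_mul]
  have hsum2 : volume.withDensity (fun x => ∑ i : I, ENNReal.ofReal (R (x - b i)))
      = volume.withDensity (E.indicator (fun _ : ℝ => (1 : ENNReal))) := by
    have h8 := congrArg (fun μ : Measure ℝ => C⁻¹ • μ) hsum
    simpa only [smul_smul, ENNReal.inv_mul_cancel hC0 hCt, one_smul] using h8
  have hae : (fun x => ∑ i : I, ENNReal.ofReal (R (x - b i)))
      =ᵐ[volume] E.indicator (fun _ : ℝ => (1 : ENNReal)) := by
    refine (withDensity_eq_iff_of_sigmaFinite ?_ ?_).mp hsum2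
    · refine (Finset.measurable_sum _ fun i _ => ?_).aemeasurable
      exact (hRm.comp (measurable_id.sub_const _)).ennreal_ofReal
    · exact (measurable_const.indicator hE).aemeasurable
  filter_upwards [hae] with x hx
  have hx' : ENNReal.ofReal (∑ i : I, R (x - b i)) = E.indicator (fun _ : ℝ => (1 : ENNReal)) x := by
    rw [ENNReal.ofReal_sum_of_nonneg (fun i _ => hR0 _)]
    exact hx
  have hx2 := congrArg ENNReal.toReal hx'
  rw [ENNReal.toReal_ofReal (Finset.sum_nonneg fun i _ => hR0 _)] at hx2
  rw [hx2, ind]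
  by_cases hxE : x ∈ E
  · rw [Set.indicator_of_mem hxE, Set.indicator_of_mem hxE]; simp
  · rw [Set.indicator_of_notMem hxE, Set.indicator_of_notMem hxE]; simp

end Pool.Agent.Fug
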