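import Pool.Agent.Fug.Basic

set_option autoImplicit false

open MeasureTheory Filter Topology Finset

namespace Pool.Agent.Fug

/-- a set of finite measure: almost every point leaves it eventually when moved to the left -/
theorem int2_aux_left (n : ℕ) (E : Set ℝ) (hE : MeasurableSet E) (hfin : volume E < ⊤) :
    ∀ᵐ x : ℝ, ∀ᶠ k : ℕ in atTop, x - (k : ℝ) / 2 ^ n ∉ E := by
  set h : ℝ := 1 / 2 ^ n with hh
  have hpos : 0 < h := by positivity
  have hun : (⋃ j : ℤ, Set.Ico (0 + j • h) (0 + (j + 1) • h)) = Set.univ :=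
    iUnion_Ico_add_zsmul hpos 0
  rw [← Measure.restrict_univ (μ := (volume : Measure ℝ)), ← hun, ae_restrict_iUnion_iff]
  intro j
  set I : Set ℝ := Set.Ico (0 + j • h) (0 + (j + 1) • h) with hI
  have hkey : ∑' k : ℕ, (volume.restrict I) {x | x - (k : ℝ) / 2 ^ n ∈ E} ≠ ⊤ := by
    have h1 : ∀ k : ℕ, (volume.restrict I) {x | x - (k : ℝ) / 2 ^ n ∈ E} =
        volume (E ∩ (Set.Ico (0 + (j - k) • h) (0 + ((j - k) + 1) • h))) := by
      intro k
      have hm : MeasurableSet {x : ℝ | x - (k : ℝ) / 2 ^ n ∈ E} :=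
        (measurable_id.sub_const _) hE
      rw [Measure.restrict_apply hm]
      have h2 : {x : ℝ | x - (k : ℝ) / 2 ^ n ∈ E} ∩ I =
          (fun x => x + (-((k : ℝ) / 2 ^ n))) ⁻¹'
            (E ∩ (Set.Ico (0 + (j - k) • h) (0 + ((j - k) + 1) • h))) := by
        ext x
        simp only [hI, Set.mem_inter_iff, Set.mem_setOf_eq, Set.mem_preimage, Set.mem_Ico,
          zsmul_eq_mul, hh]
        push_cast
        constructor
        · rintro ⟨a1, a2, a3⟩
          refine ⟨a1, ?_, ?_⟩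
          · linarith [show ((k : ℝ) / 2 ^ n) = k * (1 / 2 ^ n) by ring]
          · linarith [show ((k : ℝ) / 2 ^ n) = k * (1 / 2 ^ n) by ring]
        · rintro ⟨a1, a2, a3⟩
          refine ⟨a1, ?_, ?_⟩
          · linarith [show ((k : ℝ) / 2 ^ n) = k * (1 / 2 ^ n) by ring]
          · linarith [show ((k : ℝ) / 2 ^ n) = k * (1 / 2 ^ n) by ring]
      rw [h2, measure_preimage_add_right]
    simp_rw [h1]
    have hdisj : Pairwise (Function.onFun Disjoint
        fun k : ℕ => E ∩ (Set.Ico (0 + (j - k) • h) (0 + ((j - k) + 1) • h))) := by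
      intro k k' hkk
      have hd := Set.pairwise_disjoint_Ico_add_zsmul (0 : ℝ) h
      have hne : (j - (k : ℤ)) ≠ (j - (k' : ℤ)) := by
        intro h
        apply hkk
        have : (k : ℤ) = k' := by linarith
        exact_mod_cast this
      exact (hd hne).mono Set.inter_subset_right Set.inter_subset_right
    rw [← measure_iUnion hdisj fun k => hE.inter measurableSet_Ico]
    refine ne_top_of_le_ne_top hfin.ne (measure_mono ?_)
    exact Set.iUnion_subset fun k => Set.inter_subset_left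
  have h3 := measure_setOf_frequently_eq_zero (p := fun (k : ℕ) (x : ℝ) => x - (k : ℝ) / 2 ^ n ∈ E)
    hkey
  rw [ae_iff]
  exact h3

/-- module INT2: integrality on orbits. -/
theorem integ_zero_one {I : Type} [Fintype I] [DecidableEq I] (b : I → ℝ) (i₀ : I) (hb0 : b i₀ = 0)
    (n : ℕ) (hb : ∀ i, i ≠ i₀ → ∃ k : ℕ, 0 < k ∧ b i = (k : ℝ) / 2 ^ n)
    (E : Set ℝ) (hE : MeasurableSet E) (hfin : volume E < ⊤)
    (R : ℝ → ℝ) (hR : Measurable R) (hR0 : ∀ x, 0 ≤ R x) (hR1 : ∀ x, R x ≤ 1)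
    (hRE : ∀ x, x ∉ E → R x = 0) (hsum : ∀ᵐ x, ∑ i : I, R (x - b i) = ind E x) :
    ∀ᵐ x, R x = 0 ∨ R x = 1 := by
  have hall : ∀ᵐ x : ℝ, ∀ k : ℤ, ∑ i : I, R (x + (k : ℝ) / 2 ^ n - b i)
      = ind E (x + (k : ℝ) / 2 ^ n) := by
    rw [ae_all_iff]
    intro k
    exact (measurePreserving_add_right (volume : Measure ℝ)
      ((k : ℝ) / 2 ^ n)).quasiMeasurePreserving.ae hsum
  filter_upwards [hall, int2_aux_left n E hE hfin] with x hx hleft
  obtain ⟨K, hK⟩ := eventually_atTop.1 hleft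
  have hneg : ∀ k : ℤ, k ≤ -(K : ℤ) → R (x + (k : ℝ) / 2 ^ n) = 0 := by
    intro k hk
    apply hRE
    obtain ⟨l, hl⟩ : ∃ l : ℕ, k = -(l : ℤ) := ⟨k.natAbs, by omega⟩
    have hl' : K ≤ l := by omega
    have h1 := hK l hl'
    have h2 : x + (k : ℝ) / 2 ^ n = x - (l : ℝ) / 2 ^ n := by
      rw [hl]
      push_cast
      ring
    rw [h2]
    exact h1
  have hint : ∀ j : ℕ, ∃ z : ℤ, R (x + (((-(K : ℤ) + j : ℤ)) : ℝ) / 2 ^ n) = z := by
    intro j
    induction j using Nat.strong_induction_on with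
    | _ j ih =>
      have h1 := hx (-(K : ℤ) + j)
      rw [← Finset.add_sum_erase univ _ (Finset.mem_univ i₀), hb0, sub_zero] at h1
      have h2 : ∃ z : ℤ, ∑ i ∈ univ.erase i₀,
          R (x + (((-(K : ℤ) + j : ℤ)) : ℝ) / 2 ^ n - b i) = z := by
        have h3 : ∀ i ∈ univ.erase i₀, ∃ z : ℤ,
            R (x + (((-(K : ℤ) + j : ℤ)) : ℝ) / 2 ^ n - b i) = z := by
          intro i hi
          obtain ⟨k, hk, hbk⟩ := hb i (Finset.ne_of_mem_erase hi)
          have h4 : x + (((-(K : ℤ) + j : ℤ)) : ℝ) / 2 ^ n - b i =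
              x + (((-(K : ℤ) + j - k : ℤ)) : ℝ) / 2 ^ n := by
            rw [hbk]
            push_cast
            ring
          rw [h4]
          by_cases hkj : k ≤ j
          · obtain ⟨z, hz⟩ := ih (j - k) (by omega)
            refine ⟨z, ?_⟩
            rw [← hz]
            congr 3
            push_cast [Nat.cast_sub hkj]
            ring
          · refine ⟨0, ?_⟩
            rw [hneg _ (by omega)]
            simp
        choose! z hz using h3
        refine ⟨∑ i ∈ univ.erase i₀, z i, ?_⟩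
        rw [Int.cast_sum]
        exact Finset.sum_congr rfl hz
      obtain ⟨z, hz⟩ := h2
      rw [hz] at h1
      have h5 : ∃ w : ℤ, ind E (x + (((-(K : ℤ) + j : ℤ)) : ℝ) / 2 ^ n) = w := by
        generalize x + (((-(K : ℤ) + j : ℤ)) : ℝ) / 2 ^ n = y
        by_cases hxE : y ∈ E
        · exact ⟨1, by simp [ind, hxE]⟩
        · exact ⟨0, by simp [ind, hxE]⟩
      obtain ⟨w, hw⟩ := h5
      rw [hw] at h1
      refine ⟨w - z, ?_⟩
      rw [Int.cast_sub]
      linarith
  obtain ⟨z, hz⟩ := hint K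
  have h6 : x + (((-(K : ℤ) + K : ℤ)) : ℝ) / 2 ^ n = x := by
    simp
  rw [h6] at hz
  have h7 := hR0 x
  have h8 := hR1 x
  rw [hz] at h7 h8 ⊢
  have h9 : (0 : ℤ) ≤ z := by exact_mod_cast h7
  have h10 : z ≤ 1 := by exact_mod_cast h8
  rcases (by omega : z = 0 ∨ z = 1) with h | h
  · left
    rw [h]
    simp
  · right
    rw [h]
    simp

end Pool.Agent.Fug
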