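import Pool.Agent.Fug.Int1
import Pool.Agent.Fug.Int2

set_option autoImplicit false

open MeasureTheory Filter Topology Finset

namespace Pool.Agent.Fug

lemma int3_aux_ae_shift {p : ℝ → Prop} (h : ∀ᵐ x, p x) (b : ℝ) : ∀ᵐ x : ℝ, p (x - b) := by
  have h1 : Measure.QuasiMeasurePreserving (fun x : ℝ => x - b) volume volume :=
    (measurePreserving_sub_right volume b).quasiMeasurePreserving
  exact h1.ae h

/-- module INT3: conclusion -/
theorem integrality {I : Type} [Fintype I] [DecidableEq I] (b : I → ℝ) (i₀ : I) (hb0 : b i₀ = 0)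
    (n : ℕ) (hb : ∀ i, i ≠ i₀ → ∃ k : ℕ, 0 < k ∧ b i = (k : ℝ) / 2 ^ n)
    (ρ : Measure ℝ) [IsProbabilityMeasure ρ] (c : ℝ) (hc : 0 < c) (E : Set ℝ)
    (hE : MeasurableSet E)
    (h : ∑ i : I, ((Fintype.card I : ENNReal)⁻¹) • ρ.map (fun x => x + b i)
      = (ENNReal.ofReal c)⁻¹ • volume.restrict E) :
    ∃ E' : Set ℝ, MeasurableSet E' ∧
      ρ = (ENNReal.ofReal (c / Fintype.card I))⁻¹ • volume.restrict E' ∧
      ∀ᵐ x, ∑ i : I, ind E' (x - b i) = ind E x := by
  classical
  have hcard : 0 < Fintype.card I := Fintype.card_pos_iff.mpr ⟨i₀⟩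
  have hK0 : (Fintype.card I : ENNReal) ≠ 0 := by exact_mod_cast hcard.ne'
  have hKt : (Fintype.card I : ENNReal) ≠ ⊤ := ENNReal.natCast_ne_top _
  have hfin : volume E < ⊤ := by
    have h1 := congrArg (fun μ : Measure ℝ => μ Set.univ) h
    simp only [Measure.finsetSum_apply, Measure.smul_apply, smul_eq_mul] at h1
    rw [Measure.restrict_apply MeasurableSet.univ, Set.univ_inter] at h1
    have h2 : ∀ i : I, (ρ.map (fun x => x + b i)) Set.univ = 1 := by
      intro i
      have h22 : Measurable (fun x : ℝ => x + b i) := measurable_id.add_const _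
      rw [Measure.map_apply h22 MeasurableSet.univ]
      simp
    simp only [h2] at h1
    by_contra hcon
    have htop : volume E = ⊤ := by simpa using hcon
    rw [htop, ENNReal.mul_top (by simp)] at h1
    rw [Finset.sum_const, Finset.card_univ] at h1
    have h3 : (Fintype.card I) • ((Fintype.card I : ENNReal)⁻¹ * 1) ≠ ⊤ := by
      rw [nsmul_eq_mul, mul_one, ENNReal.mul_inv_cancel hK0 hKt]
      exact ENNReal.one_ne_top
    exact h3 h1
  obtain ⟨R, hRm, hR0, hR1, hRE, hsum, hρ⟩ := integ_density b i₀ hb0 ρ c hc E hE h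
  have h01 := integ_zero_one b i₀ hb0 n hb E hE hfin R hRm hR0 hR1 hRE hsum
  have hE'm : MeasurableSet {x | R x = 1} := hRm (measurableSet_singleton 1)
  have hind : ∀ᵐ x, R x = ind {x | R x = 1} x := by
    filter_upwards [h01] with x hx
    rcases hx with hx | hx
    · have : x ∉ {x | R x = 1} := by simp [hx]
      rw [ind, Set.indicator_of_notMem this, hx]
    · have : x ∈ {x | R x = 1} := hx
      rw [ind, Set.indicator_of_mem this, hx]
  refine ⟨{x | R x = 1}, hE'm, ?_, ?_⟩
  · have h4 : volume.withDensity (fun x => ENNReal.ofReal (R x)) = volume.restrict {x | R x = 1} := by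
      have h5 : volume.restrict {x | R x = 1}
          = volume.withDensity ({x | R x = 1}.indicator (fun _ : ℝ => (1 : ENNReal))) := by
        rw [withDensity_indicator hE'm]
        simp
      rw [h5]
      refine withDensity_congr_ae ?_
      filter_upwards [hind] with x hx
      rw [hx]
      by_cases hxE : x ∈ {x | R x = 1}
      · rw [ind, Set.indicator_of_mem hxE, Set.indicator_of_mem hxE]; simp
      · rw [ind, Set.indicator_of_notMem hxE, Set.indicator_of_notMem hxE]; simp
    have h6 : (ENNReal.ofReal (c / Fintype.card I))⁻¹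
        = (Fintype.card I : ENNReal) * (ENNReal.ofReal c)⁻¹ := by
      rw [ENNReal.ofReal_div_of_pos (by exact_mod_cast hcard), ENNReal.ofReal_natCast,
        ENNReal.inv_div (Or.inl hKt) (Or.inl hK0)]
      rw [ENNReal.div_eq_inv_mul, mul_comm]
    rw [h6, ← h4]
    exact hρ
  · have h7 : ∀ᵐ x, ∀ i : I, R (x - b i) = ind {x | R x = 1} (x - b i) := by
      rw [ae_all_iff]
      intro i
      exact int3_aux_ae_shift (p := fun x => R x = ind {x | R x = 1} x) hind (b i)
    filter_upwards [hsum, h7] with x hx hx7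
    rw [← hx]
    exact Finset.sum_congr rfl fun i _ => (hx7 i).symm

end Pool.Agent.Fug
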