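import Pool.Agent.Fug.Rep

set_option autoImplicit false

open MeasureTheory Filter Topology Finset

namespace Pool.Agent.Fug

/-- sign of a label -/
def sgn (b : Bool) : ℝ := if b then -1 else 1

/-- displacement with the root label -/
noncomputable def bI (g : ℕ) (i : Bool × (Bool × Bool)) : ℝ := (if i.1 then 1 / 2 else 0) + D g i.2

/-- root sign -/
noncomputable def f0 (a : ℝ) (Q E₀ : Set ℝ) (x : ℝ) : ℝ :=
  ind E₀ (rep a Q x) - ind E₀ (rep a Q x - 1 / 2)

/-- first label sign of group `g` -/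
noncomputable def sg1 (a : ℝ) (Q : Set ℝ) (g : ℕ) (E : Set ℝ) (x : ℝ) : ℝ :=
  ∑ i : Bool × (Bool × Bool), sgn i.2.1 * ind E (rep a Q x - bI g i)

/-- second label sign of group `g` -/
noncomputable def sg2 (a : ℝ) (Q : Set ℝ) (g : ℕ) (E : Set ℝ) (x : ℝ) : ℝ :=
  ∑ i : Bool × (Bool × Bool), sgn i.2.2 * ind E (rep a Q x - bI g i)

/-- the tiling data for group `g` -/
structure Tile (a : ℝ) (Q E₀ : Set ℝ) (g : ℕ) (E : Set ℝ) : Prop where
  hFD : FD a Q
  hE₀ : MeasurableSet E₀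
  hE : MeasurableSet E
  h0 : ∀ᵐ x, ind E₀ x + ind E₀ (x - 1 / 2) = ind Q x
  hg : ∀ᵐ x, ∑ i : Bool × Bool, ind E (x - D g i) = ind E₀ x

lemma labels_aux_ind_cases (E : Set ℝ) (x : ℝ) : ind E x = 0 ∨ ind E x = 1 := by
  unfold ind
  by_cases h : x ∈ E
  · right; simp [h]
  · left; simp [h]

lemma labels_aux_ind_nonneg (E : Set ℝ) (x : ℝ) : 0 ≤ ind E x := by
  rcases labels_aux_ind_cases E x with h | h <;> rw [h] <;> norm_num

lemma labels_aux_ind_mem {E : Set ℝ} {x : ℝ} (h : x ∈ E) : ind E x = 1 := by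
  unfold ind; simp [h]

lemma labels_aux_ind_eq_one {E : Set ℝ} {x : ℝ} (h : ind E x = 1) : x ∈ E := by
  by_contra hx
  unfold ind at h
  simp [hx] at h

lemma labels_aux_measurable_ind {E : Set ℝ} (h : MeasurableSet E) : Measurable (ind E) := by
  unfold ind
  exact measurable_const.indicator h

/-- a sum of zero-one values equal to one has exactly one nonzero term -/
lemma labels_aux_unique {ι : Type*} [Fintype ι] [DecidableEq ι] (c : ι → ℝ)
    (hc : ∀ i, c i = 0 ∨ c i = 1) (hs : ∑ i, c i = 1) :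
    ∃ i₀, ∀ i, c i = if i = i₀ then 1 else 0 := by
  have h1 : ∃ i₀, c i₀ = 1 := by
    by_contra hne
    push Not at hne
    have : ∀ i, c i = 0 := fun i => (hc i).resolve_right (hne i)
    simp [this] at hs
  obtain ⟨i₀, h0⟩ := h1
  refine ⟨i₀, fun i => ?_⟩
  by_cases hi : i = i₀
  · rw [if_pos hi, hi, h0]
  · rw [if_neg hi]
    rcases hc i with h | h
    · exact h
    · exfalso
      have h2 : ∑ j ∈ ({i, i₀} : Finset ι), c j ≤ ∑ j, c j :=
        Finset.sum_le_sum_of_subset_of_nonneg (Finset.subset_univ _)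
          (fun j _ _ => by rcases hc j with h | h <;> rw [h] <;> norm_num)
      rw [Finset.sum_pair hi, h, h0, hs] at h2
      norm_num at h2

/-- the two tiling relations in one: a.e. point -/
lemma labels_aux_all {a : ℝ} {Q E₀ : Set ℝ} {g : ℕ} {E : Set ℝ} (h : Tile a Q E₀ g E) :
    ∀ᵐ y, ind E₀ y = ∑ j : Bool × Bool, ind E (y - bI g (false, j)) ∧
      ind E₀ (y - 1 / 2) = ∑ j : Bool × Bool, ind E (y - bI g (true, j)) ∧
      ind E₀ y + ind E₀ (y - 1 / 2) = ind Q y := by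
  have h1 : ∀ᵐ x : ℝ, ∑ i : Bool × Bool, ind E ((x - 1 / 2) - D g i) = ind E₀ (x - 1 / 2) :=
    (measurePreserving_sub_right volume (1 / 2 : ℝ)).quasiMeasurePreserving.ae h.hg
  filter_upwards [h.hg, h1, h.h0] with x h2 h3 h4
  refine ⟨?_, ?_, h4⟩
  · rw [← h2]
    refine Finset.sum_congr rfl (fun j _ => ?_)
    simp [bI]
  · rw [← h3]
    refine Finset.sum_congr rfl (fun j _ => ?_)
    simp only [bI, if_true]
    rw [sub_sub]

lemma labels_aux_sum (c : Bool × (Bool × Bool) → ℝ) :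
    ∑ i : Bool × (Bool × Bool), c i =
      ∑ j : Bool × Bool, c (false, j) + ∑ j : Bool × Bool, c (true, j) := by
  rw [Fintype.sum_prod_type, Fintype.sum_bool]
  ring

/-- module LAB1: a.e. point of `Q` has exactly one label vector, compatible with the root label -/
theorem label_unique {a : ℝ} {Q E₀ : Set ℝ} {g : ℕ} {E : Set ℝ} (h : Tile a Q E₀ g E) :
    ∀ᵐ y, y ∈ Q → ∃ i₀ : Bool × (Bool × Bool),
      (∀ i, ind E (y - bI g i) = if i = i₀ then 1 else 0) ∧
      ind E₀ y - ind E₀ (y - 1 / 2) = sgn i₀.1 := by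
  filter_upwards [labels_aux_all h] with y hy hQ
  obtain ⟨h1, h2, h3⟩ := hy
  rw [labels_aux_ind_mem hQ] at h3
  have hs : ∑ i : Bool × (Bool × Bool), ind E (y - bI g i) = 1 := by
    rw [labels_aux_sum, ← h1, ← h2, h3]
  obtain ⟨i₀, hi₀⟩ := labels_aux_unique (fun i => ind E (y - bI g i))
    (fun i => labels_aux_ind_cases _ _) hs
  refine ⟨i₀, hi₀, ?_⟩
  rw [h1, h2]
  obtain ⟨b, j₀⟩ := i₀
  simp only [hi₀, Prod.mk.injEq]
  cases b
  · simp [sgn]
  · simp [sgn]

/-- module LAB2 -/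
theorem label_mem {a : ℝ} {Q E₀ : Set ℝ} {g : ℕ} {E : Set ℝ} (h : Tile a Q E₀ g E) :
    ∀ᵐ y, ∀ i : Bool × (Bool × Bool), y - bI g i ∈ E → y ∈ Q := by
  filter_upwards [labels_aux_all h] with y hy i hi
  obtain ⟨h1, h2, h3⟩ := hy
  have hs : ∑ i : Bool × (Bool × Bool), ind E (y - bI g i) = ind Q y := by
    rw [labels_aux_sum, ← h1, ← h2, h3]
  by_contra hQ
  have h4 : ind Q y = 0 := by unfold ind; simp [hQ]
  rw [h4] at hs
  have h5 : ind E (y - bI g i) ≤ ∑ i : Bool × (Bool × Bool), ind E (y - bI g i) :=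
    Finset.single_le_sum (f := fun i => ind E (y - bI g i))
      (fun j _ => labels_aux_ind_nonneg _ _) (Finset.mem_univ i)
  rw [hs, labels_aux_ind_mem hi] at h5
  norm_num at h5

/-- module LAB3: the same on `ℝ` through `rep` -/
theorem label_rep {a : ℝ} {Q E₀ : Set ℝ} {g : ℕ} {E : Set ℝ} (h : Tile a Q E₀ g E) :
    ∀ᵐ x, ∃ i₀ : Bool × (Bool × Bool),
      (∀ i, ind E (rep a Q x - bI g i) = if i = i₀ then 1 else 0) ∧
      f0 a Q E₀ x = sgn i₀.1 ∧ sg1 a Q g E x = sgn i₀.2.1 ∧ sg2 a Q g E x = sgn i₀.2.2 := by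
  filter_upwards [ae_rep h.hFD (label_unique h)] with x hx
  obtain ⟨i₀, h1, h2⟩ := hx (rep_spec h.hFD x).1
  refine ⟨i₀, h1, h2, ?_, ?_⟩
  · unfold sg1
    simp only [h1]
    simp
  · unfold sg2
    simp only [h1]
    simp

/-- module LAB4 -/
theorem measurable_f0 {a : ℝ} {Q E₀ : Set ℝ} {g : ℕ} {E : Set ℝ} (h : Tile a Q E₀ g E) :
    Measurable (f0 a Q E₀) ∧ Measurable (sg1 a Q g E) ∧ Measurable (sg2 a Q g E) := by
  have hr := measurable_rep h.hFD
  refine ⟨?_, ?_, ?_⟩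
  · unfold f0
    exact ((labels_aux_measurable_ind h.hE₀).comp hr).sub
      ((labels_aux_measurable_ind h.hE₀).comp (hr.sub_const _))
  · unfold sg1
    exact Finset.measurable_sum _ (fun i _ =>
      ((labels_aux_measurable_ind h.hE).comp (hr.sub_const _)).const_mul _)
  · unfold sg2
    exact Finset.measurable_sum _ (fun i _ =>
      ((labels_aux_measurable_ind h.hE).comp (hr.sub_const _)).const_mul _)

end Pool.Agent.Fug
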