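import Pool.Agent.Fug.Basic

set_option autoImplicit false

open MeasureTheory Filter Topology Finset

namespace Pool.Agent.Fug

theorem Law1_aux_summable (d : ℕ → Bool × Bool → ℝ) (c : ℕ → ℝ) (hc : Summable c)
    (hd : ∀ n i, |d n i| ≤ c n) (ω : ℕ → Bool × Bool) : Summable (fun n => d n (ω n)) :=
  Summable.of_norm_bounded hc (fun n => by rw [Real.norm_eq_abs]; exact hd n (ω n))

/-- module LAW1a -/
theorem measurable_series (d : ℕ → Bool × Bool → ℝ) (c : ℕ → ℝ) (hc : Summable c)
    (hd : ∀ n i, |d n i| ≤ c n) :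
    Measurable (fun ω : ℕ → Bool × Bool => ∑' n, d n (ω n)) := by
  refine measurable_of_tendsto_metrizable
    (f := fun (k : ℕ) (ω : ℕ → Bool × Bool) => ∑ n ∈ range k, d n (ω n)) (fun k => ?_) ?_
  · refine Finset.measurable_sum _ (fun n _ => ?_)
    exact (measurable_of_countable (d n)).comp (measurable_pi_apply n)
  · rw [tendsto_pi_nhds]
    intro ω
    exact (Law1_aux_summable d c hc hd ω).hasSum.tendsto_sum_nat

/-- module LAW1b -/
theorem lawOf_prob (d : ℕ → Bool × Bool → ℝ) (c : ℕ → ℝ) (hc : Summable c)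
    (hd : ∀ n i, |d n i| ≤ c n) : IsProbabilityMeasure (lawOf d) := by
  unfold lawOf
  exact Measure.isProbabilityMeasure_map (measurable_series d c hc hd).aemeasurable

/-- module LAW1c -/
theorem lawOf_support (d : ℕ → Bool × Bool → ℝ) (c : ℕ → ℝ) (hc : Summable c)
    (hd : ∀ n i, |d n i| ≤ c n) :
    lawOf d (Set.Icc (-(∑' n, c n)) (∑' n, c n))ᶜ = 0 := by
  unfold lawOf
  rw [Measure.map_apply (measurable_series d c hc hd) measurableSet_Icc.compl]
  have h : (fun ω : ℕ → Bool × Bool => ∑' n, d n (ω n)) ⁻¹'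
      (Set.Icc (-(∑' n, c n)) (∑' n, c n))ᶜ = ∅ := by
    rw [Set.eq_empty_iff_forall_notMem]
    intro ω hω
    apply hω
    have hs := Law1_aux_summable d c hc hd ω
    have h1 : |∑' n, d n (ω n)| ≤ ∑' n, c n := by
      rw [← Real.norm_eq_abs]
      refine (norm_tsum_le_tsum_norm hs.norm).trans ?_
      exact hs.norm.tsum_le_tsum (fun n => by rw [Real.norm_eq_abs]; exact hd n (ω n)) hc
    exact abs_le.mp h1
  rw [h, measure_empty]

end Pool.Agent.Fug
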