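import Pool.Agent.Fug.Law1

set_option autoImplicit false

open MeasureTheory Filter Topology Finset

namespace Pool.Agent.Fug

lemma law2_e_add (x y : ℝ) : e (x + y) = e x * e y := by
  unfold e
  rw [← Complex.exp_add]
  congr 1
  push_cast
  ring

lemma law2_e_zero : e 0 = 1 := by simp [e]

lemma law2_e_sum {ι : Type*} (s : Finset ι) (f : ι → ℝ) : e (∑ i ∈ s, f i) = ∏ i ∈ s, e (f i) := by
  classical
  induction s using Finset.induction_on with
  | empty => simp [law2_e_zero]
  | insert a s ha ih => rw [sum_insert ha, prod_insert ha, law2_e_add, ih]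

lemma law2_norm_e (x : ℝ) : ‖e x‖ = 1 := by
  unfold e
  rw [Complex.norm_exp]
  simp

lemma law2_continuous_e : Continuous e := by
  unfold e
  fun_prop

lemma law2_int_unifBB (g : Bool × Bool → ℂ) :
    ∫ i, g i ∂unifBB = (1 / 4) * ∑ i : Bool × Bool, g i := by
  have hm : Measurable g := measurable_of_finite g
  have hi : ∀ a : Bool × Bool, Integrable g (Measure.dirac a) := fun a =>
    integrable_dirac (by simp)
  have h1 : Integrable g (Measure.dirac (false, false) + Measure.dirac (false, true)) :=
    (hi _).add_measure (hi _)
  have h2 : Integrable g (Measure.dirac (false, false) + Measure.dirac (false, true)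
      + Measure.dirac (true, false)) := h1.add_measure (hi _)
  rw [unifBB, integral_smul_measure, integral_add_measure h2 (hi _),
    integral_add_measure h1 (hi _), integral_add_measure (hi _) (hi _)]
  simp only [integral_dirac, Fintype.sum_prod_type, Fintype.sum_bool]
  rw [ENNReal.toReal_inv]
  simp only [ENNReal.toReal_ofNat, Complex.real_smul]
  push_cast
  ring

/-- the finite products are integrals of the partial sums -/
lemma law2_finite (d : ℕ → Bool × Bool → ℝ) (ξ : ℝ) (k : ℕ) :
    ∫ ω, e (ξ * ∑ n ∈ range k, d n (ω n)) ∂(Measure.infinitePi (fun _ : ℕ => unifBB)) =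
      ∏ n ∈ range k, A (d n) ξ := by
  have h1 : ∀ ω : ℕ → Bool × Bool, e (ξ * ∑ n ∈ range k, d n (ω n)) =
      (fun y : (Π i : range k, Bool × Bool) => ∏ i : range k, e (ξ * d i (y i)))
        ((range k).restrict ω) := by
    intro ω
    rw [mul_sum, law2_e_sum]
    exact (prod_coe_sort (range k) (fun n => e (ξ * d n (ω n)))).symm
  simp_rw [h1]
  rw [integral_restrict_infinitePi (μ := fun _ : ℕ => unifBB) (s := range k)
    (f := fun y : (Π i : range k, Bool × Bool) => ∏ i : range k, e (ξ * d i (y i)))]
  · rw [integral_fintype_prod_eq_prod (fun (i : range k) (x : Bool × Bool) => e (ξ * d i x))]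
    simp_rw [law2_int_unifBB]
    exact prod_coe_sort (range k) (fun n => A (d n) ξ)
  · apply Measurable.aestronglyMeasurable
    apply Finset.measurable_prod
    intro i _
    exact (measurable_of_finite (fun x : Bool × Bool => e (ξ * d i x))).comp (measurable_pi_apply i)

/-- module LAW2: the Fourier transform of the random series is the limit of the finite products -/
theorem lawOf_ch_tendsto (d : ℕ → Bool × Bool → ℝ) (c : ℕ → ℝ) (hc : Summable c)
    (hd : ∀ n i, |d n i| ≤ c n) (ξ : ℝ) :
    Tendsto (fun k => ∏ n ∈ range k, A (d n) ξ) atTop (𝓝 (∫ x, e (ξ * x) ∂(lawOf d))) := by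
  have hmeas := measurable_series d c hc hd
  have hcont : Continuous (fun x : ℝ => e (ξ * x)) :=
    law2_continuous_e.comp (continuous_const.mul continuous_id)
  rw [lawOf, integral_map hmeas.aemeasurable hcont.aestronglyMeasurable]
  simp_rw [← law2_finite d ξ]
  apply tendsto_integral_of_dominated_convergence (fun _ => (1 : ℝ))
  · intro k
    apply Measurable.aestronglyMeasurable
    apply hcont.measurable.comp
    apply Finset.measurable_sum
    intro i _
    exact (measurable_of_finite (fun x : Bool × Bool => d i x)).comp (measurable_pi_apply i)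
  · exact integrable_const 1
  · intro k
    exact Eventually.of_forall fun ω => (law2_norm_e _).le
  · refine Eventually.of_forall fun ω => ?_
    have hs : Summable (fun n => d n (ω n)) :=
      Summable.of_norm_bounded hc (fun n => by rw [Real.norm_eq_abs]; exact hd n (ω n))
    exact (hcont.tendsto _).comp hs.hasSum.tendsto_sum_nat

end Pool.Agent.Fug
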