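import Pool.Agent.Fug.Law1
import Pool.Agent.Fug.Law2

set_option autoImplicit false

open MeasureTheory Filter Topology Finset

namespace Pool.Agent.Fug

lemma law3_charFun (μ : Measure ℝ) (t : ℝ) :
    charFun μ t = ∫ x, e (t / (2 * Real.pi) * x) ∂μ := by
  rw [charFun_apply_real]
  congr 1
  ext x
  unfold e
  congr 1
  have : (Real.pi : ℂ) ≠ 0 := by exact_mod_cast Real.pi_ne_zero
  push_cast
  field_simp

lemma law3_A_zero (ξ : ℝ) : A 0 ξ = 1 := by
  simp only [A, Pi.zero_apply, mul_zero, law2_e_zero, Fintype.sum_prod_type, Fintype.sum_bool]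
  norm_num

/-- module LAW3: one factor can be split off -/
theorem lawOf_factor (d : ℕ → Bool × Bool → ℝ) (c : ℕ → ℝ) (hc : Summable c)
    (hd : ∀ n i, |d n i| ≤ c n) (n₀ : ℕ) :
    lawOf d = ((unifBB.map (d n₀)).prod (lawOf (Function.update d n₀ 0))).map
      (fun p : ℝ × ℝ => p.1 + p.2) := by
  have hd' : ∀ n i, |Function.update d n₀ 0 n i| ≤ c n := by
    intro n i
    by_cases h : n = n₀
    · subst h
      simpa using (abs_nonneg _).trans (hd n i)
    · rw [Function.update_of_ne h]
      exact hd n i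
  have h1 : IsProbabilityMeasure (lawOf d) := lawOf_prob d c hc hd
  have h2 : IsProbabilityMeasure (lawOf (Function.update d n₀ 0)) := lawOf_prob _ c hc hd'
  have hm : Measurable (d n₀) := measurable_of_finite _
  have h3 : IsProbabilityMeasure (unifBB.map (d n₀)) :=
    Measure.isProbabilityMeasure_map hm.aemeasurable
  have hconv : ((unifBB.map (d n₀)).prod (lawOf (Function.update d n₀ 0))).map
      (fun p : ℝ × ℝ => p.1 + p.2) =
      Measure.conv (unifBB.map (d n₀)) (lawOf (Function.update d n₀ 0)) := rfl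
  rw [hconv]
  apply Measure.ext_of_charFun
  ext t
  rw [charFun_conv, law3_charFun, law3_charFun, law3_charFun]
  set ξ := t / (2 * Real.pi) with hξ
  have hcont : Continuous (fun x : ℝ => e (ξ * x)) :=
    law2_continuous_e.comp (continuous_const.mul continuous_id)
  rw [integral_map hm.aemeasurable hcont.aestronglyMeasurable, law2_int_unifBB]
  have hA : (1 / 4 : ℂ) * ∑ i : Bool × Bool, e (ξ * d n₀ i) = A (d n₀) ξ := rfl
  rw [hA]
  have t1 := lawOf_ch_tendsto d c hc hd ξ
  have t2 := (lawOf_ch_tendsto _ c hc hd' ξ).const_mul (A (d n₀) ξ)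
  refine tendsto_nhds_unique t1 (t2.congr' ?_)
  filter_upwards [eventually_gt_atTop n₀] with k hk
  have hmem : n₀ ∈ range k := mem_range.2 hk
  rw [← mul_prod_erase (range k) (fun n => A (Function.update d n₀ 0 n) ξ) hmem,
    ← mul_prod_erase (range k) (fun n => A (d n) ξ) hmem]
  have hself : A (Function.update d n₀ 0 n₀) ξ = 1 := by
    rw [Function.update_self]
    exact law3_A_zero ξ
  rw [hself, one_mul]
  congr 1
  apply prod_congr rfl
  intro n hn
  rw [Function.update_of_ne (ne_of_mem_erase hn)]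

end Pool.Agent.Fug
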