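import Pool.Agent.Fug.Law1
import Pool.Agent.Fug.Law2
import Pool.Agent.Fug.DSum
import Pool.Agent.Fug.Gamma

set_option autoImplicit false

open MeasureTheory Filter Topology Finset

namespace Pool.Agent.Fug

lemma muf_aux_lawD_prob : IsProbabilityMeasure (lawOf D) := by
  obtain ⟨c, hc, hd⟩ := D_bound
  exact lawOf_prob D c hc hd

/-- module MUF1 -/
theorem muF_prob : IsProbabilityMeasure muF := by
  have := muf_aux_lawD_prob
  unfold muF
  exact Measure.isProbabilityMeasure_map (by fun_prop)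

/-- module MUF2 -/
theorem muF_support : ∃ K : Set ℝ, IsCompact K ∧ muF Kᶜ = 0 := by
  have := muf_aux_lawD_prob
  obtain ⟨c, hc, hd⟩ := D_bound
  have h1 := lawOf_support D c hc hd
  set C := ∑' n, c n with hC
  refine ⟨Set.Icc (-C) (C + 1 / 2), isCompact_Icc, ?_⟩
  unfold muF
  rw [Measure.map_apply (by fun_prop) measurableSet_Icc.compl]
  have h2 : (fun p : ℝ × ℝ => p.1 + p.2) ⁻¹' (Set.Icc (-C) (C + 1 / 2))ᶜ ⊆
      (({0, 1 / 2} : Set ℝ)ᶜ ×ˢ Set.univ) ∪ (Set.univ ×ˢ (Set.Icc (-C) C)ᶜ) := by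
    rintro ⟨x, y⟩ hxy
    by_contra hcon
    simp only [Set.mem_union, Set.mem_prod, Set.mem_compl_iff, Set.mem_insert_iff,
      Set.mem_singleton_iff, Set.mem_univ, and_true, true_and, Set.mem_Icc, not_or, not_not] at hcon
    apply hxy
    simp only [Set.mem_Icc]
    obtain ⟨hx', hy1, hy2⟩ := hcon
    have hx : x = 0 ∨ x = 1 / 2 := by
      by_contra hne
      push Not at hne
      exact hx' hne
    rcases hx with rfl | rfl
    · constructor <;> linarith
    · constructor <;> linarith
  refine measure_mono_null h2 (measure_union_null ?_ ?_)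
  · rw [Measure.prod_prod]
    have h3 : root (({0, 1 / 2} : Set ℝ)ᶜ) = 0 := by
      unfold root
      rw [Measure.smul_apply, Measure.add_apply, Measure.dirac_apply' _ (by measurability),
        Measure.dirac_apply' _ (by measurability)]
      simp
    rw [h3, zero_mul]
  · rw [Measure.prod_prod, h1, mul_zero]

lemma muf_aux_e_add (x y : ℝ) : e (x + y) = e x * e y := by
  unfold e
  rw [← Complex.exp_add]
  congr 1
  push_cast
  ring

lemma muf_aux_e_cont : Continuous e := by
  unfold e
  fun_prop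

/-- module MUF3 -/
theorem muF_ch_tendsto (ξ : ℝ) :
    Tendsto (fun G => ((1 + e (ξ * (1 / 2))) / 2) * ∏ g ∈ range G, A (D g) ξ) atTop
      (𝓝 (∫ x, e (ξ * x) ∂muF)) := by
  have := muf_aux_lawD_prob
  obtain ⟨c, hc, hd⟩ := D_bound
  have h1 := lawOf_ch_tendsto D c hc hd ξ
  have h2 : ∫ x, e (ξ * x) ∂muF = ((1 + e (ξ * (1 / 2))) / 2) * ∫ x, e (ξ * x) ∂(lawOf D) := by
    unfold muF
    rw [integral_map (by fun_prop) (by
      apply Continuous.aestronglyMeasurable
      exact muf_aux_e_cont.comp (by fun_prop))]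
    have h3 : ∀ p : ℝ × ℝ, e (ξ * (p.1 + p.2)) = e (ξ * p.1) * e (ξ * p.2) := by
      intro p
      rw [mul_add, muf_aux_e_add]
    simp_rw [h3]
    rw [integral_prod_mul (fun x => e (ξ * x)) (fun x => e (ξ * x))]
    congr 1
    unfold root
    have hcont : Continuous (fun x : ℝ => e (ξ * x)) := muf_aux_e_cont.comp (by fun_prop)
    rw [integral_smul_measure, integral_add_measure, integral_dirac, integral_dirac]
    · rw [mul_zero]
      have h4 : e 0 = 1 := by simp [e]
      rw [h4, ENNReal.toReal_inv]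
      simp
      ring
    · exact integrable_dirac (by simp)
    · exact integrable_dirac (by simp)
  rw [h2]
  exact h1.const_mul _

/-- module MUF4 -/
theorem Pr_tendsto (ξ : ℝ) (S : Finset ℕ) :
    Tendsto (fun G => Pr ξ G S) atTop (𝓝 (‖∫ x, e ((ξ + lam S) * x) ∂muF‖ ^ 2)) := by
  have h1 := (muF_ch_tendsto (ξ + lam S)).norm.pow 2
  refine h1.congr (fun G => ?_)
  unfold Pr
  rw [norm_mul, mul_pow, norm_prod, ← Finset.prod_pow]
  congr 1
  · set x := ξ + lam S with hx
    have h2 : (1 + e (x * (1 / 2))) / 2 =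
        Complex.exp (((Real.pi * (x / 2) : ℝ) : ℂ) * Complex.I) *
          ((Real.cos (Real.pi * (x / 2)) : ℝ) : ℂ) := by
      unfold e
      rw [Complex.ofReal_cos, Complex.cos, neg_mul, Complex.exp_neg]
      have h3 : Complex.exp (2 * (Real.pi : ℂ) * Complex.I * ((x * (1 / 2) : ℝ) : ℂ)) =
          Complex.exp (((Real.pi * (x / 2) : ℝ) : ℂ) * Complex.I) ^ 2 := by
        rw [← Complex.exp_nat_mul]
        congr 1
        push_cast
        ring
      rw [h3]
      have h4 := Complex.exp_ne_zero (((Real.pi * (x / 2) : ℝ) : ℂ) * Complex.I)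
      field_simp
      ring
    rw [h2, norm_mul, Complex.norm_exp_ofReal_mul_I, one_mul, Complex.norm_real, Real.norm_eq_abs,
      sq_abs]
  · exact Finset.prod_congr rfl fun g _ => norm_A_sq g _

end Pool.Agent.Fug
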