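import Pool.Agent.Fug.MuF

set_option autoImplicit false

open MeasureTheory Filter Topology Finset

namespace Pool.Agent.Fug

lemma muorth_aux_high (S : Finset ℕ) (j : ℕ) :
    ∃ k : ℤ, ∑ i ∈ S.filter (fun i => j < i), (2 : ℝ) ^ v i = 2 * (k : ℝ) * 2 ^ v j := by
  refine ⟨∑ i ∈ S.filter (fun i => j < i), 2 ^ (v i - v j - 1), ?_⟩
  push_cast
  rw [Finset.mul_sum, Finset.sum_mul]
  apply Finset.sum_congr rfl
  intro i hi
  have h1 := v_add_le (Finset.mem_filter.1 hi).2
  rw [← pow_succ', ← pow_add]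
  congr 1
  omega

lemma muorth_aux_split (S : Finset ℕ) (j : ℕ) :
    lam S = lam (S.filter (fun i => i < j)) + (if j ∈ S then (2 : ℝ) ^ v j else 0) +
      ∑ i ∈ S.filter (fun i => j < i), (2 : ℝ) ^ v i := by
  unfold lam
  rw [Finset.sum_filter, Finset.sum_filter]
  have h1 : (if j ∈ S then (2 : ℝ) ^ v j else 0) = ∑ i ∈ S, if i = j then (2 : ℝ) ^ v i else 0 := by
    rw [Finset.sum_ite_eq' S j]
  rw [h1, ← Finset.sum_add_distrib, ← Finset.sum_add_distrib]
  apply Finset.sum_congr rfl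
  intro i _
  rcases lt_trichotomy i j with h | h | h
  · rw [if_pos h, if_neg h.ne, if_neg (by omega)]; ring
  · rw [if_neg (by omega), if_pos h, if_neg (by omega)]; ring
  · rw [if_neg (by omega), if_neg h.ne', if_pos h]; ring

lemma muorth_aux_odd (S T : Finset ℕ) (h : S ≠ T) :
    ∃ (j : ℕ) (k : ℤ), lam S - lam T = (2 * (k : ℝ) + 1) * 2 ^ v j := by
  have hne : (symmDiff S T).Nonempty := by
    rw [Finset.nonempty_iff_ne_empty]
    intro h0
    exact h (symmDiff_eq_bot.1 h0)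
  set j := (symmDiff S T).min' hne with hj
  have hjm : j ∈ symmDiff S T := Finset.min'_mem _ _
  have hlow : S.filter (fun i => i < j) = T.filter (fun i => i < j) := by
    ext i
    simp only [Finset.mem_filter]
    constructor
    · rintro ⟨h1, h2⟩
      refine ⟨?_, h2⟩
      by_contra h3
      have : i ∈ symmDiff S T := by rw [Finset.mem_symmDiff]; exact Or.inl ⟨h1, h3⟩
      exact absurd (Finset.min'_le _ _ this) (by omega)
    · rintro ⟨h1, h2⟩
      refine ⟨?_, h2⟩
      by_contra h3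
      have : i ∈ symmDiff S T := by rw [Finset.mem_symmDiff]; exact Or.inr ⟨h1, h3⟩
      exact absurd (Finset.min'_le _ _ this) (by omega)
  obtain ⟨kS, hkS⟩ := muorth_aux_high S j
  obtain ⟨kT, hkT⟩ := muorth_aux_high T j
  rw [muorth_aux_split S j, muorth_aux_split T j, hlow, hkS, hkT]
  rw [Finset.mem_symmDiff] at hjm
  rcases hjm with ⟨h1, h2⟩ | ⟨h1, h2⟩
  · refine ⟨j, kS - kT, ?_⟩
    rw [if_pos h1, if_neg h2]
    push_cast
    ring
  · refine ⟨j, kS - kT - 1, ?_⟩
    rw [if_neg h2, if_pos h1]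
    push_cast
    ring

/-- module MUF5: orthogonality -/
theorem muF_orth (S T : Finset ℕ) (h : S ≠ T) : ∫ x, e ((lam S - lam T) * x) ∂muF = 0 := by
  obtain ⟨j, k, hk⟩ := muorth_aux_odd S T h
  rw [hk]
  have h1 := muF_ch_tendsto ((2 * (k : ℝ) + 1) * 2 ^ v j)
  refine tendsto_nhds_unique h1 ?_
  rcases Nat.eq_zero_or_pos j with hj | hj
  · subst hj
    have h2 : (1 + e ((2 * (k : ℝ) + 1) * 2 ^ v 0 * (1 / 2))) = 0 := by
      unfold e
      rw [v_zero]
      have h3 : 2 * (Real.pi : ℂ) * Complex.I * (((2 * (k : ℝ) + 1) * 2 ^ 0 * (1 / 2) : ℝ) : ℂ) =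
          (k : ℂ) * (2 * Real.pi * Complex.I) + Real.pi * Complex.I := by
        push_cast
        ring
      rw [h3, Complex.exp_add, Complex.exp_int_mul_two_pi_mul_I, one_mul, Complex.exp_pi_mul_I]
      ring
    rw [h2]
    simp
  · -- `j = 2 g + 1` or `j = 2 g + 2`
    obtain ⟨g, hg⟩ : ∃ g, j = 2 * g + 1 ∨ j = 2 * g + 2 := ⟨(j - 1) / 2, by omega⟩
    have h2 : A (D g) ((2 * (k : ℝ) + 1) * 2 ^ v j) = 0 := by
      have h3 := norm_A_sq g ((2 * (k : ℝ) + 1) * 2 ^ v j)
      have h4 : Gam g ((2 * (k : ℝ) + 1) * 2 ^ v j) = 0 := by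
        rcases hg with rfl | rfl
        · exact Gam_zero_left g k
        · exact Gam_zero_right g k
      rw [h4] at h3
      exact norm_eq_zero.1 (pow_eq_zero_iff (two_ne_zero) |>.1 h3)
    refine tendsto_const_nhds.congr' ?_
    filter_upwards [eventually_gt_atTop g] with G hG
    rw [Finset.prod_eq_zero (Finset.mem_range.2 hG) h2, mul_zero]

end Pool.Agent.Fug
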