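import Pool.Agent.Fug.Orb3

set_option autoImplicit false

open MeasureTheory Filter Topology Finset

namespace Pool.Agent.Fug

theorem orb3d_aux_norm (x y : ℂ) : ‖x - y‖ ^ 2 ≤ 2 * (‖x‖ ^ 2 + ‖y‖ ^ 2) := by
  have h1 : ‖x - y‖ ≤ ‖x‖ + ‖y‖ := norm_sub_le x y
  have h2 : ‖x - y‖ ^ 2 ≤ (‖x‖ + ‖y‖) ^ 2 := pow_le_pow_left₀ (norm_nonneg _) h1 2
  nlinarith [sq_nonneg (‖x‖ - ‖y‖)]

/-- `K ∑ ‖x_i - mean‖² = ∑_{i<i'} ‖x_i - x_i'‖²` in the form of a double sum. -/
theorem orb3d_aux_var (K : ℕ) (hK : 0 < K) (x : ℕ → ℂ) :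
    2 * (K : ℝ) * ∑ i ∈ range K, ‖x i - (1 / (K : ℂ)) * ∑ j ∈ range K, x j‖ ^ 2 =
      ∑ i ∈ range K, ∑ j ∈ range K, ‖x i - x j‖ ^ 2 := by
  set c := (1 / (K : ℂ)) * ∑ j ∈ range K, x j with hc
  have hK' : (K : ℂ) ≠ 0 := by exact_mod_cast hK.ne'
  have h0 : ∑ i ∈ range K, (x i - c) = 0 := by
    rw [Finset.sum_sub_distrib, Finset.sum_const, card_range, nsmul_eq_mul, hc]
    field_simp
    ring
  have h1 : ∀ i j, ‖x i - x j‖ ^ 2 = ‖x i - c‖ ^ 2 + ‖x j - c‖ ^ 2 -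
      2 * ((x i - c) * (starRingEnd ℂ) (x j - c)).re := by
    intro i j
    have e1 : x i - x j = (x i - c) - (x j - c) := by ring
    rw [e1]
    simp only [← Complex.normSq_eq_norm_sq]
    rw [Complex.normSq_sub]
  have h2 : ∑ i ∈ range K, ∑ j ∈ range K, ((x i - c) * (starRingEnd ℂ) (x j - c)).re = 0 := by
    rw [← Complex.zero_re]
    simp only [← Complex.re_sum]
    congr 1
    simp only [← Finset.mul_sum, ← Finset.sum_mul, ← map_sum]
    rw [h0, zero_mul]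
  simp only [h1, Finset.sum_sub_distrib, Finset.sum_add_distrib, ← Finset.mul_sum, h2,
    Finset.sum_const, card_range, nsmul_eq_mul]
  ring

theorem orb3d_aux_pairs (K : ℕ) (f : ℕ → ℕ → ℝ) (hf : ∀ i j, f i j = f j i) (h0 : ∀ i, f i i = 0)
    (hpos : ∀ i j, 0 ≤ f i j) :
    ∑ i ∈ range K, ∑ j ∈ range K, f i j ≤
      2 * ∑ i ∈ range K, ∑ l ∈ Icc 1 K, f i (i + l) := by
  have h1 : ∀ i j : ℕ, f i j = (if i < j then f i j else 0) + (if j < i then f i j else 0) := by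
    intro i j
    rcases lt_trichotomy i j with h | h | h
    · simp [h, h.not_gt]
    · subst h; simp [h0]
    · simp [h, h.not_gt]
  have h2 : ∑ i ∈ range K, ∑ j ∈ range K, f i j =
      2 * ∑ i ∈ range K, ∑ j ∈ range K, (if i < j then f i j else 0) := by
    have e1 : ∑ i ∈ range K, ∑ j ∈ range K, f i j =
        ∑ i ∈ range K, ∑ j ∈ range K, (if i < j then f i j else 0) +
        ∑ i ∈ range K, ∑ j ∈ range K, (if j < i then f i j else 0) := by
      rw [← Finset.sum_add_distrib]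
      refine Finset.sum_congr rfl fun i _ => ?_
      rw [← Finset.sum_add_distrib]
      exact Finset.sum_congr rfl fun j _ => h1 i j
    have e2 : ∑ i ∈ range K, ∑ j ∈ range K, (if j < i then f i j else 0) =
        ∑ i ∈ range K, ∑ j ∈ range K, (if i < j then f i j else 0) := by
      rw [Finset.sum_comm]
      refine Finset.sum_congr rfl fun i _ => Finset.sum_congr rfl fun j _ => ?_
      rw [hf]
    rw [e1, e2]
    ring
  rw [h2]
  refine mul_le_mul_of_nonneg_left (Finset.sum_le_sum fun i hi => ?_) (by norm_num)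
  have hi' := mem_range.1 hi
  rw [← Finset.sum_filter]
  have h3 : (range K).filter (fun j => i < j) ⊆ (Icc 1 K).image (fun l => i + l) := by
    intro j hj
    rw [mem_filter, mem_range] at hj
    rw [mem_image]
    exact ⟨j - i, by rw [mem_Icc]; omega, by omega⟩
  calc ∑ j ∈ (range K).filter (fun j => i < j), f i j
      ≤ ∑ j ∈ (Icc 1 K).image (fun l => i + l), f i j :=
        Finset.sum_le_sum_of_subset_of_nonneg h3 fun j _ _ => hpos i j
    _ = ∑ l ∈ Icc 1 K, f i (i + l) := by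
        rw [Finset.sum_image]
        intro a _ b _ hab
        have : i + a = i + b := hab
        omega

/-- variance of a window bounded by energies -/
theorem orb3d_aux_window (K : ℕ) (hK : 0 < K) (C : ℤ → ℂ) (a : ℤ) :
    (K : ℝ) * ∑ i ∈ range K, ‖C (a + (i : ℤ)) - wv K C a‖ ^ 2 ≤
      ∑ i ∈ range K, ∑ l ∈ Icc 1 K, ‖C ((a + (i : ℤ)) + (l : ℤ)) - C (a + (i : ℤ))‖ ^ 2 := by
  have h1 := orb3d_aux_var K hK (fun i => C (a + (i : ℤ)))
  have h2 := orb3d_aux_pairs K (fun i j => ‖C (a + (i : ℤ)) - C (a + (j : ℤ))‖ ^ 2)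
    (fun i j => by rw [norm_sub_rev]) (fun i => by simp) (fun i j => by positivity)
  have h3 : ∑ i ∈ range K, ∑ l ∈ Icc 1 K,
      (fun i j : ℕ => ‖C (a + (i : ℤ)) - C (a + (j : ℤ))‖ ^ 2) i (i + l) =
      ∑ i ∈ range K, ∑ l ∈ Icc 1 K, ‖C ((a + (i : ℤ)) + (l : ℤ)) - C (a + (i : ℤ))‖ ^ 2 := by
    refine Finset.sum_congr rfl fun i _ => Finset.sum_congr rfl fun l _ => ?_
    show ‖C (a + (i : ℤ)) - C (a + ((i + l : ℕ) : ℤ))‖ ^ 2 = _
    rw [norm_sub_rev]
    push_cast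
    rw [add_assoc]
  rw [h3] at h2
  have h4 : (1 / (K : ℂ)) * ∑ j ∈ range K, C (a + (j : ℤ)) = wv K C a := rfl
  rw [h4] at h1
  have h5 : (2 : ℝ) * ((K : ℝ) * ∑ i ∈ range K, ‖C (a + (i : ℤ)) - wv K C a‖ ^ 2) ≤
      2 * ∑ i ∈ range K, ∑ l ∈ Icc 1 K, ‖C ((a + (i : ℤ)) + (l : ℤ)) - C (a + (i : ℤ))‖ ^ 2 := by
    refine le_trans (le_of_eq ?_) h2
    rw [← h1]
    ring
  linarith

/-- module ORB3d: energy lower bound from a balanced window of length `K` -/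
theorem OrbitData.energy_window {H K : ℕ} {C : ℤ → ℂ} {pl : ℤ → Prop} {u w : ℂ}
    (h : OrbitData H K C pl u w) :
    ∃ a : ℤ, ((K : ℝ) / 32) * ‖u - w‖ ^ 2 * ‖wv K C a‖ ^ 2 ≤ EE (2 * H) K C := by
  classical
  obtain ⟨a, ha⟩ := balanced_window H K h.hK pl h.hanti
  refine ⟨a, ?_⟩
  have hK0 : (0 : ℝ) < K := by exact_mod_cast h.hK0
  have hKH : K ≤ H := by have := h.hKH; omega
  have hq : ‖u * w‖ = 1 := by rw [norm_mul, h.hu, h.hw, one_mul]
  set wa := wv K C a with hwa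
  set wb := wv K C (a + H) with hwb
  set G : ℤ → ℝ := fun j => ∑ l ∈ Icc 1 K, ‖C (j + (l : ℤ)) - C j‖ ^ 2 with hG
  have hG0 : ∀ j, 0 ≤ G j := fun j => by rw [hG]; positivity
  have hGper : ∀ j : ℤ, G (j + (2 * H : ℕ)) = G j := by
    intro j
    simp only [hG]
    refine Finset.sum_congr rfl fun l _ => ?_
    have e1 : j + ((2 * H : ℕ) : ℤ) + l = (j + l) + (2 * H : ℕ) := by ring
    rw [e1, h.quasi, h.quasi, ← mul_sub, norm_mul, hq, one_mul]
  have hEE : 4 * (K : ℝ) * EE (2 * H) K C = ∑ j ∈ range (2 * H), G (j : ℤ) := by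
    unfold EE
    rw [← mul_assoc]
    rw [show 4 * (K : ℝ) * (1 / (4 * (K : ℝ))) = 1 by field_simp, one_mul]
  have hshift := sum_period_shift (2 * H) G hGper a
  -- the two windows
  have hwin : ∑ i ∈ range K, G (a + (i : ℤ)) + ∑ i ∈ range K, G (a + H + (i : ℤ)) ≤
      4 * (K : ℝ) * EE (2 * H) K C := by
    rw [hEE, ← hshift, two_mul, Finset.sum_range_add]
    refine add_le_add ?_ ?_
    · calc ∑ i ∈ range K, G (a + (i : ℤ)) = ∑ i ∈ range K, G ((i : ℤ) + a) :=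
          Finset.sum_congr rfl fun i _ => by rw [add_comm]
        _ ≤ ∑ i ∈ range H, G ((i : ℤ) + a) :=
          Finset.sum_le_sum_of_subset_of_nonneg (Finset.range_mono hKH) fun _ _ _ => hG0 _
    · calc ∑ i ∈ range K, G (a + H + (i : ℤ)) = ∑ i ∈ range K, G (((H + i : ℕ) : ℤ) + a) :=
          Finset.sum_congr rfl fun i _ => by
            congr 1
            push_cast
            ring
        _ ≤ ∑ i ∈ range H, G (((H + i : ℕ) : ℤ) + a) :=
          Finset.sum_le_sum_of_subset_of_nonneg (Finset.range_mono hKH) fun _ _ _ => hG0 _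
  have hva := orb3d_aux_window K h.hK0 C a
  have hvb := orb3d_aux_window K h.hK0 C (a + H)
  have hpt : ∀ i : ℕ, (1 / 2) * ((if pl (a + (i : ℤ)) then ‖u * wa - wb‖ ^ 2 else 0) +
      (if pl (a + (i : ℤ)) then 0 else ‖w * wa - wb‖ ^ 2)) ≤
      ‖C (a + (i : ℤ)) - wa‖ ^ 2 + ‖C (a + H + (i : ℤ)) - wb‖ ^ 2 := by
    intro i
    have e1 : a + H + (i : ℤ) = (a + (i : ℤ)) + H := by ring
    rw [e1]
    by_cases hp : pl (a + (i : ℤ))
    · rw [if_pos hp, if_pos hp, add_zero, h.hplus _ hp]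
      have h1 := orb3d_aux_norm (u * C (a + (i : ℤ)) - wb) (u * C (a + (i : ℤ)) - u * wa)
      have e2 : (u * C (a + (i : ℤ)) - wb) - (u * C (a + (i : ℤ)) - u * wa) = u * wa - wb := by
        ring
      rw [e2, ← mul_sub, norm_mul u, h.hu, one_mul] at h1
      linarith
    · rw [if_neg hp, if_neg hp, zero_add, h.hminus _ hp]
      have h1 := orb3d_aux_norm (w * C (a + (i : ℤ)) - wb) (w * C (a + (i : ℤ)) - w * wa)
      have e2 : (w * C (a + (i : ℤ)) - wb) - (w * C (a + (i : ℤ)) - w * wa) = w * wa - wb := by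
        ring
      rw [e2, ← mul_sub, norm_mul w, h.hw, one_mul] at h1
      linarith
  have hsum := Finset.sum_le_sum fun i (_ : i ∈ range K) => hpt i
  rw [← Finset.mul_sum, Finset.sum_add_distrib, Finset.sum_add_distrib] at hsum
  have hc1 : ∑ i ∈ range K, (if pl (a + (i : ℤ)) then ‖u * wa - wb‖ ^ 2 else 0) =
      ((K : ℝ) / 2) * ‖u * wa - wb‖ ^ 2 := by
    rw [← Finset.sum_filter, Finset.sum_const, nsmul_eq_mul]
    congr 1
    have : (2 : ℝ) * (((range K).filter (fun i : ℕ => pl (a + (i : ℤ)))).card : ℝ) = K := by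
      exact_mod_cast ha
    linarith
  have hc2 : ∑ i ∈ range K, (if pl (a + (i : ℤ)) then 0 else ‖w * wa - wb‖ ^ 2) =
      ((K : ℝ) / 2) * ‖w * wa - wb‖ ^ 2 := by
    have e1 : ∀ i ∈ range K, (if pl (a + (i : ℤ)) then 0 else ‖w * wa - wb‖ ^ 2) =
        (if ¬ pl (a + (i : ℤ)) then ‖w * wa - wb‖ ^ 2 else 0) := by
      intro i _
      split_ifs <;> rfl
    rw [Finset.sum_congr rfl e1, ← Finset.sum_filter, Finset.sum_const, nsmul_eq_mul]
    congr 1
    have h1 := Finset.card_filter_add_card_filter_not (s := range K)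
      (fun i : ℕ => pl (a + (i : ℤ)))
    rw [card_range] at h1
    have h2 : 2 * ((range K).filter (fun i : ℕ => ¬ pl (a + (i : ℤ)))).card = K := by omega
    have : (2 : ℝ) * (((range K).filter (fun i : ℕ => ¬ pl (a + (i : ℤ)))).card : ℝ) = K := by
      exact_mod_cast h2
    linarith
  rw [hc1, hc2] at hsum
  have hfin : ‖(u - w) * wa‖ ^ 2 ≤ 2 * (‖u * wa - wb‖ ^ 2 + ‖w * wa - wb‖ ^ 2) := by
    have := orb3d_aux_norm (u * wa - wb) (w * wa - wb)
    rwa [show (u * wa - wb) - (w * wa - wb) = (u - w) * wa by ring] at this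
  rw [norm_mul, mul_pow] at hfin
  have h6 : (K : ℝ) * ((1 / 2) * ((K : ℝ) / 2 * ‖u * wa - wb‖ ^ 2 + (K : ℝ) / 2 * ‖w * wa - wb‖ ^ 2)) ≤
      4 * (K : ℝ) * EE (2 * H) K C := by
    have h7 := mul_le_mul_of_nonneg_left hsum hK0.le
    have h8 : (K : ℝ) * (∑ i ∈ range K, ‖C (a + (i : ℤ)) - wa‖ ^ 2 +
        ∑ i ∈ range K, ‖C (a + H + (i : ℤ)) - wb‖ ^ 2) ≤ 4 * (K : ℝ) * EE (2 * H) K C := by
      rw [mul_add]
      exact (add_le_add hva hvb).trans hwin
    exact h7.trans h8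
  have h9 : (1 / 2) * ((K : ℝ) / 2 * ‖u * wa - wb‖ ^ 2 + (K : ℝ) / 2 * ‖w * wa - wb‖ ^ 2) ≤
      4 * EE (2 * H) K C := by
    have : (K : ℝ) * ((1 / 2) * ((K : ℝ) / 2 * ‖u * wa - wb‖ ^ 2 +
        (K : ℝ) / 2 * ‖w * wa - wb‖ ^ 2)) ≤ (K : ℝ) * (4 * EE (2 * H) K C) := by
      rw [show (K : ℝ) * (4 * EE (2 * H) K C) = 4 * (K : ℝ) * EE (2 * H) K C by ring]
      exact h6
    exact le_of_mul_le_mul_left this hK0
  have h10 := mul_le_mul_of_nonneg_left hfin hK0.le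
  nlinarith

end Pool.Agent.Fug
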