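import Pool.Agent.Fug.Orb3c
import Pool.Agent.Fug.Orb3d

set_option autoImplicit false

open MeasureTheory Filter Topology Finset

namespace Pool.Agent.Fug

/-- module ORB: the orbit dichotomy -/
theorem orbit_dichotomy {H K : ℕ} {C : ℤ → ℂ} {pl : ℤ → Prop} {u w : ℂ}
    (h : OrbitData H K C pl u w) :
    (1 / 2 ^ 16) * ((K : ℝ) ^ 2 / (2 * (H : ℝ)) ^ 2) * SS (2 * H) C ≤ EE (2 * H) K C ∨
    (‖1 - u‖ ^ 2 ≤ 1 / 4 ∧
      (1 / 64) * ((K : ℝ) / (2 * (H : ℝ))) * ‖u - w‖ ^ 2 * SS (2 * H) C ≤ EE (2 * H) K C) := by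
  by_cases hE : (1 / 2 ^ 16) * ((K : ℝ) ^ 2 / (2 * (H : ℝ)) ^ 2) * SS (2 * H) C ≤
      EE (2 * H) K C
  · exact Or.inl hE
  · push Not at hE
    refine Or.inr ⟨h.u_close hE, ?_⟩
    obtain ⟨a, ha⟩ := h.energy_window
    refine le_trans ?_ ha
    have h1 := h.avg_large hE a
    have hK0 : (0 : ℝ) < K := by exact_mod_cast h.hK0
    have hKH : 4 * (K : ℝ) ≤ H := by exact_mod_cast h.hKH
    have hH0 : (0 : ℝ) < H := by linarith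
    obtain ⟨hS, -, -⟩ := h.aux_small hE
    have h2 : ((K : ℝ) / 32) * ‖u - w‖ ^ 2 * ((15 / 16) * (SS (2 * H) C / (2 * (H : ℝ)))) ≤
        ((K : ℝ) / 32) * ‖u - w‖ ^ 2 * ‖wv K C a‖ ^ 2 := by gcongr
    refine le_trans ?_ h2
    have h3 : (1 / 64) * ((K : ℝ) / (2 * (H : ℝ))) * ‖u - w‖ ^ 2 * SS (2 * H) C =
        (1 / 64) * ((K : ℝ) * ‖u - w‖ ^ 2 * (SS (2 * H) C / (2 * (H : ℝ)))) := by ring
    have h4 : ((K : ℝ) / 32) * ‖u - w‖ ^ 2 * ((15 / 16) * (SS (2 * H) C / (2 * (H : ℝ)))) =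
        (15 / 512) * ((K : ℝ) * ‖u - w‖ ^ 2 * (SS (2 * H) C / (2 * (H : ℝ)))) := by ring
    rw [h3, h4]
    have h5 : 0 ≤ (K : ℝ) * ‖u - w‖ ^ 2 * (SS (2 * H) C / (2 * (H : ℝ))) := by positivity
    nlinarith

end Pool.Agent.Fug
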