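import Pool.Agent.Fug.Basic

set_option autoImplicit false

open MeasureTheory Filter Topology Finset

namespace Pool.Agent.Fug

/-- window average `w_a = (1/K) ∑_{i<K} C(a+i)` -/
noncomputable def wv (K : ℕ) (C : ℤ → ℂ) (a : ℤ) : ℂ := (1 / (K : ℂ)) * ∑ i ∈ range K, C (a + (i : ℤ))

/-- `∑_{0 ≤ a < P} ‖C a‖²` -/
noncomputable def SS (P : ℕ) (C : ℤ → ℂ) : ℝ := ∑ a ∈ range P, ‖C (a : ℤ)‖ ^ 2

/-- `(1/4K) ∑_{0 ≤ a < P} ∑_{l=1}^K ‖C(a+l) - C a‖²` -/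
noncomputable def EE (P K : ℕ) (C : ℤ → ℂ) : ℝ :=
  (1 / (4 * (K : ℝ))) * ∑ a ∈ range P, ∑ l ∈ Icc 1 K, ‖C ((a : ℤ) + (l : ℤ)) - C (a : ℤ)‖ ^ 2

/-- module ORB0: sums over a period are translation invariant -/
theorem sum_period_shift (P : ℕ) (F : ℤ → ℝ) (hF : ∀ a, F (a + P) = F a) (b : ℤ) :
    ∑ a ∈ range P, F ((a : ℤ) + b) = ∑ a ∈ range P, F (a : ℤ) := by
  have key : ∀ b : ℤ, ∑ a ∈ range P, F ((a : ℤ) + (b + 1)) = ∑ a ∈ range P, F ((a : ℤ) + b) := by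
    intro b
    have h1 := Finset.sum_range_succ (fun a : ℕ => F ((a : ℤ) + b)) P
    have h2 := Finset.sum_range_succ' (fun a : ℕ => F ((a : ℤ) + b)) P
    have h3 : F ((P : ℤ) + b) = F (((0 : ℕ) : ℤ) + b) := by
      rw [show (P : ℤ) + b = (((0 : ℕ) : ℤ) + b) + P by push_cast; ring, hF]
    have h4 : ∀ a : ℕ, F ((a : ℤ) + (b + 1)) = F (((a + 1 : ℕ) : ℤ) + b) := by
      intro a
      congr 1
      push_cast
      ring
    simp only [h4]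
    rw [h2, h3] at h1
    linarith
  induction b using Int.induction_on with
  | zero => simp
  | succ i ih => rw [key, ih]
  | pred i ih =>
    rw [← ih, ← key]
    congr 1
    ext a
    congr 1
    ring

/-- module ORB1a -/
theorem orb_diff (P K : ℕ) (hK : 0 < K) (q : ℂ) (hq : ‖q‖ = 1) (C : ℤ → ℂ)
    (hC : ∀ a, C (a + P) = q * C a) :
    ∑ a ∈ range P, ‖C (a : ℤ) - wv K C a‖ ^ 2 ≤ 4 * EE P K C := by
  have hK' : (0 : ℝ) < K := by exact_mod_cast hK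
  have hKc : (K : ℂ) ≠ 0 := by exact_mod_cast hK.ne'
  have key : ∀ a : ℤ, ‖C a - wv K C a‖ ^ 2 ≤ (1 / (K : ℝ)) * ∑ l ∈ Icc 1 K, ‖C (a + (l : ℤ)) - C a‖ ^ 2 := by
    intro a
    have h1 : C a - wv K C a = (1 / (K : ℂ)) * ∑ i ∈ range K, (C a - C (a + (i : ℤ))) := by
      unfold wv
      rw [Finset.sum_sub_distrib, Finset.sum_const, card_range, nsmul_eq_mul, mul_sub]
      congr 1
      field_simp
    have h2 : ‖∑ i ∈ range K, (C a - C (a + (i : ℤ)))‖ ≤ ∑ i ∈ range K, ‖C (a + (i : ℤ)) - C a‖ := by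
      refine (norm_sum_le _ _).trans (le_of_eq ?_)
      exact Finset.sum_congr rfl (fun i _ => norm_sub_rev _ _)
    have h3 : (∑ i ∈ range K, ‖C (a + (i : ℤ)) - C a‖) ^ 2
        ≤ (K : ℝ) * ∑ i ∈ range K, ‖C (a + (i : ℤ)) - C a‖ ^ 2 := by
      have := sq_sum_le_card_mul_sum_sq (s := range K) (f := fun i : ℕ => ‖C (a + (i : ℤ)) - C a‖)
      simpa using this
    have h4 : ∑ i ∈ range K, ‖C (a + (i : ℤ)) - C a‖ ^ 2
        ≤ ∑ l ∈ Icc 1 K, ‖C (a + (l : ℤ)) - C a‖ ^ 2 := by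
      have h5 : ∑ i ∈ range (K + 1), ‖C (a + (i : ℤ)) - C a‖ ^ 2
          = ∑ l ∈ Icc 1 K, ‖C (a + (l : ℤ)) - C a‖ ^ 2 := by
        rw [Finset.sum_range_succ']
        rw [show Icc 1 K = Ico 1 (K + 1) from rfl, Finset.sum_Ico_eq_sum_range]
        simp [add_comm]
      rw [← h5, Finset.sum_range_succ]
      have : 0 ≤ ‖C (a + (K : ℤ)) - C a‖ ^ 2 := by positivity
      linarith
    rw [h1, norm_mul, mul_pow]
    have h6 : ‖(1 / (K : ℂ))‖ ^ 2 = 1 / (K : ℝ) ^ 2 := by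
      simp
    rw [h6]
    have h7 : ‖∑ i ∈ range K, (C a - C (a + (i : ℤ)))‖ ^ 2
        ≤ (K : ℝ) * ∑ l ∈ Icc 1 K, ‖C (a + (l : ℤ)) - C a‖ ^ 2 := by
      calc _ ≤ (∑ i ∈ range K, ‖C (a + (i : ℤ)) - C a‖) ^ 2 := by gcongr
        _ ≤ (K : ℝ) * ∑ i ∈ range K, ‖C (a + (i : ℤ)) - C a‖ ^ 2 := h3
        _ ≤ _ := by gcongr
    calc _ ≤ 1 / (K : ℝ) ^ 2 * ((K : ℝ) * ∑ l ∈ Icc 1 K, ‖C (a + (l : ℤ)) - C a‖ ^ 2) := by gcongr
      _ = _ := by field_simp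
  calc ∑ a ∈ range P, ‖C (a : ℤ) - wv K C a‖ ^ 2
      ≤ ∑ a ∈ range P, (1 / (K : ℝ)) * ∑ l ∈ Icc 1 K, ‖C ((a : ℤ) + (l : ℤ)) - C (a : ℤ)‖ ^ 2 :=
        Finset.sum_le_sum (fun a _ => key a)
    _ = 4 * EE P K C := by
        unfold EE
        rw [← Finset.mul_sum]
        field_simp

end Pool.Agent.Fug
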