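import Pool.Agent.Fug.Orb1

set_option autoImplicit false

open MeasureTheory Filter Topology Finset

namespace Pool.Agent.Fug

/-- `∑_{a<P} ‖C(a+l) - C a‖²` -/
private noncomputable def orb1bV (P : ℕ) (C : ℤ → ℂ) (l : ℕ) : ℝ :=
  ∑ a ∈ range P, ‖C ((a : ℤ) + (l : ℤ)) - C (a : ℤ)‖ ^ 2

private lemma orb1b_V_nonneg (P : ℕ) (C : ℤ → ℂ) (l : ℕ) : 0 ≤ orb1bV P C l := by
  unfold orb1bV; positivity

private lemma orb1b_V_shift (P : ℕ) (q : ℂ) (hq : ‖q‖ = 1) (C : ℤ → ℂ)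
    (hC : ∀ a, C (a + P) = q * C a) (l : ℕ) (b : ℤ) :
    ∑ a ∈ range P, ‖C ((a : ℤ) + b + (l : ℤ)) - C ((a : ℤ) + b)‖ ^ 2 = orb1bV P C l := by
  unfold orb1bV
  refine sum_period_shift P (fun a => ‖C (a + (l : ℤ)) - C a‖ ^ 2) ?_ b
  intro a
  have h1 : C (a + P + (l : ℤ)) = q * C (a + (l : ℤ)) := by
    rw [show a + P + (l : ℤ) = (a + (l : ℤ)) + P by ring, hC]
  simp only [h1, hC a, ← mul_sub, norm_mul, hq, one_mul]

private lemma orb1b_V_split (P : ℕ) (q : ℂ) (hq : ‖q‖ = 1) (C : ℤ → ℂ)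
    (hC : ∀ a, C (a + P) = q * C a) (i j : ℕ) :
    orb1bV P C (i + j) ≤ 2 * orb1bV P C i + 2 * orb1bV P C j := by
  rw [← orb1b_V_shift P q hq C hC j (i : ℤ)]
  unfold orb1bV
  rw [Finset.mul_sum, Finset.mul_sum, ← Finset.sum_add_distrib]
  refine Finset.sum_le_sum (fun a _ => ?_)
  have h1 : C ((a : ℤ) + ((i + j : ℕ) : ℤ)) - C (a : ℤ)
      = (C ((a : ℤ) + (i : ℤ)) - C (a : ℤ)) + (C ((a : ℤ) + (i : ℤ) + (j : ℤ)) - C ((a : ℤ) + (i : ℤ))) := by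
    push_cast
    rw [← add_assoc]
    ring
  rw [h1]
  have h2 := norm_add_le (C ((a : ℤ) + (i : ℤ)) - C (a : ℤ)) (C ((a : ℤ) + (i : ℤ) + (j : ℤ)) - C ((a : ℤ) + (i : ℤ)))
  have h3 := norm_nonneg ((C ((a : ℤ) + (i : ℤ)) - C (a : ℤ)) + (C ((a : ℤ) + (i : ℤ) + (j : ℤ)) - C ((a : ℤ) + (i : ℤ))))
  nlinarith [sq_nonneg (‖C ((a : ℤ) + (i : ℤ)) - C (a : ℤ)‖ - ‖C ((a : ℤ) + (i : ℤ) + (j : ℤ)) - C ((a : ℤ) + (i : ℤ))‖)]

private lemma orb1b_EE (P K : ℕ) (hK : 0 < K) (C : ℤ → ℂ) :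
    ∑ i ∈ range (K + 1), orb1bV P C i = 4 * (K : ℝ) * EE P K C := by
  have hK' : (0 : ℝ) < K := by exact_mod_cast hK
  rw [Finset.sum_range_succ']
  have h0 : orb1bV P C 0 = 0 := by simp [orb1bV]
  rw [h0, add_zero]
  unfold EE
  have h1 : ∑ a ∈ range P, ∑ l ∈ Icc 1 K, ‖C ((a : ℤ) + (l : ℤ)) - C (a : ℤ)‖ ^ 2
      = ∑ l ∈ Icc 1 K, orb1bV P C l := by
    unfold orb1bV
    rw [Finset.sum_comm]
  rw [h1, show Icc 1 K = Ico 1 (K + 1) from rfl, Finset.sum_Ico_eq_sum_range]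
  simp only [Nat.add_sub_cancel]
  have h2 : ∀ i : ℕ, orb1bV P C (1 + i) = orb1bV P C (i + 1) := fun i => by rw [add_comm]
  simp only [h2]
  field_simp

private lemma orb1b_VK (P K : ℕ) (hK : 0 < K) (q : ℂ) (hq : ‖q‖ = 1) (C : ℤ → ℂ)
    (hC : ∀ a, C (a + P) = q * C a) : orb1bV P C K ≤ 16 * EE P K C := by
  have hK' : (0 : ℝ) < K := by exact_mod_cast hK
  have h1 : ∀ i ∈ range (K + 1), orb1bV P C K ≤ 2 * orb1bV P C i + 2 * orb1bV P C (K - i) := by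
    intro i hi
    have hi' : i ≤ K := by simpa [Nat.lt_succ_iff] using hi
    have h := orb1b_V_split P q hq C hC i (K - i)
    rwa [Nat.add_sub_of_le hi'] at h
  have h2 := Finset.sum_le_sum h1
  rw [Finset.sum_add_distrib, ← Finset.mul_sum, ← Finset.mul_sum, Finset.sum_const, card_range,
    nsmul_eq_mul] at h2
  have h3 : ∑ i ∈ range (K + 1), orb1bV P C (K - i) = ∑ i ∈ range (K + 1), orb1bV P C i := by
    have h := Finset.sum_range_reflect (fun i => orb1bV P C i) (K + 1)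
    simpa using h
  rw [h3, orb1b_EE P K hK C] at h2
  push_cast at h2
  have h4 := orb1b_V_nonneg P C K
  have h5 : (K : ℝ) * orb1bV P C K ≤ (K : ℝ) * (16 * EE P K C) := by nlinarith
  exact le_of_mul_le_mul_left h5 hK'

/-- module ORB1b -/
theorem orb_step (P K : ℕ) (hK : 0 < K) (q : ℂ) (hq : ‖q‖ = 1) (C : ℤ → ℂ)
    (hC : ∀ a, C (a + P) = q * C a) :
    ∑ a ∈ range P, ‖wv K C ((a : ℤ) + 1) - wv K C a‖ ^ 2 ≤ 16 * EE P K C / (K : ℝ) ^ 2 := by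
  have hK' : (0 : ℝ) < K := by exact_mod_cast hK
  have h1 : ∀ a : ℤ, ‖wv K C (a + 1) - wv K C a‖ ^ 2 = ‖C (a + (K : ℤ)) - C a‖ ^ 2 / (K : ℝ) ^ 2 := by
    intro a
    have h2 := Finset.sum_range_succ (fun i : ℕ => C (a + (i : ℤ))) K
    have h3 := Finset.sum_range_succ' (fun i : ℕ => C (a + (i : ℤ))) K
    have h4 : ∀ i : ℕ, C (a + 1 + (i : ℤ)) = C (a + ((i + 1 : ℕ) : ℤ)) := by
      intro i; congr 1; push_cast; ring
    have h5 : wv K C (a + 1) - wv K C a = (C (a + (K : ℤ)) - C a) / (K : ℂ) := by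
      unfold wv
      simp only [h4]
      rw [h2] at h3
      have h6 : ∑ i ∈ range K, C (a + ((i + 1 : ℕ) : ℤ))
          = ∑ i ∈ range K, C (a + (i : ℤ)) + C (a + (K : ℤ)) - C a := by
        have : C (a + ((0 : ℕ) : ℤ)) = C a := by simp
        rw [this] at h3
        rw [h3]; ring
      rw [h6]
      ring
    rw [h5, norm_div, div_pow]
    simp
  simp only [h1]
  rw [← Finset.sum_div]
  have h2 := orb1b_VK P K hK q hq C hC
  unfold orb1bV at h2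
  gcongr

/-- module ORB1c: variation of the window averages over at most one period -/
theorem orb_var (P K : ℕ) (hK : 0 < K) (q : ℂ) (hq : ‖q‖ = 1) (C : ℤ → ℂ)
    (hC : ∀ a, C (a + P) = q * C a) (a : ℤ) (r : ℕ) (hr : r ≤ P) :
    ‖wv K C (a + r) - wv K C a‖ ^ 2 ≤ (P : ℝ) * (16 * EE P K C / (K : ℝ) ^ 2) := by
  have hper : ∀ b : ℤ, wv K C (b + P) = q * wv K C b := by
    intro b
    unfold wv
    have h1 : ∀ i : ℕ, C (b + P + (i : ℤ)) = q * C (b + (i : ℤ)) := by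
      intro i
      rw [show b + P + (i : ℤ) = (b + (i : ℤ)) + P by ring, hC]
    simp only [h1, ← Finset.mul_sum]
    ring
  have h1 : wv K C (a + r) - wv K C a = ∑ j ∈ range r, (wv K C (a + ((j + 1 : ℕ) : ℤ)) - wv K C (a + (j : ℤ))) := by
    rw [Finset.sum_range_sub (fun j : ℕ => wv K C (a + (j : ℤ)))]
    simp
  have h2 : ‖wv K C (a + r) - wv K C a‖ ^ 2
      ≤ (r : ℝ) * ∑ j ∈ range r, ‖wv K C (a + ((j + 1 : ℕ) : ℤ)) - wv K C (a + (j : ℤ))‖ ^ 2 := by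
    rw [h1]
    calc _ ≤ (∑ j ∈ range r, ‖wv K C (a + ((j + 1 : ℕ) : ℤ)) - wv K C (a + (j : ℤ))‖) ^ 2 := by
          gcongr
          exact norm_sum_le _ _
      _ ≤ _ := by
          have := sq_sum_le_card_mul_sum_sq (s := range r)
            (f := fun j : ℕ => ‖wv K C (a + ((j + 1 : ℕ) : ℤ)) - wv K C (a + (j : ℤ))‖)
          simpa using this
  have h3 : ∑ j ∈ range r, ‖wv K C (a + ((j + 1 : ℕ) : ℤ)) - wv K C (a + (j : ℤ))‖ ^ 2
      ≤ ∑ j ∈ range P, ‖wv K C (a + ((j + 1 : ℕ) : ℤ)) - wv K C (a + (j : ℤ))‖ ^ 2 :=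
    Finset.sum_le_sum_of_subset_of_nonneg (Finset.range_mono hr) (fun _ _ _ => by positivity)
  have h4 : ∑ j ∈ range P, ‖wv K C (a + ((j + 1 : ℕ) : ℤ)) - wv K C (a + (j : ℤ))‖ ^ 2
      = ∑ j ∈ range P, ‖wv K C ((j : ℤ) + 1) - wv K C (j : ℤ)‖ ^ 2 := by
    rw [← sum_period_shift P (fun j : ℤ => ‖wv K C (j + 1) - wv K C j‖ ^ 2) ?_ a]
    · refine Finset.sum_congr rfl (fun j _ => ?_)
      congr 3
      · congr 1; push_cast; ring
      · congr 1; ring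
    · intro b
      have h5 : wv K C (b + P + 1) = q * wv K C (b + 1) := by
        rw [show b + (P : ℤ) + 1 = (b + 1) + P by ring, hper]
      simp only [h5, hper b, ← mul_sub, norm_mul, hq, one_mul]
  have h6 := orb_step P K hK q hq C hC
  have hrP : (r : ℝ) ≤ P := by exact_mod_cast hr
  calc _ ≤ _ := h2
    _ ≤ (P : ℝ) * ∑ j ∈ range P, ‖wv K C (a + ((j + 1 : ℕ) : ℤ)) - wv K C (a + (j : ℤ))‖ ^ 2 := by
        gcongr
    _ ≤ _ := by
        rw [h4]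
        gcongr

end Pool.Agent.Fug
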