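import Pool.Agent.Fug.Basic

set_option autoImplicit false

open Finset

namespace Pool.Agent.Fug

open Classical in
/-- module ORB2: a balanced window of any even length `K` exists for an antiperiodic predicate -/
theorem balanced_window (H K : ℕ) (hK : Even K) (pl : ℤ → Prop)
    (hanti : ∀ l : ℤ, pl (l + H) ↔ ¬ pl l) :
    ∃ a : ℤ, 2 * ((range K).filter (fun i : ℕ => pl (a + (i : ℤ)))).card = K := by
  obtain ⟨c, hc⟩ := hK
  let ch : ℤ → ℤ := fun l => if pl l then 1 else 0
  have hch : ∀ l, ch l = 0 ∨ ch l = 1 := by
    intro l
    simp only [ch]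
    split_ifs
    · exact Or.inr rfl
    · exact Or.inl rfl
  let n : ℤ → ℤ := fun a => ∑ i ∈ range K, ch (a + (i : ℤ))
  have hn : ∀ a : ℤ, (((range K).filter (fun i : ℕ => pl (a + (i : ℤ)))).card : ℤ) = n a := by
    intro a
    rw [Finset.card_filter]
    push_cast
    rfl
  have hstep : ∀ a, n (a + 1) = n a + ch (a + K) - ch a := by
    intro a
    have h1 : ∑ i ∈ range (K + 1), ch (a + (i : ℤ)) = n a + ch (a + K) := by
      rw [Finset.sum_range_succ]
    have h2 : ∑ i ∈ range (K + 1), ch (a + (i : ℤ)) = n (a + 1) + ch a := by
      rw [Finset.sum_range_succ']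
      simp only [n, Nat.cast_zero, add_zero]
      congr 1
      apply Finset.sum_congr rfl
      intro i _
      push_cast
      congr 1
      ring
    linarith
  have hshift : ∀ a, n (a + H) = K - n a := by
    intro a
    have h1 : ∀ l, ch (l + H) = 1 - ch l := by
      intro l
      simp only [ch]
      by_cases hl : pl l
      · rw [if_pos hl, if_neg (fun h => ((hanti l).1 h) hl)]
        ring
      · rw [if_neg hl, if_pos ((hanti l).2 hl)]
        ring
    simp only [n]
    have h2 : ∀ i ∈ range K, ch (a + H + (i : ℤ)) = 1 - ch (a + (i : ℤ)) := by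
      intro i _
      rw [← h1]
      congr 1
      ring
    rw [Finset.sum_congr rfl h2, Finset.sum_sub_distrib]
    simp
  have hK2 : (K : ℤ) = c + c := by exact_mod_cast hc
  by_contra hcon
  push Not at hcon
  have hne : ∀ a, n a ≠ c := by
    intro a ha
    apply hcon a
    have h1 := hn a
    rw [ha] at h1
    have h2 : ((range K).filter (fun i : ℕ => pl (a + (i : ℤ)))).card = c := by exact_mod_cast h1
    rw [h2, hc]
    ring
  have hup : ∀ (m : ℕ), (c : ℤ) < n 0 → (c : ℤ) < n m := by
    intro m h0
    induction m with
    | zero => simpa using h0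
    | succ m ih =>
      have h1 := hstep m
      have h2 := hch (m + K)
      have h3 := hch (m : ℤ)
      have h4 := hne ((m : ℤ) + 1)
      push_cast
      rcases lt_or_gt_of_ne h4 with h5 | h5
      · exfalso
        omega
      · exact h5
  have hdn : ∀ (m : ℕ), n 0 < (c : ℤ) → n m < (c : ℤ) := by
    intro m h0
    induction m with
    | zero => simpa using h0
    | succ m ih =>
      have h1 := hstep m
      have h2 := hch (m + K)
      have h3 := hch (m : ℤ)
      have h4 := hne ((m : ℤ) + 1)
      push_cast
      rcases lt_or_gt_of_ne h4 with h5 | h5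
      · exact h5
      · exfalso
        omega
  have hs := hshift 0
  rw [zero_add] at hs
  rcases lt_or_gt_of_ne (hne 0) with h | h
  · have := hdn H h
    omega
  · have := hup H h
    omega

end Pool.Agent.Fug
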