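import Pool.Agent.Fug.Orb1b
import Pool.Agent.Fug.Orb2

set_option autoImplicit false

open MeasureTheory Filter Topology Finset

namespace Pool.Agent.Fug

/-- data of one orbit: half period `H`, window `K` -/
structure OrbitData (H K : ℕ) (C : ℤ → ℂ) (pl : ℤ → Prop) (u w : ℂ) : Prop where
  hH : Even H
  hK : Even K
  hK0 : 0 < K
  hKH : 4 * K ≤ H
  hu : ‖u‖ = 1
  hw : ‖w‖ = 1
  hanti : ∀ l : ℤ, pl (l + H) ↔ ¬ pl l
  hplus : ∀ l : ℤ, pl l → C (l + H) = u * C l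
  hminus : ∀ l : ℤ, ¬ pl l → C (l + H) = w * C l

/-- module ORB3a -/
theorem OrbitData.quasi {H K : ℕ} {C : ℤ → ℂ} {pl : ℤ → Prop} {u w : ℂ}
    (h : OrbitData H K C pl u w) (l : ℤ) : C (l + (2 * H : ℕ)) = (u * w) * C l := by
  have e1 : l + ((2 * H : ℕ) : ℤ) = (l + H) + H := by push_cast; ring
  rw [e1]
  by_cases hl : pl l
  · have h1 : ¬ pl (l + H) := fun h2 => (h.hanti l).1 h2 hl
    rw [h.hminus _ h1, h.hplus _ hl]
    ring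
  · have h1 : pl (l + H) := (h.hanti l).2 hl
    rw [h.hplus _ h1, h.hminus _ hl]
    ring

theorem orb3_aux_norm (x y : ℂ) (t : ℝ) (ht : 0 < t) :
    ‖x‖ ^ 2 ≤ (1 + t) * ‖y‖ ^ 2 + (1 + 1 / t) * ‖x - y‖ ^ 2 := by
  have h1 : ‖x‖ ≤ ‖y‖ + ‖x - y‖ := by
    have := norm_add_le y (x - y)
    rwa [add_sub_cancel] at this
  have h2 : ‖x‖ ^ 2 ≤ (‖y‖ + ‖x - y‖) ^ 2 := pow_le_pow_left₀ (norm_nonneg _) h1 2
  have h3 : 2 * ‖y‖ * ‖x - y‖ ≤ t * ‖y‖ ^ 2 + 1 / t * ‖x - y‖ ^ 2 := by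
    have h4 : 0 ≤ (t * ‖y‖ - ‖x - y‖) ^ 2 / t := by positivity
    have h5 : (t * ‖y‖ - ‖x - y‖) ^ 2 / t =
        t * ‖y‖ ^ 2 + 1 / t * ‖x - y‖ ^ 2 - 2 * ‖y‖ * ‖x - y‖ := by
      field_simp
      ring
    linarith
  nlinarith

theorem orb3_aux_EE_nonneg (P K : ℕ) (C : ℤ → ℂ) : 0 ≤ EE P K C := by
  unfold EE
  positivity

theorem orb3_aux_wv_shift (P K : ℕ) (q : ℂ) (C : ℤ → ℂ)
    (hC : ∀ a, C (a + P) = q * C a) (a : ℤ) : wv K C (a + P) = q * wv K C a := by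
  unfold wv
  have : ∀ i : ℕ, C (a + P + (i : ℤ)) = q * C (a + i) := by
    intro i
    rw [← hC]
    congr 1
    ring
  simp only [this, ← Finset.mul_sum]
  ring

/-- consequences of small energy -/
theorem OrbitData.aux_small {H K : ℕ} {C : ℤ → ℂ} {pl : ℤ → Prop} {u w : ℂ}
    (h : OrbitData H K C pl u w)
    (hE : EE (2 * H) K C < (1 / 2 ^ 16) * ((K : ℝ) ^ 2 / (2 * (H : ℝ)) ^ 2) * SS (2 * H) C) :
    0 < SS (2 * H) C ∧
      ∑ a ∈ range (2 * H), ‖C (a : ℤ) - wv K C a‖ ^ 2 ≤ 1 / 2 ^ 20 * SS (2 * H) C ∧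
      ∀ (a : ℤ) (r : ℕ), r ≤ 2 * H → ‖wv K C (a + r) - wv K C a‖ ^ 2 ≤
        1 / 2 ^ 12 * (SS (2 * H) C / (2 * (H : ℝ))) := by
  have hK0 : (0 : ℝ) < K := by exact_mod_cast h.hK0
  have hKH : 4 * (K : ℝ) ≤ H := by exact_mod_cast h.hKH
  have hH0 : (0 : ℝ) < H := by linarith
  have hE0 := orb3_aux_EE_nonneg (2 * H) K C
  have hq : ‖u * w‖ = 1 := by rw [norm_mul, h.hu, h.hw, one_mul]
  have hfac : 0 < (1 / 2 ^ 16) * ((K : ℝ) ^ 2 / (2 * (H : ℝ)) ^ 2) := by positivity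
  have hS : 0 < SS (2 * H) C := by
    by_contra hcon
    push Not at hcon
    have : (1 / 2 ^ 16) * ((K : ℝ) ^ 2 / (2 * (H : ℝ)) ^ 2) * SS (2 * H) C ≤ 0 :=
      mul_nonpos_of_nonneg_of_nonpos hfac.le hcon
    linarith
  have hr : (K : ℝ) ^ 2 / (2 * (H : ℝ)) ^ 2 ≤ 1 / 64 := by
    rw [div_le_div_iff₀ (by positivity) (by norm_num)]
    nlinarith
  refine ⟨hS, ?_, ?_⟩
  · refine (orb_diff (2 * H) K h.hK0 (u * w) hq C h.quasi).trans ?_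
    have h1 : (1 / 2 ^ 16) * ((K : ℝ) ^ 2 / (2 * (H : ℝ)) ^ 2) * SS (2 * H) C ≤
        (1 / 2 ^ 16) * (1 / 64) * SS (2 * H) C := by gcongr
    have h2 : 4 * EE (2 * H) K C ≤ 4 * ((1 / 2 ^ 16) * (1 / 64) * SS (2 * H) C) := by linarith
    refine h2.trans (le_of_eq ?_)
    ring
  · intro a r hr'
    refine (orb_var (2 * H) K h.hK0 (u * w) hq C h.quasi a r hr').trans ?_
    have h1 : 16 * EE (2 * H) K C / (K : ℝ) ^ 2 ≤
        16 * ((1 / 2 ^ 16) * ((K : ℝ) ^ 2 / (2 * (H : ℝ)) ^ 2) * SS (2 * H) C) / (K : ℝ) ^ 2 := by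
      gcongr
    have h2 : ((2 * H : ℕ) : ℝ) * (16 * EE (2 * H) K C / (K : ℝ) ^ 2) ≤
        ((2 * H : ℕ) : ℝ) *
        (16 * ((1 / 2 ^ 16) * ((K : ℝ) ^ 2 / (2 * (H : ℝ)) ^ 2) * SS (2 * H) C) / (K : ℝ) ^ 2) := by
      gcongr
    refine h2.trans (le_of_eq ?_)
    push_cast
    field_simp
    ring

/-- module ORB3b: if the energy is small, all window averages are large -/
theorem OrbitData.avg_large {H K : ℕ} {C : ℤ → ℂ} {pl : ℤ → Prop} {u w : ℂ}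
    (h : OrbitData H K C pl u w)
    (hE : EE (2 * H) K C < (1 / 2 ^ 16) * ((K : ℝ) ^ 2 / (2 * (H : ℝ)) ^ 2) * SS (2 * H) C)
    (a : ℤ) : (15 / 16) * (SS (2 * H) C / (2 * (H : ℝ))) ≤ ‖wv K C a‖ ^ 2 := by
  obtain ⟨hS, hd, hv⟩ := h.aux_small hE
  have hK0 : (0 : ℝ) < K := by exact_mod_cast h.hK0
  have hKH : 4 * (K : ℝ) ≤ H := by exact_mod_cast h.hKH
  have hH0 : (0 : ℝ) < H := by linarith
  have hHn : 0 < H := by exact_mod_cast hH0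
  have hq : ‖u * w‖ = 1 := by rw [norm_mul, h.hu, h.hw, one_mul]
  set S := SS (2 * H) C with hSdef
  -- some window average is large
  have hex : ∃ b ∈ range (2 * H), (1 - 1 / 2 ^ 8) * (S / (2 * (H : ℝ))) ≤ ‖wv K C (b : ℤ)‖ ^ 2 := by
    by_contra hcon
    push Not at hcon
    have h1 : ∑ b ∈ range (2 * H), ‖wv K C (b : ℤ)‖ ^ 2 ≤ (1 - 1 / 2 ^ 8) * S := by
      calc ∑ b ∈ range (2 * H), ‖wv K C (b : ℤ)‖ ^ 2
          ≤ ∑ _b ∈ range (2 * H), (1 - 1 / 2 ^ 8) * (S / (2 * (H : ℝ))) :=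
            Finset.sum_le_sum fun b hb => (hcon b hb).le
        _ = (1 - 1 / 2 ^ 8) * S := by
            rw [Finset.sum_const, card_range, nsmul_eq_mul]
            push_cast
            field_simp
    have h2 : S ≤ ∑ b ∈ range (2 * H), ((1 + 1 / 2 ^ 10) * ‖wv K C (b : ℤ)‖ ^ 2 +
        (1 + 1 / (1 / 2 ^ 10)) * ‖C (b : ℤ) - wv K C b‖ ^ 2) := by
      rw [hSdef]
      unfold SS
      exact Finset.sum_le_sum fun b _ => orb3_aux_norm _ _ _ (by norm_num)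
    rw [Finset.sum_add_distrib, ← Finset.mul_sum, ← Finset.mul_sum] at h2
    have h3 : (1 + 1 / (1 / 2 ^ 10 : ℝ)) = 1025 := by norm_num
    rw [h3] at h2
    nlinarith
  obtain ⟨b, hb, hbw⟩ := hex
  -- periodicity
  have hper : ∀ (c : ℤ) (k : ℤ), ‖wv K C (c + k * (2 * H : ℕ))‖ = ‖wv K C c‖ := by
    intro c k
    have hp : Function.Periodic (fun c : ℤ => ‖wv K C c‖) ((2 * H : ℕ) : ℤ) := by
      intro c
      show ‖wv K C (c + (2 * H : ℕ))‖ = ‖wv K C c‖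
      rw [orb3_aux_wv_shift (2 * H) K (u * w) C h.quasi, norm_mul, hq, one_mul]
    exact hp.int_mul k c
  set k : ℤ := (a - b) / ((2 * H : ℕ) : ℤ) with hk
  have hP : (0 : ℤ) < ((2 * H : ℕ) : ℤ) := by exact_mod_cast (by omega : 0 < 2 * H)
  obtain ⟨r, hr⟩ : ∃ r : ℕ, (r : ℤ) = (a - b) % ((2 * H : ℕ) : ℤ) :=
    ⟨((a - b) % ((2 * H : ℕ) : ℤ)).toNat, Int.toNat_of_nonneg (Int.emod_nonneg _ hP.ne')⟩
  have hrle : r ≤ 2 * H := by
    have := Int.emod_lt_of_pos (a - b) hP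
    rw [← hr] at this
    have h2 : r < 2 * H := by exact_mod_cast this
    exact h2.le
  have ha : a = (b + k * ((2 * H : ℕ) : ℤ)) + r := by
    have := Int.emod_add_mul_ediv (a - b) ((2 * H : ℕ) : ℤ)
    rw [hr, hk]
    linarith [mul_comm (((2 * H : ℕ) : ℤ)) ((a - b) / ((2 * H : ℕ) : ℤ))]
  have hvar := hv (b + k * ((2 * H : ℕ) : ℤ)) r hrle
  rw [← ha] at hvar
  have h4 := orb3_aux_norm (wv K C (b + k * ((2 * H : ℕ) : ℤ))) (wv K C a) (1 / 64) (by norm_num)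
  rw [hper, norm_sub_rev] at h4
  have h5 : (1 + 1 / (1 / 64 : ℝ)) = 65 := by norm_num
  rw [h5] at h4
  have hs : 0 < S / (2 * (H : ℝ)) := by positivity
  nlinarith

end Pool.Agent.Fug
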