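import Pool.Agent.Fug.Orb3

set_option autoImplicit false

open MeasureTheory Filter Topology Finset

namespace Pool.Agent.Fug

theorem orb3c_aux_norm (x y : ℂ) : ‖x + y‖ ^ 2 ≤ 2 * (‖x‖ ^ 2 + ‖y‖ ^ 2) := by
  have h1 : ‖x + y‖ ≤ ‖x‖ + ‖y‖ := norm_add_le x y
  have h2 : ‖x + y‖ ^ 2 ≤ (‖x‖ + ‖y‖) ^ 2 := pow_le_pow_left₀ (norm_nonneg _) h1 2
  nlinarith [sq_nonneg (‖x‖ - ‖y‖)]

/-- module ORB3c: if the energy is small, `u` is close to `1` -/
theorem OrbitData.u_close {H K : ℕ} {C : ℤ → ℂ} {pl : ℤ → Prop} {u w : ℂ}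
    (h : OrbitData H K C pl u w)
    (hE : EE (2 * H) K C < (1 / 2 ^ 16) * ((K : ℝ) ^ 2 / (2 * (H : ℝ)) ^ 2) * SS (2 * H) C) :
    ‖1 - u‖ ^ 2 ≤ 1 / 4 := by
  classical
  obtain ⟨hS, hd, hv⟩ := h.aux_small hE
  obtain ⟨a, ha⟩ := balanced_window H H h.hH pl h.hanti
  have hlarge := h.avg_large hE a
  have hK0 : (0 : ℝ) < K := by exact_mod_cast h.hK0
  have hKH : 4 * (K : ℝ) ≤ H := by exact_mod_cast h.hKH
  have hH0 : (0 : ℝ) < H := by linarith
  have hq : ‖u * w‖ = 1 := by rw [norm_mul, h.hu, h.hw, one_mul]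
  set S := SS (2 * H) C with hSdef
  set ω := wv K C a with hω
  -- the sum of the squared deviations over a period
  set δ : ℕ → ℂ := fun i => C ((i : ℤ) + a) - ω with hδ
  have hper : ∀ j : ℤ, ‖C (j + (2 * H : ℕ)) - wv K C (j + (2 * H : ℕ))‖ ^ 2 =
      ‖C j - wv K C j‖ ^ 2 := by
    intro j
    rw [h.quasi, orb3_aux_wv_shift (2 * H) K (u * w) C h.quasi, ← mul_sub, norm_mul, hq, one_mul]
  have hd' : ∑ i ∈ range (2 * H), ‖C ((i : ℤ) + a) - wv K C ((i : ℤ) + a)‖ ^ 2 ≤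
      1 / 2 ^ 20 * S := by
    rw [sum_period_shift (2 * H) (fun j => ‖C j - wv K C j‖ ^ 2) hper a]
    exact hd
  have hδ2 : ∑ i ∈ range (2 * H), ‖δ i‖ ^ 2 ≤ (1 / 2 ^ 19 + 1 / 2 ^ 11) * S := by
    calc ∑ i ∈ range (2 * H), ‖δ i‖ ^ 2
        ≤ ∑ i ∈ range (2 * H), 2 * (‖C ((i : ℤ) + a) - wv K C ((i : ℤ) + a)‖ ^ 2 +
            1 / 2 ^ 12 * (S / (2 * (H : ℝ)))) := by
          refine Finset.sum_le_sum fun i hi => ?_
          have h1 := orb3c_aux_norm (C ((i : ℤ) + a) - wv K C ((i : ℤ) + a))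
            (wv K C ((i : ℤ) + a) - ω)
          rw [sub_add_sub_cancel] at h1
          have h2 := hv a i (mem_range.1 hi).le
          rw [add_comm a (i : ℤ)] at h2
          refine h1.trans ?_
          gcongr
      _ = 2 * (∑ i ∈ range (2 * H), ‖C ((i : ℤ) + a) - wv K C ((i : ℤ) + a)‖ ^ 2) +
            1 / 2 ^ 11 * S := by
          rw [← Finset.mul_sum, Finset.sum_add_distrib, Finset.sum_const, card_range,
            nsmul_eq_mul]
          push_cast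
          field_simp
      _ ≤ 2 * (1 / 2 ^ 20 * S) + 1 / 2 ^ 11 * S := by gcongr
      _ = (1 / 2 ^ 19 + 1 / 2 ^ 11) * S := by ring
  have hδ1 : (∑ i ∈ range (2 * H), ‖δ i‖) ^ 2 ≤ 2 * (H : ℝ) * ((1 / 2 ^ 19 + 1 / 2 ^ 11) * S) := by
    have := sq_sum_le_card_mul_sum_sq (s := range (2 * H)) (f := fun i => ‖δ i‖)
    rw [card_range] at this
    refine this.trans ?_
    push_cast
    gcongr
  -- the identity
  have hcard1 : (2 : ℂ) * (((range H).filter (fun i : ℕ => pl (a + (i : ℤ)))).card : ℂ) = H := by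
    exact_mod_cast ha
  have hcard2 : (2 : ℂ) * (((range H).filter (fun i : ℕ => ¬ pl (a + (i : ℤ)))).card : ℂ) = H := by
    have h1 := Finset.card_filter_add_card_filter_not (s := range H)
      (fun i : ℕ => pl (a + (i : ℤ)))
    rw [card_range] at h1
    have h2 : 2 * ((range H).filter (fun i : ℕ => ¬ pl (a + (i : ℤ)))).card = H := by omega
    exact_mod_cast h2
  have hcoef : ∑ i ∈ range H, (1 - (if pl (a + (i : ℤ)) then u else w)) =
      (H : ℂ) * (1 - (u + w) / 2) := by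
    rw [Finset.sum_sub_distrib, Finset.sum_ite, Finset.sum_const, Finset.sum_const,
      Finset.sum_const, card_range]
    simp only [nsmul_eq_mul]
    linear_combination (-u / 2) * hcard1 + (-w / 2) * hcard2
  have hid : (H : ℂ) * (1 - (u + w) / 2) * ω =
      ∑ i ∈ range H, ((if pl (a + (i : ℤ)) then u else w) * δ i - δ (H + i)) := by
    rw [← hcoef, Finset.sum_mul]
    refine Finset.sum_congr rfl fun i _ => ?_
    simp only [hδ]
    have e1 : ((H + i : ℕ) : ℤ) + a = (a + (i : ℤ)) + H := by push_cast; ring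
    rw [e1, add_comm (i : ℤ) a]
    by_cases hp : pl (a + (i : ℤ))
    · rw [if_pos hp, h.hplus _ hp]
      ring
    · rw [if_neg hp, h.hminus _ hp]
      ring
  have hbound : ‖(H : ℂ) * (1 - (u + w) / 2) * ω‖ ≤ ∑ i ∈ range (2 * H), ‖δ i‖ := by
    rw [hid, two_mul, Finset.sum_range_add, ← Finset.sum_add_distrib]
    refine (norm_sum_le _ _).trans (Finset.sum_le_sum fun i _ => ?_)
    refine (norm_sub_le _ _).trans ?_
    rw [norm_mul]
    have : ‖(if pl (a + (i : ℤ)) then u else w)‖ = 1 := by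
      split_ifs
      · exact h.hu
      · exact h.hw
    rw [this, one_mul]
  have hsq : (H : ℝ) ^ 2 * ‖1 - (u + w) / 2‖ ^ 2 * ‖ω‖ ^ 2 ≤
      2 * (H : ℝ) * ((1 / 2 ^ 19 + 1 / 2 ^ 11) * S) := by
    refine le_trans (le_of_eq ?_) (le_trans (pow_le_pow_left₀ (norm_nonneg _) hbound 2) hδ1)
    rw [norm_mul, norm_mul, mul_pow, mul_pow, Complex.norm_natCast]
  -- bound for `‖1 - (u+w)/2‖²`
  have hX : ‖1 - (u + w) / 2‖ ^ 2 ≤ 1 / 256 := by
    by_contra hcon
    push Not at hcon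
    have h1 : (1 / 256) * ((H : ℝ) ^ 2 * ‖ω‖ ^ 2) ≤
        ‖1 - (u + w) / 2‖ ^ 2 * ((H : ℝ) ^ 2 * ‖ω‖ ^ 2) := by gcongr
    have h2 : (H : ℝ) ^ 2 * ((15 / 16) * (S / (2 * (H : ℝ)))) ≤ (H : ℝ) ^ 2 * ‖ω‖ ^ 2 := by gcongr
    have h3 : (H : ℝ) ^ 2 * ((15 / 16) * (S / (2 * (H : ℝ)))) = (15 / 32) * ((H : ℝ) * S) := by
      field_simp
      ring
    rw [h3] at h2
    have h4 : 0 < (H : ℝ) * S := by positivity
    nlinarith
  have hre : (1 - (u + w) / 2).re ≤ 1 / 16 := by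
    have h1 := Complex.re_le_norm (1 - (u + w) / 2)
    have h2 : ‖1 - (u + w) / 2‖ ≤ 1 / 16 := by
      by_contra hcon
      push Not at hcon
      have : (1 / 16 : ℝ) ^ 2 < ‖1 - (u + w) / 2‖ ^ 2 := by gcongr
      norm_num at this hX
      linarith
    linarith
  have hre' : (1 - (u + w) / 2).re = 1 - (u.re + w.re) / 2 := by
    simp
  have hwre : w.re ≤ 1 := by
    have := Complex.re_le_norm w
    rwa [h.hw] at this
  have hu2 : u.re ^ 2 + u.im ^ 2 = 1 := by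
    have h1 := Complex.sq_norm u
    rw [h.hu, Complex.normSq_apply] at h1
    nlinarith
  have hfin : ‖1 - u‖ ^ 2 = 2 * (1 - u.re) := by
    rw [Complex.sq_norm, Complex.normSq_apply]
    simp only [Complex.sub_re, Complex.one_re, Complex.sub_im, Complex.one_im]
    nlinarith
  rw [hfin]
  rw [hre'] at hre
  linarith

end Pool.Agent.Fug
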