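import Pool.Agent.Fug.Basic

set_option autoImplicit false

open Finset

namespace Pool.Agent.Fug

/-- `c₀ L²/N²` -/
noncomputable def q0 : ℝ := (1 / 2 ^ 16) * ((L : ℝ) ^ 2 / (N : ℝ) ^ 2)

open Classical in
/-- the quotient on orbits with second label `s` -/
noncomputable def qs (h ζ s : ℝ) : ℝ :=
  if ‖1 - e (-(s * h))‖ ^ 2 ≤ 1 / 4 then
    min q0 ((1 / 64) * ((L : ℝ) / (N : ℝ)) * ‖e (-(s * h)) - e (ζ + s * h)‖ ^ 2)
  else q0

lemma TrigT_norm (x y : ℝ) : ‖e x - e y‖ ^ 2 = 4 * Real.sin (Real.pi * (x - y)) ^ 2 := by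
  have h1 : ∀ z : ℝ, e z = Complex.exp (((2 * (Real.pi * z) : ℝ) : ℂ) * Complex.I) := by
    intro z; unfold e; congr 1; push_cast; ring
  rw [h1, h1, Complex.exp_mul_I, Complex.exp_mul_I, ← Complex.ofReal_cos, ← Complex.ofReal_sin,
    ← Complex.ofReal_cos, ← Complex.ofReal_sin, ← Complex.normSq_eq_norm_sq,
    Complex.normSq_apply]
  simp only [Complex.sub_re, Complex.add_re, Complex.ofReal_re, Complex.mul_re, Complex.I_re,
    mul_zero, Complex.ofReal_im, Complex.I_im, mul_one, sub_self, add_zero,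
    Complex.sub_im, Complex.add_im, Complex.mul_im, zero_add]
  have h2 : Real.sin (Real.pi * (x - y)) = Real.sin (Real.pi * x) * Real.cos (Real.pi * y)
      - Real.cos (Real.pi * x) * Real.sin (Real.pi * y) := by
    rw [mul_sub, Real.sin_sub]
  rw [h2, Real.cos_two_mul, Real.sin_two_mul, Real.cos_two_mul, Real.sin_two_mul]
  have hx := Real.sin_sq_add_cos_sq (Real.pi * x)
  have hy := Real.sin_sq_add_cos_sq (Real.pi * y)
  set a := Real.sin (Real.pi * x)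
  set b := Real.cos (Real.pi * x)
  set c := Real.sin (Real.pi * y)
  set d := Real.cos (Real.pi * y)
  have ha : a ^ 2 = 1 - b ^ 2 := by linarith
  have hc : c ^ 2 = 1 - d ^ 2 := by linarith
  have e1 : (2 * b ^ 2 - 1 - (2 * d ^ 2 - 1)) * (2 * b ^ 2 - 1 - (2 * d ^ 2 - 1)) +
      (2 * a * b - 2 * c * d) * (2 * a * b - 2 * c * d)
      = 4 * (b ^ 2 - d ^ 2) ^ 2 + 4 * (a ^ 2 * b ^ 2 - 2 * a * b * c * d + c ^ 2 * d ^ 2) := by ring
  have e2 : 4 * (a * d - b * c) ^ 2 = 4 * (a ^ 2 * d ^ 2 - 2 * a * b * c * d + b ^ 2 * c ^ 2) := by ring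
  rw [e1, e2, ha, hc]
  ring

lemma TrigT_sin_nat (x : ℝ) (l : ℕ) : |Real.sin ((l : ℝ) * x)| ≤ (l : ℝ) * |Real.sin x| := by
  induction l with
  | zero => simp
  | succ l ih =>
    have h1 : Real.sin (((l + 1 : ℕ) : ℝ) * x) = Real.sin ((l : ℝ) * x) * Real.cos x
        + Real.cos ((l : ℝ) * x) * Real.sin x := by
      rw [← Real.sin_add]; congr 1; push_cast; ring
    rw [h1]
    calc |Real.sin ((l : ℝ) * x) * Real.cos x + Real.cos ((l : ℝ) * x) * Real.sin x|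
        ≤ |Real.sin ((l : ℝ) * x) * Real.cos x| + |Real.cos ((l : ℝ) * x) * Real.sin x| := abs_add_le _ _
      _ ≤ |Real.sin ((l : ℝ) * x)| + |Real.sin x| := by
          rw [abs_mul, abs_mul]
          have h2 := Real.abs_cos_le_one x
          have h3 := Real.abs_cos_le_one ((l : ℝ) * x)
          have h4 := abs_nonneg (Real.sin ((l : ℝ) * x))
          have h5 := abs_nonneg (Real.sin x)
          nlinarith
      _ ≤ ((l + 1 : ℕ) : ℝ) * |Real.sin x| := by push_cast; linarith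

lemma TrigT_tau_le_one (p : ℕ) (κ : ℤ) : tau p κ ≤ 1 := by
  unfold tau
  have hL : (0 : ℝ) < L := by norm_num [L]
  have h1 : ∑ l ∈ Finset.Icc 1 L, Real.sin (Real.pi * ((κ : ℝ) * (l : ℝ) * tt p)) ^ 2 ≤ (L : ℝ) := by
    calc ∑ l ∈ Finset.Icc 1 L, Real.sin (Real.pi * ((κ : ℝ) * (l : ℝ) * tt p)) ^ 2
        ≤ ∑ l ∈ Finset.Icc 1 L, (1 : ℝ) := Finset.sum_le_sum fun l _ => Real.sin_sq_le_one _
      _ = (L : ℝ) := by simp
  rw [one_div, inv_mul_le_iff₀ hL, mul_one]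
  exact h1

lemma TrigT_tau_le (p : ℕ) (κ : ℤ) :
    tau p κ ≤ (L : ℝ) ^ 2 * Real.sin (Real.pi * ((κ : ℝ) * tt p)) ^ 2 := by
  unfold tau
  have hL : (0 : ℝ) < L := by norm_num [L]
  have h1 : ∑ l ∈ Finset.Icc 1 L, Real.sin (Real.pi * ((κ : ℝ) * (l : ℝ) * tt p)) ^ 2
      ≤ (L : ℝ) * ((L : ℝ) ^ 2 * Real.sin (Real.pi * ((κ : ℝ) * tt p)) ^ 2) := by
    calc ∑ l ∈ Finset.Icc 1 L, Real.sin (Real.pi * ((κ : ℝ) * (l : ℝ) * tt p)) ^ 2
        ≤ ∑ l ∈ Finset.Icc 1 L, ((L : ℝ) ^ 2 * Real.sin (Real.pi * ((κ : ℝ) * tt p)) ^ 2) := by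
          refine Finset.sum_le_sum fun l hl => ?_
          have h2 := TrigT_sin_nat (Real.pi * ((κ : ℝ) * tt p)) l
          have h3 : (l : ℝ) * (Real.pi * ((κ : ℝ) * tt p)) = Real.pi * ((κ : ℝ) * (l : ℝ) * tt p) := by ring
          rw [h3] at h2
          have hl2 : (l : ℝ) ≤ L := by exact_mod_cast (Finset.mem_Icc.mp hl).2
          rw [← sq_abs, ← sq_abs (Real.sin (Real.pi * ((κ : ℝ) * tt p))), ← mul_pow]
          apply pow_le_pow_left₀ (abs_nonneg _)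
          exact h2.trans (mul_le_mul_of_nonneg_right hl2 (abs_nonneg _))
      _ = (L : ℝ) * ((L : ℝ) ^ 2 * Real.sin (Real.pi * ((κ : ℝ) * tt p)) ^ 2) := by simp
  rw [one_div, inv_mul_le_iff₀ hL]
  exact h1

lemma TrigT_sum (A B : ℝ) : Real.sin (A - B) ^ 2 ≤ 2 * (Real.sin A ^ 2 + Real.sin B ^ 2) := by
  rw [Real.sin_sub]
  have h1 := Real.sin_sq_add_cos_sq A
  have h2 := Real.sin_sq_add_cos_sq B
  nlinarith [sq_nonneg (Real.sin A * Real.cos B + Real.cos A * Real.sin B),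
    mul_nonneg (sq_nonneg (Real.sin A)) (sq_nonneg (Real.sin B)),
    sq_nonneg (Real.sin A), sq_nonneg (Real.sin B)]

lemma TrigT_four (x : ℝ) (hx : Real.sin x ^ 2 ≤ 1 / 16) :
    8 * Real.sin x ^ 2 ≤ Real.sin (4 * x) ^ 2 := by
  have h1 : Real.sin (4 * x) ^ 2 = 16 * Real.sin x ^ 2 * (1 - Real.sin x ^ 2) *
      (1 - 4 * Real.sin x ^ 2 * (1 - Real.sin x ^ 2)) := by
    have h2 : (4 : ℝ) * x = 2 * (2 * x) := by ring
    rw [h2, Real.sin_two_mul, Real.cos_two_mul, Real.sin_two_mul]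
    have h3 : Real.cos x ^ 2 = 1 - Real.sin x ^ 2 := by
      have := Real.sin_sq_add_cos_sq x
      linarith
    have h4 : (2 * (2 * Real.sin x * Real.cos x) * (2 * Real.cos x ^ 2 - 1)) ^ 2
        = 16 * Real.sin x ^ 2 * Real.cos x ^ 2 * (2 * Real.cos x ^ 2 - 1) ^ 2 := by ring
    rw [h4, h3]
    ring
  rw [h1]
  set s := Real.sin x ^ 2 with hs
  have hs0 : 0 ≤ s := sq_nonneg _
  have h5 : (15 : ℝ) / 16 ≤ 1 - s := by linarith
  have h6 : (3 : ℝ) / 4 ≤ 1 - 4 * s * (1 - s) := by nlinarith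
  have h7 : (45 : ℝ) / 64 ≤ (1 - s) * (1 - 4 * s * (1 - s)) := by nlinarith
  calc 8 * s ≤ 16 * s * (45 / 64) := by nlinarith
    _ ≤ 16 * s * ((1 - s) * (1 - 4 * s * (1 - s))) := by
        apply mul_le_mul_of_nonneg_left h7 (by positivity)
    _ = _ := by ring

/-- module TRIGT: numeric comparison -/
theorem trigT (p : ℕ) (κ : ℤ) (ζ : ℝ) :
    (2 / (m : ℝ)) * tau p κ ≤
      (1 / 2) * (qs ((κ : ℝ) * tt p) ζ 1 + qs ((κ : ℝ) * tt p) ζ (-1)) := by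
  have hA := TrigT_tau_le_one p κ
  have hB := TrigT_tau_le p κ
  set h : ℝ := (κ : ℝ) * tt p with hh
  set S : ℝ := Real.sin (Real.pi * h) ^ 2 with hS
  have hS0 : 0 ≤ S := sq_nonneg _
  have hq0 : q0 = 1 / 2 ^ 38 := by unfold q0; norm_num [L, N]
  have hm : (2 / (m : ℝ)) = 1 / 2 ^ 41 := by norm_num [m]
  have hL2 : (L : ℝ) ^ 2 = 2 ^ 26 := by norm_num [L]
  have hLN : (1 / 64) * ((L : ℝ) / (N : ℝ)) = 1 / 2 ^ 17 := by norm_num [L, N]
  have e0 : e 0 = 1 := by unfold e; simp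
  have n1 : ‖1 - e (-(1 * h))‖ ^ 2 = 4 * S := by
    rw [← e0, TrigT_norm, hS]
    congr 3
    ring
  have n2 : ‖1 - e (-(-1 * h))‖ ^ 2 = 4 * S := by
    rw [← e0, TrigT_norm, hS]
    have : Real.pi * (0 - -(-1 * h)) = -(Real.pi * h) := by ring
    rw [this, Real.sin_neg]
    ring
  have n3 : ‖e (-(1 * h)) - e (ζ + 1 * h)‖ ^ 2 = 4 * Real.sin (Real.pi * (ζ + 2 * h)) ^ 2 := by
    rw [TrigT_norm]
    have : Real.pi * (-(1 * h) - (ζ + 1 * h)) = -(Real.pi * (ζ + 2 * h)) := by ring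
    rw [this, Real.sin_neg]
    ring
  have n4 : ‖e (-(-1 * h)) - e (ζ + -1 * h)‖ ^ 2 = 4 * Real.sin (Real.pi * (ζ - 2 * h)) ^ 2 := by
    rw [TrigT_norm]
    have : Real.pi * (-(-1 * h) - (ζ + -1 * h)) = -(Real.pi * (ζ - 2 * h)) := by ring
    rw [this, Real.sin_neg]
    ring
  unfold qs
  rw [n1, n2, n3, n4, hLN, hq0, hm]
  rw [hL2] at hB
  by_cases hc : 4 * S ≤ 1 / 4
  · rw [if_pos hc, if_pos hc]
    have hS1 : S ≤ 1 / 16 := by linarith
    have h4 := TrigT_four (Real.pi * h) hS1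
    have h5 := TrigT_sum (Real.pi * (ζ + 2 * h)) (Real.pi * (ζ - 2 * h))
    have h6 : Real.pi * (ζ + 2 * h) - Real.pi * (ζ - 2 * h) = 4 * (Real.pi * h) := by ring
    rw [h6] at h5
    set X := Real.sin (Real.pi * (ζ + 2 * h)) ^ 2 with hX
    set Y := Real.sin (Real.pi * (ζ - 2 * h)) ^ 2 with hY
    have hX0 : 0 ≤ X := sq_nonneg _
    have hY0 : 0 ≤ Y := sq_nonneg _
    have h7 : 4 * S ≤ X + Y := by linarith
    rcases min_choice (1 / 2 ^ 38 : ℝ) (1 / 2 ^ 17 * (4 * X)) with h8 | h8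
    · rw [h8]
      have h9 : 0 ≤ min (1 / 2 ^ 38 : ℝ) (1 / 2 ^ 17 * (4 * Y)) := le_min (by positivity) (by positivity)
      linarith
    · rcases min_choice (1 / 2 ^ 38 : ℝ) (1 / 2 ^ 17 * (4 * Y)) with h10 | h10
      · rw [h10]
        have h9 : 0 ≤ min (1 / 2 ^ 38 : ℝ) (1 / 2 ^ 17 * (4 * X)) := le_min (by positivity) (by positivity)
        linarith
      · rw [h8, h10]
        linarith
  · rw [if_neg hc, if_neg hc]
    linarith

end Pool.Agent.Fug
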