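import Pool.Agent.Fug.Grp2
import Pool.Agent.Fug.Orb
import Pool.Agent.Fug.TrigT

set_option autoImplicit false

open MeasureTheory Filter Topology Finset

namespace Pool.Agent.Fug

/-- an a.e. property holds a.e. at all translates by integer multiples of `t` -/
lemma pc1_ae_all {p : UnitAddCircle → Prop} (hp : ∀ᵐ z ∂hT, p z) (t : ℝ) :
    ∀ᵐ z ∂hT, ∀ n : ℤ, p (z + (((n : ℝ) * t : ℝ) : UnitAddCircle)) := by
  rw [ae_all_iff]
  intro n
  have hmp : MeasurePreserving (fun z : UnitAddCircle => z + (((n : ℝ) * t : ℝ) : UnitAddCircle))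
      hT hT := measurePreserving_add_right hT _
  exact hmp.quasiMeasurePreserving.ae hp

lemma pc1_norm_e (x : ℝ) : ‖e x‖ = 1 := by
  unfold e
  rw [Complex.norm_exp]
  simp

lemma pc1_be (g : ℕ) : be (2 * g + 1) = (2 ^ 23 : ℝ) * tt (2 * g + 1) := by
  unfold be tt
  rw [mul_one_div, eq_comm, div_eq_div_iff (by positivity) (by positivity), one_mul, ← pow_add]
  congr 1
  omega

lemma pc1_SS_nonneg (P : ℕ) (C : ℤ → ℂ) : 0 ≤ SS P C := by
  unfold SS
  exact Finset.sum_nonneg (fun _ _ => by positivity)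

/-- module PC1: a.e. orbit satisfies the orbit inequality with quotient `qs` -/
theorem GroupRel.orbit_ineq {g : ℕ} {f σ₁ σ₂ : UnitAddCircle → ℝ} (h : GroupRel g f σ₁ σ₂) (κ : ℤ)
    (s : ℝ) (hs : s = 1 ∨ s = -1) :
    ∀ᵐ z ∂hT, σ₂ z = s →
      qs ((κ : ℝ) * tt (g / m)) ((κ : ℝ) / 2 ^ v (2 * g + 1)) s *
        SS N (fun l => CC g κ f (z + (((l : ℝ) * tt (2 * g + 1) : ℝ) : UnitAddCircle)))
      ≤ EE N L (fun l => CC g κ f (z + (((l : ℝ) * tt (2 * g + 1) : ℝ) : UnitAddCircle))) := by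
  have h1 := pc1_ae_all h.a1 (tt (2 * g + 1))
  have h2 : ∀ᵐ z ∂hT, ∀ n : ℤ,
      σ₂ (z + (((n : ℝ) * tt (2 * g + 1) : ℝ) : UnitAddCircle)) = σ₂ z := by
    rw [ae_all_iff]
    intro n
    exact (h.inv n).2.2
  have h3 := pc1_ae_all (h.C_plus κ s hs) (tt (2 * g + 1))
  have h4 := pc1_ae_all (h.C_minus κ s hs) (tt (2 * g + 1))
  filter_upwards [h1, h2, h3, h4] with z z1 z2 z3 z4 hz
  set C : ℤ → ℂ := fun l => CC g κ f (z + (((l : ℝ) * tt (2 * g + 1) : ℝ) : UnitAddCircle)) with hC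
  set pl : ℤ → Prop := fun l => σ₁ (z + (((l : ℝ) * tt (2 * g + 1) : ℝ) : UnitAddCircle)) = 1 with hpl
  have hshift : ∀ l : ℤ, z + ((((l + ((2 ^ 23 : ℕ) : ℤ) : ℤ) : ℝ) * tt (2 * g + 1) : ℝ) : UnitAddCircle)
      = z + (((l : ℝ) * tt (2 * g + 1) : ℝ) : UnitAddCircle) + ((be (2 * g + 1) : ℝ) : UnitAddCircle) := by
    intro l
    rw [add_assoc, ← AddCircle.coe_add, pc1_be]
    congr 2
    push_cast
    ring
  have hO : OrbitData (2 ^ 23) L C pl (e (-(s * ((κ : ℝ) * tt (g / m)))))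
      (e ((κ : ℝ) / 2 ^ v (2 * g + 1) + s * ((κ : ℝ) * tt (g / m)))) := by
    refine ⟨?_, ?_, ?_, ?_, pc1_norm_e _, pc1_norm_e _, ?_, ?_, ?_⟩
    · exact ⟨2 ^ 22, by norm_num⟩
    · exact ⟨2 ^ 12, by norm_num [L]⟩
    · norm_num [L]
    · norm_num [L]
    · intro l
      show σ₁ _ = 1 ↔ ¬ (σ₁ _ = 1)
      rw [hshift l, z1 l]
      rcases h.v1 (z + (((l : ℝ) * tt (2 * g + 1) : ℝ) : UnitAddCircle)) with hv | hv
      · rw [hv]; norm_num
      · rw [hv]; norm_num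
    · intro l hl
      show CC g κ f _ = _ * CC g κ f _
      rw [hshift l]
      exact z3 l hl ((z2 l).trans hz)
    · intro l hl
      show CC g κ f _ = _ * CC g κ f _
      rw [hshift l]
      have hl' : σ₁ (z + (((l : ℝ) * tt (2 * g + 1) : ℝ) : UnitAddCircle)) = -1 := by
        rcases h.v1 (z + (((l : ℝ) * tt (2 * g + 1) : ℝ) : UnitAddCircle)) with hv | hv
        · exact absurd hv hl
        · exact hv
      exact z4 l hl' ((z2 l).trans hz)
  have hN : (2 * 2 ^ 23 : ℕ) = N := by norm_num [N]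
  have hNr : (2 * ((2 ^ 23 : ℕ) : ℝ)) = (N : ℝ) := by norm_num [N]
  have hdich := orbit_dichotomy hO
  rw [hN, hNr] at hdich
  have hS := pc1_SS_nonneg N C
  have hq0 : (1 / 2 ^ 16 : ℝ) * ((L : ℝ) ^ 2 / (N : ℝ) ^ 2) = q0 := rfl
  rw [hq0] at hdich
  rcases hdich with hd | ⟨hd1, hd2⟩
  · refine le_trans (mul_le_mul_of_nonneg_right ?_ hS) hd
    unfold qs
    split_ifs
    · exact min_le_left _ _
    · exact le_refl _
  · refine le_trans (mul_le_mul_of_nonneg_right ?_ hS) hd2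
    unfold qs
    rw [if_pos hd1]
    exact min_le_right _ _

end Pool.Agent.Fug
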