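import Pool.Agent.Fug.PC1
import Pool.Agent.Fug.Grp4

set_option autoImplicit false

open MeasureTheory Filter Topology Finset

namespace Pool.Agent.Fug

/-- translation invariance over an invariant set -/
theorem pc2_setIntegral_shift (σ : UnitAddCircle → ℝ) (hσ : Measurable σ) (T : UnitAddCircle)
    (hinv : ∀ᵐ z ∂hT, σ (z + T) = σ z) (s : ℝ) (F : UnitAddCircle → ℝ) :
    ∫ z in {z | σ z = s}, F (z + T) ∂hT = ∫ z in {z | σ z = s}, F z ∂hT := by
  have hms : MeasurableSet {z | σ z = s} := measurableSet_eq_fun hσ measurable_const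
  rw [← integral_indicator hms, ← integral_indicator hms]
  rw [← integral_add_right_eq_self (μ := hT) ({z | σ z = s}.indicator F) T]
  refine integral_congr_ae ?_
  filter_upwards [hinv] with z hz
  by_cases h : σ z = s
  · have h1 : z ∈ {z | σ z = s} := h
    have h2 : z + T ∈ {z | σ z = s} := by
      change σ (z + T) = s
      rw [hz, h]
    rw [Set.indicator_of_mem h1, Set.indicator_of_mem h2]
  · have h1 : z ∉ {z | σ z = s} := h
    have h2 : z + T ∉ {z | σ z = s} := by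
      change ¬ (σ (z + T) = s)
      rw [hz]
      exact h
    rw [Set.indicator_of_notMem h1, Set.indicator_of_notMem h2]

theorem pc2_int (F : UnitAddCircle → ℂ) (hF : Measurable F) (B : ℝ) (hB : ∀ z, ‖F z‖ ≤ B)
    (μ : Measure UnitAddCircle) [IsFiniteMeasure μ] : Integrable (fun z => ‖F z‖ ^ 2) μ := by
  refine Integrable.of_bound (C := B ^ 2)
    ((hF.norm.pow_const 2).aestronglyMeasurable) (ae_of_all _ fun z => ?_)
  have h1 := hB z
  have h2 := norm_nonneg (F z)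
  rw [Real.norm_eq_abs, abs_of_nonneg (by positivity)]
  exact pow_le_pow_left₀ h2 h1 2

/-- one label value -/
theorem pc2_one (σ : UnitAddCircle → ℝ) (hσ : Measurable σ) (t : ℝ)
    (hinv : ∀ n : ℕ, ∀ᵐ z ∂hT, σ (z + (((n : ℝ) * t : ℝ) : UnitAddCircle)) = σ z)
    (C : UnitAddCircle → ℂ) (hC : Measurable C) (hb : ∀ z, ‖C z‖ ≤ 1) (P K : ℕ) (hP : 0 < P)
    (s Q : ℝ)
    (hQ : ∀ᵐ z ∂hT, σ z = s →
      Q * SS P (fun l => C (z + (((l : ℝ) * t : ℝ) : UnitAddCircle)))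
        ≤ EE P K (fun l => C (z + (((l : ℝ) * t : ℝ) : UnitAddCircle)))) :
    Q * ∫ z in {z | σ z = s}, ‖C z‖ ^ 2 ∂hT ≤
      (1 / (4 * (K : ℝ))) * ∑ l ∈ Icc 1 K,
        ∫ z in {z | σ z = s}, ‖C (z + (((l : ℝ) * t : ℝ) : UnitAddCircle)) - C z‖ ^ 2 ∂hT := by
  have hms : MeasurableSet {z | σ z = s} := measurableSet_eq_fun hσ measurable_const
  have hCs : ∀ T : UnitAddCircle, Measurable fun z => C (z + T) := fun T =>
    hC.comp (measurable_add_const T)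
  have hI1 : ∀ T : UnitAddCircle,
      Integrable (fun z => ‖C (z + T)‖ ^ 2) (hT.restrict {z | σ z = s}) := fun T =>
    pc2_int _ (hCs T) 1 (fun z => hb _) _
  have hI2 : ∀ T T' : UnitAddCircle,
      Integrable (fun z => ‖C (z + T) - C (z + T')‖ ^ 2) (hT.restrict {z | σ z = s}) :=
    fun T T' => pc2_int _ ((hCs T).sub (hCs T')) 2 (fun z => by
      have := norm_sub_le (C (z + T)) (C (z + T'))
      have h1 := hb (z + T)
      have h2 := hb (z + T')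
      change ‖C (z + T) - C (z + T')‖ ≤ 2
      linarith) _
  -- the integral of `SS`
  have hSS : ∫ z in {z | σ z = s}, SS P (fun l => C (z + (((l : ℝ) * t : ℝ) : UnitAddCircle))) ∂hT
      = P * ∫ z in {z | σ z = s}, ‖C z‖ ^ 2 ∂hT := by
    unfold SS
    rw [integral_finsetSum _ (fun a _ => hI1 _)]
    have : ∀ a ∈ range P,
        ∫ z in {z | σ z = s}, ‖C (z + ((((a : ℤ) : ℝ) * t : ℝ) : UnitAddCircle))‖ ^ 2 ∂hT
        = ∫ z in {z | σ z = s}, ‖C z‖ ^ 2 ∂hT := by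
      intro a _
      refine pc2_setIntegral_shift σ hσ _ ?_ s (fun z => ‖C z‖ ^ 2)
      have := hinv a
      rwa [Int.cast_natCast]
    rw [Finset.sum_congr rfl this]
    simp
  have hEEint : ∀ a ∈ range P, ∀ l ∈ Icc 1 K, Integrable (fun z =>
      ‖C (z + (((((a : ℤ) + (l : ℤ) : ℤ) : ℝ) * t : ℝ) : UnitAddCircle))
        - C (z + ((((a : ℤ) : ℝ) * t : ℝ) : UnitAddCircle))‖ ^ 2)
        (hT.restrict {z | σ z = s}) := fun a _ l _ => hI2 _ _
  have hEE : ∫ z in {z | σ z = s}, EE P K (fun l => C (z + (((l : ℝ) * t : ℝ) : UnitAddCircle))) ∂hT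
      = P * ((1 / (4 * (K : ℝ))) * ∑ l ∈ Icc 1 K,
        ∫ z in {z | σ z = s},
          ‖C (z + (((l : ℝ) * t : ℝ) : UnitAddCircle)) - C z‖ ^ 2 ∂hT) := by
    unfold EE
    rw [integral_const_mul, integral_finsetSum _
      (fun a ha => integrable_finsetSum _ (fun l hl => hEEint a ha l hl))]
    have : ∀ a ∈ range P, ∫ z in {z | σ z = s}, ∑ l ∈ Icc 1 K,
        ‖C (z + (((((a : ℤ) + (l : ℤ) : ℤ) : ℝ) * t : ℝ) : UnitAddCircle))
          - C (z + ((((a : ℤ) : ℝ) * t : ℝ) : UnitAddCircle))‖ ^ 2 ∂hT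
        = ∑ l ∈ Icc 1 K, ∫ z in {z | σ z = s},
          ‖C (z + (((l : ℝ) * t : ℝ) : UnitAddCircle)) - C z‖ ^ 2 ∂hT := by
      intro a ha
      rw [integral_finsetSum _ (fun l hl => hEEint a ha l hl)]
      refine Finset.sum_congr rfl fun l _ => ?_
      have hi := hinv a
      rw [← pc2_setIntegral_shift σ hσ _ hi s
        (fun z => ‖C (z + (((l : ℝ) * t : ℝ) : UnitAddCircle)) - C z‖ ^ 2)]
      congr 1
      ext z
      have h1 : z + (((((a : ℤ) + (l : ℤ) : ℤ) : ℝ) * t : ℝ) : UnitAddCircle)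
          = z + (((a : ℝ) * t : ℝ) : UnitAddCircle) + (((l : ℝ) * t : ℝ) : UnitAddCircle) := by
        rw [add_assoc, ← AddCircle.coe_add]
        congr 2
        push_cast
        ring
      rw [h1, Int.cast_natCast]
    rw [Finset.sum_congr rfl this, Finset.sum_const, card_range, nsmul_eq_mul]
    ring
  have hmono : Q * ∫ z in {z | σ z = s},
        SS P (fun l => C (z + (((l : ℝ) * t : ℝ) : UnitAddCircle))) ∂hT
      ≤ ∫ z in {z | σ z = s},
        EE P K (fun l => C (z + (((l : ℝ) * t : ℝ) : UnitAddCircle))) ∂hT := by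
    rw [← integral_const_mul]
    refine integral_mono_ae ?_ ?_ ?_
    · refine Integrable.const_mul ?_ Q
      unfold SS
      exact integrable_finsetSum _ (fun a _ => hI1 _)
    · unfold EE
      refine Integrable.const_mul ?_ _
      exact integrable_finsetSum _
        (fun a ha => integrable_finsetSum _ (fun l hl => hEEint a ha l hl))
    · rw [EventuallyLE, ae_restrict_iff' hms]
      filter_upwards [hQ] with z hz hzs
      exact hz hzs
  rw [hSS, hEE] at hmono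
  have hP' : (0 : ℝ) < P := by exact_mod_cast hP
  refine le_of_mul_le_mul_left ?_ hP'
  calc (P : ℝ) * (Q * ∫ z in {z | σ z = s}, ‖C z‖ ^ 2 ∂hT)
      = Q * (P * ∫ z in {z | σ z = s}, ‖C z‖ ^ 2 ∂hT) := by ring
    _ ≤ _ := hmono

/-- the abstract form of the integrated inequality -/
theorem pc2_aux (σ : UnitAddCircle → ℝ) (hσ : Measurable σ) (hv : ∀ z, σ z = 1 ∨ σ z = -1)
    (t : ℝ) (hinv : ∀ n : ℕ, ∀ᵐ z ∂hT, σ (z + (((n : ℝ) * t : ℝ) : UnitAddCircle)) = σ z)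
    (C : UnitAddCircle → ℂ) (hC : Measurable C) (hb : ∀ z, ‖C z‖ ≤ 1) (P K : ℕ) (hP : 0 < P)
    (Q : ℝ → ℝ)
    (hQ : ∀ s : ℝ, (s = 1 ∨ s = -1) → ∀ᵐ z ∂hT, σ z = s →
      Q s * SS P (fun l => C (z + (((l : ℝ) * t : ℝ) : UnitAddCircle)))
        ≤ EE P K (fun l => C (z + (((l : ℝ) * t : ℝ) : UnitAddCircle))))
    (hbal : ∀ s : ℝ, (s = 1 ∨ s = -1) →
      ∫ z in {z | σ z = s}, ‖C z‖ ^ 2 ∂hT = (1 / 2) * ∫ z, ‖C z‖ ^ 2 ∂hT) :
    (1 / 2) * (Q 1 + Q (-1)) * ∫ z, ‖C z‖ ^ 2 ∂hT ≤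
      (1 / (4 * (K : ℝ))) * ∑ l ∈ Icc 1 K,
        ∫ z, ‖C (z + (((l : ℝ) * t : ℝ) : UnitAddCircle)) - C z‖ ^ 2 ∂hT := by
  have h1 := pc2_one σ hσ t hinv C hC hb P K hP 1 (Q 1) (hQ 1 (Or.inl rfl))
  have h2 := pc2_one σ hσ t hinv C hC hb P K hP (-1) (Q (-1)) (hQ (-1) (Or.inr rfl))
  rw [hbal 1 (Or.inl rfl)] at h1
  rw [hbal (-1) (Or.inr rfl)] at h2
  have hms : MeasurableSet {z | σ z = 1} := measurableSet_eq_fun hσ measurable_const
  have hcompl : {z | σ z = 1}ᶜ = {z | σ z = -1} := by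
    ext z
    simp only [Set.mem_compl_iff]
    change ¬ (σ z = 1) ↔ σ z = -1
    rcases hv z with h1 | h1
    · rw [h1]; norm_num
    · rw [h1]; norm_num
  have hCs : ∀ T : UnitAddCircle, Measurable fun z => C (z + T) := fun T =>
    hC.comp (measurable_add_const T)
  have hsum : ∀ l ∈ Icc 1 K,
      ∫ z, ‖C (z + (((l : ℝ) * t : ℝ) : UnitAddCircle)) - C z‖ ^ 2 ∂hT
      = (∫ z in {z | σ z = 1},
          ‖C (z + (((l : ℝ) * t : ℝ) : UnitAddCircle)) - C z‖ ^ 2 ∂hT)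
        + ∫ z in {z | σ z = -1},
          ‖C (z + (((l : ℝ) * t : ℝ) : UnitAddCircle)) - C z‖ ^ 2 ∂hT := by
    intro l _
    rw [← hcompl]
    refine (integral_add_compl hms ?_).symm
    refine pc2_int _ ((hCs _).sub hC) 2 (fun z => ?_) _
    have := norm_sub_le (C (z + (((l : ℝ) * t : ℝ) : UnitAddCircle))) (C z)
    have h1 := hb (z + (((l : ℝ) * t : ℝ) : UnitAddCircle))
    have h2 := hb z
    change ‖C (z + (((l : ℝ) * t : ℝ) : UnitAddCircle)) - C z‖ ≤ 2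
    linarith
  rw [Finset.sum_congr rfl hsum, Finset.sum_add_distrib,
    mul_add (1 / (4 * (K : ℝ)))]
  calc (1 / 2) * (Q 1 + Q (-1)) * ∫ z, ‖C z‖ ^ 2 ∂hT
      = Q 1 * ((1 / 2) * ∫ z, ‖C z‖ ^ 2 ∂hT) + Q (-1) * ((1 / 2) * ∫ z, ‖C z‖ ^ 2 ∂hT) := by
        ring
    _ ≤ _ := add_le_add h1 h2

/-- module PC2: the integrated inequality -/
theorem GroupRel.pc_int {g : ℕ} {f σ₁ σ₂ : UnitAddCircle → ℝ} (h : GroupRel g f σ₁ σ₂) (κ : ℤ) :
    (2 / (m : ℝ)) * tau (g / m) κ * ∫ z, ‖CC g κ f z‖ ^ 2 ∂hT ≤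
      (1 / (4 * (L : ℝ))) * ∑ l ∈ Icc 1 L,
        ∫ z, ‖CC g κ f (z + (((l : ℝ) * tt (2 * g + 1) : ℝ) : UnitAddCircle)) - CC g κ f z‖ ^ 2 ∂hT := by
  have h1 := pc2_aux σ₂ h.m2 h.v2 (tt (2 * g + 1))
    (fun n => by
      have := (h.inv (n : ℤ)).2.2
      rwa [Int.cast_natCast] at this)
    (CC g κ f) (grp4_measurable_CC h.mf κ) (grp4_CC_le h.vf κ) N L (by unfold N; positivity)
    (fun s => qs ((κ : ℝ) * tt (g / m)) ((κ : ℝ) / 2 ^ v (2 * g + 1)) s)
    (fun s hs => h.orbit_ineq κ s hs) (fun s hs => h.balance κ s hs)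
  refine le_trans ?_ h1
  refine mul_le_mul_of_nonneg_right ?_ (integral_nonneg fun z => by positivity)
  exact trigT (g / m) κ ((κ : ℝ) / 2 ^ v (2 * g + 1))

end Pool.Agent.Fug
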