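import Pool.Agent.Fug.Basic

set_option autoImplicit false

open MeasureTheory Finset

namespace Pool.Agent.Fug

lemma Pars_e_add (x y : ℝ) : e (x + y) = e x * e y := by
  unfold e
  rw [← Complex.exp_add]
  congr 1
  push_cast
  ring

lemma Pars_e_zero : e 0 = 1 := by
  unfold e; simp

lemma Pars_fourier_coe (n : ℤ) (x : ℝ) : fourier n ((x : ℝ) : UnitAddCircle) = e ((n : ℝ) * x) := by
  rw [fourier_coe_apply]
  unfold e
  congr 1
  push_cast
  ring

lemma Pars_bound (C : UnitAddCircle → ℂ) (hm : Measurable C) (B : ℝ) (hb : ∀ z, ‖C z‖ ≤ B) :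
    HasSum (fun k : ℤ => ‖fourierCoeff C k‖ ^ 2) (∫ z, ‖C z‖ ^ 2 ∂hT) := by
  have h : MemLp C 2 (AddCircle.haarAddCircle (T := (1 : ℝ))) :=
    MemLp.of_bound hm.aestronglyMeasurable B (Filter.Eventually.of_forall hb)
  have h1 := hasSum_sq_fourierCoeff h.toLp
  have h2 : (∫ t : UnitAddCircle, ‖h.toLp C t‖ ^ 2 ∂(AddCircle.haarAddCircle (T := (1 : ℝ)))) = ∫ z, ‖C z‖ ^ 2 ∂hT := by
    apply integral_congr_ae
    filter_upwards [h.coeFn_toLp] with x hx
    rw [hx]
  rw [h2] at h1
  have h3 : ∀ k : ℤ, fourierCoeff (h.toLp C) k = fourierCoeff C k := by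
    intro k
    rw [fourierCoeff_congr_ae h.coeFn_toLp]
  simpa only [h3] using h1

/-- module PARS1: Parseval -/
theorem pars (C : UnitAddCircle → ℂ) (hm : Measurable C) (hb : ∀ z, ‖C z‖ ≤ 1) :
    HasSum (fun k : ℤ => ‖fourierCoeff C k‖ ^ 2) (∫ z, ‖C z‖ ^ 2 ∂hT) :=
  Pars_bound C hm 1 hb

/-- module PARS2: Fourier coefficients of a translate -/
theorem fourierCoeff_translate (C : UnitAddCircle → ℂ) (t : ℝ) (k : ℤ) :
    fourierCoeff (fun z => C (z + (t : UnitAddCircle))) k = e ((k : ℝ) * t) * fourierCoeff C k := by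
  unfold fourierCoeff
  have h1 : ∀ z : UnitAddCircle, fourier (-k) z • C (z + (t : UnitAddCircle))
      = (fun w : UnitAddCircle => e ((k : ℝ) * t) * (fourier (-k) w • C w)) (z + (t : UnitAddCircle)) := by
    intro z
    simp only
    rw [fourier_apply, fourier_apply, smul_add, AddCircle.toCircle_add]
    have h2 : ((AddCircle.toCircle (-k • (t : UnitAddCircle)) : Circle) : ℂ) = e (-((k : ℝ) * t)) := by
      have := Pars_fourier_coe (-k) t
      rw [fourier_apply] at this
      rw [this]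
      congr 1
      push_cast
      ring
    rw [Circle.coe_mul, h2, smul_eq_mul, smul_eq_mul]
    have h3 : e ((k : ℝ) * t) * e (-((k : ℝ) * t)) = 1 := by
      rw [← Pars_e_add, add_neg_cancel, Pars_e_zero]
    calc (AddCircle.toCircle (-k • z) : ℂ) * C (z + (t : UnitAddCircle))
        = (e ((k : ℝ) * t) * e (-((k : ℝ) * t))) *
          ((AddCircle.toCircle (-k • z) : ℂ) * C (z + (t : UnitAddCircle))) := by rw [h3, one_mul]
      _ = _ := by ring
  simp_rw [h1]
  rw [integral_add_right_eq_self (fun w : UnitAddCircle => e ((k : ℝ) * t) * (fourier (-k) w • C w)),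
    integral_const_mul]

lemma Pars_norm_sub (x : ℝ) : ‖e x - 1‖ ^ 2 = 4 * Real.sin (Real.pi * x) ^ 2 := by
  have h1 : e x = Complex.exp (((2 * (Real.pi * x) : ℝ) : ℂ) * Complex.I) := by
    unfold e; congr 1; push_cast; ring
  rw [h1, Complex.exp_mul_I, ← Complex.ofReal_cos, ← Complex.ofReal_sin, ← Complex.normSq_eq_norm_sq,
    Complex.normSq_apply]
  simp only [Complex.sub_re, Complex.add_re, Complex.ofReal_re, Complex.mul_re, Complex.I_re,
    mul_zero, Complex.ofReal_im, Complex.I_im, mul_one, sub_self, add_zero, Complex.one_re,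
    Complex.sub_im, Complex.add_im, Complex.mul_im, zero_add, Complex.one_im, sub_zero]
  rw [Real.cos_two_mul, Real.sin_two_mul]
  have := Real.sin_sq_add_cos_sq (Real.pi * x)
  nlinarith [this, sq_nonneg (Real.sin (Real.pi * x)), sq_nonneg (Real.cos (Real.pi * x))]

lemma Pars_integrable (f : UnitAddCircle → ℂ) (hf : Measurable f) (hb : ∀ z, ‖f z‖ ≤ 1) (k : ℤ) :
    Integrable (fun z : UnitAddCircle => fourier (-k) z • f z)
      (AddCircle.haarAddCircle (T := (1 : ℝ))) := by
  refine Integrable.of_bound (C := 1) ?_ ?_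
  · exact (((fourier (-k)).continuous.measurable).smul hf).aestronglyMeasurable
  · refine Filter.Eventually.of_forall fun z => ?_
    rw [norm_smul]
    have h1 : ‖(fourier (-k) z : ℂ)‖ = 1 := by
      rw [fourier_apply]; exact Circle.norm_coe _
    rw [h1, one_mul]
    exact hb z

/-- module PARS3: Parseval for the multiplier `τ_j` -/
theorem pars_tau (C : UnitAddCircle → ℂ) (hm : Measurable C) (hb : ∀ z, ‖C z‖ ≤ 1) (j : ℕ) :
    HasSum (fun k : ℤ => tau j k * ‖fourierCoeff C k‖ ^ 2)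
      ((1 / (4 * (L : ℝ))) * ∑ l ∈ Icc 1 L,
        ∫ z, ‖C (z + (((l : ℝ) * tt j : ℝ) : UnitAddCircle)) - C z‖ ^ 2 ∂hT) := by
  have key : ∀ l ∈ Icc 1 L, HasSum (fun k : ℤ => 4 * Real.sin (Real.pi * ((k : ℝ) * (l : ℝ) * tt j)) ^ 2 *
      ‖fourierCoeff C k‖ ^ 2)
      (∫ z, ‖C (z + (((l : ℝ) * tt j : ℝ) : UnitAddCircle)) - C z‖ ^ 2 ∂hT) := by
    intro l _
    set t : ℝ := (l : ℝ) * tt j with ht
    have h1 := Pars_bound (fun z => C (z + (t : UnitAddCircle)) - C z)
      ((hm.comp (measurable_add_const _)).sub hm) 2 (fun z => by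
        refine (norm_sub_le _ _).trans ?_
        have := hb z
        have := hb (z + (t : UnitAddCircle))
        linarith)
    have h2 : ∀ k : ℤ, fourierCoeff (fun z => C (z + (t : UnitAddCircle)) - C z) k
        = (e ((k : ℝ) * t) - 1) * fourierCoeff C k := by
      intro k
      have h3 := fourierCoeff_translate C t k
      have h4 : fourierCoeff (fun z => C (z + (t : UnitAddCircle)) - C z) k
          = fourierCoeff (fun z => C (z + (t : UnitAddCircle))) k - fourierCoeff C k := by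
        unfold fourierCoeff
        rw [← integral_sub (Pars_integrable (fun z => C (z + (t : UnitAddCircle)))
          (hm.comp (measurable_add_const _)) (fun z => hb _) k) (Pars_integrable C hm hb k)]
        congr 1
        ext z
        rw [smul_sub]
      rw [h4, h3]
      ring
    have h5 : ∀ k : ℤ, ‖fourierCoeff (fun z => C (z + (t : UnitAddCircle)) - C z) k‖ ^ 2
        = 4 * Real.sin (Real.pi * ((k : ℝ) * (l : ℝ) * tt j)) ^ 2 * ‖fourierCoeff C k‖ ^ 2 := by
      intro k
      rw [h2, norm_mul, mul_pow, Pars_norm_sub, ht]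
      congr 4
      ring_nf
    simpa only [h5] using h1
  have h6 := hasSum_sum key
  have h7 := h6.mul_left (1 / (4 * (L : ℝ)))
  have h8 : ∀ k : ℤ, (1 / (4 * (L : ℝ))) * ∑ l ∈ Icc 1 L, (4 * Real.sin (Real.pi * ((k : ℝ) * (l : ℝ) * tt j)) ^ 2 *
      ‖fourierCoeff C k‖ ^ 2) = tau j k * ‖fourierCoeff C k‖ ^ 2 := by
    intro k
    unfold tau
    rw [← Finset.sum_mul, ← Finset.mul_sum]
    have hL : (L : ℝ) ≠ 0 := by norm_num [L]
    generalize (∑ i ∈ Icc 1 L, Real.sin (Real.pi * ((k : ℝ) * (i : ℝ) * tt j)) ^ 2) = X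
    field_simp
  simpa only [h8] using h7

end Pool.Agent.Fug
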