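import Pool.Agent.Fug.PC2
import Pool.Agent.Fug.Pars

set_option autoImplicit false

open MeasureTheory Filter Topology Finset

namespace Pool.Agent.Fug

lemma pc3_aux_meas {g : ℕ} {f σ₁ σ₂ : UnitAddCircle → ℝ} (h : GroupRel g f σ₁ σ₂) :
    Measurable (fun z => (f z : ℂ)) :=
  Complex.measurable_ofReal.comp h.mf

lemma pc3_aux_bound {g : ℕ} {f σ₁ σ₂ : UnitAddCircle → ℝ} (h : GroupRel g f σ₁ σ₂)
    (z : UnitAddCircle) : ‖(f z : ℂ)‖ ≤ 1 := by
  rw [Complex.norm_real, Real.norm_eq_abs]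
  rcases h.vf z with h1 | h1 <;> rw [h1] <;> norm_num

/-- module PC3: the inequality (PC) for Fourier coefficients -/
theorem GroupRel.pc {g : ℕ} {f σ₁ σ₂ : UnitAddCircle → ℝ} (h : GroupRel g f σ₁ σ₂) (κ : ℤ) :
    0 ≤ ∑' k : ℤ, if ((2 : ℤ) ^ v (2 * g + 1) ∣ k - κ) then
      (tau (2 * g + 1) k - (2 / (m : ℝ)) * tau (g / m) κ)
        * ‖fourierCoeff (fun z => (f z : ℂ)) k‖ ^ 2 else 0 := by
  have hm := pc3_aux_meas h
  have hb := pc3_aux_bound h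
  have hmC : Measurable (CC g κ f) := measurable_proj _ _ _ hm
  have hbC : ∀ z, ‖CC g κ f z‖ ≤ 1 := norm_proj_le _ _ _ hb
  have h1 := pars (CC g κ f) hmC hbC
  have h2 := pars_tau (CC g κ f) hmC hbC (2 * g + 1)
  have h3 := h2.sub (h1.mul_left ((2 / (m : ℝ)) * tau (g / m) κ))
  have h4 : (fun k : ℤ => if ((2 : ℤ) ^ v (2 * g + 1) ∣ k - κ) then
      (tau (2 * g + 1) k - (2 / (m : ℝ)) * tau (g / m) κ)
        * ‖fourierCoeff (fun z => (f z : ℂ)) k‖ ^ 2 else 0)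
      = fun k : ℤ => tau (2 * g + 1) k * ‖fourierCoeff (CC g κ f) k‖ ^ 2
          - (2 / (m : ℝ)) * tau (g / m) κ * ‖fourierCoeff (CC g κ f) k‖ ^ 2 := by
    funext k
    have h5 : fourierCoeff (CC g κ f) k = if ((2 : ℤ) ^ v (2 * g + 1) ∣ k - κ)
        then fourierCoeff (fun z => (f z : ℂ)) k else 0 := fourierCoeff_proj _ _ _ hm hb k
    rw [h5]
    split_ifs with hdiv
    · ring
    · simp
  rw [h4, h3.tsum_eq, sub_nonneg]
  exact h.pc_int κ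

end Pool.Agent.Fug
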