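import Pool.Agent.Fug.Basic

set_option autoImplicit false

open MeasureTheory Filter Topology Finset

namespace Pool.Agent.Fug

/-- weight `Φ_g(k) = ∏_{g ≤ g' < m(2g+1)} (1 - τ_{g'/m}(k)/m)` -/
noncomputable def Phi (g : ℕ) (k : ℤ) : ℝ :=
  ∏ g' ∈ Finset.Ico g (m * (2 * g + 1)), (1 - tau (g' / m) k / m)

end Pool.Agent.Fug
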