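import Pool.Agent.Fug.Basic

set_option autoImplicit false

open MeasureTheory Finset

namespace Pool.Agent.Fug

lemma Proj_e_add (x y : ℝ) : e (x + y) = e x * e y := by
  unfold e
  rw [← Complex.exp_add]
  congr 1
  push_cast
  ring

lemma Proj_norm_e (x : ℝ) : ‖e x‖ = 1 := by
  unfold e
  have : (2 * (Real.pi : ℂ) * Complex.I * (x : ℂ)) = ((2 * Real.pi * x : ℝ) : ℂ) * Complex.I := by
    push_cast; ring
  rw [this, Complex.norm_exp_ofReal_mul_I]

lemma Proj_e_int (n : ℤ) : e (n : ℝ) = 1 := by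
  unfold e
  rw [Complex.exp_eq_one_iff]
  exact ⟨n, by push_cast; ring⟩

lemma Proj_e_zero : e 0 = 1 := by
  have := Proj_e_int 0
  simpa using this

lemma Proj_fourier_coe (n : ℤ) (x : ℝ) : fourier n ((x : ℝ) : UnitAddCircle) = e ((n : ℝ) * x) := by
  rw [fourier_coe_apply]
  unfold e
  congr 1
  push_cast
  ring

lemma Proj_translate (C : UnitAddCircle → ℂ) (t : ℝ) (k : ℤ) :
    fourierCoeff (fun z => C (z + (t : UnitAddCircle))) k = e ((k : ℝ) * t) * fourierCoeff C k := by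
  unfold fourierCoeff
  have h1 : ∀ z : UnitAddCircle, fourier (-k) z • C (z + (t : UnitAddCircle))
      = (fun w : UnitAddCircle => e ((k : ℝ) * t) * (fourier (-k) w • C w)) (z + (t : UnitAddCircle)) := by
    intro z
    simp only
    rw [fourier_apply, fourier_apply, smul_add, AddCircle.toCircle_add]
    have h2 : ((AddCircle.toCircle (-k • (t : UnitAddCircle)) : Circle) : ℂ) = e (-((k : ℝ) * t)) := by
      have := Proj_fourier_coe (-k) t
      rw [fourier_apply] at this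
      rw [this]
      congr 1
      push_cast
      ring
    rw [Circle.coe_mul, h2, smul_eq_mul, smul_eq_mul]
    have h3 : e ((k : ℝ) * t) * e (-((k : ℝ) * t)) = 1 := by
      rw [← Proj_e_add, add_neg_cancel, Proj_e_zero]
    calc (AddCircle.toCircle (-k • z) : ℂ) * C (z + (t : UnitAddCircle))
        = (e ((k : ℝ) * t) * e (-((k : ℝ) * t))) *
          ((AddCircle.toCircle (-k • z) : ℂ) * C (z + (t : UnitAddCircle))) := by rw [h3, one_mul]
      _ = _ := by ring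
  simp_rw [h1]
  rw [integral_add_right_eq_self (fun w : UnitAddCircle => e ((k : ℝ) * t) * (fourier (-k) w • C w)),
    integral_const_mul]

/-- module PROJ1 -/
theorem measurable_proj (a : ℕ) (κ : ℤ) (f : UnitAddCircle → ℂ) (hf : Measurable f) :
    Measurable (proj a κ f) := by
  unfold proj
  refine Measurable.const_mul (Finset.measurable_fun_sum _ fun u _ => ?_) _
  exact (hf.comp (measurable_add_const _)).mul_const _

/-- module PROJ2 -/
theorem norm_proj_le (a : ℕ) (κ : ℤ) (f : UnitAddCircle → ℂ) (hb : ∀ z, ‖f z‖ ≤ 1)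
    (z : UnitAddCircle) : ‖proj a κ f z‖ ≤ 1 := by
  unfold proj
  rw [norm_mul, norm_div, norm_one, norm_pow, Complex.norm_ofNat]
  have h1 : ‖∑ u ∈ range (2 ^ a), f (z + (((u : ℝ) / 2 ^ a : ℝ) : UnitAddCircle)) *
      e (-((κ : ℝ) * ((u : ℝ) / 2 ^ a)))‖ ≤ (2 : ℝ) ^ a := by
    refine (norm_sum_le _ _).trans ?_
    have h2 : ∀ u ∈ range (2 ^ a), ‖f (z + (((u : ℝ) / 2 ^ a : ℝ) : UnitAddCircle)) *
        e (-((κ : ℝ) * ((u : ℝ) / 2 ^ a)))‖ ≤ (1 : ℝ) := by
      intro u _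
      rw [norm_mul, Proj_norm_e, mul_one]
      exact hb _
    refine (Finset.sum_le_sum h2).trans ?_
    simp
  rw [one_div, inv_mul_le_iff₀ (by positivity), mul_one]
  exact h1

lemma Proj_integrable (f : UnitAddCircle → ℂ) (hf : Measurable f) (hb : ∀ z, ‖f z‖ ≤ 1) (k : ℤ) (c : ℂ) (t : ℝ) :
    Integrable (fun z : UnitAddCircle => fourier (-k) z • (f (z + (t : UnitAddCircle)) * c))
      (AddCircle.haarAddCircle (T := (1 : ℝ))) := by
  refine Integrable.of_bound (C := ‖c‖) ?_ ?_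
  · exact (((fourier (-k)).continuous.measurable).smul
      ((hf.comp (measurable_add_const _)).mul_const c)).aestronglyMeasurable
  · refine Filter.Eventually.of_forall fun z => ?_
    rw [norm_smul, norm_mul]
    have h1 : ‖(fourier (-k) z : ℂ)‖ = 1 := by
      rw [fourier_apply]; exact Circle.norm_coe _
    rw [h1, one_mul]
    calc ‖f (z + (t : UnitAddCircle))‖ * ‖c‖ ≤ 1 * ‖c‖ :=
          mul_le_mul_of_nonneg_right (hb _) (norm_nonneg _)
      _ = ‖c‖ := one_mul _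

lemma Proj_sum_e (a : ℕ) (n : ℤ) :
    ∑ u ∈ range (2 ^ a), e ((n : ℝ) * ((u : ℝ) / 2 ^ a)) = if ((2 : ℤ) ^ a ∣ n) then (2 : ℂ) ^ a else 0 := by
  have hpow : ∀ u : ℕ, e ((n : ℝ) * ((u : ℝ) / 2 ^ a)) = (e ((n : ℝ) / 2 ^ a)) ^ u := by
    intro u
    induction u with
    | zero => simp [Proj_e_zero]
    | succ u ih =>
      rw [pow_succ, ← ih, ← Proj_e_add]
      congr 1
      push_cast
      ring
  simp_rw [hpow]
  split_ifs with h
  · obtain ⟨q, rfl⟩ := h
    have : e ((((2 : ℤ) ^ a * q : ℤ) : ℝ) / 2 ^ a) = 1 := by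
      have h2 : ((((2 : ℤ) ^ a * q : ℤ) : ℝ) / 2 ^ a) = (q : ℝ) := by
        push_cast
        field_simp
      rw [h2, Proj_e_int]
    rw [this]
    simp
  · have hne : e ((n : ℝ) / 2 ^ a) ≠ 1 := by
      intro h1
      apply h
      unfold e at h1
      rw [Complex.exp_eq_one_iff] at h1
      obtain ⟨q, hq⟩ := h1
      have h3 : (((n : ℝ) / 2 ^ a : ℝ) : ℂ) = ((q : ℝ) : ℂ) := by
        have hpi : (2 * (Real.pi : ℂ) * Complex.I) ≠ 0 := Complex.two_pi_I_ne_zero
        apply mul_left_cancel₀ hpi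
        rw [hq]
        push_cast
        ring
      have h4 : (n : ℝ) / 2 ^ a = (q : ℝ) := by exact_mod_cast h3
      rw [div_eq_iff (by positivity)] at h4
      refine ⟨q, ?_⟩
      have h5 : (n : ℝ) = (((2 : ℤ) ^ a * q : ℤ) : ℝ) := by
        rw [h4]; push_cast; ring
      exact_mod_cast h5
    rw [geom_sum_eq hne]
    have h6 : e ((n : ℝ) / 2 ^ a) ^ (2 ^ a) = 1 := by
      rw [← hpow]
      have : ((n : ℝ) * (((2 ^ a : ℕ) : ℝ) / 2 ^ a)) = (n : ℝ) := by
        push_cast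
        field_simp
      rw [this, Proj_e_int]
    rw [h6]
    simp

/-- module PROJ3: Fourier coefficients of the class projection -/
theorem fourierCoeff_proj (a : ℕ) (κ : ℤ) (f : UnitAddCircle → ℂ) (hf : Measurable f)
    (hb : ∀ z, ‖f z‖ ≤ 1) (k : ℤ) :
    fourierCoeff (proj a κ f) k = if ((2 : ℤ) ^ a ∣ k - κ) then fourierCoeff f k else 0 := by
  have h1 : fourierCoeff (proj a κ f) k = (1 / (2 : ℂ) ^ a) * ∑ u ∈ range (2 ^ a),
      e ((((k - κ : ℤ)) : ℝ) * ((u : ℝ) / 2 ^ a)) * fourierCoeff f k := by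
    have h2 : fourierCoeff (proj a κ f) k = ∫ z : UnitAddCircle, (1 / (2 : ℂ) ^ a) *
        ∑ u ∈ range (2 ^ a), fourier (-k) z • (f (z + (((u : ℝ) / 2 ^ a : ℝ) : UnitAddCircle)) *
          e (-((κ : ℝ) * ((u : ℝ) / 2 ^ a)))) ∂(AddCircle.haarAddCircle (T := (1 : ℝ))) := by
      unfold fourierCoeff proj
      congr 1
      ext z
      rw [smul_eq_mul]
      simp only [smul_eq_mul]
      rw [← Finset.mul_sum]
      ring
    rw [h2, integral_const_mul, integral_finsetSum _ (fun u _ => Proj_integrable f hf hb k _ _)]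
    congr 1
    refine Finset.sum_congr rfl fun u _ => ?_
    have h3 : ∀ z : UnitAddCircle, fourier (-k) z • (f (z + (((u : ℝ) / 2 ^ a : ℝ) : UnitAddCircle)) *
          e (-((κ : ℝ) * ((u : ℝ) / 2 ^ a)))) =
        e (-((κ : ℝ) * ((u : ℝ) / 2 ^ a))) * (fourier (-k) z • f (z + (((u : ℝ) / 2 ^ a : ℝ) : UnitAddCircle))) := by
      intro z
      rw [smul_eq_mul, smul_eq_mul]
      ring
    simp_rw [h3]
    rw [integral_const_mul]
    have h4 := Proj_translate f ((u : ℝ) / 2 ^ a) k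
    unfold fourierCoeff at h4
    rw [h4, ← mul_assoc, ← Proj_e_add]
    unfold fourierCoeff
    congr 2
    push_cast
    ring
  rw [h1, ← Finset.sum_mul, Proj_sum_e]
  split_ifs with h
  · rw [← mul_assoc, one_div, inv_mul_cancel₀ (pow_ne_zero _ two_ne_zero), one_mul]
  · simp

lemma Proj_sum_shift (M : ℕ) (F : ℤ → ℂ) (hF : ∀ i, F (i + M) = F i) (n : ℤ) :
    ∑ u ∈ range M, F ((u : ℤ) + n) = ∑ u ∈ range M, F (u : ℤ) := by
  have hstep : ∀ n : ℤ, ∑ u ∈ range M, F ((u : ℤ) + (n + 1)) = ∑ u ∈ range M, F ((u : ℤ) + n) := by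
    intro n
    have h1 := Finset.sum_range_succ (fun u : ℕ => F ((u : ℤ) + n)) M
    have h2 := Finset.sum_range_succ' (fun u : ℕ => F ((u : ℤ) + n)) M
    rw [h1] at h2
    have h3 : F ((M : ℤ) + n) = F (((0 : ℕ) : ℤ) + n) := by
      rw [add_comm, hF]; simp
    simp only [h3] at h2
    have h4 := add_right_cancel h2
    rw [h4]
    refine Finset.sum_congr rfl fun u _ => ?_
    congr 1
    push_cast
    ring
  induction n using Int.induction_on with
  | zero => simp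
  | succ i ih => rw [hstep, ih]
  | pred i ih =>
    have := hstep (-(i : ℤ) - 1)
    rw [sub_add_cancel] at this
    rw [← this, ih]

/-- module PROJ4: quasi-periodicity -/
theorem proj_shift (a : ℕ) (κ : ℤ) (f : UnitAddCircle → ℂ) (n : ℤ) (z : UnitAddCircle) :
    proj a κ f (z + (((n : ℝ) / 2 ^ a : ℝ) : UnitAddCircle))
      = e ((κ : ℝ) * ((n : ℝ) / 2 ^ a)) * proj a κ f z := by
  unfold proj
  set F : ℤ → ℂ := fun i => f (z + (((i : ℝ) / 2 ^ a : ℝ) : UnitAddCircle)) *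
    e (-((κ : ℝ) * ((i : ℝ) / 2 ^ a))) with hFdef
  have hF : ∀ i, F (i + ((2 ^ a : ℕ) : ℤ)) = F i := by
    intro i
    simp only [hFdef]
    have h1 : ((((i + ((2 ^ a : ℕ) : ℤ) : ℤ) : ℝ) / 2 ^ a : ℝ)) = (i : ℝ) / 2 ^ a + 1 := by
      push_cast
      field_simp
    rw [h1]
    have h2 : (((i : ℝ) / 2 ^ a + 1 : ℝ) : UnitAddCircle) = (((i : ℝ) / 2 ^ a : ℝ) : UnitAddCircle) := by
      rw [AddCircle.coe_add, AddCircle.coe_period, add_zero]
    rw [h2]
    congr 1
    have h3 : (-((κ : ℝ) * ((i : ℝ) / 2 ^ a + 1))) = -((κ : ℝ) * ((i : ℝ) / 2 ^ a)) + ((-κ : ℤ) : ℝ) := by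
      push_cast; ring
    rw [h3, Proj_e_add, Proj_e_int, mul_one]
  have h5 := Proj_sum_shift (2 ^ a) F hF n
  have h6 : ∑ u ∈ range (2 ^ a), f (z + (((n : ℝ) / 2 ^ a : ℝ) : UnitAddCircle) + (((u : ℝ) / 2 ^ a : ℝ) : UnitAddCircle)) *
      e (-((κ : ℝ) * ((u : ℝ) / 2 ^ a))) = e ((κ : ℝ) * ((n : ℝ) / 2 ^ a)) * ∑ u ∈ range (2 ^ a), F ((u : ℤ) + n) := by
    rw [Finset.mul_sum]
    refine Finset.sum_congr rfl fun u _ => ?_
    simp only [hFdef]
    have h7 : z + (((n : ℝ) / 2 ^ a : ℝ) : UnitAddCircle) + (((u : ℝ) / 2 ^ a : ℝ) : UnitAddCircle)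
        = z + (((((u : ℤ) + n : ℤ) : ℝ) / 2 ^ a : ℝ) : UnitAddCircle) := by
      rw [add_assoc, ← AddCircle.coe_add]
      congr 2
      push_cast
      ring
    rw [h7]
    have h8 : e (-((κ : ℝ) * ((u : ℝ) / 2 ^ a))) = e ((κ : ℝ) * ((n : ℝ) / 2 ^ a)) *
        e (-((κ : ℝ) * ((((u : ℤ) + n : ℤ) : ℝ) / 2 ^ a))) := by
      rw [← Proj_e_add]
      congr 1
      push_cast
      ring
    rw [h8]
    ring
  rw [h6, h5]
  simp only [hFdef]
  push_cast
  ring

end Pool.Agent.Fug
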