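import Pool.Agent.Fug.Basic

set_option autoImplicit false

open MeasureTheory Filter Topology Finset

namespace Pool.Agent.Fug

open Classical in
/-- representative of `x` in the fundamental domain `Q` of `aℤ`. -/
noncomputable def rep (a : ℝ) (Q : Set ℝ) (x : ℝ) : ℝ :=
  if h : ∃ k : ℤ, x + (k : ℝ) * a ∈ Q then x + (h.choose : ℝ) * a else x

/-- `Q` is a measurable exact fundamental domain of `aℤ`. -/
structure FD (a : ℝ) (Q : Set ℝ) : Prop where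
  ha : 0 < a
  hQ : MeasurableSet Q
  hFD : ∀ x : ℝ, ∃! k : ℤ, x + (k : ℝ) * a ∈ Q

/-- module REP1 -/
theorem rep_spec {a : ℝ} {Q : Set ℝ} (h : FD a Q) (x : ℝ) :
    rep a Q x ∈ Q ∧ ∃ k : ℤ, rep a Q x = x + (k : ℝ) * a := by
  have hx : ∃ k : ℤ, x + (k : ℝ) * a ∈ Q := (h.hFD x).exists
  have h1 : rep a Q x = x + (hx.choose : ℝ) * a := by
    unfold rep
    rw [dif_pos hx]
  rw [h1]
  exact ⟨hx.choose_spec, hx.choose, rfl⟩

/-- module REP2 -/
theorem rep_unique {a : ℝ} {Q : Set ℝ} (h : FD a Q) (x y : ℝ) (hy : y ∈ Q)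
    (hk : ∃ k : ℤ, y = x + (k : ℝ) * a) : rep a Q x = y := by
  obtain ⟨h1, k1, hk1⟩ := rep_spec h x
  obtain ⟨k, rfl⟩ := hk
  rw [hk1] at h1 ⊢
  have h2 : k1 = k := (h.hFD x).unique h1 hy
  rw [h2]

/-- module REP3 -/
theorem rep_add_period {a : ℝ} {Q : Set ℝ} (h : FD a Q) (x : ℝ) :
    rep a Q (x + a) = rep a Q x := by
  obtain ⟨h1, k1, hk1⟩ := rep_spec h x
  apply rep_unique h
  · exact h1
  · refine ⟨k1 - 1, ?_⟩
    rw [hk1]
    push_cast
    ring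

/-- module REP4 -/
theorem measurable_rep {a : ℝ} {Q : Set ℝ} (h : FD a Q) : Measurable (rep a Q) := by
  intro B hB
  have h1 : rep a Q ⁻¹' B = ⋃ k : ℤ, ((fun x : ℝ => x + (k : ℝ) * a) ⁻¹' (Q ∩ B)) := by
    ext x
    simp only [Set.mem_preimage, Set.mem_iUnion, Set.mem_inter_iff]
    constructor
    · intro hx
      obtain ⟨h2, k, hk⟩ := rep_spec h x
      refine ⟨k, ?_⟩
      rw [← hk]
      exact ⟨h2, hx⟩
    · rintro ⟨k, h2, h3⟩
      rw [rep_unique h x (x + (k : ℝ) * a) h2 ⟨k, rfl⟩]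
      exact h3
  rw [h1]
  refine MeasurableSet.iUnion (fun k => ?_)
  exact (measurable_id.add_const _) (h.hQ.inter hB)

/-- module REP5 -/
theorem ae_rep {a : ℝ} {Q : Set ℝ} (h : FD a Q) {P : ℝ → Prop} (hP : ∀ᵐ x, P x) :
    ∀ᵐ x, P (rep a Q x) := by
  have h1 : ∀ k : ℤ, ∀ᵐ x : ℝ, P (x + (k : ℝ) * a) := by
    intro k
    exact (measurePreserving_add_right volume ((k : ℝ) * a)).quasiMeasurePreserving.ae hP
  have h2 : ∀ᵐ x : ℝ, ∀ k : ℤ, P (x + (k : ℝ) * a) := ae_all_iff.2 h1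
  filter_upwards [h2] with x hx
  obtain ⟨_, k, hk⟩ := rep_spec h x
  rw [hk]
  exact hx k

end Pool.Agent.Fug
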