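import Pool.Agent.Fug.Walk3b

set_option autoImplicit false

open MeasureTheory Filter Topology Finset

namespace Pool.Agent.Fug

/-- module WALK3c: almost all mass has finitely many ones, uniformly -/
theorem walk (ξ ε : ℝ) (hε : 0 < ε) :
    ∃ G₀ : ℕ, ∀ G ≥ G₀, 1 - ε ≤ ∑ S ∈ (range (2 * G₀ + 1)).powerset, Pr ξ G S := by
  obtain ⟨B, hB⟩ := Ex_ones_bdd ξ
  have hB' : ∀ G, ∑ j ∈ range (2 * G + 1), walk3b_p ξ j ≤ B := by
    intro G
    have := hB G
    rwa [sum_congr rfl fun j hj => walk3b_eq ξ G j (mem_range.mp hj)] at this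
  have hsum : Summable (walk3b_p ξ) := by
    refine summable_of_sum_range_le (walk3b_nonneg ξ) (c := B) fun n => ?_
    refine le_trans ?_ (hB' n)
    exact sum_le_sum_of_subset_of_nonneg (range_subset_range.mpr (by omega))
      fun j _ _ => walk3b_nonneg ξ j
  have htail := tendsto_sum_nat_add (walk3b_p ξ)
  obtain ⟨K, hK⟩ := (htail.eventually (gt_mem_nhds hε)).exists_forall_of_atTop
  refine ⟨K, fun G hG => ?_⟩
  have hK' := hK (2 * K + 1) (by omega)
  have h1 := Ex_one ξ G
  unfold Ex at h1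
  have hsub : (range (2 * K + 1)).powerset ⊆ (range (2 * G + 1)).powerset :=
    powerset_mono.mpr (range_subset_range.mpr (by omega))
  rw [← sum_sdiff hsub] at h1
  simp only [mul_one] at h1
  have h2 : ∑ S ∈ (range (2 * G + 1)).powerset \ (range (2 * K + 1)).powerset, Pr ξ G S ≤
      ∑ j ∈ Ico (2 * K + 1) (2 * G + 1), walk3b_p ξ j := by
    have e1 : ∀ j ∈ Ico (2 * K + 1) (2 * G + 1), walk3b_p ξ j =
        ∑ S ∈ (range (2 * G + 1)).powerset, Pr ξ G S * (if j ∈ S then 1 else 0) := by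
      intro j hj
      rw [mem_Ico] at hj
      rw [← walk3b_eq ξ G j hj.2]
      rfl
    rw [sum_congr rfl e1, sum_comm]
    refine (sum_le_sum ?_).trans (sum_le_sum_of_subset_of_nonneg sdiff_subset ?_)
    · intro S hS
      rw [Finset.mem_sdiff, mem_powerset, mem_powerset, not_subset] at hS
      obtain ⟨hS1, j, hj1, hj2⟩ := hS
      rw [← mul_sum]
      have h3 : (1 : ℝ) ≤ ∑ j ∈ Ico (2 * K + 1) (2 * G + 1), (if j ∈ S then (1 : ℝ) else 0) := by
        have hjm : j ∈ Ico (2 * K + 1) (2 * G + 1) := by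
          rw [mem_Ico]
          have a1 := mem_range.mp (hS1 hj1)
          rw [mem_range] at hj2
          omega
        have h4 := single_le_sum (f := fun j => if j ∈ S then (1 : ℝ) else 0)
          (fun i _ => by split_ifs <;> norm_num) hjm
        simpa [hj1] using h4
      calc Pr ξ G S = Pr ξ G S * 1 := (mul_one _).symm
        _ ≤ _ := mul_le_mul_of_nonneg_left h3 (Pr_nonneg ξ G S)
    · intro S _ _
      refine sum_nonneg fun j _ => mul_nonneg (Pr_nonneg ξ G S) ?_
      split_ifs <;> norm_num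
  have h5 : ∑ j ∈ Ico (2 * K + 1) (2 * G + 1), walk3b_p ξ j ≤
      ∑' k, walk3b_p ξ (k + (2 * K + 1)) := by
    rw [sum_Ico_eq_sum_range]
    have hs' : Summable fun k => walk3b_p ξ (k + (2 * K + 1)) :=
      (summable_nat_add_iff (2 * K + 1)).mpr hsum
    refine le_trans (le_of_eq ?_) (hs'.sum_le_tsum (range (2 * G + 1 - (2 * K + 1)))
      fun k _ => walk3b_nonneg ξ _)
    exact sum_congr rfl fun k _ => by rw [add_comm]
  linarith

end Pool.Agent.Fug
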