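import Pool.Agent.Fug.Hil
import Pool.Agent.Fug.Inj
import Pool.Agent.Fug.MuOrth
import Pool.Agent.Fug.Walk3c

set_option autoImplicit false

open MeasureTheory Filter Topology Finset

namespace Pool.Agent.Fug

theorem Spec_aux_int_zero : ∫ x : ℝ, e (0 * x) ∂muF = 1 := by
  haveI := muF_prob
  simp [e]

theorem Spec_aux_inj : Function.Injective lam := by
  intro S T h
  by_contra hne
  have h1 := muF_orth S T hne
  rw [h, sub_self, Spec_aux_int_zero] at h1
  exact one_ne_zero h1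

theorem Spec_aux_orth (a b : ℝ) (ha : a ∈ Set.range lam) (hb : b ∈ Set.range lam) :
    ∫ x, e ((a - b) * x) ∂muF = if a = b then (1 : ℂ) else 0 := by
  obtain ⟨S, rfl⟩ := ha
  obtain ⟨T, rfl⟩ := hb
  by_cases h : lam S = lam T
  · rw [if_pos h, h, sub_self, Spec_aux_int_zero]
  · rw [if_neg h]
    exact muF_orth S T (fun hST => h (by rw [hST]))

theorem Spec_aux_ap (ξ ε : ℝ) (hε : 0 < ε) :
    ∃ T : Finset ℝ, (∀ a ∈ T, a ∈ Set.range lam) ∧
      1 - ε ≤ ∑ a ∈ T, ‖∫ x, e ((ξ + a) * x) ∂muF‖ ^ 2 := by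
  classical
  obtain ⟨G₀, hG⟩ := walk ξ ε hε
  refine ⟨(range (2 * G₀ + 1)).powerset.image lam, ?_, ?_⟩
  · intro a ha
    obtain ⟨S, _, rfl⟩ := Finset.mem_image.mp ha
    exact ⟨S, rfl⟩
  · rw [Finset.sum_image (fun S _ T _ h => Spec_aux_inj h)]
    have hlim : Tendsto (fun G => ∑ S ∈ (range (2 * G₀ + 1)).powerset, Pr ξ G S) atTop
        (𝓝 (∑ S ∈ (range (2 * G₀ + 1)).powerset, ‖∫ x, e ((ξ + lam S) * x) ∂muF‖ ^ 2)) :=
      tendsto_finset_sum _ (fun S _ => Pr_tendsto ξ S)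
    refine ge_of_tendsto hlim ?_
    filter_upwards [eventually_ge_atTop G₀] with G hG'
    exact hG G hG'

/-- module SPEC: `muF` is spectral (in the exact form of the frozen statement) -/
theorem muF_spectral : ∃ Λ : Set ℝ,
    (∀ a ∈ Λ, ∀ b ∈ Λ,
      ∫ x, Complex.exp (2 * (Real.pi : ℂ) * Complex.I * (((a - b) * x : ℝ) : ℂ)) ∂muF
        = if a = b then (1 : ℂ) else 0) ∧
    (∀ f : ℝ → ℂ, MemLp f 2 muF →
      (∀ a ∈ Λ,
        ∫ x, f x * Complex.exp (-(2 * (Real.pi : ℂ) * Complex.I * ((a * x : ℝ) : ℂ))) ∂muF = 0) →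
      f =ᵐ[muF] 0) := by
  haveI := muF_prob
  refine ⟨Set.range lam, fun a ha b hb => Spec_aux_orth a b ha hb, ?_⟩
  intro f hf h0
  refine inj muF f (hf.integrable (by norm_num)) (fun ξ => ?_)
  refine hil muF (Set.range lam) (fun a ha b hb => Spec_aux_orth a b ha hb)
    (fun ξ ε hε => Spec_aux_ap ξ ε hε) f hf (fun a ha => ?_) ξ
  rw [← h0 a ha]
  refine integral_congr_ae (Eventually.of_forall (fun x => ?_))
  simp only [e]
  congr 2
  push_cast
  ring

end Pool.Agent.Fug
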