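import Pool.Agent.Fug.Basic

set_option autoImplicit false

open MeasureTheory Filter Topology Finset

namespace Pool.Agent.Fug

lemma sup1_aux_sin_sq (x : ℝ) (n : ℤ) :
    Real.sin (Real.pi * (x + n)) ^ 2 = Real.sin (Real.pi * x) ^ 2 := by
  have h : Real.pi * (x + n) = Real.pi * x + n * Real.pi := by ring
  rw [h, Real.sin_add_int_mul_pi, mul_pow]
  have h2 : ((-1 : ℝ) ^ n) ^ 2 = 1 := by
    rcases Int.even_or_odd n with hn | hn
    · rw [hn.neg_one_zpow]; norm_num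
    · rw [hn.neg_one_zpow]; norm_num
  rw [h2, one_mul]

lemma sup1_aux_tau_nonneg (j : ℕ) (k : ℤ) : 0 ≤ tau j k := by
  unfold tau
  positivity

lemma sup1_aux_tau_le_one (j : ℕ) (k : ℤ) : tau j k ≤ 1 := by
  unfold tau
  have hL : (0 : ℝ) < (L : ℝ) := by norm_num [L]
  have h : ∑ l ∈ Finset.Icc 1 L, Real.sin (Real.pi * ((k : ℝ) * (l : ℝ) * tt j)) ^ 2 ≤ (L : ℝ) := by
    calc ∑ l ∈ Finset.Icc 1 L, Real.sin (Real.pi * ((k : ℝ) * (l : ℝ) * tt j)) ^ 2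
        ≤ ∑ l ∈ Finset.Icc 1 L, (1 : ℝ) := Finset.sum_le_sum fun l _ => Real.sin_sq_le_one _
      _ = (L : ℝ) := by simp
  calc 1 / (L : ℝ) * ∑ l ∈ Finset.Icc 1 L, Real.sin (Real.pi * ((k : ℝ) * (l : ℝ) * tt j)) ^ 2
      ≤ 1 / (L : ℝ) * (L : ℝ) := by gcongr
    _ = 1 := by field_simp

lemma sup1_aux_tau_add {p j : ℕ} (h : p < j) (k n : ℤ) :
    tau p (k + 2 ^ v j * n) = tau p k := by
  unfold tau
  congr 1
  refine Finset.sum_congr rfl fun l _ => ?_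
  have h1 : ((k + 2 ^ v j * n : ℤ) : ℝ) * (l : ℝ) * tt p =
      (k : ℝ) * (l : ℝ) * tt p + ((n * l * 2 ^ (v j - v p - 24) : ℤ) : ℝ) := by
    have h2 := pow_mul_tt h
    push_cast
    rw [← h2]
    ring
  rw [h1, sup1_aux_sin_sq]

lemma sup1_aux_m : (0 : ℝ) ≤ 2 / (m : ℝ) ∧ 2 / (m : ℝ) ≤ 1 := by
  have h : (2 : ℝ) ≤ (m : ℝ) := by norm_num [m]
  have h0 : (0 : ℝ) ≤ (m : ℝ) := by linarith
  exact ⟨div_nonneg (by norm_num) h0, div_le_one_of_le₀ h h0⟩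

/-- module SUP1: weighted form of (PC) -/
theorem pc_weighted (g : ℕ) (F : ℤ → ℝ) (hF : ∀ k, 0 ≤ F k) (hs : Summable F)
    (hPC : ∀ κ : ℤ, 0 ≤ ∑' k : ℤ, if ((2 : ℤ) ^ v (2 * g + 1) ∣ k - κ) then
      (tau (2 * g + 1) k - (2 / (m : ℝ)) * tau (g / m) κ) * F k else 0)
    (Ψ : ℤ → ℝ) (hΨ0 : ∀ k, 0 ≤ Ψ k) (hΨ1 : ∀ k, Ψ k ≤ 1)
    (hΨ : ∀ k, Ψ (k + 2 ^ v (2 * g + 1)) = Ψ k) :
    0 ≤ ∑' k : ℤ, Ψ k * (tau (2 * g + 1) k - (2 / (m : ℝ)) * tau (g / m) k) * F k := by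
  classical
  obtain ⟨M, hM⟩ : ∃ M : ℕ, M = 2 ^ v (2 * g + 1) := ⟨_, rfl⟩
  have hMpos : 0 < M := by rw [hM]; exact Nat.pow_pos (by norm_num)
  have hMZ : (2 : ℤ) ^ v (2 * g + 1) = (M : ℤ) := by rw [hM]; push_cast; rfl
  rw [hMZ] at hΨ
  simp only [hMZ] at hPC
  -- periodicity of Ψ
  have hper : Function.Periodic Ψ (M : ℤ) := hΨ
  have hΨmod : ∀ k κ : ℤ, (M : ℤ) ∣ k - κ → Ψ k = Ψ κ := by
    intro k κ hd
    obtain ⟨n, hn⟩ := hd
    have hk : k = κ + n * (M : ℤ) := by linarith [mul_comm (M : ℤ) n]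
    rw [hk]
    exact hper.int_mul n κ
  have htmod : ∀ k κ : ℤ, (M : ℤ) ∣ k - κ → tau (g / m) k = tau (g / m) κ := by
    intro k κ hd
    obtain ⟨n, hn⟩ := hd
    have hk : k = κ + 2 ^ v (2 * g + 1) * n := by rw [hMZ]; linarith
    rw [hk]
    exact sup1_aux_tau_add (parent_lt g) κ n
  have hm2 : (0 : ℝ) ≤ 2 / (m : ℝ) ∧ 2 / (m : ℝ) ≤ 1 := sup1_aux_m
  -- bound of the coefficients
  have hb : ∀ k κ : ℤ, |tau (2 * g + 1) k - (2 / (m : ℝ)) * tau (g / m) κ| ≤ 1 := by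
    intro k κ
    have h1 := sup1_aux_tau_nonneg (2 * g + 1) k
    have h2 := sup1_aux_tau_le_one (2 * g + 1) k
    have h3 := sup1_aux_tau_nonneg (g / m) κ
    have h4 := sup1_aux_tau_le_one (g / m) κ
    have h5 : 0 ≤ (2 / (m : ℝ)) * tau (g / m) κ := mul_nonneg hm2.1 h3
    have h6 : (2 / (m : ℝ)) * tau (g / m) κ ≤ 1 := by
      calc (2 / (m : ℝ)) * tau (g / m) κ ≤ 1 * 1 := mul_le_mul hm2.2 h4 h3 zero_le_one
        _ = 1 := one_mul 1
    rw [abs_le]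
    constructor <;> linarith
  let T : ℤ → ℤ → ℝ := fun κ k => if ((M : ℤ) ∣ k - κ) then
      (tau (2 * g + 1) k - (2 / (m : ℝ)) * tau (g / m) κ) * F k else 0
  have hTs : ∀ κ, Summable (T κ) := by
    intro κ
    refine Summable.of_norm_bounded hs fun k => ?_
    simp only [T]
    split_ifs with hd
    · rw [norm_mul, Real.norm_eq_abs, Real.norm_eq_abs, abs_of_nonneg (hF k)]
      calc _ ≤ 1 * F k := mul_le_mul_of_nonneg_right (hb k κ) (hF k)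
        _ = F k := one_mul _
    · rw [norm_zero]; exact hF k
  have hpt : ∀ k : ℤ, Ψ k * (tau (2 * g + 1) k - (2 / (m : ℝ)) * tau (g / m) k) * F k =
      ∑ κ ∈ range M, Ψ (κ : ℤ) * T (κ : ℤ) k := by
    intro k
    have hk0 : 0 ≤ k % (M : ℤ) := Int.emod_nonneg _ (by exact_mod_cast hMpos.ne')
    have hk1 : k % (M : ℤ) < M := Int.emod_lt_of_pos _ (by exact_mod_cast hMpos)
    have hcast : (((k % (M : ℤ)).toNat : ℕ) : ℤ) = k % (M : ℤ) := Int.toNat_of_nonneg hk0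
    rw [Finset.sum_eq_single (k % (M : ℤ)).toNat]
    · rw [hcast]
      have hd : (M : ℤ) ∣ k - k % (M : ℤ) := Int.dvd_self_sub_emod
      simp only [T, if_pos hd]
      rw [hΨmod k _ hd, htmod k _ hd, mul_assoc]
    · intro κ hκ hne
      have hnd : ¬ (M : ℤ) ∣ k - (κ : ℤ) := by
        intro hd
        apply hne
        have h1 : k % (M : ℤ) = (κ : ℤ) % (M : ℤ) := Int.emod_eq_emod_iff_emod_sub_eq_zero.2
          (Int.emod_eq_zero_of_dvd hd)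
        have h2 : (κ : ℤ) % (M : ℤ) = κ := Int.emod_eq_of_lt (Int.natCast_nonneg κ)
          (by exact_mod_cast Finset.mem_range.1 hκ)
        rw [h1, h2]
        simp
      simp only [T, if_neg hnd, mul_zero]
    · intro hn
      exfalso
      apply hn
      rw [Finset.mem_range]
      zify
      rw [hcast]
      exact hk1
  have hsum : ∀ κ ∈ range M, Summable fun k : ℤ => Ψ (κ : ℤ) * T (κ : ℤ) k :=
    fun κ _ => (hTs κ).mul_left _
  rw [tsum_congr hpt, Summable.tsum_finsetSum hsum]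
  refine Finset.sum_nonneg fun κ _ => ?_
  rw [tsum_mul_left]
  exact mul_nonneg (hΨ0 _) (hPC κ)

end Pool.Agent.Fug
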