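import Pool.Agent.Fug.Int3
import Pool.Agent.Fug.Law3
import Pool.Agent.Fug.DSum

set_option autoImplicit false

open MeasureTheory Filter Topology Finset

namespace Pool.Agent.Fug

lemma tiles_aux_root (ρ : Measure ℝ) [IsProbabilityMeasure ρ] :
    Measure.conv root ρ = ∑ i : Bool, ((Fintype.card Bool : ENNReal)⁻¹) •
      ρ.map (fun x => x + (if i then (1 / 2 : ℝ) else 0)) := by
  unfold root
  rw [Measure.conv_smul_left, Measure.add_conv, Measure.dirac_conv, Measure.dirac_conv]
  rw [Fintype.sum_bool, Fintype.card_bool, smul_add, add_comm]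
  congr 1
  · congr 2
    ext x
    simp [add_comm]
  · congr 2
    ext x
    simp

lemma tiles_aux_unif (d : Bool × Bool → ℝ) (ρ : Measure ℝ) [IsProbabilityMeasure ρ] :
    Measure.conv (unifBB.map d) ρ = ∑ i : Bool × Bool, ((Fintype.card (Bool × Bool) : ENNReal)⁻¹) •
      ρ.map (fun x => x + d i) := by
  have hd : Measurable d := measurable_of_finite d
  have h1 : unifBB.map d = (4 : ENNReal)⁻¹ • (Measure.dirac (d (false, false))
      + Measure.dirac (d (false, true))
      + Measure.dirac (d (true, false)) + Measure.dirac (d (true, true))) := by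
    unfold unifBB
    rw [Measure.map_smul, Measure.map_add _ _ hd, Measure.map_add _ _ hd, Measure.map_add _ _ hd,
      Measure.map_dirac, Measure.map_dirac, Measure.map_dirac, Measure.map_dirac]
  rw [h1, Measure.conv_smul_left, Measure.add_conv, Measure.add_conv, Measure.add_conv,
    Measure.dirac_conv, Measure.dirac_conv, Measure.dirac_conv, Measure.dirac_conv]
  rw [Fintype.sum_prod_type, Fintype.sum_bool, Fintype.sum_bool, Fintype.sum_bool]
  have hcard : ((Fintype.card (Bool × Bool) : ℕ) : ENNReal) = 4 := by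
    simp only [Fintype.card_prod, Fintype.card_bool]
    norm_num
  rw [hcard]
  simp only [smul_add]
  have h2 : ∀ i, (fun y : ℝ => d i + y) = fun y => y + d i := by
    intro i; ext y; rw [add_comm]
  simp only [h2]
  abel

lemma tiles_aux_D (g : ℕ) (i : Bool × Bool) (hi : i ≠ (false, false)) :
    ∃ k : ℕ, 0 < k ∧ D g i = (k : ℝ) / 2 ^ (v (2 * g + 2) + 1) := by
  have h1 := v_parent g
  have h2 := v_sib g
  have hb1 : be (2 * g + 1) = ((2 ^ (v (2 * g + 2) - v (2 * g + 1)) : ℕ) : ℝ)
      / 2 ^ (v (2 * g + 2) + 1) := by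
    unfold be
    rw [div_eq_div_iff (by positivity) (by positivity)]
    push_cast
    rw [one_mul, ← pow_add]
    congr 1
    omega
  have hb2 : be (2 * g + 2) = ((1 : ℕ) : ℝ) / 2 ^ (v (2 * g + 2) + 1) := by
    unfold be
    simp
  have ht : tt (g / m) = ((2 ^ (v (2 * g + 2) + 1 - (v (g / m) + 24)) : ℕ) : ℝ)
      / 2 ^ (v (2 * g + 2) + 1) := by
    unfold tt
    rw [div_eq_div_iff (by positivity) (by positivity)]
    push_cast
    rw [one_mul, ← pow_add]
    congr 1
    omega
  obtain ⟨i1, i2⟩ := i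
  cases i1 <;> cases i2
  · exact absurd rfl hi
  · refine ⟨1 + 2 ^ (v (2 * g + 2) + 1 - (v (g / m) + 24)), by positivity, ?_⟩
    unfold D
    simp only [Bool.false_eq_true, if_false, if_true, Bool.false_xor, zero_add]
    rw [hb2, ht, ← add_div, ← Nat.cast_add]
  · refine ⟨2 ^ (v (2 * g + 2) - v (2 * g + 1)) + 2 ^ (v (2 * g + 2) + 1 - (v (g / m) + 24)),
      by positivity, ?_⟩
    unfold D
    simp only [Bool.false_eq_true, if_false, if_true, Bool.xor_false, add_zero]
    rw [hb1, ht, ← add_div, ← Nat.cast_add]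
  · refine ⟨2 ^ (v (2 * g + 2) - v (2 * g + 1)) + 1, by positivity, ?_⟩
    unfold D
    simp only [if_true, bne_self_eq_false, Bool.false_eq_true, if_false, add_zero]
    rw [hb1, hb2, ← add_div, ← Nat.cast_add]

/-- module TILES: a factorization `muF * ν = Lebesgue on Q` yields measurable sets `E₀`, `E_g`. -/
theorem tiles (ν : Measure ℝ) [IsProbabilityMeasure ν] (a : ℝ) (ha : 0 < a) (Q : Set ℝ)
    (hQ : MeasurableSet Q)
    (h : (muF.prod ν).map (fun p : ℝ × ℝ => p.1 + p.2)
      = (ENNReal.ofReal a)⁻¹ • volume.restrict Q) :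
    ∃ E₀ : Set ℝ, MeasurableSet E₀ ∧ (∀ᵐ x, ind E₀ x + ind E₀ (x - 1 / 2) = ind Q x) ∧
      ∀ g : ℕ, ∃ E : Set ℝ, MeasurableSet E ∧
        ∀ᵐ x, ∑ i : Bool × Bool, ind E (x - D g i) = ind E₀ x := by
  obtain ⟨c, hc, hD⟩ := D_bound
  have hP : IsProbabilityMeasure (lawOf D) := lawOf_prob D c hc hD
  have hmu : muF = Measure.conv root (lawOf D) := rfl
  have h1 : Measure.conv muF ν = (ENNReal.ofReal a)⁻¹ • volume.restrict Q := h
  rw [hmu, Measure.conv_assoc, tiles_aux_root] at h1
  obtain ⟨E₀, hE₀m, hρ, hE₀⟩ := integrality (fun i : Bool => if i then (1 / 2 : ℝ) else 0) false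
    (by simp) 1 (by
      intro i hi
      cases i
      · exact absurd rfl hi
      · exact ⟨1, one_pos, by simp⟩) (Measure.conv (lawOf D) ν) a ha Q hQ h1
  refine ⟨E₀, hE₀m, ?_, ?_⟩
  · filter_upwards [hE₀] with x hx
    rw [← hx, Fintype.sum_bool, add_comm]
    simp
  intro g
  have hup : ∀ n i, |Function.update D g 0 n i| ≤ c n := by
    intro n i
    by_cases hn : n = g
    · subst hn
      simp only [Function.update_self, Pi.zero_apply, abs_zero]
      exact (abs_nonneg _).trans (hD n i)
    · rw [Function.update_of_ne hn]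
      exact hD n i
  have hP' : IsProbabilityMeasure (lawOf (Function.update D g 0)) := lawOf_prob _ c hc hup
  have hfac : lawOf D = Measure.conv (unifBB.map (D g)) (lawOf (Function.update D g 0)) :=
    lawOf_factor D c hc hD g
  rw [hfac, Measure.conv_assoc, tiles_aux_unif, Fintype.card_bool] at hρ
  obtain ⟨E, hEm, -, hE⟩ := integrality (D g) (false, false) (by simp [D])
    (v (2 * g + 2) + 1) (fun i hi => tiles_aux_D g i hi)
    (Measure.conv (lawOf (Function.update D g 0)) ν) (a / (2 : ℕ)) (by positivity) E₀ hE₀m hρ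
  exact ⟨E, hEm, hE⟩

end Pool.Agent.Fug
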