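import Pool.Agent.Fug.Basic

set_option autoImplicit false

open MeasureTheory Filter Topology Finset

namespace Pool.Agent.Fug

lemma trigC_sin_nat (x : ℝ) (n : ℕ) :
    Real.sin (Real.pi * (x + n)) ^ 2 = Real.sin (Real.pi * x) ^ 2 := by
  rw [mul_add, mul_comm Real.pi (n : ℝ), Real.sin_add_nat_mul_pi, mul_pow, ← pow_mul, mul_comm n 2,
    pow_mul]
  simp

lemma trigC_cos_nat (x : ℝ) (n : ℕ) :
    Real.cos (Real.pi * (x + n)) ^ 2 = Real.cos (Real.pi * x) ^ 2 := by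
  rw [mul_add, mul_comm Real.pi (n : ℝ), Real.cos_add_nat_mul_pi, mul_pow, ← pow_mul, mul_comm n 2,
    pow_mul]
  simp

lemma trigC_sin_half (x : ℝ) :
    Real.sin (Real.pi * (x + 1 / 2)) ^ 2 = Real.cos (Real.pi * x) ^ 2 := by
  rw [show Real.pi * (x + 1 / 2) = Real.pi * x + Real.pi / 2 by ring, Real.sin_add_pi_div_two]

lemma trigC_cos_half (x : ℝ) :
    Real.cos (Real.pi * (x + 1 / 2)) ^ 2 = Real.sin (Real.pi * x) ^ 2 := by
  rw [show Real.pi * (x + 1 / 2) = Real.pi * x + Real.pi / 2 by ring, Real.cos_add_pi_div_two,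
    neg_sq]

lemma trigC_tt (a : ℝ) {p j : ℕ} (h : p < j) :
    (a + 2 ^ v j) * tt p = a * tt p + ((2 ^ (v j - v p - 24) : ℕ) : ℝ) := by
  rw [add_mul, pow_mul_tt h]
  push_cast
  ring

lemma trigC_be (a : ℝ) {p j : ℕ} (h : p < j) :
    (a + 2 ^ v j) * be p = a * be p + ((2 ^ (v j - v p - 1) : ℕ) : ℝ) := by
  rw [add_mul, pow_mul_be h]
  push_cast
  ring

lemma trigC_be_self (a : ℝ) (j : ℕ) : (a + 2 ^ v j) * be j = a * be j + 1 / 2 := by
  rw [add_mul, pow_mul_be_self]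

/-- shift by the second frequency -/
lemma trigC_shift2 (g : ℕ) (a : ℝ) :
    Gam g (a + 2 ^ v (2 * g + 2)) =
      Real.cos (Real.pi * (a * tt (g / m))) ^ 2 * Real.cos (Real.pi * (a * be (2 * g + 1))) ^ 2
      * Real.sin (Real.pi * (a * be (2 * g + 2))) ^ 2
    + Real.sin (Real.pi * (a * tt (g / m))) ^ 2 * Real.sin (Real.pi * (a * be (2 * g + 1))) ^ 2
      * Real.cos (Real.pi * (a * be (2 * g + 2))) ^ 2 := by
  have hp := parent_lt g
  unfold Gam
  rw [trigC_tt a (show g / m < 2 * g + 2 by omega), trigC_be a (show 2 * g + 1 < 2 * g + 2 by omega),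
    trigC_be_self, trigC_cos_nat, trigC_sin_nat, trigC_cos_nat, trigC_sin_nat, trigC_cos_half,
    trigC_sin_half]

/-- sum over the second digit -/
lemma trigC_sum2 (g : ℕ) (a : ℝ) :
    Gam g a + Gam g (a + 2 ^ v (2 * g + 2)) =
      Real.cos (Real.pi * (a * tt (g / m))) ^ 2 * Real.cos (Real.pi * (a * be (2 * g + 1))) ^ 2
    + Real.sin (Real.pi * (a * tt (g / m))) ^ 2
      * Real.sin (Real.pi * (a * be (2 * g + 1))) ^ 2 := by
  rw [trigC_shift2]
  unfold Gam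
  have h := Real.sin_sq_add_cos_sq (Real.pi * (a * be (2 * g + 2)))
  have h2 : Real.sin (Real.pi * (a * be (2 * g + 2))) ^ 2 =
    1 - Real.cos (Real.pi * (a * be (2 * g + 2))) ^ 2 := by linarith
  rw [h2]
  ring

/-- sum over the second digit, first digit one -/
lemma trigC_sum12 (g : ℕ) (a : ℝ) :
    Gam g (a + 2 ^ v (2 * g + 1)) + Gam g (a + 2 ^ v (2 * g + 1) + 2 ^ v (2 * g + 2)) =
      Real.cos (Real.pi * (a * tt (g / m))) ^ 2 * Real.sin (Real.pi * (a * be (2 * g + 1))) ^ 2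
    + Real.sin (Real.pi * (a * tt (g / m))) ^ 2
      * Real.cos (Real.pi * (a * be (2 * g + 1))) ^ 2 := by
  rw [trigC_sum2, trigC_tt a (parent_lt g), trigC_be_self, trigC_cos_nat, trigC_sin_nat,
    trigC_cos_half, trigC_sin_half]

/-- module TRIGC1 -/
theorem Gam_sum_four (g : ℕ) (a : ℝ) :
    Gam g a + Gam g (a + 2 ^ v (2 * g + 1)) + Gam g (a + 2 ^ v (2 * g + 2))
      + Gam g (a + 2 ^ v (2 * g + 1) + 2 ^ v (2 * g + 2)) = 1 := by
  have h1 := trigC_sum2 g a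
  have h2 := trigC_sum12 g a
  have h3 := Real.sin_sq_add_cos_sq (Real.pi * (a * be (2 * g + 1)))
  have h4 := Real.sin_sq_add_cos_sq (Real.pi * (a * tt (g / m)))
  have h5 : Gam g a + Gam g (a + 2 ^ v (2 * g + 1)) + Gam g (a + 2 ^ v (2 * g + 2))
      + Gam g (a + 2 ^ v (2 * g + 1) + 2 ^ v (2 * g + 2)) =
      (Gam g a + Gam g (a + 2 ^ v (2 * g + 2))) +
      (Gam g (a + 2 ^ v (2 * g + 1)) + Gam g (a + 2 ^ v (2 * g + 1) + 2 ^ v (2 * g + 2))) := by
    ring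
  rw [h5, h1, h2]
  have h6 : Real.sin (Real.pi * (a * be (2 * g + 1))) ^ 2 =
    1 - Real.cos (Real.pi * (a * be (2 * g + 1))) ^ 2 := by linarith
  have h7 : Real.sin (Real.pi * (a * tt (g / m))) ^ 2 =
    1 - Real.cos (Real.pi * (a * tt (g / m))) ^ 2 := by linarith
  rw [h6, h7]
  ring

/-- module TRIGC2 -/
theorem Gam_one_le (g : ℕ) (a : ℝ) :
    Gam g (a + 2 ^ v (2 * g + 1)) + Gam g (a + 2 ^ v (2 * g + 1) + 2 ^ v (2 * g + 2)) ≤
      Real.sin (Real.pi * (a * tt (g / m))) ^ 2 + Real.sin (Real.pi * (a * be (2 * g + 1))) ^ 2 := by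
  rw [trigC_sum12]
  have h1 := Real.cos_sq_le_one (Real.pi * (a * tt (g / m)))
  have h2 := Real.cos_sq_le_one (Real.pi * (a * be (2 * g + 1)))
  have h3 := sq_nonneg (Real.sin (Real.pi * (a * tt (g / m))))
  have h4 := sq_nonneg (Real.sin (Real.pi * (a * be (2 * g + 1))))
  nlinarith [mul_le_mul_of_nonneg_right h1 h4, mul_le_mul_of_nonneg_left h2 h3]

/-- module TRIGC3 -/
theorem Gam_two_le (g : ℕ) (a : ℝ) :
    Gam g (a + 2 ^ v (2 * g + 2)) + Gam g (a + 2 ^ v (2 * g + 1) + 2 ^ v (2 * g + 2)) ≤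
      Real.sin (Real.pi * (a * tt (g / m))) ^ 2 + Real.sin (Real.pi * (a * be (2 * g + 2))) ^ 2
        + Real.sin (Real.pi * ((a + 2 ^ v (2 * g + 1)) * be (2 * g + 2))) ^ 2 := by
  rw [trigC_shift2, trigC_shift2, trigC_tt a (parent_lt g), trigC_be_self, trigC_cos_nat,
    trigC_sin_nat, trigC_cos_half, trigC_sin_half]
  set ct := Real.cos (Real.pi * (a * tt (g / m))) ^ 2 with hct
  set st := Real.sin (Real.pi * (a * tt (g / m))) ^ 2 with hst
  set cx := Real.cos (Real.pi * (a * be (2 * g + 1))) ^ 2 with hcx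
  set sx := Real.sin (Real.pi * (a * be (2 * g + 1))) ^ 2 with hsx
  set cy := Real.cos (Real.pi * (a * be (2 * g + 2))) ^ 2 with hcy
  set sy := Real.sin (Real.pi * (a * be (2 * g + 2))) ^ 2 with hsy
  set cz := Real.cos (Real.pi * ((a + 2 ^ v (2 * g + 1)) * be (2 * g + 2))) ^ 2 with hcz
  set sz := Real.sin (Real.pi * ((a + 2 ^ v (2 * g + 1)) * be (2 * g + 2))) ^ 2 with hsz
  have e1 : st + ct = 1 := Real.sin_sq_add_cos_sq _
  have e2 : sx + cx = 1 := Real.sin_sq_add_cos_sq _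
  have e3 : sy + cy = 1 := Real.sin_sq_add_cos_sq _
  have e4 : sz + cz = 1 := Real.sin_sq_add_cos_sq _
  have p1 : 0 ≤ ct := sq_nonneg _
  have p2 : 0 ≤ st := sq_nonneg _
  have p3 : 0 ≤ cx := sq_nonneg _
  have p4 : 0 ≤ sx := sq_nonneg _
  have p5 : 0 ≤ cy := sq_nonneg _
  have p6 : 0 ≤ sy := sq_nonneg _
  have p7 : 0 ≤ cz := sq_nonneg _
  have p8 : 0 ≤ sz := sq_nonneg _
  have q1 : ct * cx * sy ≤ 1 * sy := by
    apply mul_le_mul_of_nonneg_right _ p6
    nlinarith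
  have q2 : st * sx * cy ≤ st * sx * 1 := mul_le_mul_of_nonneg_left (by linarith) (by positivity)
  have q3 : ct * sx * sz ≤ 1 * sz := by
    apply mul_le_mul_of_nonneg_right _ p8
    nlinarith
  have q4 : st * cx * cz ≤ st * cx * 1 := mul_le_mul_of_nonneg_left (by linarith) (by positivity)
  have q5 : st * sx + st * cx = st := by rw [← mul_add, e2, mul_one]
  linarith

/-- module TRIGC4: periodicity -/
theorem Gam_add_pow (g j : ℕ) (hj : 2 * g + 2 < j) (a : ℝ) : Gam g (a + 2 ^ v j) = Gam g a := by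
  have hp := parent_lt g
  unfold Gam
  rw [trigC_tt a (show g / m < j by omega), trigC_be a (show 2 * g + 1 < j by omega),
    trigC_be a hj, trigC_cos_nat, trigC_sin_nat, trigC_cos_nat, trigC_sin_nat, trigC_cos_nat,
    trigC_sin_nat]

/-- module TRIGC5 -/
theorem cos_add_pow (j : ℕ) (hj : 0 < j) (a : ℝ) :
    Real.cos (Real.pi * ((a + 2 ^ v j) / 2)) ^ 2 = Real.cos (Real.pi * (a / 2)) ^ 2 := by
  have h := v_add_le hj
  have h1 : (a + 2 ^ v j) / 2 = a / 2 + ((2 ^ (v j - 1) : ℕ) : ℝ) := by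
    push_cast
    rw [add_div]
    congr 1
    rw [div_eq_iff (by norm_num), ← pow_succ]
    congr 1
    omega
  rw [h1, trigC_cos_nat]

end Pool.Agent.Fug
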