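import Pool.Agent.Fug.Basic

set_option autoImplicit false

open MeasureTheory Filter Topology Finset

namespace Pool.Agent.Fug

/-- module WALK1a -/
theorem abs_mul_be_le (ξ : ℝ) (j : ℕ) (R : Finset ℕ) (hR : R ⊆ range j) :
    |(ξ + lam R) * be j| ≤ (|ξ| + 1) / 2 ^ j := by
  have h1 : lam R ≤ (2 : ℝ) ^ v j / 2 ^ j := (lam_mono hR).trans (lam_range_le j)
  have h0 := lam_nonneg R
  have h2 : |ξ + lam R| ≤ |ξ| + (2 : ℝ) ^ v j / 2 ^ j := by
    refine (abs_add_le _ _).trans ?_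
    rw [abs_of_nonneg h0]
    linarith
  rw [abs_mul, abs_of_pos (be_pos j)]
  have h3 : |ξ + lam R| * be j ≤ (|ξ| + (2 : ℝ) ^ v j / 2 ^ j) * be j :=
    mul_le_mul_of_nonneg_right h2 (be_pos j).le
  refine h3.trans ?_
  have h4 : (2 : ℝ) ^ v j / 2 ^ j * be j = (1 / 2) / 2 ^ j := by
    rw [div_mul_eq_mul_div, pow_mul_be_self]
  have h5 : be j ≤ 1 / 2 ^ j := by
    unfold be
    apply one_div_le_one_div_of_le (by positivity)
    exact pow_le_pow_right₀ (by norm_num) (by have := le_v j; omega)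
  have h6 : |ξ| * be j ≤ |ξ| * (1 / 2 ^ j) := mul_le_mul_of_nonneg_left h5 (abs_nonneg _)
  have h7 : (0 : ℝ) < 1 / 2 ^ j := by positivity
  rw [add_mul, h4]
  have e1 : (|ξ| + 1) / 2 ^ j = |ξ| * (1 / 2 ^ j) + 1 / 2 ^ j := by ring
  have e2 : (1 : ℝ) / 2 / 2 ^ j = 1 / 2 * (1 / 2 ^ j) := by ring
  rw [e1, e2]
  linarith

lemma walk1_sin_sq (x : ℝ) : Real.sin (Real.pi * x) ^ 2 ≤ Real.pi ^ 2 * x ^ 2 := by
  have h := Real.abs_sin_le_abs (x := Real.pi * x)
  have h2 : Real.sin (Real.pi * x) ^ 2 ≤ (Real.pi * x) ^ 2 := sq_le_sq.mpr h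
  rwa [mul_pow] at h2

/-- module WALK1b -/
theorem sin_sq_be_le (ξ : ℝ) (j : ℕ) (R : Finset ℕ) (hR : R ⊆ range j) :
    Real.sin (Real.pi * ((ξ + lam R) * be j)) ^ 2 ≤ Real.pi ^ 2 * (|ξ| + 1) ^ 2 / 4 ^ j := by
  refine (walk1_sin_sq _).trans ?_
  have h1 := abs_mul_be_le ξ j R hR
  have h2 : ((ξ + lam R) * be j) ^ 2 ≤ ((|ξ| + 1) / 2 ^ j) ^ 2 := by
    rw [← sq_abs]
    exact pow_le_pow_left₀ (abs_nonneg _) h1 2
  have h3 : ((|ξ| + 1) / 2 ^ j) ^ 2 = (|ξ| + 1) ^ 2 / 4 ^ j := by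
    rw [div_pow, ← pow_mul, mul_comm j 2, pow_mul]
    norm_num
  rw [h3] at h2
  have h4 := mul_le_mul_of_nonneg_left h2 (sq_nonneg Real.pi)
  rw [mul_div_assoc]
  exact h4

lemma walk1_tt_le_be (p : ℕ) : tt p ≤ be p := by
  unfold tt be
  apply one_div_le_one_div_of_le (by positivity)
  exact pow_le_pow_right₀ (by norm_num) (by omega)

lemma walk1_split (R : Finset ℕ) (p : ℕ) :
    lam R = lam (R.filter (· < p)) + (if p ∈ R then (2 : ℝ) ^ v p else 0)
      + lam (R.filter (p < ·)) := by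
  unfold lam
  have h : R = R.filter (· < p) ∪ R.filter (· = p) ∪ R.filter (p < ·) := by
    ext i
    simp only [mem_union, mem_filter]
    constructor
    · intro hi
      rcases lt_trichotomy i p with h | h | h
      · left; left; exact ⟨hi, h⟩
      · left; right; exact ⟨hi, h⟩
      · right; exact ⟨hi, h⟩
    · rintro ((h | h) | h) <;> exact h.1
  conv_lhs => rw [h]
  rw [sum_union, sum_union]
  · congr 2
    rw [Finset.filter_eq']
    split_ifs <;> simp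
  · rw [disjoint_filter]
    intro i _ h1 h2
    omega
  · rw [disjoint_left]
    intro i hi hi'
    simp only [mem_union, mem_filter] at hi hi'
    omega

lemma walk1_high (R : Finset ℕ) (p : ℕ) :
    ∃ n : ℕ, lam (R.filter (p < ·)) * tt p = n := by
  refine ⟨∑ i ∈ R.filter (p < ·), 2 ^ (v i - v p - 24), ?_⟩
  unfold lam
  rw [sum_mul]
  push_cast
  refine sum_congr rfl fun i hi => ?_
  rw [mem_filter] at hi
  exact pow_mul_tt hi.2

/-- module WALK1c -/
theorem sin_sq_tt_le (ξ : ℝ) (j p : ℕ) (hp : p < j) (R : Finset ℕ) (hR : R ⊆ range j) :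
    Real.sin (Real.pi * ((ξ + lam R) * tt p)) ^ 2 ≤
      2 * (if p ∈ R then Real.sin (Real.pi / N) ^ 2 else 0)
        + 2 * (Real.pi ^ 2 * (|ξ| + 1) ^ 2 / 4 ^ p) := by
  obtain ⟨n, hn⟩ := walk1_high R p
  set x := (ξ + lam (R.filter (· < p))) * tt p with hx
  set y : ℝ := if p ∈ R then 1 / N else 0 with hy
  have h1 : (ξ + lam R) * tt p = x + y + n := by
    rw [walk1_split R p, ← hn, hx, hy]
    have h2 : (2 : ℝ) ^ v p * tt p = 1 / N := by
      unfold tt N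
      rw [mul_one_div, pow_add, div_mul_eq_div_div, div_self (by positivity)]
      norm_num
    split_ifs
    · rw [← h2]; ring
    · ring
  have h3 : Real.sin (Real.pi * ((ξ + lam R) * tt p)) ^ 2 = Real.sin (Real.pi * (x + y)) ^ 2 := by
    rw [h1, mul_add, mul_comm Real.pi (n : ℝ), Real.sin_add_nat_mul_pi, mul_pow, ← pow_mul,
      mul_comm n 2, pow_mul]
    simp
  have h4 : Real.sin (Real.pi * (x + y)) ^ 2 ≤
      2 * Real.sin (Real.pi * y) ^ 2 + 2 * Real.sin (Real.pi * x) ^ 2 := by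
    rw [mul_add, Real.sin_add]
    have a1 := Real.cos_sq_le_one (Real.pi * x)
    have a2 := Real.cos_sq_le_one (Real.pi * y)
    set sx := Real.sin (Real.pi * x)
    set cx := Real.cos (Real.pi * x)
    set sy := Real.sin (Real.pi * y)
    set cy := Real.cos (Real.pi * y)
    have a3 : (sx * cy + cx * sy) ^ 2 ≤ 2 * (sx * cy) ^ 2 + 2 * (cx * sy) ^ 2 := by
      nlinarith [sq_nonneg (sx * cy - cx * sy)]
    have a4 : (sx * cy) ^ 2 ≤ sx ^ 2 := by
      rw [mul_pow]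
      nlinarith [sq_nonneg sx]
    have a5 : (cx * sy) ^ 2 ≤ sy ^ 2 := by
      rw [mul_pow]
      nlinarith [sq_nonneg sy]
    linarith
  have h5 : Real.sin (Real.pi * y) ^ 2 = if p ∈ R then Real.sin (Real.pi / N) ^ 2 else 0 := by
    rw [hy]
    split_ifs
    · rw [mul_one_div]
    · simp
  have h6 : Real.sin (Real.pi * x) ^ 2 ≤ Real.pi ^ 2 * (|ξ| + 1) ^ 2 / 4 ^ p := by
    refine (walk1_sin_sq _).trans ?_
    have hsub : R.filter (· < p) ⊆ range p := by
      intro i hi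
      rw [mem_filter] at hi
      exact mem_range.mpr hi.2
    have b1 := abs_mul_be_le ξ p _ hsub
    have b2 : |x| ≤ (|ξ| + 1) / 2 ^ p := by
      refine le_trans ?_ b1
      rw [hx, abs_mul, abs_mul, abs_of_pos (tt_pos p), abs_of_pos (be_pos p)]
      exact mul_le_mul_of_nonneg_left (walk1_tt_le_be p) (abs_nonneg _)
    have b3 : x ^ 2 ≤ ((|ξ| + 1) / 2 ^ p) ^ 2 := by
      rw [← sq_abs]
      exact pow_le_pow_left₀ (abs_nonneg _) b2 2
    have b4 : ((|ξ| + 1) / 2 ^ p) ^ 2 = (|ξ| + 1) ^ 2 / 4 ^ p := by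
      rw [div_pow, ← pow_mul, mul_comm p 2, pow_mul]
      norm_num
    rw [b4] at b3
    rw [mul_div_assoc]
    exact mul_le_mul_of_nonneg_left b3 (sq_nonneg Real.pi)
  rw [h3]
  refine h4.trans ?_
  rw [h5]
  linarith

end Pool.Agent.Fug
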