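import Pool.Agent.Fug.TrigC

set_option autoImplicit false

open MeasureTheory Filter Topology Finset

namespace Pool.Agent.Fug

/-- expectation of `F` over the first `2G+1` digits. -/
noncomputable def Ex (ξ : ℝ) (G : ℕ) (F : Finset ℕ → ℝ) : ℝ :=
  ∑ S ∈ (range (2 * G + 1)).powerset, Pr ξ G S * F S

lemma walk2_Gam_nonneg (g : ℕ) (a : ℝ) : 0 ≤ Gam g a := by
  unfold Gam; positivity

/-- module WALK2a -/
theorem Pr_nonneg (ξ : ℝ) (G : ℕ) (S : Finset ℕ) : 0 ≤ Pr ξ G S := by
  unfold Pr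
  exact mul_nonneg (sq_nonneg _) (prod_nonneg fun g _ => walk2_Gam_nonneg g _)

/-- `Pr` as a function of the frequency. -/
noncomputable def walk2_P (G : ℕ) (a : ℝ) : ℝ :=
  Real.cos (Real.pi * (a / 2)) ^ 2 * ∏ g ∈ range G, Gam g a

lemma walk2_Pr (ξ : ℝ) (G : ℕ) (S : Finset ℕ) : Pr ξ G S = walk2_P G (ξ + lam S) := rfl

lemma walk2_P_add (G j : ℕ) (hj : 2 * G + 1 ≤ j) (a : ℝ) :
    walk2_P G (a + 2 ^ v j) = walk2_P G a := by
  unfold walk2_P
  rw [cos_add_pow j (by omega)]
  congr 1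
  refine prod_congr rfl fun g hg => ?_
  rw [mem_range] at hg
  exact Gam_add_pow g j (by omega) a

lemma walk2_P_succ (G : ℕ) (a : ℝ) : walk2_P (G + 1) a = walk2_P G a * Gam G a := by
  unfold walk2_P
  rw [prod_range_succ, mul_assoc]

lemma walk2_lam_insert {S : Finset ℕ} {j : ℕ} (h : j ∉ S) :
    lam (insert j S) = lam S + 2 ^ v j := by
  unfold lam
  rw [sum_insert h, add_comm]

/-- module WALK2b: one step of the digit walk -/
theorem Ex_succ (ξ : ℝ) (G : ℕ) (F : Finset ℕ → ℝ) :
    Ex ξ (G + 1) F = ∑ R ∈ (range (2 * G + 1)).powerset, Pr ξ G R *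
      (Gam G (ξ + lam R) * F R
        + Gam G (ξ + lam R + 2 ^ v (2 * G + 1)) * F (insert (2 * G + 1) R)
        + Gam G (ξ + lam R + 2 ^ v (2 * G + 2)) * F (insert (2 * G + 2) R)
        + Gam G (ξ + lam R + 2 ^ v (2 * G + 1) + 2 ^ v (2 * G + 2))
          * F (insert (2 * G + 2) (insert (2 * G + 1) R))) := by
  unfold Ex
  have h1 : range (2 * (G + 1) + 1) =
      insert (2 * G + 2) (insert (2 * G + 1) (range (2 * G + 1))) := by
    ext i
    simp only [mem_range, mem_insert]
    omega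
  have h2 : 2 * G + 2 ∉ insert (2 * G + 1) (range (2 * G + 1)) := by
    simp only [mem_range, mem_insert]
    omega
  have h3 : 2 * G + 1 ∉ range (2 * G + 1) := by simp
  rw [h1, sum_powerset_insert h2, sum_powerset_insert h3, sum_powerset_insert h3,
    ← sum_add_distrib, ← sum_add_distrib, ← sum_add_distrib]
  refine sum_congr rfl fun R hR => ?_
  rw [mem_powerset] at hR
  have hR1 : 2 * G + 1 ∉ R := fun h => h3 (hR h)
  have hR2 : 2 * G + 2 ∉ R := fun h => by have := mem_range.mp (hR h); omega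
  have hR3 : 2 * G + 2 ∉ insert (2 * G + 1) R := by
    rw [mem_insert]
    rintro (h | h)
    · omega
    · exact hR2 h
  simp only [walk2_Pr, walk2_lam_insert hR1, walk2_lam_insert hR2, walk2_lam_insert hR3,
    walk2_P_succ, ← add_assoc]
  rw [walk2_P_add G (2 * G + 1) le_rfl, walk2_P_add G (2 * G + 2) (by omega),
    walk2_P_add G (2 * G + 2) (by omega), walk2_P_add G (2 * G + 1) le_rfl]
  ring

/-- module WALK2c -/
theorem Ex_one (ξ : ℝ) (G : ℕ) : Ex ξ G (fun _ => 1) = 1 := by
  induction G with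
  | zero =>
    unfold Ex
    have h1 : (range (2 * 0 + 1)).powerset = {∅, {0}} := by decide
    rw [h1, sum_pair (by decide)]
    unfold Pr lam
    simp only [range_zero, prod_empty, mul_one, sum_empty, add_zero, sum_singleton, v_zero, pow_zero]
    have h2 : Real.pi * ((ξ + 1) / 2) = Real.pi * (ξ / 2) + Real.pi / 2 := by ring
    rw [h2, Real.cos_add_pi_div_two, neg_sq, Real.cos_sq_add_sin_sq]
  | succ G ih =>
    rw [Ex_succ]
    refine Eq.trans ?_ ih
    unfold Ex
    refine sum_congr rfl fun R _ => ?_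
    simp only [mul_one]
    rw [Gam_sum_four, mul_one]

/-- module WALK2d: consistency -/
theorem Ex_mem_succ (ξ : ℝ) (G j : ℕ) (hj : j < 2 * G + 1) :
    Ex ξ (G + 1) (fun S => if j ∈ S then 1 else 0) = Ex ξ G (fun S => if j ∈ S then 1 else 0) := by
  rw [Ex_succ]
  unfold Ex
  refine sum_congr rfl fun R _ => ?_
  have h1 : ∀ S : Finset ℕ, (j ∈ insert (2 * G + 1) S ↔ j ∈ S) := by
    intro S
    rw [mem_insert]
    constructor
    · rintro (h | h)
      · omega
      · exact h
    · exact Or.inr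
  have h2 : ∀ S : Finset ℕ, (j ∈ insert (2 * G + 2) S ↔ j ∈ S) := by
    intro S
    rw [mem_insert]
    constructor
    · rintro (h | h)
      · omega
      · exact h
    · exact Or.inr
  simp only [h1, h2]
  rw [← add_mul, ← add_mul, ← add_mul, Gam_sum_four, one_mul]

end Pool.Agent.Fug
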