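import Pool.Agent.Fug.Walk1
import Pool.Agent.Fug.Walk2

set_option autoImplicit false

open MeasureTheory Filter Topology Finset

namespace Pool.Agent.Fug

/-- module WALK3a: the two new digits -/
theorem Ex_new_digits (ξ : ℝ) (G : ℕ) :
    Ex ξ (G + 1) (fun S => if 2 * G + 1 ∈ S then 1 else 0)
      + Ex ξ (G + 1) (fun S => if 2 * G + 2 ∈ S then 1 else 0) ≤
      4 * Real.sin (Real.pi / N) ^ 2 * Ex ξ G (fun S => if G / m ∈ S then 1 else 0)
        + 4 * (Real.pi ^ 2 * (|ξ| + 1) ^ 2 / 4 ^ (G / m))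
        + 3 * (Real.pi ^ 2 * (|ξ| + 1) ^ 2 / 4 ^ (2 * G + 1)) := by
  set c := Real.pi ^ 2 * (|ξ| + 1) ^ 2 with hc
  have hc0 : 0 ≤ c := by positivity
  have h1 := Ex_one ξ G
  have hrhs : 4 * Real.sin (Real.pi / N) ^ 2 * Ex ξ G (fun S => if G / m ∈ S then 1 else 0)
        + 4 * (c / 4 ^ (G / m)) + 3 * (c / 4 ^ (2 * G + 1)) =
      ∑ R ∈ (range (2 * G + 1)).powerset, Pr ξ G R *
        (4 * (if G / m ∈ R then Real.sin (Real.pi / N) ^ 2 else 0) + 4 * (c / 4 ^ (G / m))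
          + 3 * (c / 4 ^ (2 * G + 1))) := by
    have e1 : ∀ R, Pr ξ G R *
        (4 * (if G / m ∈ R then Real.sin (Real.pi / N) ^ 2 else 0) + 4 * (c / 4 ^ (G / m))
          + 3 * (c / 4 ^ (2 * G + 1))) =
        4 * Real.sin (Real.pi / N) ^ 2 * (Pr ξ G R * (if G / m ∈ R then 1 else 0)) +
        (4 * (c / 4 ^ (G / m)) + 3 * (c / 4 ^ (2 * G + 1))) * (Pr ξ G R * 1) := by
      intro R
      split_ifs <;> ring
    rw [sum_congr rfl fun R _ => e1 R, sum_add_distrib, ← mul_sum, ← mul_sum]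
    unfold Ex at h1 ⊢
    rw [h1]
    ring
  rw [hrhs, Ex_succ, Ex_succ, ← sum_add_distrib]
  refine sum_le_sum fun R hR => ?_
  rw [mem_powerset] at hR
  have hR1 : 2 * G + 1 ∉ R := fun h => by have := mem_range.mp (hR h); omega
  have hR2 : 2 * G + 2 ∉ R := fun h => by have := mem_range.mp (hR h); omega
  have hR' : R ⊆ range (2 * G + 2) := hR.trans (range_subset_range.mpr (by omega))
  have hR'' : insert (2 * G + 1) R ⊆ range (2 * G + 2) := by
    intro i hi
    rw [mem_insert] at hi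
    rcases hi with hi | hi
    · rw [hi, mem_range]; omega
    · exact hR' hi
  have hne : 2 * G + 1 ≠ 2 * G + 2 := by omega
  have hne' : 2 * G + 2 ≠ 2 * G + 1 := by omega
  simp only [mem_insert, hR1, hR2, or_false, or_true, if_true, if_false,
    mul_zero, mul_one, zero_add, add_zero, hne, hne']
  rw [← mul_add]
  refine mul_le_mul_of_nonneg_left ?_ (Pr_nonneg ξ G R)
  have g1 := Gam_one_le G (ξ + lam R)
  have g2 := Gam_two_le G (ξ + lam R)
  have t1 := sin_sq_tt_le ξ (2 * G + 1) (G / m) (parent_lt G) R hR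
  have t2 := sin_sq_be_le ξ (2 * G + 1) R hR
  have t3 := sin_sq_be_le ξ (2 * G + 2) R hR'
  have t4 := sin_sq_be_le ξ (2 * G + 2) _ hR''
  rw [walk2_lam_insert hR1, ← add_assoc] at t4
  have t5 : c / 4 ^ (2 * G + 2) ≤ c / 4 ^ (2 * G + 1) := by
    apply div_le_div_of_nonneg_left hc0 (by positivity)
    exact pow_le_pow_right₀ (by norm_num) (by omega)
  rw [← hc] at t1 t2 t3 t4
  linarith

end Pool.Agent.Fug
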