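import Pool.Agent.Fug.Walk3a

set_option autoImplicit false

open MeasureTheory Filter Topology Finset

namespace Pool.Agent.Fug

lemma walk3b_add (ξ : ℝ) (G j n : ℕ) (hj : j < 2 * G + 1) :
    Ex ξ (G + n) (fun S => if j ∈ S then 1 else 0) = Ex ξ G (fun S => if j ∈ S then 1 else 0) := by
  induction n with
  | zero => rfl
  | succ n ih => rw [← add_assoc, Ex_mem_succ ξ (G + n) j (by omega), ih]

/-- probability that the digit `j` is one -/
noncomputable def walk3b_p (ξ : ℝ) (j : ℕ) : ℝ := Ex ξ j (fun S => if j ∈ S then 1 else 0)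

lemma walk3b_eq (ξ : ℝ) (G j : ℕ) (hj : j < 2 * G + 1) :
    Ex ξ G (fun S => if j ∈ S then 1 else 0) = walk3b_p ξ j := by
  unfold walk3b_p
  rw [← walk3b_add ξ G j j hj, ← walk3b_add ξ j j G (by omega), add_comm]

lemma walk3b_nonneg (ξ : ℝ) (j : ℕ) : 0 ≤ walk3b_p ξ j := by
  unfold walk3b_p Ex
  refine sum_nonneg fun S _ => mul_nonneg (Pr_nonneg _ _ _) ?_
  dsimp only
  split_ifs <;> norm_num

lemma walk3b_le_one (ξ : ℝ) (j : ℕ) : walk3b_p ξ j ≤ 1 := by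
  rw [← Ex_one ξ j]
  unfold walk3b_p Ex
  refine sum_le_sum fun S _ => mul_le_mul_of_nonneg_left ?_ (Pr_nonneg _ _ _)
  dsimp only
  split_ifs <;> norm_num

lemma walk3b_fiber (f : ℕ → ℝ) (hf : ∀ p, 0 ≤ f p) (k : ℕ) (hk : 0 < k) (G : ℕ) :
    ∑ g ∈ range G, f (g / k) ≤ k * ∑ p ∈ range G, f p := by
  have hmaps : ∀ g ∈ range G, g / k ∈ range G := by
    intro g hg
    rw [mem_range] at hg ⊢
    exact lt_of_le_of_lt (Nat.div_le_self g k) hg
  rw [← sum_fiberwise_of_maps_to hmaps, mul_sum]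
  refine sum_le_sum fun p _ => ?_
  have h1 : ∑ g ∈ (range G).filter (fun g => g / k = p), f (g / k) =
      ((range G).filter (fun g => g / k = p)).card * f p := by
    rw [sum_congr rfl fun g hg => by rw [(mem_filter.mp hg).2], sum_const, nsmul_eq_mul]
  rw [h1]
  refine mul_le_mul_of_nonneg_right ?_ (hf p)
  have h2 : (range G).filter (fun g => g / k = p) ⊆ Ico (p * k) (p * k + k) := by
    intro g hg
    rw [mem_filter] at hg
    rw [mem_Ico]
    have := Nat.div_add_mod g k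
    have h3 := Nat.mod_lt g hk
    rw [hg.2, mul_comm] at this
    omega
  have h3 := card_le_card h2
  rw [Nat.card_Ico, Nat.add_sub_cancel_left] at h3
  exact_mod_cast h3

lemma walk3b_sum (ξ : ℝ) (G : ℕ) : ∑ j ∈ range (2 * G + 1), walk3b_p ξ j =
    walk3b_p ξ 0 + ∑ g ∈ range G, (walk3b_p ξ (2 * g + 1) + walk3b_p ξ (2 * g + 2)) := by
  induction G with
  | zero => simp
  | succ G ih =>
    rw [show 2 * (G + 1) + 1 = (2 * G + 1) + 1 + 1 by ring, sum_range_succ, sum_range_succ, ih,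
      sum_range_succ]
    ring

lemma walk3b_geom (r : ℝ) (h0 : 0 ≤ r) (h1 : r < 1) (G : ℕ) :
    ∑ g ∈ range G, r ^ g ≤ (1 - r)⁻¹ := by
  rw [← tsum_geometric_of_lt_one h0 h1]
  exact (summable_geometric_of_lt_one h0 h1).sum_le_tsum _ fun g _ => pow_nonneg h0 g

lemma walk3b_sin : 4 * Real.sin (Real.pi / N) ^ 2 * (m : ℝ) ≤ 5 / 8 := by
  have h1 : Real.sin (Real.pi / N) ^ 2 ≤ (Real.pi / N) ^ 2 :=
    sq_le_sq.mpr Real.abs_sin_le_abs
  have h2 : (0 : ℝ) ≤ m := Nat.cast_nonneg _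
  have h3 : 4 * Real.sin (Real.pi / N) ^ 2 * (m : ℝ) ≤ 4 * (Real.pi / N) ^ 2 * m := by gcongr
  refine h3.trans ?_
  have h4 : 4 * (Real.pi / (N : ℝ)) ^ 2 * (m : ℝ) = Real.pi ^ 2 / 16 := by
    unfold N m
    push_cast
    ring
  rw [h4]
  have h5 := Real.pi_lt_d2
  have h6 := Real.pi_pos
  nlinarith

/-- module WALK3b: the expected number of ones is bounded -/
theorem Ex_ones_bdd (ξ : ℝ) :
    ∃ B : ℝ, ∀ G, ∑ j ∈ range (2 * G + 1), Ex ξ G (fun S => if j ∈ S then 1 else 0) ≤ B := by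
  set c := Real.pi ^ 2 * (|ξ| + 1) ^ 2 with hc
  have hc0 : 0 ≤ c := by positivity
  refine ⟨(8 / 3) * (1 + 4 * c * (m * (1 - 1 / 4)⁻¹) + 3 * c * (1 - 1 / 4)⁻¹), fun G => ?_⟩
  rw [sum_congr rfl fun j hj => walk3b_eq ξ G j (mem_range.mp hj)]
  have hm : (0 : ℝ) ≤ m := Nat.cast_nonneg _
  -- the step inequality
  have hstep : ∀ g, walk3b_p ξ (2 * g + 1) + walk3b_p ξ (2 * g + 2) ≤
      4 * Real.sin (Real.pi / N) ^ 2 * walk3b_p ξ (g / m) + 4 * c * (1 / 4) ^ (g / m)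
        + 3 * c * (1 / 4) ^ g := by
    intro g
    have h := Ex_new_digits ξ g
    rw [walk3b_eq ξ (g + 1) (2 * g + 1) (by omega), walk3b_eq ξ (g + 1) (2 * g + 2) (by omega),
      walk3b_eq ξ g (g / m) (parent_lt g), ← hc] at h
    have h2 : c / 4 ^ (2 * g + 1) ≤ c * (1 / 4) ^ g := by
      rw [one_div, inv_pow, ← div_eq_mul_inv]
      apply div_le_div_of_nonneg_left hc0 (by positivity)
      exact pow_le_pow_right₀ (by norm_num) (by omega)
    have h3 : c / 4 ^ (g / m) = c * (1 / 4) ^ (g / m) := by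
      rw [one_div, inv_pow, ← div_eq_mul_inv]
    rw [h3] at h
    linarith
  have h1 : ∑ g ∈ range G, (walk3b_p ξ (2 * g + 1) + walk3b_p ξ (2 * g + 2)) ≤
      4 * Real.sin (Real.pi / N) ^ 2 * (m * ∑ p ∈ range G, walk3b_p ξ p)
      + 4 * c * (m * (1 - 1 / 4)⁻¹) + 3 * c * (1 - 1 / 4)⁻¹ := by
    refine (sum_le_sum fun g _ => hstep g).trans ?_
    rw [sum_add_distrib, sum_add_distrib, ← mul_sum, ← mul_sum, ← mul_sum]
    have a1 := walk3b_fiber (walk3b_p ξ) (walk3b_nonneg ξ) m m_pos G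
    have a2 := walk3b_fiber (fun p => (1 / 4 : ℝ) ^ p) (fun p => by positivity) m m_pos G
    have a3 := walk3b_geom (1 / 4) (by norm_num) (by norm_num) G
    have a4 : ∑ g ∈ range G, (1 / 4 : ℝ) ^ (g / m) ≤ m * (1 - 1 / 4)⁻¹ :=
      a2.trans (mul_le_mul_of_nonneg_left a3 hm)
    gcongr
  have h2 : ∑ p ∈ range G, walk3b_p ξ p ≤ ∑ j ∈ range (2 * G + 1), walk3b_p ξ j :=
    sum_le_sum_of_subset_of_nonneg (range_subset_range.mpr (by omega))
      fun j _ _ => walk3b_nonneg ξ j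
  have h0 : 0 ≤ ∑ p ∈ range G, walk3b_p ξ p := sum_nonneg fun j _ => walk3b_nonneg ξ j
  have h3 := walk3b_sum ξ G
  have h4 := walk3b_le_one ξ 0
  set O := ∑ j ∈ range (2 * G + 1), walk3b_p ξ j with hO
  have h5 : 4 * Real.sin (Real.pi / N) ^ 2 * (m * ∑ p ∈ range G, walk3b_p ξ p) ≤ 5 / 8 * O := by
    have := walk3b_sin
    calc 4 * Real.sin (Real.pi / N) ^ 2 * (m * ∑ p ∈ range G, walk3b_p ξ p)
        = (4 * Real.sin (Real.pi / N) ^ 2 * m) * ∑ p ∈ range G, walk3b_p ξ p := by ring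
      _ ≤ 5 / 8 * ∑ p ∈ range G, walk3b_p ξ p := mul_le_mul_of_nonneg_right this h0
      _ ≤ 5 / 8 * O := by linarith
  linarith

end Pool.Agent.Fug
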